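import Pool.Agent.AAP.Red
import Pool.Agent.HFW.PreT

set_option autoImplicit false

/-!
# The bad primes of a rational map are finite in number
-/

namespace Pool.Agent.AAP

open NumberField IsDedekindDomain
open scoped WithZero
open Pool.Agent.PNH (Tup app mp IsMor Cert)

section Bad

variable {K : Type} [Field K] [NumberField K]

omit [NumberField K] in
theorem exists_cert1 {d : ℕ} {F : Tup 1 K} (hF : IsMor d K F) : ∃ e : ℕ, Cert F 1 e := by
  obtain ⟨c, e, hc, h⟩ := HFW.PreTA.cert_field F hF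
  refine ⟨e, fun j => ?_⟩
  obtain ⟨G, hG⟩ := h j
  refine ⟨fun i => MvPolynomial.C c⁻¹ * G i, ?_⟩
  calc ∑ i, MvPolynomial.C c⁻¹ * G i * F i = MvPolynomial.C c⁻¹ * ∑ i, G i * F i := by
        rw [Finset.mul_sum]
        exact Finset.sum_congr rfl fun i _ => mul_assoc _ _ _
    _ = MvPolynomial.C 1 * MvPolynomial.X j ^ e := by
        rw [hG, ← mul_assoc, ← map_mul, inv_mul_cancel₀ hc]

theorem finite_intT (F : Tup 1 K) :
    {v : HeightOneSpectrum (𝓞 K) | ¬ IntT (v.valuation K) F}.Finite := by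
  classical
  have h : {v : HeightOneSpectrum (𝓞 K) | ¬ IntT (v.valuation K) F} ⊆
      ⋃ i : Fin (1 + 1), ⋃ m ∈ (F i).support,
        {v : HeightOneSpectrum (𝓞 K) | ¬ v.valuation K ((F i).coeff m) ≤ 1} := by
    intro v hv
    by_contra hcon
    apply hv
    intro i m
    by_contra h1
    apply hcon
    rw [Set.mem_iUnion]
    refine ⟨i, ?_⟩
    rw [Set.mem_iUnion₂]
    refine ⟨m, ?_, h1⟩
    rw [MvPolynomial.mem_support_iff]
    intro h0
    rw [h0, map_zero] at h1
    exact h1 zero_le_one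
  refine Set.Finite.subset ?_ h
  exact Set.finite_iUnion fun i => Set.Finite.biUnion (Finset.finite_toSet _) fun m _ =>
    TameArb.finite_gt _

theorem finite_bad {d : ℕ} {F : Tup 1 K} (hF : IsMor d K F) :
    {v : HeightOneSpectrum (𝓞 K) | ¬ Good (v.valuation K) F}.Finite := by
  classical
  obtain ⟨e, he⟩ := exists_cert1 hF
  choose G hG using he
  refine ((finite_intT F).union (Set.finite_iUnion fun j : Fin (1 + 1) =>
    finite_intT (G j))).subset ?_
  intro v hv
  by_contra hcon
  rw [Set.mem_union, Set.mem_iUnion, not_or, not_exists] at hcon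
  obtain ⟨h1, h2⟩ := hcon
  refine hv ⟨not_not.1 h1, e, fun j => ⟨G j, not_not.1 (h2 j), ?_⟩⟩
  rw [hG j, map_one, one_mul]

theorem finite_ne_one {a : K} (ha : a ≠ 0) :
    {v : HeightOneSpectrum (𝓞 K) | v.valuation K a ≠ 1}.Finite := by
  refine ((TameArb.finite_gt a).union (TameArb.finite_lt a ha)).subset ?_
  intro v hv
  rcases lt_or_gt_of_ne hv with h | h
  · exact Or.inr h
  · exact Or.inl (not_le.2 h)

theorem finite_nv {x : Fin 2 → K} (hx : x ≠ 0) :
    {v : HeightOneSpectrum (𝓞 K) | nv (v.valuation K) x ≠ 1}.Finite := by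
  obtain ⟨i, hi⟩ : ∃ i, x i ≠ 0 := by
    by_contra h0
    push Not at h0
    exact hx (funext h0)
  refine (((finite_ne_one hi).union (TameArb.finite_gt (x 0))).union
    (TameArb.finite_gt (x 1))).subset ?_
  intro v hv
  by_contra hcon
  rw [Set.mem_union, Set.mem_union, not_or, not_or] at hcon
  obtain ⟨⟨h1, h2⟩, h3⟩ := hcon
  apply hv
  refine le_antisymm (max_le (not_not.1 h2) (not_not.1 h3)) ?_
  have h4 : v.valuation K (x i) = 1 := not_not.1 h1
  rw [← h4]
  exact le_nv x i

theorem finite_cg {x y : Fin 2 → K} (h : wd x y ≠ 0) :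
    {v : HeightOneSpectrum (𝓞 K) | Cg (v.valuation K) x y}.Finite := by
  have hx : x ≠ 0 := by
    rintro rfl
    exact h (by simp [wd])
  have hy : y ≠ 0 := by
    rintro rfl
    exact h (by simp [wd])
  refine (((finite_nv hx).union (finite_nv hy)).union (finite_ne_one h)).subset ?_
  intro v hv
  by_contra hcon
  rw [Set.mem_union, Set.mem_union, not_or, not_or] at hcon
  obtain ⟨⟨h1, h2⟩, h3⟩ := hcon
  have hv' : v.valuation K (wd x y) < nv (v.valuation K) x * nv (v.valuation K) y := hv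
  have e1 : nv (v.valuation K) x = 1 := not_not.1 h1
  have e2 : nv (v.valuation K) y = 1 := not_not.1 h2
  have e3 : v.valuation K (wd x y) = 1 := not_not.1 h3
  rw [e1, e2, e3, one_mul] at hv'
  exact lt_irrefl _ hv'

end Bad

end Pool.Agent.AAP
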