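import Mathlib
import Pool.Agent.PNH.Defs
import Pool.Agent.TameArb.Down

set_option autoImplicit false

/-!
# Rational maps of the projective line modulo primes: definitions
-/

namespace Pool.Agent.AAP

open NumberField IsDedekindDomain
open scoped WithZero
open Pool.Agent.PNH (Tup app mp IsMor Cert)
open Pool.Agent.TameArb (PosDens pt)

/-- The determinant of two vectors; it is zero if and only if they are proportional. -/
def wd {A : Type} [CommRing A] (x y : Fin 2 → A) : A := x 0 * y 1 - x 1 * y 0

/-- `x` represents a periodic point of `F`. -/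
def Periodic {k : Type} [Field k] (F : Tup 1 k) (x : Fin 2 → k) : Prop :=
  ∃ n : ℕ, 0 < n ∧ wd ((app F)^[n] x) x = 0

section Val

variable {k : Type} [Field k] (v : Valuation k ℤᵐ⁰)

/-- The size of a vector. -/
def nv (x : Fin 2 → k) : ℤᵐ⁰ := max (v (x 0)) (v (x 1))

/-- The points given by the nonzero vectors `x` and `y` coincide modulo `v`. -/
def Cg (x y : Fin 2 → k) : Prop := v (wd x y) < nv v x * nv v y

/-- `x` is periodic modulo `v`. -/
def PerMod (F : Tup 1 k) (x : Fin 2 → k) : Prop :=
  ∃ n : ℕ, 0 < n ∧ Cg v ((app F)^[n] x) x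

/-- All coefficients are integral at `v`. -/
def IntT (F : Tup 1 k) : Prop := ∀ i m, v ((F i).coeff m) ≤ 1

/-- `F` has good reduction at `v`: the coefficients of `F` are integral at `v`, and powers of the
variables are combinations of the `F_i` with `v`-integral coefficients. -/
def Good (F : Tup 1 k) : Prop :=
  IntT v F ∧ ∃ e : ℕ, ∀ j, ∃ G : Tup 1 k, IntT v G ∧
    ∑ i, G i * F i = MvPolynomial.X j ^ e

end Val

/-- The good primes modulo which no point of `Γ` is periodic. -/
def SP {K : Type} [Field K] [NumberField K] (F : Tup 1 K) (Γ : Finset (Fin 2 → K)) :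
    Set (HeightOneSpectrum (𝓞 K)) :=
  {v | Good (v.valuation K) F ∧ ∀ x ∈ Γ, ¬ PerMod (v.valuation K) F x}

/-- The vector of algebraic integers with coordinates `∑_j s_(i,j) ω_j`. -/
noncomputable def vc {K : Type} [Field K] [NumberField K] {r m R : ℕ} (ω : Fin m → 𝓞 K)
    (e : Fin R ≃ Fin r × Fin m) (s : Fin R → ℤ) : Fin r → 𝓞 K :=
  fun i => ∑ j : Fin m, s (e.symm (i, j)) • ω j

/-- The form with coefficients `a`, of degree `d`. -/
noncomputable def fm {k : Type} [CommRing k] {d : ℕ} (a : Fin (d + 1) → k) :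
    MvPolynomial (Fin 2) k :=
  ∑ i : Fin (d + 1), MvPolynomial.C (a i) * MvPolynomial.X 0 ^ (i : ℕ) *
    MvPolynomial.X 1 ^ (d - (i : ℕ))

/-- The pair of forms with coefficients `t`. -/
noncomputable def tp {k : Type} [CommRing k] {d : ℕ} (t : Fin (2 * (d + 1)) → k) : Tup 1 k :=
  fun i => fm fun j => t (finProdFinEquiv (i, j))

/-- `a` gives a form of degree `d` without nontrivial zero over `k`. -/
def Free {k : Type} [Field k] {d : ℕ} (a : Fin (d + 1) → k) : Prop :=
  ∀ z : Fin 2 → k, z ≠ 0 → MvPolynomial.eval z (fm a) ≠ 0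

end Pool.Agent.AAP
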