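import Mathlib
import Pool.Agent.AAP.Defs

set_option autoImplicit false

/-!
# Critical cycles modulo primes: definitions
-/

namespace Pool.Agent.AAP

open Polynomial
open scoped WithZero
open Pool.Agent.PNH (Tup app mp)

/-- The `N`-th iterate near `y`: `F^N(y + X u)`. -/
noncomputable def near {A : Type} [CommRing A] (F : Tup 1 A) (N : ℕ) (y u : Fin 2 → A) :
    Fin 2 → A[X] :=
  (app (mp Polynomial.C F))^[N] (fun i => C (y i) + X * C (u i))

/-- The `N`-th iterate fixes the point `x` modulo `v`, with local degree `e`. -/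
def SAt {k : Type} [Field k] (v : Valuation k ℤᵐ⁰) (F : Tup 1 k) (x : Fin 2 → k) (N e : ℕ) :
    Prop :=
  ∃ y u : Fin 2 → k, wd x y = 0 ∧ nv v y = 1 ∧ nv v u ≤ 1 ∧ v (wd y u) = 1 ∧
    (∀ j < e, v ((wd (near F N y u) fun i => C (y i)).coeff j) < 1) ∧
    v ((wd (near F N y u) fun i => C (y i)).coeff e) = 1

/-- The forms `(X^2 - Y^2)(X - Y)^(d-2)` and `X^(d-2) Y^2`. -/
noncomputable def ex3 (A : Type) [CommRing A] (d : ℕ) : Tup 1 A :=
  ![(MvPolynomial.X 0 ^ 2 - MvPolynomial.X 1 ^ 2) *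
      (MvPolynomial.X 0 - MvPolynomial.X 1) ^ (d - 2),
    MvPolynomial.X 0 ^ (d - 2) * MvPolynomial.X 1 ^ 2]

end Pool.Agent.AAP
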