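import Mathlib
import Pool.Agent.AAP.Defs

set_option autoImplicit false

/-!
# The projective line modulo a valuation
-/

namespace Pool.Agent.AAP

open scoped WithZero
open Pool.Agent.PNH (Tup app mp IsMor Cert)

section Red

variable {k : Type} [Field k] {v : Valuation k ℤᵐ⁰}

theorem nv_eq_zero {x : Fin 2 → k} : nv v x = 0 ↔ x = 0 := by
  constructor
  · intro h
    have h0 : v (x 0) = 0 := le_antisymm ((le_max_left _ _).trans h.le) zero_le
    have h1 : v (x 1) = 0 := le_antisymm ((le_max_right _ _).trans h.le) zero_le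
    rw [map_eq_zero] at h0 h1
    funext i
    fin_cases i
    · exact h0
    · exact h1
  · rintro rfl
    simp [nv]

theorem nv_pos {x : Fin 2 → k} (hx : x ≠ 0) : 0 < nv v x :=
  zero_lt_iff.mpr fun h => hx (nv_eq_zero.mp h)

theorem le_nv (x : Fin 2 → k) (i : Fin 2) : v (x i) ≤ nv v x := by
  fin_cases i
  · exact le_max_left _ _
  · exact le_max_right _ _

theorem exists_nv (v : Valuation k ℤᵐ⁰) (x : Fin 2 → k) : ∃ i, v (x i) = nv v x := by
  rcases max_choice (v (x 0)) (v (x 1)) with h | h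
  · exact ⟨0, h.symm⟩
  · exact ⟨1, h.symm⟩

theorem nv_smul (c : k) (x : Fin 2 → k) : nv v (c • x) = v c * nv v x := by
  unfold nv
  simp only [Pi.smul_apply, smul_eq_mul, map_mul]
  exact (mul_max _ _ _).symm

theorem wd_smul_left {A : Type} [CommRing A] (c : A) (x y : Fin 2 → A) :
    wd (c • x) y = c * wd x y := by
  unfold wd
  simp only [Pi.smul_apply, smul_eq_mul]
  ring

theorem wd_smul_right {A : Type} [CommRing A] (c : A) (x y : Fin 2 → A) :
    wd x (c • y) = c * wd x y := by
  unfold wd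
  simp only [Pi.smul_apply, smul_eq_mul]
  ring

theorem wd_swap {A : Type} [CommRing A] (x y : Fin 2 → A) : wd y x = -wd x y := by
  unfold wd
  ring

theorem wd_self {A : Type} [CommRing A] (x : Fin 2 → A) : wd x x = 0 := by
  unfold wd
  ring

theorem wd_map {A B : Type} [CommRing A] [CommRing B] (f : A →+* B) (x y : Fin 2 → A) :
    wd (fun i => f (x i)) (fun i => f (y i)) = f (wd x y) := by
  unfold wd
  rw [map_sub, map_mul, map_mul]

theorem wd_le (x y : Fin 2 → k) : v (wd x y) ≤ nv v x * nv v y := by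
  unfold wd
  refine v.map_sub_le ?_ ?_
  · rw [map_mul]
    exact mul_le_mul' (le_nv x 0) (le_nv y 1)
  · rw [map_mul]
    exact mul_le_mul' (le_nv x 1) (le_nv y 0)

theorem Cg.ne {x y : Fin 2 → k} (h : Cg v x y) : x ≠ 0 ∧ y ≠ 0 := by
  unfold Cg at h
  constructor
  · rintro rfl
    rw [nv_eq_zero.mpr rfl, zero_mul] at h
    exact absurd h not_lt_zero
  · rintro rfl
    rw [nv_eq_zero.mpr rfl, mul_zero] at h
    exact absurd h not_lt_zero

theorem Cg.of_wd {x y : Fin 2 → k} (hx : x ≠ 0) (hy : y ≠ 0) (h : wd x y = 0) : Cg v x y := by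
  unfold Cg
  rw [h, map_zero]
  exact mul_pos (nv_pos hx) (nv_pos hy)

theorem Cg.refl {x : Fin 2 → k} (hx : x ≠ 0) : Cg v x x := Cg.of_wd hx hx (wd_self x)

theorem Cg.symm {x y : Fin 2 → k} (h : Cg v x y) : Cg v y x := by
  unfold Cg at h ⊢
  rw [wd_swap, Valuation.map_neg, mul_comm]
  exact h

theorem wd_id (x y z : Fin 2 → k) (i : Fin 2) : y i * wd x z = x i * wd y z + z i * wd x y := by
  unfold wd
  fin_cases i
  · simp only [Fin.zero_eta, Fin.isValue]
    ring
  · simp only [Fin.mk_one, Fin.isValue]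
    ring

theorem Cg.trans {x y z : Fin 2 → k} (h : Cg v x y) (h' : Cg v y z) : Cg v x z := by
  have hx := h.ne.1
  have hy := h.ne.2
  have hz := h'.ne.2
  unfold Cg at h h' ⊢
  obtain ⟨i, hi⟩ := exists_nv v y
  have h1 : v (y i * wd x z) < nv v y * (nv v x * nv v z) := by
    rw [wd_id x y z i]
    refine Valuation.map_add_lt _ ?_ ?_
    · rw [map_mul]
      calc v (x i) * v (wd y z) ≤ nv v x * v (wd y z) := mul_le_mul_left (le_nv x i) _
        _ < nv v x * (nv v y * nv v z) := mul_lt_mul_of_pos_left h' (nv_pos hx)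
        _ = nv v y * (nv v x * nv v z) := by ac_rfl
    · rw [map_mul]
      calc v (z i) * v (wd x y) ≤ nv v z * v (wd x y) := mul_le_mul_left (le_nv z i) _
        _ < nv v z * (nv v x * nv v y) := mul_lt_mul_of_pos_left h (nv_pos hz)
        _ = nv v y * (nv v x * nv v z) := by ac_rfl
  rw [map_mul, hi] at h1
  exact lt_of_mul_lt_mul_left h1 zero_le

theorem cg_smul {c : k} (hc : c ≠ 0) (x y : Fin 2 → k) : Cg v (c • x) y ↔ Cg v x y := by
  unfold Cg
  have hvc : 0 < v c := zero_lt_iff.mpr ((map_ne_zero v).mpr hc)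
  rw [wd_smul_left, nv_smul, map_mul, mul_assoc]
  constructor
  · intro h
    exact lt_of_mul_lt_mul_left h zero_le
  · intro h
    exact mul_lt_mul_of_pos_left h hvc

theorem cg_smul' {c : k} (hc : c ≠ 0) (x y : Fin 2 → k) : Cg v x (c • y) ↔ Cg v x y := by
  constructor
  · intro h
    exact ((cg_smul hc y x).mp h.symm).symm
  · intro h
    exact ((cg_smul hc y x).mpr h.symm).symm

theorem exists_unitv {x : Fin 2 → k} (hx : x ≠ 0) : ∃ c : k, c ≠ 0 ∧ nv v (c • x) = 1 ∧
    ∃ i, (c • x) i = 1 := by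
  obtain ⟨i, hi⟩ := exists_nv v x
  have h1 : x i ≠ 0 := by
    intro h0
    rw [h0, map_zero] at hi
    exact hx (nv_eq_zero.mp hi.symm)
  refine ⟨(x i)⁻¹, inv_ne_zero h1, ?_, i, ?_⟩
  · rw [nv_smul, ← hi, ← map_mul, inv_mul_cancel₀ h1, map_one]
  · simp [h1]

/-- for vectors of size 1 -/
theorem cg_iff {x y : Fin 2 → k} (hx : nv v x = 1) (hy : nv v y = 1) :
    Cg v x y ↔ ∃ c : k, v c = 1 ∧ ∀ i, v (y i - c * x i) < 1 := by
  constructor
  · intro h
    unfold Cg at h
    rw [hx, hy, mul_one] at h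
    obtain ⟨i, hi⟩ := exists_nv v x
    rw [hx] at hi
    have hxi : x i ≠ 0 := by
      intro h0
      rw [h0, map_zero] at hi
      exact zero_ne_one hi
    have h2 : ∀ j, v (y j - y i / x i * x j) < 1 := by
      intro j
      have h3 : y j - y i / x i * x j = (x i * y j - y i * x j) / x i := by
        field_simp
      have h4 : v (x i * y j - y i * x j) < 1 := by
        have h5 : x i * y j - y i * x j = 0 ∨ x i * y j - y i * x j = wd x y ∨
            x i * y j - y i * x j = -wd x y := by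
          unfold wd
          fin_cases i <;> fin_cases j
          · left
            simp only [Fin.zero_eta, Fin.isValue]
            ring
          · right; left
            simp only [Fin.zero_eta, Fin.isValue, Fin.mk_one]
            ring
          · right; right
            simp only [Fin.zero_eta, Fin.isValue, Fin.mk_one]
            ring
          · left
            simp only [Fin.isValue, Fin.mk_one]
            ring
        rcases h5 with h5 | h5 | h5
        · rw [h5, map_zero]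
          exact zero_lt_one
        · rw [h5]
          exact h
        · rw [h5, Valuation.map_neg]
          exact h
      rw [h3, map_div₀, hi, div_one]
      exact h4
    refine ⟨y i / x i, ?_, h2⟩
    have hle : v (y i / x i) ≤ 1 := by
      rw [map_div₀, hi, div_one, ← hy]
      exact le_nv y i
    by_contra hne
    have hlt : v (y i / x i) < 1 := lt_of_le_of_ne hle hne
    obtain ⟨j, hj⟩ := exists_nv v y
    rw [hy] at hj
    have h6 : v (y j) < 1 := by
      have h7 : y j = (y j - y i / x i * x j) + y i / x i * x j := by ring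
      rw [h7]
      refine Valuation.map_add_lt _ (h2 j) ?_
      rw [map_mul]
      calc v (y i / x i) * v (x j) ≤ v (y i / x i) * 1 := by
            refine mul_le_mul_right ?_ _
            rw [← hx]
            exact le_nv x j
        _ < 1 := by rw [mul_one]; exact hlt
    rw [hj] at h6
    exact lt_irrefl _ h6
  · rintro ⟨c, hc, h⟩
    unfold Cg
    rw [hx, hy, mul_one]
    have h1 : wd x y = x 0 * (y 1 - c * x 1) - x 1 * (y 0 - c * x 0) := by
      unfold wd
      ring
    rw [h1]
    have h2 : ∀ i j, v (x i * (y j - c * x j)) < 1 := by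
      intro i j
      rw [map_mul]
      calc v (x i) * v (y j - c * x j) ≤ 1 * v (y j - c * x j) := by
            refine mul_le_mul_left ?_ _
            rw [← hx]
            exact le_nv x i
        _ < 1 := by rw [one_mul]; exact h j
    exact Valuation.map_sub_lt _ (h2 0 1) (h2 1 0)

/-! ### values of forms -/

theorem eval_le_one {P : MvPolynomial (Fin 2) k} (hP : ∀ m, v (P.coeff m) ≤ 1) {x : Fin 2 → k}
    (hx : ∀ i, v (x i) ≤ 1) : v (MvPolynomial.eval x P) ≤ 1 := by
  rw [MvPolynomial.eval_eq]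
  refine Valuation.map_sum_le _ fun m _ => ?_
  rw [map_mul, map_prod]
  refine mul_le_one' (hP m) ?_
  refine Finset.prod_le_one' fun i _ => ?_
  rw [map_pow]
  exact pow_le_one' (hx i) _

theorem prod_sub_lt {ι : Type} (s : Finset ι) (f g : ι → k) (hf : ∀ i ∈ s, v (f i) ≤ 1)
    (hg : ∀ i ∈ s, v (g i) ≤ 1) (h : ∀ i ∈ s, v (f i - g i) < 1) :
    v (∏ i ∈ s, f i - ∏ i ∈ s, g i) < 1 := by
  classical
  induction s using Finset.induction_on with
  | empty => simp
  | insert a s ha ih =>
    rw [Finset.prod_insert ha, Finset.prod_insert ha]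
    have h1 : f a * ∏ i ∈ s, f i - g a * ∏ i ∈ s, g i =
        (f a - g a) * ∏ i ∈ s, f i + g a * (∏ i ∈ s, f i - ∏ i ∈ s, g i) := by ring
    rw [h1]
    refine Valuation.map_add_lt _ ?_ ?_
    · rw [map_mul, map_prod, mul_comm]
      refine TameArb.mul_lt_one_aux (Finset.prod_le_one' fun i hi =>
        hf i (Finset.mem_insert_of_mem hi)) (h a (Finset.mem_insert_self a s))
    · rw [map_mul]
      exact TameArb.mul_lt_one_aux (hg a (Finset.mem_insert_self a s))
        (ih (fun i hi => hf i (Finset.mem_insert_of_mem hi))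
          (fun i hi => hg i (Finset.mem_insert_of_mem hi))
          (fun i hi => h i (Finset.mem_insert_of_mem hi)))

theorem pow_sub_lt {a b : k} (ha : v a ≤ 1) (hb : v b ≤ 1) (h : v (a - b) < 1) (n : ℕ) :
    v (a ^ n - b ^ n) < 1 := by
  have := prod_sub_lt (Finset.range n) (fun _ => a) (fun _ => b) (fun _ _ => ha) (fun _ _ => hb)
    (fun _ _ => h)
  simpa using this

/-- congruent integral vectors have congruent values -/
theorem eval_sub_lt {P : MvPolynomial (Fin 2) k} (hP : ∀ m, v (P.coeff m) ≤ 1) {x y : Fin 2 → k}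
    (hx : ∀ i, v (x i) ≤ 1) (hy : ∀ i, v (y i) ≤ 1) (h : ∀ i, v (x i - y i) < 1) :
    v (MvPolynomial.eval x P - MvPolynomial.eval y P) < 1 := by
  rw [MvPolynomial.eval_eq', MvPolynomial.eval_eq', ← Finset.sum_sub_distrib]
  refine Valuation.map_sum_lt _ one_ne_zero fun m _ => ?_
  rw [← mul_sub, map_mul]
  refine TameArb.mul_lt_one_aux (hP m) ?_
  refine prod_sub_lt _ _ _ (fun i _ => ?_) (fun i _ => ?_) (fun i _ => ?_)
  · rw [map_pow]
    exact pow_le_one' (hx i) _
  · rw [map_pow]
    exact pow_le_one' (hy i) _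
  · exact pow_sub_lt (hx i) (hy i) (h i) _

theorem app_smul {d : ℕ} {F : Tup 1 k} (hF : ∀ i, (F i).IsHomogeneous d) (c : k)
    (x : Fin 2 → k) : app F (c • x) = c ^ d • app F x := PNH.app_smul d F hF c x

theorem iter_smul {d : ℕ} {F : Tup 1 k} (hF : ∀ i, (F i).IsHomogeneous d) (n : ℕ) (c : k)
    (x : Fin 2 → k) : (app F)^[n] (c • x) = c ^ d ^ n • (app F)^[n] x :=
  PNH.iter_smul d F hF n c x

theorem good_nv_one {F : Tup 1 k} (hG : Good v F) {x : Fin 2 → k} (hx : nv v x = 1) :
    nv v (app F x) = 1 := by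
  obtain ⟨hI, e, he⟩ := hG
  have hx1 : ∀ i, v (x i) ≤ 1 := fun i => hx ▸ le_nv x i
  have hle : ∀ i, v (app F x i) ≤ 1 := fun i => eval_le_one (hI i) hx1
  refine le_antisymm (max_le (hle 0) (hle 1)) ?_
  by_contra hcon
  have hlt : nv v (app F x) < 1 := not_le.mp hcon
  obtain ⟨j, hj⟩ := exists_nv v x
  rw [hx] at hj
  obtain ⟨G, hGi, hG⟩ := he j
  have h1 := congrArg (MvPolynomial.eval x) hG
  rw [map_sum, map_pow, MvPolynomial.eval_X] at h1
  have h2 : v (x j ^ e) < 1 := by
    rw [← h1]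
    refine Valuation.map_sum_lt _ one_ne_zero fun i _ => ?_
    rw [map_mul, map_mul]
    refine TameArb.mul_lt_one_aux (eval_le_one (hGi i) hx1) ?_
    exact (le_nv (app F x) i).trans_lt hlt
  rw [map_pow, hj, one_pow] at h2
  exact lt_irrefl _ h2

theorem good_nv {d : ℕ} {F : Tup 1 k} (hF : ∀ i, (F i).IsHomogeneous d) (hG : Good v F)
    {x : Fin 2 → k} (hx : x ≠ 0) : nv v (app F x) = nv v x ^ d := by
  obtain ⟨c, hc, h1, -⟩ := exists_unitv (v := v) hx
  have h2 := good_nv_one hG h1
  rw [app_smul hF, nv_smul, map_pow] at h2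
  rw [nv_smul] at h1
  have hvc : v c ≠ 0 := (map_ne_zero v).mpr hc
  have h3 : nv v x = (v c)⁻¹ := eq_inv_of_mul_eq_one_right h1
  have h4 : nv v (app F x) = ((v c) ^ d)⁻¹ := eq_inv_of_mul_eq_one_right h2
  rw [h3, h4, inv_pow]

theorem good_ne {d : ℕ} {F : Tup 1 k} (hF : ∀ i, (F i).IsHomogeneous d) (hG : Good v F)
    {x : Fin 2 → k} (hx : x ≠ 0) : app F x ≠ 0 := by
  intro h0
  have h1 := good_nv hF hG hx
  rw [h0, nv_eq_zero.mpr rfl] at h1
  exact absurd h1 (pow_pos (nv_pos hx) d).ne

theorem good_iter_ne {d : ℕ} {F : Tup 1 k} (hF : ∀ i, (F i).IsHomogeneous d) (hG : Good v F)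
    (n : ℕ) {x : Fin 2 → k} (hx : x ≠ 0) : (app F)^[n] x ≠ 0 := by
  induction n with
  | zero => exact hx
  | succ n ih =>
    rw [Function.iterate_succ_apply']
    exact good_ne hF hG ih

theorem good_iter_nv {d : ℕ} {F : Tup 1 k} (hF : ∀ i, (F i).IsHomogeneous d) (hG : Good v F)
    (n : ℕ) {x : Fin 2 → k} (hx : x ≠ 0) : nv v ((app F)^[n] x) = nv v x ^ d ^ n := by
  induction n with
  | zero => simp
  | succ n ih =>
    rw [Function.iterate_succ_apply', good_nv hF hG (good_iter_ne hF hG n hx), ih, ← pow_mul,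
      pow_succ]

theorem good_cg_one {d : ℕ} {F : Tup 1 k} (hF : ∀ i, (F i).IsHomogeneous d) (hG : Good v F)
    {x y : Fin 2 → k} (h : Cg v x y) : Cg v (app F x) (app F y) := by
  -- reduce to vectors of size one
  obtain ⟨a, ha, hax, -⟩ := exists_unitv (v := v) h.ne.1
  obtain ⟨b, hb, hby, -⟩ := exists_unitv (v := v) h.ne.2
  have h1 : Cg v (a • x) (b • y) := (cg_smul ha _ _).mpr ((cg_smul' hb _ _).mpr h)
  have key : Cg v (app F (a • x)) (app F (b • y)) := by
    set x' := a • x with hx'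
    set y' := b • y with hy'
    have hFx := good_nv_one hG hax
    have hFy := good_nv_one hG hby
    obtain ⟨c, hc, hcc⟩ := (cg_iff hax hby).mp h1
    refine (cg_iff hFx hFy).mpr ⟨c ^ d, by rw [map_pow, hc, one_pow], fun i => ?_⟩
    have h2 : c ^ d * app F x' i = app F (c • x') i :=
      (congrFun (app_smul hF c x') i).symm
    rw [h2]
    refine eval_sub_lt (hG.1 i) (fun j => hby ▸ le_nv y' j) (fun j => ?_) (fun j => ?_)
    · simp only [Pi.smul_apply, smul_eq_mul, map_mul, hc, one_mul]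
      exact hax ▸ le_nv x' j
    · exact hcc j
  rw [app_smul hF, app_smul hF] at key
  exact (cg_smul' (pow_ne_zero _ hb) _ _).mp ((cg_smul (pow_ne_zero _ ha) _ _).mp key)

theorem good_cg {d : ℕ} {F : Tup 1 k} (hF : ∀ i, (F i).IsHomogeneous d) (hG : Good v F)
    {x y : Fin 2 → k} (h : Cg v x y) (n : ℕ) : Cg v ((app F)^[n] x) ((app F)^[n] y) := by
  induction n with
  | zero => exact h
  | succ n ih =>
    rw [Function.iterate_succ_apply', Function.iterate_succ_apply']
    exact good_cg_one hF hG ih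

/-! ### periodic points -/

theorem PerMod.ne {F : Tup 1 k} {x : Fin 2 → k} (h : PerMod v F x) : x ≠ 0 := by
  obtain ⟨n, -, h⟩ := h
  exact h.ne.2

theorem PerMod.of_cg {d : ℕ} {F : Tup 1 k} (hF : ∀ i, (F i).IsHomogeneous d) (hG : Good v F)
    {x y : Fin 2 → k} (h : Cg v x y) (hx : PerMod v F x) : PerMod v F y := by
  obtain ⟨n, hn, h1⟩ := hx
  exact ⟨n, hn, ((good_cg hF hG h n).symm.trans h1).trans h⟩

theorem PerMod.smul {d : ℕ} {F : Tup 1 k} (hF : ∀ i, (F i).IsHomogeneous d) {c : k} (hc : c ≠ 0)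
    (x : Fin 2 → k) : PerMod v F (c • x) ↔ PerMod v F x := by
  refine exists_congr fun n => and_congr_right fun _ => ?_
  rw [iter_smul hF, cg_smul (pow_ne_zero _ hc), cg_smul' hc]

theorem PerMod.iter {d : ℕ} {F : Tup 1 k} (hF : ∀ i, (F i).IsHomogeneous d) (hG : Good v F)
    {x : Fin 2 → k} (hx : PerMod v F x) (m : ℕ) : PerMod v F ((app F)^[m] x) := by
  obtain ⟨n, hn, h1⟩ := hx
  refine ⟨n, hn, ?_⟩
  have h2 := good_cg hF hG h1 m
  rwa [← Function.iterate_add_apply, Nat.add_comm m n, Function.iterate_add_apply] at h2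

/-- multiples of a period -/
theorem PerMod.mul {d : ℕ} {F : Tup 1 k} (hF : ∀ i, (F i).IsHomogeneous d) (hG : Good v F)
    {x : Fin 2 → k} {n : ℕ} (h : Cg v ((app F)^[n] x) x) (j : ℕ) :
    Cg v ((app F)^[j * n] x) x := by
  induction j with
  | zero =>
    rw [zero_mul]
    exact Cg.refl h.ne.2
  | succ j ih =>
    rw [Nat.succ_mul, Function.iterate_add_apply]
    exact (good_cg hF hG h (j * n)).trans ih

/-- a periodic point has preimages of every order in its orbit -/
theorem PerMod.back {d : ℕ} {F : Tup 1 k} (hF : ∀ i, (F i).IsHomogeneous d) (hG : Good v F)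
    {x : Fin 2 → k} (hx : PerMod v F x) (n : ℕ) :
    ∃ m : ℕ, Cg v ((app F)^[n] ((app F)^[m] x)) x := by
  obtain ⟨N, hN, h1⟩ := hx
  refine ⟨n * N - n, ?_⟩
  rw [← Function.iterate_add_apply]
  have h2 : n ≤ n * N := Nat.le_mul_of_pos_right n hN
  rw [show n + (n * N - n) = n * N by omega]
  exact PerMod.mul hF hG h1 n

end Red

end Pool.Agent.AAP
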