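import Mathlib
import Pool.Agent.AAP.Red

set_option autoImplicit false

/-!
# Extension of the valuation
-/

namespace Pool.Agent.AAP

open scoped WithZero
open Pool.Agent.PNH (Tup app mp IsMor Cert)
open Pool.Agent.TameArb (Over)

section Ovr

variable {K : Type} [Field K] {L : Type} [Field L] [Algebra K L] {v : Valuation K ℤᵐ⁰}
  {V : Valuation L ℤᵐ⁰} {e : ℕ}

theorem Over.intT (h : Over v V e) {F : Tup 1 K} (hG : IntT v F) :
    IntT V (mp (algebraMap K L) F) := by
  intro i m
  unfold mp
  rw [MvPolynomial.coeff_map]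
  exact h.le_one.mpr (hG i m)

theorem Over.good (h : Over v V e) {F : Tup 1 K} (hG : Good v F) :
    Good V (mp (algebraMap K L) F) := by
  obtain ⟨h1, n, h2⟩ := hG
  refine ⟨Over.intT h h1, n, fun j => ?_⟩
  obtain ⟨G, hG1, hG2⟩ := h2 j
  refine ⟨mp (algebraMap K L) G, Over.intT h hG1, ?_⟩
  have h3 := congrArg (MvPolynomial.map (algebraMap K L)) hG2
  rw [map_sum, map_pow, MvPolynomial.map_X] at h3
  rw [← h3]
  refine Finset.sum_congr rfl fun i _ => ?_
  rw [map_mul]
  rfl

theorem Over.nv (h : Over v V e) (x : Fin 2 → K) :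
    AAP.nv V (fun i => algebraMap K L (x i)) = AAP.nv v x ^ e := by
  have hm : Monotone fun a : ℤᵐ⁰ => a ^ e := fun a b hab => pow_le_pow_left₀ zero_le hab e
  unfold AAP.nv
  rw [← h.val, ← h.val]
  exact (hm.map_max).symm

theorem Over.nv_one (h : Over v V e) (x : Fin 2 → K) :
    AAP.nv V (fun i => algebraMap K L (x i)) = 1 ↔ AAP.nv v x = 1 := by
  rw [Over.nv h, pow_eq_one_iff]
  exact or_iff_left h.ne

theorem Over.cg (h : Over v V e) (x y : Fin 2 → K) :
    Cg V (fun i => algebraMap K L (x i)) (fun i => algebraMap K L (y i)) ↔ Cg v x y := by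
  unfold Cg
  rw [wd_map, Over.nv h, Over.nv h, ← h.val, ← mul_pow]
  exact pow_lt_pow_iff_left₀ zero_le zero_le h.ne

theorem iter_map (F : Tup 1 K) (n : ℕ) (x : Fin 2 → K) :
    (app (mp (algebraMap K L) F))^[n] (fun i => algebraMap K L (x i)) =
      fun i => algebraMap K L ((app F)^[n] x i) := PNH.iter_mp (algebraMap K L) F n x

theorem Over.perMod (h : Over v V e) (F : Tup 1 K) (x : Fin 2 → K) :
    PerMod V (mp (algebraMap K L) F) (fun i => algebraMap K L (x i)) ↔ PerMod v F x := by
  refine exists_congr fun n => and_congr_right fun _ => ?_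
  rw [iter_map]
  exact Over.cg h _ _

/-- the action of an automorphism -/
theorem iter_aut (g : L ≃ₐ[K] L) (F : Tup 1 K) (n : ℕ) (z : Fin 2 → L) :
    (app (mp (algebraMap K L) F))^[n] (fun i => g (z i)) =
      fun i => g ((app (mp (algebraMap K L) F))^[n] z i) := by
  have h1 : mp (g : L →+* L) (mp (algebraMap K L) F) = mp (algebraMap K L) F := by
    rw [PNH.mp_mp]
    congr 1
    ext a
    exact g.commutes a
  have h2 := PNH.iter_mp (g : L →+* L) (mp (algebraMap K L) F) n z
  rw [h1] at h2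
  exact h2

theorem wd_aut (g : L ≃ₐ[K] L) (x y : Fin 2 → L) :
    wd (fun i => g (x i)) (fun i => g (y i)) = g (wd x y) := wd_map (g : L →+* L) x y

/-- an automorphism that preserves the valuation preserves congruences -/
theorem cg_aut (g : L ≃ₐ[K] L) (hg : ∀ z, V (g z) = V z) {x y : Fin 2 → L} (h : Cg V x y) :
    Cg V (fun i => g (x i)) (fun i => g (y i)) := by
  unfold Cg AAP.nv at h ⊢
  rw [wd_aut, hg]
  simp only [hg]
  exact h

end Ovr

end Pool.Agent.AAP
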