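import Pool.Agent.PNH.Defs
import Pool.Agent.TameArb.OnePrime

/-!
# Some fixed point of a rational map has another preimage
-/

set_option autoImplicit false

namespace Pool.Agent.AAP

open Polynomial
open Pool.Agent.PNH (Tup app mp Par IsMor mp_mp app_mp)

namespace FixPAux

section one

variable {E : Type*} [Field E] [IsAlgClosed E] [CharZero E]

/-- a polynomial map of degree at least two -/
theorem case_poly {P Q : E[X]} {d : ℕ} (hd : 2 ≤ d) (hP : P.natDegree ≤ d) (hPd : P.coeff d ≠ 0)
    (hQ : ∀ t, Q.eval t ≠ 0) :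
    ∃ ζ δ : E, δ ≠ ζ ∧ P.eval ζ = ζ * Q.eval ζ ∧ P.eval δ = ζ * Q.eval δ := by
  have hQ0 : Q.degree = 0 := by
    by_contra h
    obtain ⟨t, ht⟩ := IsAlgClosed.exists_root Q h
    exact hQ t ht
  obtain ⟨c, hc⟩ : ∃ c : E, Q = C c := ⟨_, eq_C_of_degree_eq_zero hQ0⟩
  have hc0 : c ≠ 0 := by
    intro h
    apply hQ 0
    rw [hc, h]
    simp
  obtain ⟨f, hf⟩ : ∃ f : E[X], f = C c⁻¹ * P := ⟨_, rfl⟩
  have hnP : P.natDegree = d := le_antisymm hP (le_natDegree_of_ne_zero hPd)
  have hnf : f.natDegree = d := by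
    rw [hf, natDegree_C_mul (inv_ne_zero hc0), hnP]
  obtain ⟨ζ, δ, h1, h2, h3⟩ := TameArb.exists_fixed_preimage f (by omega)
  have hev : ∀ x, P.eval x = f.eval x * Q.eval x := by
    intro x
    rw [hf, hc, eval_mul, eval_C, eval_C]
    field_simp
  exact ⟨ζ, δ, h3, by rw [hev, h1], by rw [hev, h2]⟩

/-- the three cases -/
theorem cases {P Q : E[X]} {d : ℕ} (hd : 2 ≤ d) (hP : P.natDegree ≤ d) (hQ : Q.natDegree ≤ d)
    (hinf : ¬ (P.coeff d = 0 ∧ Q.coeff d = 0)) (hco : ∀ t, ¬ (P.eval t = 0 ∧ Q.eval t = 0)) :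
    (Q.coeff d = 0 ∧ ∃ t, Q.eval t = 0) ∨
    (∃ ζ, P.eval ζ = ζ * Q.eval ζ ∧ P.coeff d = ζ * Q.coeff d) ∨
    (∃ ζ δ : E, δ ≠ ζ ∧ P.eval ζ = ζ * Q.eval ζ ∧ P.eval δ = ζ * Q.eval δ) := by
  classical
  by_contra hcon
  push Not at hcon
  obtain ⟨c1, c2, c3⟩ := hcon
  by_cases hQd : Q.coeff d = 0
  · have hPd : P.coeff d ≠ 0 := fun h => hinf ⟨h, hQd⟩
    obtain ⟨ζ, δ, h1, h2, h3⟩ := case_poly hd hP hPd (c1 hQd)
    exact c3 ζ δ h1 h2 h3
  · obtain ⟨R, hR⟩ : ∃ R : E[X], R = P - X * Q := ⟨_, rfl⟩
    have hRc : R.coeff (d + 1) = - Q.coeff d := by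
      rw [hR, coeff_sub, coeff_X_mul, coeff_eq_zero_of_natDegree_lt (by omega), zero_sub]
    have hRn : R.natDegree = d + 1 := by
      apply le_antisymm
      · rw [hR]
        refine (natDegree_sub_le _ _).trans (max_le (by omega) ?_)
        refine natDegree_mul_le.trans ?_
        rw [natDegree_X]
        omega
      · apply le_natDegree_of_ne_zero
        rw [hRc]
        exact neg_ne_zero.2 hQd
    have hR0 : R ≠ 0 := by
      intro h
      rw [h, natDegree_zero] at hRn
      omega
    have hroot : ∀ ζ, R.eval ζ = 0 → P.eval ζ = ζ * Q.eval ζ := by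
      intro ζ h
      rw [hR, eval_sub, eval_mul, eval_X, sub_eq_zero] at h
      exact h
    have hA : ∀ ζ, R.eval ζ = 0 → ∃ a : E, a ≠ 0 ∧ P - C ζ * Q = C a * (X - C ζ) ^ d := by
      intro ζ h
      have hA1 : (P - C ζ * Q).coeff d ≠ 0 := by
        rw [coeff_sub, coeff_C_mul, sub_ne_zero]
        exact c2 ζ (hroot ζ h)
      have hA2 : (P - C ζ * Q).natDegree = d := by
        apply le_antisymm
        · refine (natDegree_sub_le _ _).trans (max_le hP ?_)
          exact (natDegree_C_mul_le _ _).trans hQ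
        · exact le_natDegree_of_ne_zero hA1
      have hA0 : P - C ζ * Q ≠ 0 := by
        intro h0
        rw [h0, coeff_zero] at hA1
        exact hA1 rfl
      refine ⟨(P - C ζ * Q).leadingCoeff, leadingCoeff_ne_zero.2 hA0, ?_⟩
      have := TameArb.eq_pow_of_roots (P - C ζ * Q) ζ hA0 (fun x hx => by
        by_contra hne
        rw [eval_sub, eval_mul, eval_C, sub_eq_zero] at hx
        exact c3 ζ x hne (hroot ζ h) hx)
      rwa [hA2] at this
    have hsimple : ∀ ζ, R.eval ζ = 0 → (derivative R).eval ζ ≠ 0 := by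
      intro ζ h h'
      obtain ⟨a, _, ha⟩ := hA ζ h
      have h1 : R = C a * (X - C ζ) ^ d - (X - C ζ) * Q := by
        rw [← ha, hR]
        ring
      have h2 : (derivative R).eval ζ = - Q.eval ζ := by
        rw [h1]
        simp only [derivative_sub, derivative_mul, derivative_C, zero_mul, zero_add,
          derivative_X_sub_C_pow, derivative_X, sub_zero, one_mul, eval_sub, eval_mul, eval_add,
          eval_C, eval_pow, eval_X, sub_self]
        rw [zero_pow (by omega)]
        ring
      rw [h2, neg_eq_zero] at h'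
      refine hco ζ ⟨?_, h'⟩
      rw [hroot ζ h, h', mul_zero]
    have hnd : R.roots.Nodup := by
      rw [Multiset.nodup_iff_count_le_one]
      intro ζ
      rw [count_roots]
      by_contra hlt
      have h1 := (one_lt_rootMultiplicity_iff_isRoot hR0).1 (not_le.1 hlt)
      exact hsimple ζ h1.1 h1.2
    have hcard : 2 < R.roots.toFinset.card := by
      rw [Multiset.toFinset_card_of_nodup hnd]
      have := (IsAlgClosed.splits R).natDegree_eq_card_roots
      omega
    obtain ⟨z1, h1, z2, h2, z3, h3, h12, h13, h23⟩ := Finset.two_lt_card.1 hcard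
    rw [Multiset.mem_toFinset, mem_roots hR0] at h1 h2 h3
    obtain ⟨a1, _, e1⟩ := hA z1 h1
    obtain ⟨a2, ha2, e2⟩ := hA z2 h2
    obtain ⟨a3, _, e3⟩ := hA z3 h3
    have hrel : C (z2 - z3) * (C a1 * (X - C z1) ^ d) + C (z3 - z1) * (C a2 * (X - C z2) ^ d) +
        C (z1 - z2) * (C a3 * (X - C z3) ^ d) = 0 := by
      rw [← e1, ← e2, ← e3]
      simp only [C_sub]
      ring
    have hd0 : (d : E) ≠ 0 := Nat.cast_ne_zero.2 (by omega)
    obtain ⟨k, rfl⟩ : ∃ k, d = k + 2 := ⟨d - 2, by omega⟩
    have E1 := congrArg (fun p => eval z1 p) hrel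
    have E2 := congrArg (fun p => eval z1 (derivative p)) hrel
    simp only [eval_add, eval_mul, eval_C, eval_pow, eval_sub, eval_X, sub_self, eval_zero] at E1
    simp only [derivative_add, derivative_mul, derivative_C, zero_mul, zero_add,
      derivative_X_sub_C_pow, eval_add, eval_mul, eval_C, eval_pow, eval_sub, eval_X, sub_self,
      derivative_zero, eval_zero] at E2
    rw [zero_pow (by omega), mul_zero, mul_zero, zero_add] at E1
    rw [zero_pow (by omega), mul_zero, mul_zero, mul_zero, zero_add] at E2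
    have hk : k + 2 - 1 = k + 1 := by omega
    rw [hk] at E2
    have hu : z1 - z2 ≠ 0 := sub_ne_zero.2 h12
    have hw : z1 - z3 ≠ 0 := sub_ne_zero.2 h13
    have F1 : a3 * (z1 - z3) ^ (k + 1) = a2 * (z1 - z2) ^ (k + 1) := by
      apply mul_left_cancel₀ (mul_ne_zero hu hw)
      linear_combination E1
    have F2 : (z1 - z2) * (a3 * (z1 - z3) ^ (k + 1)) =
        (z1 - z3) * (a2 * (z1 - z2) ^ (k + 1)) := by
      apply mul_left_cancel₀ hd0
      linear_combination E2
    rw [F1] at F2
    have F3 : z1 - z2 = z1 - z3 :=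
      mul_right_cancel₀ (mul_ne_zero ha2 (pow_ne_zero _ hu)) F2
    exact h23 (sub_right_injective F3)

end one

section dh

variable {E : Type*} [Field E]

/-- the form on the affine line -/
noncomputable def dh (G : MvPolynomial (Fin (1 + 1)) E) : E[X] :=
  ∑ m ∈ G.support, C (G.coeff m) * X ^ m 0

theorem eval_dh (G : MvPolynomial (Fin (1 + 1)) E) (t : E) :
    (dh G).eval t = MvPolynomial.eval ![t, 1] G := by
  rw [MvPolynomial.eval_eq', dh, eval_finsetSum]
  refine Finset.sum_congr rfl fun m _ => ?_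
  rw [Fin.prod_univ_two]
  simp

theorem natDegree_dh {G : MvPolynomial (Fin (1 + 1)) E} {d : ℕ} (hG : G.IsHomogeneous d) :
    (dh G).natDegree ≤ d := by
  unfold dh
  apply natDegree_sum_le_of_forall_le
  intro m hm
  refine (natDegree_C_mul_X_pow_le _ _).trans ?_
  have h := hG (MvPolynomial.mem_support_iff.1 hm)
  rw [Finsupp.weight_apply] at h
  rw [← h, Finsupp.sum_fintype _ _ (by simp)]
  simp [Fin.sum_univ_two]

theorem coeff_dh {G : MvPolynomial (Fin (1 + 1)) E} {d : ℕ} (hG : G.IsHomogeneous d) :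
    (dh G).coeff d = MvPolynomial.eval ![1, 0] G := by
  rw [MvPolynomial.eval_eq', dh, finsetSum_coeff]
  refine Finset.sum_congr rfl fun m hm => ?_
  have h := hG (MvPolynomial.mem_support_iff.1 hm)
  rw [Finsupp.weight_apply, Finsupp.sum_fintype _ _ (by simp), Fin.sum_univ_two] at h
  simp only [Pi.one_apply, smul_eq_mul, mul_one] at h
  rw [coeff_C_mul_X_pow, Fin.prod_univ_two]
  by_cases h1 : m 1 = 0
  · have h0 : d = m 0 := by omega
    rw [if_pos h0, h1]
    simp
  · have h0 : ¬ d = m 0 := by omega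
    rw [if_neg h0]
    simp [h1]

end dh

theorem par_iff {A : Type} [CommRing A] {x y : Fin (1 + 1) → A} :
    Par x y ↔ x 0 * y 1 = x 1 * y 0 := by
  constructor
  · intro h
    exact h 0 1
  · intro h i j
    fin_cases i <;> fin_cases j
    · rfl
    · exact h
    · exact h.symm
    · rfl

theorem exists_closed {E : Type} [Field E] [IsAlgClosed E] [CharZero E] {d : ℕ} (hd : 2 ≤ d)
    (F : Tup 1 E) (hF : ∀ i, (F i).IsHomogeneous d) (h0 : ∀ x, app F x = 0 → x = 0) :
    ∃ z y : Fin (1 + 1) → E, z ≠ 0 ∧ y ≠ 0 ∧ ¬ Par z y ∧ Par (app F z) z ∧ Par (app F y) z := by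
  have hne1 : (![1, 0] : Fin (1 + 1) → E) ≠ 0 := fun h => one_ne_zero (congrFun h 0)
  have hne2 : ∀ t : E, (![t, 1] : Fin (1 + 1) → E) ≠ 0 := fun t h =>
    one_ne_zero (congrFun h 1)
  have hap1 : ∀ i, app F ![1, 0] i = (dh (F i)).coeff d := fun i => (coeff_dh (hF i)).symm
  have hap2 : ∀ t i, app F ![t, 1] i = (dh (F i)).eval t := fun t i => (eval_dh (F i) t).symm
  rcases cases hd (natDegree_dh (hF 0)) (natDegree_dh (hF 1)) (fun h => by
      apply hne1
      apply h0
      funext i
      rw [hap1]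
      fin_cases i
      · exact h.1
      · exact h.2) (fun t h => by
      apply hne2 t
      apply h0
      funext i
      rw [hap2]
      fin_cases i
      · exact h.1
      · exact h.2) with ⟨h1, t, h2⟩ | ⟨ζ, h1, h2⟩ | ⟨ζ, δ, h1, h2, h3⟩
  · refine ⟨![1, 0], ![t, 1], hne1, hne2 t, ?_, ?_, ?_⟩
    · rw [par_iff]
      simp
    · rw [par_iff, hap1, hap1, h1]
      simp
    · rw [par_iff, hap2, hap2, h2]
      simp
  · refine ⟨![ζ, 1], ![1, 0], hne2 ζ, hne1, ?_, ?_, ?_⟩
    · rw [par_iff]
      simp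
    · rw [par_iff, hap2, hap2, h1]
      simp [mul_comm]
    · rw [par_iff, hap1, hap1, h2]
      simp [mul_comm]
  · refine ⟨![ζ, 1], ![δ, 1], hne2 ζ, hne2 δ, ?_, ?_, ?_⟩
    · rw [par_iff]
      simpa using fun h => h1 h.symm
    · rw [par_iff, hap2, hap2, h2]
      simp [mul_comm]
    · rw [par_iff, hap2, hap2, h3]
      simp [mul_comm]

end FixPAux

open FixPAux in
/-- over a finite extension some fixed point of a morphism of degree at least two has another
preimage -/
theorem exists_fixp (K : Type) [Field K] [NumberField K] {d : ℕ} (hd : 2 ≤ d) (F : Tup 1 K)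
    (hF : IsMor d K F) :
    ∃ (L : Type) (_ : Field L) (_ : NumberField L) (_ : Algebra K L) (z y : Fin 2 → L),
      z ≠ 0 ∧ y ≠ 0 ∧ ¬ Par z y ∧ Par (app (mp (algebraMap K L) F) z) z ∧
      Par (app (mp (algebraMap K L) F) y) z := by
  obtain ⟨z, y, hz, hy, h1, h2, h3⟩ := exists_closed hd
    (mp (algebraMap K (AlgebraicClosure K)) F) (fun i => (hF.1 i).map _) hF.2
  obtain ⟨S, hS⟩ : ∃ S : Set (AlgebraicClosure K), S = Set.range z ∪ Set.range y := ⟨_, rfl⟩
  have hSf : S.Finite := by
    rw [hS]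
    exact (Set.finite_range z).union (Set.finite_range y)
  have : Finite S := hSf
  have hfd : FiniteDimensional K (IntermediateField.adjoin K S) :=
    IntermediateField.finiteDimensional_adjoin fun x _ => Algebra.IsIntegral.isIntegral x
  have hnf : NumberField (IntermediateField.adjoin K S) := NumberField.of_module_finite K _
  have hmz : ∀ i, z i ∈ IntermediateField.adjoin K S := fun i =>
    IntermediateField.subset_adjoin K _ (by rw [hS]; exact Or.inl ⟨i, rfl⟩)
  have hmy : ∀ i, y i ∈ IntermediateField.adjoin K S := fun i =>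
    IntermediateField.subset_adjoin K _ (by rw [hS]; exact Or.inr ⟨i, rfl⟩)
  have happ : ∀ x : Fin (1 + 1) → IntermediateField.adjoin K S,
      (fun i => algebraMap (IntermediateField.adjoin K S) (AlgebraicClosure K)
        (app (mp (algebraMap K (IntermediateField.adjoin K S)) F) x i)) =
      app (mp (algebraMap K (AlgebraicClosure K)) F) fun i =>
        algebraMap (IntermediateField.adjoin K S) (AlgebraicClosure K) (x i) := by
    intro x
    rw [← app_mp, mp_mp, ← IsScalarTower.algebraMap_eq]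
  have hpar : ∀ x x' : Fin (1 + 1) → IntermediateField.adjoin K S,
      Par (fun i => algebraMap (IntermediateField.adjoin K S) (AlgebraicClosure K) (x i))
        (fun i => algebraMap (IntermediateField.adjoin K S) (AlgebraicClosure K) (x' i)) →
      Par x x' := by
    intro x x' h i j
    apply (algebraMap (IntermediateField.adjoin K S) (AlgebraicClosure K)).injective
    rw [map_mul, map_mul]
    exact h i j
  refine ⟨IntermediateField.adjoin K S, inferInstance, hnf, inferInstance,
    fun i => ⟨z i, hmz i⟩, fun i => ⟨y i, hmy i⟩, ?_, ?_, ?_, ?_, ?_⟩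
  · intro h
    exact hz (funext fun i => congrArg Subtype.val (congrFun h i))
  · intro h
    exact hy (funext fun i => congrArg Subtype.val (congrFun h i))
  · intro h
    exact h1 fun i j => congrArg Subtype.val (h i j)
  · apply hpar
    rw [happ]
    exact h2
  · apply hpar
    rw [happ]
    exact h3

end Pool.Agent.AAP
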