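import Pool.Agent.AAP.Red
import Pool.Agent.AAP.FixP
import Pool.Agent.AAP.Bad
import Pool.Agent.PNH.ParL

set_option autoImplicit false

/-!
# The fibres of the iterates of a rational map
-/

namespace Pool.Agent.AAP

open Polynomial
open Pool.Agent.PNH (Tup app mp IsMor Cert)

section Spl

theorem exists_zero_form {Ω : Type} [Field Ω] [IsAlgClosed Ω] {D : ℕ} (hD : 1 ≤ D)
    (P : MvPolynomial (Fin 2) Ω) (hP : P.IsHomogeneous D) :
    ∃ z : Fin 2 → Ω, z ≠ 0 ∧ MvPolynomial.eval z P = 0 := by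
  by_cases h : (FixPAux.dh P).coeff D = 0
  · refine ⟨![1, 0], fun h0 => one_ne_zero (congrFun h0 0), ?_⟩
    rw [← FixPAux.coeff_dh hP, h]
  · have hdeg : (FixPAux.dh P).natDegree = D :=
      le_antisymm (FixPAux.natDegree_dh hP) (le_natDegree_of_ne_zero h)
    obtain ⟨t, ht⟩ := IsAlgClosed.exists_root (FixPAux.dh P) (by
      intro h0
      have : (FixPAux.dh P).natDegree = 0 := natDegree_eq_zero_iff_degree_le_zero.mpr h0.le
      omega)
    refine ⟨![t, 1], fun h0 => one_ne_zero (congrFun h0 1), ?_⟩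
    rw [← FixPAux.eval_dh]
    exact ht

namespace SplAux

section iter

variable {K : Type} [Field K]

/-- the forms of the `n`-th iterate -/
noncomputable def itf (F : Tup 1 K) (n : ℕ) : Fin 2 → MvPolynomial (Fin 2) K :=
  (app (mp (algebraMap K (MvPolynomial (Fin 2) K)) F))^[n] fun i => MvPolynomial.X i

theorem eval_itf (F : Tup 1 K) (n : ℕ) {L : Type} [Field L] [Algebra K L] (a : Fin 2 → L) :
    (app (mp (algebraMap K L) F))^[n] a = fun i => MvPolynomial.aeval a (itf F n i) := by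
  have h := PNH.iter_mp
    ((MvPolynomial.aeval a : MvPolynomial (Fin 2) K →ₐ[K] L) : MvPolynomial (Fin 2) K →+* L)
    (mp (algebraMap K (MvPolynomial (Fin 2) K)) F) n fun i => MvPolynomial.X i
  rw [PNH.mp_mp] at h
  have h1 : ((MvPolynomial.aeval a : MvPolynomial (Fin 2) K →ₐ[K] L) :
      MvPolynomial (Fin 2) K →+* L).comp (algebraMap K (MvPolynomial (Fin 2) K)) =
      algebraMap K L := by
    ext c
    simp
  rw [h1] at h
  have h2 : (fun i : Fin 2 => ((MvPolynomial.aeval a : MvPolynomial (Fin 2) K →ₐ[K] L) :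
      MvPolynomial (Fin 2) K →+* L) (MvPolynomial.X i)) = a := by
    funext i
    simp
  rw [h2] at h
  exact h

theorem hom_itf {d : ℕ} {F : Tup 1 K} (hF : ∀ i, (F i).IsHomogeneous d) (n : ℕ) (i : Fin 2) :
    (itf F n i).IsHomogeneous (d ^ n) := by
  induction n generalizing i with
  | zero => exact MvPolynomial.isHomogeneous_X K i
  | succ n ih =>
    have h : itf F (n + 1) i = MvPolynomial.aeval (itf F n) (F i) := by
      unfold itf
      rw [Function.iterate_succ_apply']
      change MvPolynomial.eval _ (MvPolynomial.map _ (F i)) = _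
      rw [MvPolynomial.eval_map]
      rfl
    rw [h, MvPolynomial.aeval_def, MvPolynomial.eval₂_eq']
    refine MvPolynomial.IsHomogeneous.sum _ _ _ fun m hm => ?_
    have h1 := hF i (MvPolynomial.mem_support_iff.1 hm)
    rw [Finsupp.weight_apply, Finsupp.sum_fintype _ _ (by simp), Fin.sum_univ_two] at h1
    simp only [Pi.one_apply, smul_eq_mul, mul_one] at h1
    have h2 : (∏ j, itf F n j ^ m j).IsHomogeneous (∑ j, d ^ n * m j) :=
      MvPolynomial.IsHomogeneous.prod _ _ _ fun j _ => (ih j).pow (m j)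
    rw [← Finset.mul_sum, Fin.sum_univ_two, h1, ← pow_succ] at h2
    exact h2.C_mul _

/-- the form of the fibre of `x` -/
noncomputable def fib (F : Tup 1 K) (n : ℕ) (x : Fin 2 → K) : MvPolynomial (Fin 2) K :=
  MvPolynomial.C (x 1) * itf F n 0 - MvPolynomial.C (x 0) * itf F n 1

theorem aeval_fib (F : Tup 1 K) (n : ℕ) (x : Fin 2 → K) {L : Type} [Field L] [Algebra K L]
    (a : Fin 2 → L) : MvPolynomial.aeval a (fib F n x) =
      wd ((app (mp (algebraMap K L) F))^[n] a) (fun i => algebraMap K L (x i)) := by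
  rw [eval_itf]
  unfold fib wd
  rw [map_sub, map_mul, map_mul, MvPolynomial.aeval_C, MvPolynomial.aeval_C]
  ring

theorem hom_fib {d : ℕ} {F : Tup 1 K} (hF : ∀ i, (F i).IsHomogeneous d) (n : ℕ)
    (x : Fin 2 → K) : (fib F n x).IsHomogeneous (d ^ n) :=
  ((hom_itf hF n 0).C_mul _).sub ((hom_itf hF n 1).C_mul _)

theorem fib_ne {d : ℕ} (hd : 1 ≤ d) {F : Tup 1 K} (hF : IsMor d K F) (n : ℕ)
    (x : Fin 2 → K) (hx : x ≠ 0) : fib F n x ≠ 0 := by
  intro h0
  obtain ⟨i, hi⟩ : ∃ i, x i ≠ 0 := by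
    by_contra h
    push Not at h
    exact hx (funext h)
  obtain ⟨a, ha, hz⟩ := exists_zero_form (Nat.one_le_pow n d hd)
    (MvPolynomial.map (algebraMap K (AlgebraicClosure K)) (itf F n i)) ((hom_itf hF.1 n i).map _)
  rw [MvPolynomial.eval_map, ← MvPolynomial.aeval_def] at hz
  have h1 := aeval_fib F n x a
  rw [h0, map_zero] at h1
  have h2 : (app (mp (algebraMap K (AlgebraicClosure K)) F))^[n] a ≠ 0 :=
    PNH.iter_ne_zero _ hF.2 n ha
  apply h2
  have h3 : (app (mp (algebraMap K (AlgebraicClosure K)) F))^[n] a i = 0 := by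
    rw [eval_itf]
    exact hz
  have hxi : algebraMap K (AlgebraicClosure K) (x i) ≠ 0 := by
    rwa [Ne, map_eq_zero]
  unfold wd at h1
  funext j
  fin_cases i <;> fin_cases j
  · exact h3
  · simp only [Fin.zero_eta, Fin.isValue, Pi.zero_apply, Fin.mk_one] at h3 hxi ⊢
    rw [h3, zero_mul, zero_sub, zero_eq_neg, mul_eq_zero] at h1
    exact h1.resolve_right hxi
  · simp only [Fin.zero_eta, Fin.isValue, Pi.zero_apply, Fin.mk_one] at h3 hxi ⊢
    rw [h3, zero_mul, sub_zero, eq_comm, mul_eq_zero] at h1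
    exact h1.resolve_right hxi
  · exact h3

end iter

theorem exists_fin {α : Type} (s : Multiset α) {m : ℕ} (hm : Multiset.card s = m) :
    ∃ r : Fin m → α, Multiset.map r Finset.univ.val = s := by
  subst hm
  induction s using Quotient.inductionOn with
  | h l =>
    refine ⟨fun i => l.get i, ?_⟩
    change Multiset.map (fun i : Fin l.length => l.get i) Finset.univ.val = (l : Multiset α)
    rw [Fin.univ_val_map, List.ofFn_get]

/-- a form whose dehomogenisation splits is a product of linear forms -/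
theorem form_splits {L : Type} [Field L] {D : ℕ} (P : MvPolynomial (Fin 2) L)
    (hP : P.IsHomogeneous D) (h0 : FixPAux.dh P ≠ 0) (hs : (FixPAux.dh P).Splits) :
    ∃ (c : L) (Z : Fin D → Fin 2 → L), c ≠ 0 ∧ (∀ i, Z i ≠ 0) ∧ ∀ a : Fin 2 → L,
      MvPolynomial.eval a P = c * ∏ i, wd a (Z i) := by
  obtain ⟨f, hf⟩ : ∃ f, f = FixPAux.dh P := ⟨_, rfl⟩
  rw [← hf] at h0 hs
  have hdh : MvPolynomial.aeval ![X, 1] P = f := by
    rw [hf, FixPAux.dh, MvPolynomial.aeval_def, MvPolynomial.eval₂_eq']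
    refine Finset.sum_congr rfl fun m _ => ?_
    rw [Fin.prod_univ_two]
    simp
  have hn : f.natDegree ≤ D := by
    rw [hf]
    exact FixPAux.natDegree_dh hP
  obtain ⟨m, hm⟩ : ∃ m, m = f.natDegree := ⟨_, rfl⟩
  obtain ⟨r, hr⟩ := exists_fin f.roots (m := m) (by
    rw [hm]
    exact hs.natDegree_eq_card_roots.symm)
  obtain ⟨k, hk⟩ : ∃ k, D = m + k := ⟨D - m, by omega⟩
  have hfr : f = C f.leadingCoeff * ∏ i, (X - C (r i)) := by
    conv_lhs => rw [hs.eq_prod_roots, ← hr, Multiset.map_map]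
    rfl
  have hPQ : P = MvPolynomial.C f.leadingCoeff *
      ((∏ i : Fin m, (MvPolynomial.X 0 - MvPolynomial.C (r i) * MvPolynomial.X 1)) *
        MvPolynomial.X 1 ^ k) := by
    have h1 := homogenize_eq_of_isHomogeneous hP hdh
    rw [← h1]
    apply homogenize_eq_of_isHomogeneous
    · have h2 : (∏ i : Fin m, (MvPolynomial.X (R := L) (0 : Fin 2) -
          MvPolynomial.C (r i) * MvPolynomial.X 1)).IsHomogeneous (∑ _i : Fin m, 1) := by
        refine MvPolynomial.IsHomogeneous.prod _ _ _ fun i _ => ?_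
        exact (MvPolynomial.isHomogeneous_X L 0).sub ((MvPolynomial.isHomogeneous_X L 1).C_mul _)
      have h3 : (MvPolynomial.X (R := L) (1 : Fin 2) ^ k).IsHomogeneous k :=
        MvPolynomial.isHomogeneous_X_pow 1 k
      have h4 := h2.mul h3
      rw [Finset.sum_const, Finset.card_univ, Fintype.card_fin, smul_eq_mul, mul_one, ← hk] at h4
      exact h4.C_mul _
    · conv_rhs => rw [hfr]
      simp [MvPolynomial.aeval_def, MvPolynomial.eval₂_mul, Polynomial.C_eq_algebraMap]
  refine ⟨f.leadingCoeff * (-1) ^ k,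
    fun i => Fin.append (fun j : Fin m => ![r j, 1]) (fun _ : Fin k => ![1, 0]) (Fin.cast hk i),
    mul_ne_zero (leadingCoeff_ne_zero.2 h0) (pow_ne_zero _ (neg_ne_zero.2 one_ne_zero)), ?_, ?_⟩
  · intro i
    have h5 : ∀ j : Fin (m + k),
        Fin.append (fun j : Fin m => (![r j, 1] : Fin 2 → L)) (fun _ : Fin k => ![1, 0]) j ≠ 0 := by
      intro j
      refine Fin.addCases (fun j => ?_) (fun j => ?_) j
      · rw [Fin.append_left]
        exact fun h => one_ne_zero (congrFun h 1)
      · rw [Fin.append_right]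
        exact fun h => one_ne_zero (congrFun h 0)
    exact h5 _
  · intro a
    have h6 : ∏ i : Fin D, wd a (Fin.append (fun j : Fin m => (![r j, 1] : Fin 2 → L))
        (fun _ : Fin k => ![1, 0]) (Fin.cast hk i)) =
        ∏ j : Fin (m + k), wd a (Fin.append (fun j : Fin m => (![r j, 1] : Fin 2 → L))
          (fun _ : Fin k => ![1, 0]) j) :=
      Fintype.prod_equiv (finCongr hk) _ _ fun i => rfl
    rw [h6, Fin.prod_univ_add]
    simp only [Fin.append_left, Fin.append_right]
    have h7 : ∀ j : Fin m, wd a ![r j, 1] = a 0 - r j * a 1 := by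
      intro j
      simp [wd, mul_comm]
    have h8 : wd a ![1, 0] = - a 1 := by
      simp [wd]
    rw [Finset.prod_congr rfl fun j _ => h7 j, h8, Finset.prod_const, Finset.card_univ,
      Fintype.card_fin, neg_pow (a 1) k]
    rw [hPQ]
    simp only [map_mul, map_prod, map_sub, map_pow, MvPolynomial.eval_C, MvPolynomial.eval_X]
    have h9 : ((-1 : L) ^ k) * (-1) ^ k = 1 := by
      rw [← mul_pow]
      simp
    linear_combination (-(f.leadingCoeff * (∏ j : Fin m, (a 0 - r j * a 1)) * a 1 ^ k)) * h9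

theorem dh_map {K L : Type} [Field K] [Field L] [Algebra K L] (P : MvPolynomial (Fin 2) K)
    : FixPAux.dh (MvPolynomial.map (algebraMap K L) P) =
      (FixPAux.dh P).map (algebraMap K L) := by
  have h : ∀ {E : Type} [Field E] (Q : MvPolynomial (Fin 2) E),
      FixPAux.dh Q = MvPolynomial.eval₂ C ![X, 1] Q := by
    intro E _ Q
    rw [FixPAux.dh, MvPolynomial.eval₂_eq']
    refine Finset.sum_congr rfl fun m _ => ?_
    rw [Fin.prod_univ_two]
    simp
  rw [h, h, MvPolynomial.eval₂_map]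
  have h1 := MvPolynomial.hom_eval₂ P (C : K →+* K[X]) (mapRingHom (algebraMap K L))
    (![X, 1] : Fin 2 → K[X])
  rw [coe_mapRingHom] at h1
  rw [h1]
  congr 1
  · ext a
    simp
  · funext i
    fin_cases i <;> simp

end SplAux

open SplAux in
theorem exists_fibre {K : Type} [Field K] {d : ℕ} (hd : 1 ≤ d) {F : Tup 1 K} (hF : IsMor d K F)
    (n : ℕ) (x : Fin 2 → K) (hx : x ≠ 0) :
    ∃ f : K[X], f ≠ 0 ∧ ∀ (L : Type) [Field L] [Algebra K L],
      (f.map (algebraMap K L)).Splits →
      ∃ (c : L) (Z : Fin (d ^ n) → Fin 2 → L), c ≠ 0 ∧ (∀ i, Z i ≠ 0) ∧ ∀ a : Fin 2 → L,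
        wd ((app (mp (algebraMap K L) F))^[n] a) (fun i => algebraMap K L (x i)) =
          c * ∏ i, wd a (Z i) := by
  have hne : FixPAux.dh (fib F n x) ≠ 0 := by
    intro h0
    apply fib_ne hd hF n x hx
    have hdh : MvPolynomial.aeval ![X, 1] (fib F n x) = FixPAux.dh (fib F n x) := by
      rw [FixPAux.dh, MvPolynomial.aeval_def, MvPolynomial.eval₂_eq']
      refine Finset.sum_congr rfl fun m _ => ?_
      rw [Fin.prod_univ_two]
      simp
    have h1 := homogenize_eq_of_isHomogeneous (hom_fib hF.1 n x) hdh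
    rw [← h1, h0, homogenize_zero]
  refine ⟨FixPAux.dh (fib F n x), hne, fun L _ _ hs => ?_⟩
  rw [← dh_map] at hs
  obtain ⟨c, Z, hc, hZ, h⟩ := form_splits (MvPolynomial.map (algebraMap K L) (fib F n x))
    ((hom_fib hF.1 n x).map _) (by
      rw [dh_map]
      exact (Polynomial.map_ne_zero_iff (algebraMap K L).injective).2 hne) hs
  refine ⟨c, Z, hc, hZ, fun a => ?_⟩
  rw [← h a, ← aeval_fib, MvPolynomial.eval_map, MvPolynomial.aeval_def]

end Spl

end Pool.Agent.AAP
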