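import Mathlib
import Pool.Agent.AAP.Ovr
import Pool.Agent.AAP.Spl

set_option autoImplicit false

/-!
# A power of an automorphism fixes the fibre
-/

namespace Pool.Agent.AAP

open Polynomial
open scoped WithZero
open Pool.Agent.PNH (Tup app mp IsMor Cert)

theorem wd_tr {k : Type} [Field k] {x y z : Fin 2 → k} (hy : y ≠ 0) (h : wd x y = 0)
    (h' : wd y z = 0) : wd x z = 0 := by
  obtain ⟨i, hi⟩ := Function.ne_iff.mp hy
  have h1 := wd_id x y z i
  rw [h, h', mul_zero, mul_zero, add_zero] at h1
  exact (mul_eq_zero.mp h1).resolve_left hi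

theorem wd_sy {k : Type} [Field k] {x y : Fin 2 → k} (h : wd x y = 0) : wd y x = 0 := by
  rw [wd_swap, h, neg_zero]

theorem fix_fibre {K : Type} [Field K] {d : ℕ} (hd : 1 ≤ d) {F : Tup 1 K} (hF : IsMor d K F)
    (m : ℕ) {x : Fin 2 → K} (hx : x ≠ 0) {L : Type} [Field L] [Algebra K L] (h : L ≃ₐ[K] L)
    {z : Fin 2 → L} (hz : z ≠ 0)
    (hzx : wd ((app (mp (algebraMap K L) F))^[m] z) (fun i => algebraMap K L (x i)) = 0) :
    wd (fun i => (h ^ Nat.factorial (d ^ m)) (z i)) z = 0 := by
  classical
  obtain ⟨f, -, hf⟩ := exists_fibre hd hF m x hx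
  obtain ⟨c, Z, hc, hZ, hcZ⟩ := hf (AlgebraicClosure L)
    (IsAlgClosed.splits (f.map (algebraMap K (AlgebraicClosure L))))
  set ι := algebraMap L (AlgebraicClosure L) with hι
  set z' : ℕ → Fin 2 → L := fun j i => (h ^ j) (z i) with hz'
  have hz'0 : ∀ j, z' j ≠ 0 := by
    intro j h0
    apply hz
    funext i
    exact (map_eq_zero (h ^ j)).mp (congrFun h0 i)
  -- the images of `z` lie in the fibre
  have hfib : ∀ j, wd ((app (mp (algebraMap K L) F))^[m] (z' j))
      (fun i => algebraMap K L (x i)) = 0 := by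
    intro j
    have h1 : (app (mp (algebraMap K L) F))^[m] (z' j) =
        fun i => (h ^ j) ((app (mp (algebraMap K L) F))^[m] z i) := iter_aut (h ^ j) F m z
    have h2 : (fun i => algebraMap K L (x i)) = fun i => (h ^ j) (algebraMap K L (x i)) := by
      funext i
      exact ((h ^ j).commutes (x i)).symm
    rw [h1, h2, wd_aut, hzx, map_zero]
  have hroot : ∀ j, ∃ i, wd (fun l => ι (z' j l)) (Z i) = 0 := by
    intro j
    have h1 := hcZ (fun l => ι (z' j l))
    have h2 : (app (mp (algebraMap K (AlgebraicClosure L)) F))^[m] (fun l => ι (z' j l)) =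
        fun l => ι ((app (mp (algebraMap K L) F))^[m] (z' j) l) := by
      have h3 := PNH.iter_mp ι (mp (algebraMap K L) F) m (z' j)
      rw [PNH.mp_mp, hι, ← IsScalarTower.algebraMap_eq] at h3
      exact h3
    have h4 : (fun l => algebraMap K (AlgebraicClosure L) (x l)) =
        fun l => ι (algebraMap K L (x l)) := by
      funext l
      exact IsScalarTower.algebraMap_apply K L (AlgebraicClosure L) (x l)
    rw [h2, h4, wd_map, hfib, map_zero] at h1
    have h5 := (mul_eq_zero.mp h1.symm).resolve_left hc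
    obtain ⟨i, -, hi⟩ := Finset.prod_eq_zero_iff.mp h5
    exact ⟨i, hi⟩
  choose r hr using hroot
  -- two of the images agree
  obtain ⟨a, ha, b, hb, hab, heq⟩ := Finset.exists_ne_map_eq_of_card_lt_of_maps_to
    (s := Finset.range (d ^ m + 1)) (t := (Finset.univ : Finset (Fin (d ^ m)))) (f := r)
    (by rw [Finset.card_univ, Fintype.card_fin, Finset.card_range]; omega)
    (fun _ _ => Finset.mem_univ _)
  rw [Finset.mem_range] at ha hb
  have hwab : ∀ a b : ℕ, r a = r b → wd (z' a) (z' b) = 0 := by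
    intro a b hab
    have h1 := hr a
    have h2 := hr b
    rw [← hab] at h2
    have h3 := wd_tr (hZ (r a)) h1 (wd_sy h2)
    rw [wd_map] at h3
    exact (map_eq_zero ι).mp h3
  have key : ∀ a b : ℕ, a < b → b < d ^ m + 1 → wd (z' a) (z' b) = 0 →
      ∃ k, 0 < k ∧ k ≤ d ^ m ∧ wd (z' k) z = 0 := by
    intro a b hab hb hw
    refine ⟨b - a, by omega, by omega, ?_⟩
    have h1 : z' b = fun i => (h ^ a) (z' (b - a) i) := by
      funext i
      rw [hz']
      simp only
      rw [← AlgEquiv.mul_apply, ← pow_add, show a + (b - a) = b by omega]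
    have h2 : z' a = fun i => (h ^ a) (z i) := rfl
    rw [h1, h2, wd_aut] at hw
    exact wd_sy ((map_eq_zero (h ^ a)).mp hw)
  obtain ⟨k, hk, hkd, hkz⟩ : ∃ k, 0 < k ∧ k ≤ d ^ m ∧ wd (z' k) z = 0 := by
    rcases lt_or_gt_of_ne hab with h1 | h1
    · exact key a b h1 hb (hwab a b heq)
    · exact key b a h1 ha (hwab b a heq.symm)
  -- multiples
  have hmul : ∀ j, wd (z' (k * j)) z = 0 := by
    intro j
    induction j with
    | zero =>
      have h1 : z' (k * 0) = z := by
        funext i
        rw [hz']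
        simp
      rw [h1]
      exact wd_self z
    | succ j ih =>
      have h1 : z' (k * (j + 1)) = fun i => (h ^ (k * j)) (z' k i) := by
        funext i
        rw [hz']
        simp only
        rw [← AlgEquiv.mul_apply, ← pow_add, show k * j + k = k * (j + 1) by ring]
      have h2 : wd (z' (k * (j + 1))) (z' (k * j)) = 0 := by
        rw [h1]
        have h3 : z' (k * j) = fun i => (h ^ (k * j)) (z i) := rfl
        rw [h3, wd_aut, hkz, map_zero]
      exact wd_tr (hz'0 _) h2 ih
  obtain ⟨j, hj⟩ := Nat.dvd_factorial hk hkd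
  have h1 := hmul j
  rw [← hj] at h1
  exact h1

end Pool.Agent.AAP
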