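import Mathlib
import Pool.Agent.TameArb.Moved

set_option autoImplicit false

/-!
# A tame generator moves the points of a backward orbit close to a superattracting cycle
-/

namespace Pool.Agent.AAP

open Polynomial WithZero
open scoped WithZero
open Pool.Agent.TameArb (Over Tame WW)

namespace LmvA

section

variable {K : Type} [Field K] {L : Type} [Field L] [Algebra K L] {v : Valuation K ℤᵐ⁰}
  {V : Valuation L ℤᵐ⁰} {r : ℕ}

/-- the tail of an integral polynomial is small -/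
theorem tail_le (h : Over v V r) {P : K[X]} (hP : ∀ i, v (P.coeff i) ≤ 1) {s : L}
    (hs : V s ≤ 1) : V (aeval s P - algebraMap K L (P.coeff 0)) ≤ V s := by
  rw [aeval_eq_sum_range, Finset.sum_range_succ', pow_zero, Algebra.smul_def, mul_one,
    add_sub_cancel_right]
  refine Valuation.map_sum_le _ fun i _ => ?_
  rw [Algebra.smul_def, map_mul, map_pow, pow_succ]
  calc V (algebraMap K L (P.coeff (i + 1))) * (V s ^ i * V s) ≤ 1 * (1 * V s) :=
        mul_le_mul' (h.le_one.2 (hP _)) (mul_le_mul' (pow_le_one' hs _) le_rfl)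
    _ = V s := by rw [one_mul, one_mul]

theorem val_B (h : Over v V r) {B : K[X]} (hB : ∀ i, v (B.coeff i) ≤ 1)
    (hB0 : v (B.coeff 0) = 1) {s : L} (hs : V s < 1) : V (aeval s B) = 1 := by
  have h1 := (tail_le h hB hs.le).trans_lt hs
  have h2 : V (algebraMap K L (B.coeff 0)) = 1 := h.eq_one.2 hB0
  have h3 : aeval s B = algebraMap K L (B.coeff 0) +
      (aeval s B - algebraMap K L (B.coeff 0)) := by ring
  rw [h3, Valuation.map_add_eq_of_lt_left V (by rw [h2]; exact h1), h2]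

/-- outside the smallest disc the map is `s ↦ s ^ e` -/
theorem val_A (h : Over v V r) {A : K[X]} (hA : ∀ i, v (A.coeff i) ≤ 1) {e : ℕ} (he : 0 < e)
    (hlow : ∀ j < e, v (A.coeff j) < 1) (htop : v (A.coeff e) = 1) {s : L} (hs : V s < 1)
    (hW : WW r < V (aeval s A)) : V (aeval s A) = V s ^ e := by
  have hed : e ≤ A.natDegree := by
    refine le_natDegree_of_ne_zero fun h0 => ?_
    rw [h0, map_zero] at htop
    exact zero_ne_one htop
  have hexp : aeval s A = ∑ k ∈ Finset.range (A.natDegree + 1),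
      algebraMap K L (A.coeff k) * s ^ k := by
    rw [aeval_eq_sum_range]
    exact Finset.sum_congr rfl fun k _ => by rw [Algebra.smul_def]
  have hbW : ∀ k < e, V (algebraMap K L (A.coeff k) * s ^ k) ≤ WW r := by
    intro k hk
    rw [map_mul, map_pow]
    calc _ ≤ WW r * 1 := mul_le_mul' (h.le_WW (hlow k hk)) (pow_le_one' hs.le _)
      _ = WW r := mul_one _
  have hge : ∀ k, V (algebraMap K L (A.coeff k) * s ^ k) ≤ V s ^ k := by
    intro k
    rw [map_mul, map_pow]
    calc _ ≤ 1 * V s ^ k := mul_le_mul_left (h.le_one.2 (hA k)) _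
      _ = _ := one_mul _
  have hWs : WW r < V s ^ e := by
    by_contra hcon
    push Not at hcon
    apply absurd hW
    push Not
    rw [hexp]
    refine Valuation.map_sum_le _ fun k _ => ?_
    rcases lt_or_ge k e with hk | hk
    · exact hbW k hk
    · exact (hge k).trans ((pow_le_pow_right_of_le_one' hs.le hk).trans hcon)
  have hmain : V (algebraMap K L (A.coeff e) * s ^ e) = V s ^ e := by
    rw [map_mul, map_pow, h.eq_one.2 htop, one_mul]
  have hse : 0 < V s ^ e := lt_of_le_of_lt zero_le hWs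
  rw [hexp, ← Finset.add_sum_erase (Finset.range (A.natDegree + 1)) _
    (Finset.mem_range.2 (Nat.lt_succ_of_le hed)), ← hmain]
  refine Valuation.map_add_eq_of_lt_left V ?_
  rw [hmain]
  refine Valuation.map_sum_lt _ hse.ne' fun k hk => ?_
  rw [Finset.mem_erase] at hk
  rcases lt_or_ge k e with hk' | hk'
  · exact (hbW k hk').trans_lt hWs
  · have hlt : e < k := lt_of_le_of_ne hk' (Ne.symm hk.1)
    have hs0 : 0 < V s := by
      by_contra hcon
      have h0 : V s = 0 := le_antisymm (not_lt.1 hcon) zero_le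
      rw [h0, zero_pow he.ne'] at hse
      exact lt_irrefl _ hse
    exact (hge k).trans_lt (pow_lt_pow_right_of_lt_one₀ hs0 hs hlt)

/-- the contraction in the smallest disc -/
theorem contr (h : Over v V r) {A B : K[X]} (hA : ∀ i, v (A.coeff i) ≤ 1)
    (hB : ∀ i, v (B.coeff i) ≤ 1) (hB0 : v (B.coeff 0) = 1) (hA0 : v (A.coeff 0) < 1)
    (hA1 : v (A.coeff 1) < 1) {s t : L} (hs : V s ≤ WW r)
    (hst : t * aeval s B = aeval s A) :
    V (t * algebraMap K L (B.coeff 0) - algebraMap K L (A.coeff 0)) ≤ WW r * V s := by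
  have hW1 := TameArb.WW_lt h
  have hs1 : V s < 1 := hs.trans_lt hW1
  have hBs := val_B h hB hB0 hs1
  obtain ⟨C0, hC0⟩ : ∃ C0 : K[X], C0 = C (B.coeff 0) * A - C (A.coeff 0) * B := ⟨_, rfl⟩
  have hCi : ∀ i, v (C0.coeff i) ≤ 1 := by
    intro i
    rw [hC0, coeff_sub, coeff_C_mul, coeff_C_mul]
    refine Valuation.map_sub_le (v := v) ?_ ?_
    · rw [map_mul, hB0, one_mul]
      exact hA i
    · rw [map_mul]
      calc v (A.coeff 0) * v (B.coeff i) ≤ 1 * 1 := mul_le_mul' hA0.le (hB i)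
        _ = 1 := one_mul 1
  have hC00 : C0.coeff 0 = 0 := by
    rw [hC0, coeff_sub, coeff_C_mul, coeff_C_mul]
    ring
  have hC1 : v (C0.coeff 1) < 1 := by
    rw [hC0, coeff_sub, coeff_C_mul, coeff_C_mul]
    refine Valuation.map_sub_lt _ ?_ ?_
    · rw [map_mul, hB0, one_mul]
      exact hA1
    · rw [map_mul, mul_comm]
      exact TameArb.mul_lt_one_aux (hB 1) hA0
  have h1 : aeval s C0 = aeval s B *
      (t * algebraMap K L (B.coeff 0) - algebraMap K L (A.coeff 0)) := by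
    rw [hC0, map_sub, map_mul, map_mul, aeval_C, aeval_C, ← hst]
    ring
  have h2 : V (aeval s C0) = V (t * algebraMap K L (B.coeff 0) - algebraMap K L (A.coeff 0)) := by
    rw [h1, map_mul, hBs, one_mul]
  rw [← h2, aeval_eq_sum_range]
  refine Valuation.map_sum_le _ fun i _ => ?_
  rw [Algebra.smul_def, map_mul, map_pow]
  rcases i with _ | _ | i
  · rw [hC00, map_zero, map_zero, zero_mul]
    exact zero_le
  · rw [zero_add, pow_one]
    exact mul_le_mul' (h.le_WW hC1) le_rfl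
  · have h3 : V s ^ (i + 1 + 1) = V s ^ i * (V s * V s) := by
      rw [pow_succ, pow_succ, mul_assoc]
    rw [h3]
    calc V (algebraMap K L (C0.coeff (i + 1 + 1))) * (V s ^ i * (V s * V s))
        ≤ 1 * (1 * (WW r * V s)) :=
          mul_le_mul' (h.le_one.2 (hCi _)) (mul_le_mul' (pow_le_one' hs1.le _)
            (mul_le_mul' hs le_rfl))
      _ = WW r * V s := by rw [one_mul, one_mul]

/-- leaving the smallest disc -/
theorem exit (h : Over v V r) {A B : K[X]} (hA : ∀ i, v (A.coeff i) ≤ 1)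
    (hB : ∀ i, v (B.coeff i) ≤ 1) (hB0 : v (B.coeff 0) = 1) (hA0 : v (A.coeff 0) < 1)
    (hA1 : v (A.coeff 1) < 1) {k0 : ℕ} (hk0 : 1 ≤ k0) (hη : exp (-1) ^ k0 ≤ v (A.coeff 0))
    {t : ℕ → L} (ht0 : t 0 = 0)
    (ht : ∀ j < k0, t j * aeval (t (j + 1)) B = aeval (t (j + 1)) A) :
    ∃ k ≤ k0, WW r < V (t k) := by
  by_contra hcon
  push Not at hcon
  have hW1 := TameArb.WW_lt h
  have hη' : WW r ^ k0 ≤ V (algebraMap K L (A.coeff 0)) := by
    rw [← h.val, WW, ← pow_mul, mul_comm, pow_mul]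
    exact pow_le_pow_left₀ zero_le hη r
  have hη0 : 0 < V (algebraMap K L (A.coeff 0)) :=
    (pow_pos (TameArb.WW_pos r) _).trans_le hη'
  obtain ⟨η, hηd⟩ : ∃ η, η = V (algebraMap K L (A.coeff 0)) := ⟨_, rfl⟩
  rw [← hηd] at hη' hη0
  have key : ∀ k, k + 1 ≤ k0 → η ≤ WW r ^ (k + 1) * V (t (k + 1)) := by
    intro k
    induction k with
    | zero =>
      intro hk
      have h1 := contr h hA hB hB0 hA0 hA1 (hcon 1 hk) (ht 0 (by omega))
      rw [ht0, zero_mul, zero_sub, Valuation.map_neg, ← hηd] at h1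
      rw [zero_add, pow_one]
      exact h1
    | succ k ih =>
      intro hk
      have h0 := ih (by omega)
      have h1 := contr h hA hB hB0 hA0 hA1 (hcon (k + 1 + 1) hk) (ht (k + 1) (by omega))
      have hpos : 0 < V (t (k + 1)) := by
        by_contra hc
        have : V (t (k + 1)) = 0 := le_antisymm (not_lt.mp hc) zero_le
        rw [this, mul_zero] at h0
        exact absurd hη0 (not_lt.mpr h0)
      have h2 : η < V (t (k + 1)) := by
        refine h0.trans_lt ?_
        calc WW r ^ (k + 1) * V (t (k + 1)) < 1 * V (t (k + 1)) :=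
              mul_lt_mul_of_pos_right (pow_lt_one₀ zero_le hW1 (by omega)) hpos
          _ = _ := one_mul _
      have h3 : V (t (k + 1) * algebraMap K L (B.coeff 0)) = V (t (k + 1)) := by
        rw [map_mul, h.eq_one.2 hB0, mul_one]
      rw [Valuation.map_sub_eq_of_lt_left V (by rw [h3, ← hηd]; exact h2), h3] at h1
      calc η ≤ WW r ^ (k + 1) * V (t (k + 1)) := h0
        _ ≤ WW r ^ (k + 1) * (WW r * V (t (k + 1 + 1))) := mul_le_mul_right h1 _
        _ = _ := by rw [pow_succ (WW r) (k + 1), mul_assoc]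
  obtain ⟨m, rfl⟩ : ∃ m, k0 = m + 1 := ⟨k0 - 1, by omega⟩
  have h5 := key m le_rfl
  have h6 := hcon (m + 1) le_rfl
  have h7 : η < WW r ^ (m + 1) := by
    calc η ≤ WW r ^ (m + 1) * V (t (m + 1)) := h5
      _ ≤ WW r ^ (m + 1) * WW r := mul_le_mul_right h6 _
      _ < WW r ^ (m + 1) * 1 := mul_lt_mul_of_pos_left hW1 (pow_pos (TameArb.WW_pos r) _)
      _ = _ := mul_one _
  exact absurd hη' (not_le.mpr h7)

/-- the chain outside the smallest disc -/
theorem chain (h : Over v V r) {A B : K[X]} (hA : ∀ i, v (A.coeff i) ≤ 1)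
    (hB : ∀ i, v (B.coeff i) ≤ 1) (hB0 : v (B.coeff 0) = 1) {e : ℕ} (he : 2 ≤ e)
    (hlow : ∀ j < e, v (A.coeff j) < 1) (htop : v (A.coeff e) = 1) {t : ℕ → L} {j0 n : ℕ}
    (hj0n : j0 ≤ n) (h1 : ∀ j ≤ n, V (t j) < 1)
    (ht : ∀ j < n, t j * aeval (t (j + 1)) B = aeval (t (j + 1)) A) (hj0 : WW r < V (t j0)) :
    WW r < V (t n) ∧ V (t n) ^ (e ^ (n - j0)) = V (t j0) := by
  induction n, hj0n using Nat.le_induction with
  | base => exact ⟨hj0, by simp⟩
  | succ n hn ih =>
    obtain ⟨ih1, ih2⟩ := ih (fun j hj => h1 j (by omega)) (fun j hj => ht j (by omega))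
    have hs := h1 (n + 1) le_rfl
    have h2 : V (aeval (t (n + 1)) A) = V (t n) := by
      rw [← ht n (by omega), map_mul, val_B h hB hB0 hs, mul_one]
    have h3 := val_A h hA (by omega) hlow htop hs (by rw [h2]; exact ih1)
    rw [h2] at h3
    refine ⟨?_, ?_⟩
    · refine ih1.trans_le ?_
      rw [h3]
      exact pow_le_of_le_one zero_le hs.le (by omega)
    · rw [Nat.succ_sub hn, pow_succ, mul_comm, pow_mul, ← h3, ih2]

/-- the degree of `t j` over `K` -/
theorem deg_le (h : Over v V r) {A B : K[X]} (hB : ∀ i, v (B.coeff i) ≤ 1) {e : ℕ}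
    (htop : v (A.coeff e) = 1) {D : ℕ} (hAD : A.natDegree ≤ D) (hBD : B.natDegree ≤ D)
    {t : ℕ → L} (ht0 : t 0 = 0) {n : ℕ} (h1 : ∀ j ≤ n, V (t j) < 1)
    (ht : ∀ j < n, t j * aeval (t (j + 1)) B = aeval (t (j + 1)) A) (j : ℕ) (hj : j ≤ n) :
    ∃ E : IntermediateField K L, FiniteDimensional K E ∧ Module.finrank K E ≤ D ^ j ∧
      t j ∈ E := by
  induction j with
  | zero =>
    refine ⟨⊥, inferInstance, ?_, ?_⟩
    · rw [IntermediateField.finrank_bot, pow_zero]
    · rw [ht0]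
      exact zero_mem _
  | succ j ih =>
    obtain ⟨E, hE1, hE2, hE3⟩ := ih (by omega)
    obtain ⟨Q, hQ⟩ : ∃ Q : E[X], Q = A.map (algebraMap K E) -
      C (⟨t j, hE3⟩ : E) * B.map (algebraMap K E) := ⟨_, rfl⟩
    have hQ0 : Q ≠ 0 := by
      intro h0
      have h2 := congrArg (fun P : E[X] => ((P.coeff e : E) : L)) h0
      simp only [hQ, coeff_sub, coeff_map, coeff_C_mul, coeff_zero] at h2
      have h3 : algebraMap K L (A.coeff e) = t j * algebraMap K L (B.coeff e) :=
        sub_eq_zero.1 h2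
      have h4 := congrArg V h3
      rw [h.eq_one.2 htop, map_mul] at h4
      have h5 : V (t j) * V (algebraMap K L (B.coeff e)) < 1 := by
        rw [mul_comm]
        exact TameArb.mul_lt_one_aux (h.le_one.2 (hB e)) (h1 j (by omega))
      exact absurd h4.symm h5.ne
    have hQd : Q.natDegree ≤ D := by
      rw [hQ]
      refine (natDegree_sub_le _ _).trans (max_le ?_ ?_)
      · exact natDegree_map_le.trans hAD
      · exact (natDegree_C_mul_le _ _).trans (natDegree_map_le.trans hBD)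
    have hQt : aeval (t (j + 1)) Q = 0 := by
      rw [hQ, map_sub, map_mul, aeval_C, aeval_map_algebraMap, aeval_map_algebraMap,
        ← ht j (by omega)]
      exact sub_self _
    have hint : IsIntegral E (t (j + 1)) := isAlgebraic_iff_isIntegral.1 ⟨Q, hQ0, hQt⟩
    have hfd : FiniteDimensional E (IntermediateField.adjoin E {t (j + 1)}) :=
      IntermediateField.adjoin.finiteDimensional hint
    have hfr : Module.finrank E (IntermediateField.adjoin E {t (j + 1)}) ≤ D := by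
      rw [IntermediateField.adjoin.finrank hint]
      exact (natDegree_le_of_dvd (minpoly.dvd E _ hQt) hQ0).trans hQd
    refine ⟨(IntermediateField.adjoin E {t (j + 1)}).restrictScalars K, ?_, ?_, ?_⟩
    · exact FiniteDimensional.trans K E (IntermediateField.adjoin E {t (j + 1)})
    · have h2 : Module.finrank K (IntermediateField.adjoin E {t (j + 1)}) =
          Module.finrank K E * Module.finrank E (IntermediateField.adjoin E {t (j + 1)}) :=
        (Module.finrank_mul_finrank K E _).symm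
      calc Module.finrank K ((IntermediateField.adjoin E {t (j + 1)}).restrictScalars K)
          = Module.finrank K E * Module.finrank E (IntermediateField.adjoin E {t (j + 1)}) := h2
        _ ≤ D ^ j * D := Nat.mul_le_mul hE2 hfr
        _ = D ^ (j + 1) := (pow_succ _ _).symm
    · exact IntermediateField.mem_adjoin_simple_self E (t (j + 1))

end

end LmvA

open LmvA in
theorem loc_move {K : Type} [Field K] (v : Valuation K ℤᵐ⁰) (A B : K[X])
    (hA : ∀ i, v (A.coeff i) ≤ 1) (hB : ∀ i, v (B.coeff i) ≤ 1) (hB0 : v (B.coeff 0) = 1)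
    (e : ℕ) (he : 2 ≤ e) (hlow : ∀ j < e, v (A.coeff j) < 1) (htop : v (A.coeff e) = 1)
    (h0 : A.coeff 0 ≠ 0) (p : ℕ) (hp : p.Prime) (hpe : ¬ p ∣ e) :
    ∃ n0 : ℕ, ∀ (L : Type) [Field L] [Algebra K L] (V : Valuation L ℤᵐ⁰) (r : ℕ)
      (τ : L ≃ₐ[K] L) (_ : Tame v V r p τ) (n : ℕ), n0 ≤ n → ∀ t : ℕ → L, t 0 = 0 →
      (∀ j ≤ n, V (t j) < 1) →
      (∀ j < n, t j * aeval (t (j + 1)) B = aeval (t (j + 1)) A) → τ (t n) ≠ t n := by
  have hA0 : v (A.coeff 0) < 1 := hlow 0 (by omega)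
  have hA1 : v (A.coeff 1) < 1 := hlow 1 (by omega)
  obtain ⟨k0', hk0'⟩ := exists_exp_neg_natCast_lt ((Valuation.ne_zero_iff v).mpr h0)
  obtain ⟨k0, hk0⟩ : ∃ k0, k0 = k0' + 1 := ⟨_, rfl⟩
  have hη : exp (-1) ^ k0 ≤ v (A.coeff 0) := by
    refine le_trans ?_ hk0'.le
    rw [← exp_nsmul, exp_le_exp, hk0]
    simp only [nsmul_eq_mul]
    push_cast
    omega
  obtain ⟨D, hD⟩ : ∃ D, D = max A.natDegree B.natDegree + 1 := ⟨_, rfl⟩
  refine ⟨k0 + D ^ k0, ?_⟩
  intro L _ _ V r τ hτ n hn t ht0 h1 ht hfix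
  have h := hτ.ov
  have hr : (0 : ℤ) < r := by
    have := h.ne
    omega
  obtain ⟨j0, hj0k, hj0W⟩ := exit h hA hB hB0 hA0 hA1 (by omega) hη ht0
    fun j hj => ht j (by omega)
  have hj0n : j0 ≤ n := by omega
  obtain ⟨hnW, hpow⟩ := chain h hA hB hB0 he hlow htop hj0n h1 ht hj0W
  have htn0 : t n ≠ 0 := by
    intro hc
    rw [hc, map_zero] at hnW
    exact absurd hnW (not_lt.mpr zero_le)
  have htj0 : t j0 ≠ 0 := by
    intro hc
    rw [hc, map_zero] at hj0W
    exact absurd hj0W (not_lt.mpr zero_le)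
  obtain ⟨s, k', hk'⟩ := hτ.fixed htn0 (i := 1) (by rw [pow_one]; exact hfix)
  obtain ⟨E, hE1, hE2, hE3⟩ := deg_le h hB htop (D := D) (by omega) (by omega) ht0 h1 ht j0 hj0n
  obtain ⟨Q, hQ⟩ : ∃ Q : K[X], Q = minpoly K (⟨t j0, hE3⟩ : E) := ⟨_, rfl⟩
  have hintE : IsIntegral K (⟨t j0, hE3⟩ : E) := Algebra.IsIntegral.isIntegral _
  have hQ0 : Q ≠ 0 := hQ ▸ minpoly.ne_zero hintE
  have hQd : Q.natDegree ≤ D ^ j0 := by
    rw [hQ]
    exact (minpoly.natDegree_le _).trans hE2
  have hQt : aeval (t j0) Q = 0 := by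
    have h2 : aeval (⟨t j0, hE3⟩ : E) Q = 0 := hQ ▸ minpoly.aeval K _
    have h3 := congrArg (algebraMap E L) h2
    rw [map_zero, ← aeval_algebraMap_apply] at h3
    exact h3
  obtain ⟨m, hm1, hm2, a', ha', hm3⟩ := h.denom hQ0 htj0 hQt
  have hl1 : ((e ^ (n - j0) : ℕ) : ℤ) * log (V (t n)) = log (V (t j0)) := by
    have := congrArg log hpow
    rwa [log_pow, nsmul_eq_mul] at this
  have hl2 : (m : ℤ) * log (V (t j0)) = r * log (v a') := by
    rw [← h.val] at hm3
    have := congrArg log hm3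
    rwa [log_pow, log_pow, nsmul_eq_mul, nsmul_eq_mul] at this
  have hVj0 : V (t j0) ≠ 0 := (Valuation.ne_zero_iff V).mpr htj0
  have hl3 : log (V (t j0)) < 0 := by
    rw [log_lt_iff_lt_exp hVj0, exp_zero]
    exact h1 j0 hj0n
  have hl4 : -(r : ℤ) < log (V (t j0)) := by
    rw [lt_log_iff_exp_lt hVj0, ← TameArb.WW_eq]
    exact hj0W
  obtain ⟨x0, hx0⟩ : ∃ x0, x0 = log (V (t j0)) := ⟨_, rfl⟩
  obtain ⟨x1, hx1⟩ : ∃ x1, x1 = log (V (t n)) := ⟨_, rfl⟩
  obtain ⟨q, hq⟩ : ∃ q, q = log (v a') := ⟨_, rfl⟩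
  obtain ⟨N', hN'⟩ : ∃ N' : ℕ, N' = e ^ (n - j0) := ⟨_, rfl⟩
  rw [← hx0, ← hx1, ← hN'] at hl1
  rw [← hx0, ← hq] at hl2
  rw [← hx0] at hl3 hl4
  rw [← hx1] at hk'
  have hmpos : (0 : ℤ) < m := by exact_mod_cast hm1
  have hq1 : q < 0 := by
    by_contra hcon
    push Not at hcon
    have h2 : (m : ℤ) * x0 < 0 := mul_neg_of_pos_of_neg hmpos hl3
    have h3 : 0 ≤ (r : ℤ) * q := mul_nonneg hr.le hcon
    linarith
  have hq2 : -(m : ℤ) < q := by
    have h2 : (r : ℤ) * (-(m : ℤ)) < r * q := by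
      rw [← hl2]
      have : (m : ℤ) * (-(r : ℤ)) < m * x0 := mul_lt_mul_of_pos_left hl4 hmpos
      linarith
    exact lt_of_mul_lt_mul_left h2 hr.le
  have hdiv : (N' : ℤ) ∣ (p : ℤ) ^ s * q := by
    refine ⟨m * k', ?_⟩
    have h2 : (r : ℤ) * ((p : ℤ) ^ s * q) = r * (N' * (m * k')) := by
      push_cast at hk'
      linear_combination (-(p : ℤ) ^ s) * hl2 + (-(m : ℤ) * p ^ s) * hl1 + (N' : ℤ) * m * hk'
    exact mul_left_cancel₀ hr.ne' h2
  have hcop : IsCoprime (N' : ℤ) ((p : ℤ) ^ s) := by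
    refine IsCoprime.pow_right ?_
    rw [Nat.isCoprime_iff_coprime, hN']
    exact Nat.Coprime.pow_left _ ((Nat.Prime.coprime_iff_not_dvd hp).2 hpe).symm
  have hdiv2 := hcop.dvd_of_dvd_mul_left hdiv
  have h2 : (N' : ℤ) ≤ -q := by
    refine Int.le_of_dvd (by linarith) ?_
    exact (dvd_neg).2 hdiv2
  have h3 : N' < m := by
    have : (N' : ℤ) < m := by linarith
    exact_mod_cast this
  have h4 : D ^ j0 ≤ D ^ k0 := Nat.pow_le_pow_right (by omega) hj0k
  have h5 : n - j0 < e ^ (n - j0) := Nat.lt_pow_self (by omega)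
  omega

end Pool.Agent.AAP
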