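import Mathlib
import Pool.Agent.AAP.Ovr
import Pool.Agent.AAP.Ffx
import Pool.Agent.AAP.DefsS
import Pool.Agent.AAP.Lmv
import Pool.Agent.TameArb.Moved

set_option autoImplicit false

/-!
# A tame generator moves the points of the fibre in a critical residue class
-/

namespace Pool.Agent.AAP

open Polynomial
open scoped WithZero
open Pool.Agent.PNH (Tup app mp IsMor Cert)
open Pool.Agent.TameArb (Over Tame)

namespace CmvA

section int

variable {K : Type} [Field K] (v : Valuation K ℤᵐ⁰)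

/-- the polynomials with integral coefficients -/
noncomputable def iS : Subring K[X] := (Polynomial.mapRingHom v.integer.subtype).range

variable {v}

theorem coeff_le {P : K[X]} (hP : P ∈ iS v) (i : ℕ) : v (P.coeff i) ≤ 1 := by
  obtain ⟨Q, rfl⟩ := hP
  rw [Polynomial.coe_mapRingHom, Polynomial.coeff_map]
  exact (Q.coeff i).2

theorem C_mem {a : K} (ha : v a ≤ 1) : (C a : K[X]) ∈ iS v :=
  ⟨C ⟨a, ha⟩, by rw [Polynomial.coe_mapRingHom, Polynomial.map_C]; rfl⟩

theorem X_mem : (X : K[X]) ∈ iS v := ⟨X, by rw [Polynomial.coe_mapRingHom, Polynomial.map_X]⟩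

theorem app_mem {F : Tup 1 K} (hF : IntT v F) {w : Fin 2 → K[X]} (hw : ∀ i, w i ∈ iS v)
    (i : Fin 2) : app (mp Polynomial.C F) w i ∈ iS v := by
  show MvPolynomial.eval w (MvPolynomial.map C (F i)) ∈ iS v
  rw [MvPolynomial.eval_map, MvPolynomial.eval₂_eq']
  refine Subring.sum_mem _ fun m _ => Subring.mul_mem _ (C_mem (hF i m)) ?_
  exact Subring.prod_mem _ fun j _ => Subring.pow_mem _ (hw j) _

theorem near_mem {F : Tup 1 K} (hF : IntT v F) (N : ℕ) {y u : Fin 2 → K}
    (hy : ∀ i, v (y i) ≤ 1) (hu : ∀ i, v (u i) ≤ 1) (i : Fin 2) : near F N y u i ∈ iS v := by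
  unfold near
  induction N generalizing i with
  | zero => exact Subring.add_mem _ (C_mem (hy i)) (Subring.mul_mem _ X_mem (C_mem (hu i)))
  | succ N ih =>
    rw [Function.iterate_succ_apply']
    exact app_mem hF ih i

theorem wd_mem {w w' : Fin 2 → K[X]} (hw : ∀ i, w i ∈ iS v) (hw' : ∀ i, w' i ∈ iS v) :
    wd w w' ∈ iS v :=
  Subring.sub_mem _ (Subring.mul_mem _ (hw 0) (hw' 1)) (Subring.mul_mem _ (hw 1) (hw' 0))

end int

/-- the values of `near` -/
theorem aeval_near {K : Type} [Field K] {L : Type} [Field L] [Algebra K L] (F : Tup 1 K) (N : ℕ)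
    (y u : Fin 2 → K) (t : L) : (fun i => aeval t (near F N y u i)) =
      (app (mp (algebraMap K L) F))^[N]
        (fun i => algebraMap K L (y i) + t * algebraMap K L (u i)) := by
  have h1 := PNH.iter_mp (aeval t : K[X] →ₐ[K] L).toRingHom (mp Polynomial.C F) N
    (fun i => C (y i) + X * C (u i))
  rw [PNH.mp_mp] at h1
  have h2 : (aeval t : K[X] →ₐ[K] L).toRingHom.comp (Polynomial.C : K →+* K[X]) =
      algebraMap K L := by
    ext a
    show aeval t (C a) = _
    rw [aeval_C]
  rw [h2] at h1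
  unfold near
  refine h1.symm.trans ?_
  congr 1
  funext i
  show aeval t (C (y i) + X * C (u i)) = _
  rw [map_add, map_mul, aeval_C, aeval_C, aeval_X]

theorem aeval_wd {K : Type} [Field K] {L : Type} [Field L] [Algebra K L] (w : Fin 2 → K[X])
    (y : Fin 2 → K) (t : L) : aeval t (wd w fun i => C (y i)) =
      wd (fun i => aeval t (w i)) (fun i => algebraMap K L (y i)) := by
  unfold wd
  rw [map_sub, map_mul, map_mul, aeval_C, aeval_C]

theorem coeff_zero_near {K : Type} [Field K] (F : Tup 1 K) (N : ℕ) (y u a : Fin 2 → K) :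
    (wd (near F N y u) fun i => C (a i)).coeff 0 = wd ((app F)^[N] y) a := by
  have h1 := aeval_wd (L := K) (near F N y u) a 0
  rw [aeval_near] at h1
  rw [coeff_zero_eq_aeval_zero, h1]
  have h2 : mp (algebraMap K K) F = F := by
    funext i
    exact MvPolynomial.map_id (F i)
  rw [h2]
  simp

section val

variable {L : Type} [Field L] {V : Valuation L ℤᵐ⁰}

theorem decomp (y u z : Fin 2 → L) (i : Fin 2) :
    wd y u * z i = wd z u * y i - wd z y * u i := by
  unfold wd
  fin_cases i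
  · simp only [Fin.zero_eta, Fin.isValue]
    ring
  · simp only [Fin.mk_one, Fin.isValue]
    ring

theorem wd_u {y u z : Fin 2 → L} (hy : nv V y = 1) (hu : nv V u ≤ 1) (hyu : V (wd y u) = 1)
    (hz : Cg V z y) : V (wd z u) = nv V z := by
  refine le_antisymm ((wd_le z u).trans (mul_le_of_le_one_right' hu)) ?_
  by_contra hcon
  have hlt : V (wd z u) < nv V z := not_le.mp hcon
  obtain ⟨i, hi⟩ := exists_nv V z
  have h1 : V (wd y u * z i) < nv V z := by
    rw [decomp y u z i]
    refine Valuation.map_sub_lt _ ?_ ?_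
    · rw [map_mul]
      calc V (wd z u) * V (y i) ≤ V (wd z u) * 1 := mul_le_mul_right (hy ▸ le_nv y i) _
        _ < nv V z := by rw [mul_one]; exact hlt
    · rw [map_mul]
      have h2 : V (wd z y) < nv V z := by
        have := hz
        unfold Cg at this
        rwa [hy, mul_one] at this
      calc V (wd z y) * V (u i) ≤ V (wd z y) * 1 := mul_le_mul_right ((le_nv u i).trans hu) _
        _ < nv V z := by rw [mul_one]; exact h2
  rw [map_mul, hyu, one_mul, hi] at h1
  exact lt_irrefl _ h1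

end val

end CmvA

open CmvA

theorem exists_mul_of_wd {k : Type} [Field k] {x y : Fin 2 → k} (hx : x ≠ 0) (hy : y ≠ 0)
    (h : wd x y = 0) : ∃ c : k, c ≠ 0 ∧ y = c • x := by
  have hpar : PNH.Par x y := fun i j => by
    unfold wd at h
    fin_cases i <;> fin_cases j
    · simp only [Fin.zero_eta, Fin.isValue]
    · simp only [Fin.zero_eta, Fin.isValue, Fin.mk_one]
      linear_combination h
    · simp only [Fin.zero_eta, Fin.isValue, Fin.mk_one]
      linear_combination -h
    · simp only [Fin.isValue, Fin.mk_one]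
  obtain ⟨c, rfl⟩ := hpar.exists_smul hx
  refine ⟨c, ?_, rfl⟩
  rintro rfl
  exact hy (zero_smul _ _)

theorem SAt.cg {K : Type} [Field K] {v : Valuation K ℤᵐ⁰} {d : ℕ} {F : Tup 1 K}
    (hF : ∀ i, (F i).IsHomogeneous d) (hG : Good v F) {x : Fin 2 → K} (hx : x ≠ 0) {N e : ℕ}
    (he : 1 ≤ e) (hS : SAt v F x N e) : Cg v ((app F)^[N] x) x := by
  obtain ⟨y, u, hxy, hy, hu, hyu, hlow, -⟩ := hS
  have hy0 : y ≠ 0 := by
    rintro rfl
    rw [nv_eq_zero.mpr rfl] at hy
    exact zero_ne_one hy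
  have h1 := hlow 0 (by omega)
  rw [coeff_zero_near] at h1
  have h2 : Cg v ((app F)^[N] y) y := by
    unfold Cg
    rw [good_iter_nv hF hG N hy0, hy, one_pow, one_mul]
    exact h1
  obtain ⟨c, hc, rfl⟩ := exists_mul_of_wd hx hy0 hxy
  rw [iter_smul hF] at h2
  exact (cg_smul (pow_ne_zero _ hc) _ _).mp ((cg_smul' hc _ _).mp h2)

theorem cyc_move {K : Type} [Field K] {v : Valuation K ℤᵐ⁰} {d : ℕ} {F : Tup 1 K}
    (hF : ∀ i, (F i).IsHomogeneous d) (hG : Good v F) {x : Fin 2 → K} (hx : x ≠ 0)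
    (hnp : ¬ Periodic F x) {N e p : ℕ} (hN : 0 < N) (he : 2 ≤ e) (hp : p.Prime)
    (hpe : ¬ p ∣ e) (hS : SAt v F x N e) :
    ∃ n0 : ℕ, ∀ (L : Type) [Field L] [Algebra K L] (V : Valuation L ℤᵐ⁰) (r : ℕ)
      (τ : L ≃ₐ[K] L) (_ : Tame v V r p τ) (n : ℕ), n0 ≤ n → ∀ z : Fin 2 → L,
      Cg V z (fun i => algebraMap K L (x i)) →
      wd ((app (mp (algebraMap K L) F))^[N * n] z) (fun i => algebraMap K L (x i)) = 0 →
      wd (fun i => τ (z i)) z ≠ 0 := by
  have hcgN := SAt.cg hF hG hx (by omega) hS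
  obtain ⟨y, u, hxy, hy, hu, hyu, hlow, htop⟩ := hS
  have hy0 : y ≠ 0 := by
    rintro rfl
    rw [nv_eq_zero.mpr rfl] at hy
    exact zero_ne_one hy
  have hyle : ∀ i, v (y i) ≤ 1 := fun i => hy ▸ le_nv y i
  have hule : ∀ i, v (u i) ≤ 1 := fun i => (le_nv u i).trans hu
  set A : K[X] := -(wd (near F N y u) fun i => C (y i)) with hA
  set B : K[X] := wd (near F N y u) fun i => C (u i) with hB
  have hAm : A ∈ iS v := Subring.neg_mem _ (wd_mem (near_mem hG.1 N hyle hule)
    fun i => C_mem (hyle i))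
  have hBm : B ∈ iS v := wd_mem (near_mem hG.1 N hyle hule) fun i => C_mem (hule i)
  have hAc : ∀ j, v (A.coeff j) = v ((wd (near F N y u) fun i => C (y i)).coeff j) := by
    intro j
    rw [hA, coeff_neg, Valuation.map_neg]
  -- the constant coefficients
  obtain ⟨c, hc, hyx⟩ := exists_mul_of_wd hx hy0 hxy
  have hA0 : A.coeff 0 ≠ 0 := by
    rw [hA, coeff_neg, coeff_zero_near, hyx, iter_smul hF, wd_smul_left, wd_smul_right]
    intro h0
    have h1 : c ^ d ^ N * (c * wd ((app F)^[N] x) x) = 0 := neg_eq_zero.mp h0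
    rcases mul_eq_zero.mp h1 with h2 | h2
    · exact pow_ne_zero _ hc h2
    · rcases mul_eq_zero.mp h2 with h3 | h3
      · exact hc h3
      · exact hnp ⟨N, hN, h3⟩
  have hFy : nv v ((app F)^[N] y) = 1 := by
    rw [good_iter_nv hF hG N hy0, hy, one_pow]
  have hcgy : Cg v ((app F)^[N] y) y := by
    rw [hyx, iter_smul hF]
    exact (cg_smul (pow_ne_zero _ hc) _ _).mpr ((cg_smul' hc _ _).mpr hcgN)
  have hB0 : v (B.coeff 0) = 1 := by
    rw [hB, coeff_zero_near, wd_u hy hu hyu hcgy, hFy]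
  obtain ⟨n0, hn0⟩ := loc_move v A B (coeff_le hAm) (coeff_le hBm) hB0 e he
    (fun j hj => by rw [hAc]; exact hlow j hj) (by rw [hAc]; exact htop) hA0 p hp hpe
  refine ⟨n0, fun L _ _ V r τ hτ n hn z hzx hz hτz => ?_⟩
  have ho : Over v V r := hτ.ov
  have hGL : Good V (mp (algebraMap K L) F) := Over.good ho hG
  have hFL : ∀ i, (mp (algebraMap K L) F i).IsHomogeneous d := fun i => (hF i).map _
  set FL := mp (algebraMap K L) F with hFLd
  set xL : Fin 2 → L := fun i => algebraMap K L (x i) with hxL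
  set yL : Fin 2 → L := fun i => algebraMap K L (y i) with hyL
  set uL : Fin 2 → L := fun i => algebraMap K L (u i) with huL
  have hyL1 : nv V yL = 1 := (Over.nv_one ho y).mpr hy
  have huL1 : nv V uL ≤ 1 := by
    rw [huL, Over.nv ho]
    exact pow_le_one' hu _
  have hyuL : V (wd yL uL) = 1 := by
    rw [hyL, huL, wd_map, ← ho.val, hyu, one_pow]
  have hyxL : yL = algebraMap K L c • xL := by
    funext i
    rw [hyL, hyx, hxL]
    simp
  have hcL : algebraMap K L c ≠ 0 := (_root_.map_ne_zero _).mpr hc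
  have hxL0 : xL ≠ 0 := hzx.ne.2
  have hcgL : Cg V ((app FL)^[N] xL) xL := by
    rw [hxL, hFLd, iter_map]
    exact (Over.cg ho _ _).mpr hcgN
  -- the path
  set Z : ℕ → Fin 2 → L := fun j => (app FL)^[N * (n - j)] z with hZ
  have hZx : ∀ j, Cg V (Z j) yL := by
    intro j
    have h1 : Cg V (Z j) ((app FL)^[N * (n - j)] xL) := good_cg hFL hGL hzx _
    have h2 : Cg V ((app FL)^[N * (n - j)] xL) xL := by
      rw [Nat.mul_comm]
      exact PerMod.mul hFL hGL hcgL _
    rw [hyxL]
    exact (cg_smul' hcL _ _).mpr (h1.trans h2)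
  have hZu : ∀ j, V (wd (Z j) uL) = nv V (Z j) := fun j => wd_u hyL1 huL1 hyuL (hZx j)
  have hZ0 : ∀ j, Z j ≠ 0 := fun j => (hZx j).ne.1
  have hZu0 : ∀ j, wd (Z j) uL ≠ 0 := by
    intro j h0
    have h1 := hZu j
    rw [h0, map_zero] at h1
    exact (nv_pos (hZ0 j)).ne h1
  set t : ℕ → L := fun j => -(wd (Z j) yL) / wd (Z j) uL with ht
  have htV : ∀ j, V (t j) < 1 := by
    intro j
    rw [ht]
    simp only
    rw [map_div₀, Valuation.map_neg, hZu j]
    have h1 := hZx j
    unfold Cg at h1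
    rw [hyL1, mul_one] at h1
    rw [div_lt_one₀ (nv_pos (hZ0 j))]
    exact h1
  have ht0 : t 0 = 0 := by
    rw [ht]
    simp only
    have h1 : wd (Z 0) yL = 0 := by
      rw [hyxL, wd_smul_right]
      have h2 : wd (Z 0) xL = 0 := by
        rw [hZ]
        simp only
        rw [Nat.sub_zero]
        exact hz
      rw [h2, mul_zero]
    rw [h1, neg_zero, zero_div]
  have hstep : ∀ j < n, t j * aeval (t (j + 1)) B = aeval (t (j + 1)) A := by
    intro j hj
    -- the vector `Z (j + 1)` is a multiple of `y + t u`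
    have hyu0 : wd yL uL ≠ 0 := by
      intro h0
      rw [h0, map_zero] at hyuL
      exact zero_ne_one hyuL
    set a : L := wd (Z (j + 1)) uL / wd yL uL with ha
    have ha0 : a ≠ 0 := div_ne_zero (hZu0 _) hyu0
    have hZa : Z (j + 1) = a • fun i => yL i + t (j + 1) * uL i := by
      funext i
      have h1 := decomp yL uL (Z (j + 1)) i
      have h2 : t (j + 1) * wd (Z (j + 1)) uL = -(wd (Z (j + 1)) yL) := by
        rw [ht]
        simp only
        rw [div_mul_cancel₀ _ (hZu0 _)]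
      simp only [Pi.smul_apply, smul_eq_mul]
      rw [ha, div_mul_eq_mul_div, eq_div_iff hyu0]
      linear_combination h1 - uL i * h2
    have hZj : Z j = (app FL)^[N] (Z (j + 1)) := by
      rw [hZ]
      simp only
      rw [← Function.iterate_add_apply]
      congr 1
      obtain ⟨s, hs⟩ : ∃ s, n = j + 1 + s := ⟨n - (j + 1), by omega⟩
      rw [show n - j = s + 1 by omega, show n - (j + 1) = s by omega]
      ring_nf
    set w : Fin 2 → L := (app FL)^[N] (fun i => yL i + t (j + 1) * uL i) with hw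
    have hZw : Z j = a ^ d ^ N • w := by
      rw [hZj, hZa, iter_smul hFL]
    have hA' : aeval (t (j + 1)) A = -(wd w yL) := by
      rw [hA, map_neg, aeval_wd, aeval_near]
    have hB' : aeval (t (j + 1)) B = wd w uL := by
      rw [hB, aeval_wd, aeval_near]
    have hw0 : wd w uL ≠ 0 := by
      intro h0
      apply hZu0 j
      rw [hZw, wd_smul_left, h0, mul_zero]
    rw [hA', hB']
    have h3 : t j = -(wd w yL) / wd w uL := by
      rw [ht]
      simp only
      rw [hZw, wd_smul_left, wd_smul_left, ← mul_neg, mul_div_mul_left _ _ (pow_ne_zero _ ha0)]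
    rw [h3, div_mul_cancel₀ _ hw0]
  refine hn0 L V r τ hτ n hn t ht0 (fun j _ => htV j) hstep ?_
  -- `τ` fixes the coordinate
  have hZn : Z n = z := by
    rw [hZ]
    simp
  have hz0 : z ≠ 0 := hzx.ne.1
  have hτz0 : (fun i => τ (z i)) ≠ 0 := by
    intro h0
    apply hz0
    funext i
    exact (map_eq_zero τ).mp (congrFun h0 i)
  obtain ⟨l, hl, hzl⟩ := exists_mul_of_wd hz0 hτz0 (wd_sy hτz)
  have hτK : ∀ a : Fin 2 → K, τ (wd z fun i => algebraMap K L (a i)) =
      l * wd z fun i => algebraMap K L (a i) := by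
    intro a
    have h1 : τ (wd z fun i => algebraMap K L (a i)) =
        wd (fun i => τ (z i)) (fun i => algebraMap K L (a i)) := by
      rw [← wd_aut]
      congr 1
      funext i
      exact τ.commutes (a i)
    rw [h1, hzl, wd_smul_left]
  have h1 : t n = -(wd z yL) / wd z uL := by
    rw [ht]
    simp only
    rw [hZn]
  rw [h1, map_div₀, map_neg, hyL, huL, hτK, hτK, ← mul_neg, mul_div_mul_left _ _ hl]

end Pool.Agent.AAP
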