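import Mathlib
import Pool.Agent.AAP.Defs

set_option autoImplicit false

/-!
# Binary forms over a finite field without zeros
-/

namespace Pool.Agent.AAP

open Pool.Agent.PNH (Tup app mp IsMor Cert)

namespace CntA

variable {k : Type} [Field k] {d : ℕ}

/-- the value at a point of the projective line -/
def ev : Option k → (Fin (d + 1) → k) → k
  | none, a => a 0
  | some t, a => ∑ i : Fin (d + 1), a i * t ^ (d - (i : ℕ))

theorem eval_fm (z : Fin 2 → k) (a : Fin (d + 1) → k) :
    MvPolynomial.eval z (fm a) = ∑ i : Fin (d + 1), a i * z 0 ^ (i : ℕ) * z 1 ^ (d - (i : ℕ)) := by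
  unfold fm
  rw [map_sum]
  refine Finset.sum_congr rfl fun i _ => ?_
  simp

theorem free_iff (a : Fin (d + 1) → k) : Free a ↔ ∀ P : Option k, ev P a ≠ 0 := by
  have h0 : ∀ z : Fin 2 → k, z 0 = 0 → MvPolynomial.eval z (fm a) = a 0 * z 1 ^ d := by
    intro z hz
    rw [eval_fm, Finset.sum_eq_single (0 : Fin (d + 1))]
    · simp
    · intro i _ hi
      have hi' : (i : ℕ) ≠ 0 := fun h => hi (Fin.ext h)
      rw [hz, zero_pow hi', mul_zero, zero_mul]
    · intro h
      exact absurd (Finset.mem_univ _) h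
  have h1 : ∀ z : Fin 2 → k, z 0 ≠ 0 →
      MvPolynomial.eval z (fm a) = z 0 ^ d * ev (some (z 1 / z 0)) a := by
    intro z hz
    rw [eval_fm]
    change _ = z 0 ^ d * ∑ i : Fin (d + 1), a i * (z 1 / z 0) ^ (d - (i : ℕ))
    rw [Finset.mul_sum]
    refine Finset.sum_congr rfl fun i _ => ?_
    have hi : (i : ℕ) ≤ d := Nat.lt_succ_iff.1 i.2
    have h2 : z 0 ^ d = z 0 ^ (i : ℕ) * z 0 ^ (d - (i : ℕ)) := by
      rw [← pow_add, Nat.add_sub_cancel' hi]
    have h3 : z 0 ^ (d - (i : ℕ)) ≠ 0 := pow_ne_zero _ hz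
    rw [h2, div_pow]
    field_simp
  constructor
  · intro h P
    cases P with
    | none =>
      have h2 := h ![0, 1] (by
        intro h3
        have := congrFun h3 1
        simp at this)
      rw [h0 _ (by simp)] at h2
      intro h4
      apply h2
      change a 0 = 0 at h4
      rw [h4, zero_mul]
    | some t =>
      have h2 := h ![1, t] (by
        intro h3
        have := congrFun h3 0
        simp at this)
      rw [h1 _ (by simp)] at h2
      intro h4
      apply h2
      have h5 : (![1, t] : Fin 2 → k) 1 / (![1, t] : Fin 2 → k) 0 = t := by simp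
      rw [h5, h4, mul_zero]
  · intro h z hz
    by_cases hz0 : z 0 = 0
    · rw [h0 z hz0]
      have hz1 : z 1 ≠ 0 := by
        intro h1
        apply hz
        funext i
        fin_cases i
        · exact hz0
        · exact h1
      exact mul_ne_zero (h none) (pow_ne_zero _ hz1)
    · rw [h1 z hz0]
      exact mul_ne_zero (pow_ne_zero _ hz0) (h _)

open Classical in
theorem card_zeros_le [Fintype k] (a : Fin (d + 1) → k) (ha : a ≠ 0) :
    (Finset.univ.filter fun P : Option k => ev P a = 0).card ≤ d := by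
  set f : Polynomial k := ∑ i : Fin (d + 1), Polynomial.C (a i) * Polynomial.X ^ (d - (i : ℕ)) with hf
  have hcoef : ∀ i : Fin (d + 1), f.coeff (d - (i : ℕ)) = a i := by
    intro i
    rw [hf, Polynomial.finsetSum_coeff, Finset.sum_eq_single i]
    · rw [Polynomial.coeff_C_mul, Polynomial.coeff_X_pow, if_pos rfl, mul_one]
    · intro j _ hj
      rw [Polynomial.coeff_C_mul, Polynomial.coeff_X_pow, if_neg, mul_zero]
      intro h
      apply hj
      have h1 := i.2
      have h2 := j.2
      exact Fin.ext (by omega)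
    · intro h
      exact absurd (Finset.mem_univ _) h
  have hf0 : f ≠ 0 := by
    intro h
    apply ha
    funext i
    rw [← hcoef i, h, Polynomial.coeff_zero]
    rfl
  have hdeg : f.natDegree ≤ d := by
    refine Polynomial.natDegree_sum_le_of_forall_le _ _ fun i _ => ?_
    exact (Polynomial.natDegree_C_mul_X_pow_le _ _).trans (Nat.sub_le _ _)
  have hev : ∀ t : k, ev (some t) a = f.eval t := by
    intro t
    rw [hf, Polynomial.eval_finsetSum]
    change ∑ i : Fin (d + 1), a i * t ^ (d - (i : ℕ)) = _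
    refine Finset.sum_congr rfl fun i _ => ?_
    simp
  have hroots : (Finset.univ.filter fun t : k => ev (some t) a = 0).card ≤ f.natDegree := by
    refine le_trans (Finset.card_le_card ?_) ((Multiset.toFinset_card_le f.roots).trans
      (Polynomial.card_roots' f))
    intro t ht
    rw [Finset.mem_filter] at ht
    rw [Multiset.mem_toFinset, Polynomial.mem_roots hf0, Polynomial.IsRoot.def, ← hev t]
    exact ht.2
  have hsub : (Finset.univ.filter fun P : Option k => ev P a = 0) ⊆
      (Finset.univ.filter fun t : k => ev (some t) a = 0).map Function.Embedding.some ∪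
        (if a 0 = 0 then {none} else ∅) := by
    intro P hP
    rw [Finset.mem_filter] at hP
    rw [Finset.mem_union]
    cases P with
    | none =>
      right
      have h1 : a 0 = 0 := hP.2
      rw [if_pos h1]
      exact Finset.mem_singleton_self _
    | some t =>
      left
      rw [Finset.mem_map]
      exact ⟨t, Finset.mem_filter.2 ⟨Finset.mem_univ _, hP.2⟩, rfl⟩
  refine (Finset.card_le_card hsub).trans ((Finset.card_union_le _ _).trans ?_)
  rw [Finset.card_map]
  by_cases h0 : a 0 = 0
  · rw [if_pos h0, Finset.card_singleton]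
    have h1 : f.natDegree ≠ d := by
      intro h2
      have h3 := hcoef 0
      rw [Fin.val_zero, Nat.sub_zero, h0, ← h2] at h3
      exact hf0 (Polynomial.leadingCoeff_eq_zero.1 h3)
    omega
  · rw [if_neg h0, Finset.card_empty]
    omega

/-- the kernel of a surjective map -/
theorem card_ker {W : Type} [AddCommGroup W] [Module k W] [Finite k]
    (φ : (Fin (d + 1) → k) →ₗ[k] W) (hφ : Function.Surjective φ) :
    Nat.card {a : Fin (d + 1) → k // φ a = 0} * Nat.card W = Nat.card k ^ (d + 1) := by
  have h1 := Submodule.card_eq_card_quotient_mul_card (LinearMap.ker φ)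
  have h2 : Nat.card ((Fin (d + 1) → k) ⧸ LinearMap.ker φ) = Nat.card W :=
    Nat.card_congr (φ.quotKerEquivOfSurjective hφ).toEquiv
  have h3 : Nat.card (Fin (d + 1) → k) = Nat.card k ^ (d + 1) := by
    rw [Nat.card_fun, Nat.card_fin]
  have h4 : Nat.card {a : Fin (d + 1) → k // φ a = 0} = Nat.card (LinearMap.ker φ) :=
    Nat.card_congr (Equiv.subtypeEquivRight fun a => LinearMap.mem_ker.symm)
  rw [h2, h3] at h1
  rw [h1, h4]

/-- evaluation as a linear map -/
def evl (P : Option k) : (Fin (d + 1) → k) →ₗ[k] k where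
  toFun := ev P
  map_add' a b := by
    cases P with
    | none => rfl
    | some t =>
      change ∑ i : Fin (d + 1), (a i + b i) * _ = (∑ i : Fin (d + 1), a i * _) + ∑ i : Fin (d + 1), b i * _
      rw [← Finset.sum_add_distrib]
      exact Finset.sum_congr rfl fun i _ => add_mul _ _ _
  map_smul' c a := by
    cases P with
    | none => rfl
    | some t =>
      change ∑ i : Fin (d + 1), (c * a i) * _ = c * ∑ i : Fin (d + 1), a i * _
      rw [Finset.mul_sum]
      exact Finset.sum_congr rfl fun i _ => mul_assoc _ _ _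

theorem ev_some_single (t : k) (i : Fin (d + 1)) (c : k) :
    ev (some t) (Pi.single i c) = c * t ^ (d - (i : ℕ)) := by
  classical
  change ∑ j : Fin (d + 1), (Pi.single i c : Fin (d + 1) → k) j * t ^ (d - (j : ℕ)) = _
  rw [Finset.sum_eq_single i]
  · rw [Pi.single_eq_same]
  · intro j _ hj
    rw [Pi.single_eq_of_ne hj, zero_mul]
  · intro h
    exact absurd (Finset.mem_univ _) h

theorem evl_surj (P : Option k) : Function.Surjective (evl (d := d) P) := by
  classical
  intro c
  cases P with
  | none =>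
    refine ⟨Pi.single 0 c, ?_⟩
    change (Pi.single 0 c : Fin (d + 1) → k) 0 = c
    exact Pi.single_eq_same _ _
  | some t =>
    refine ⟨Pi.single (Fin.last d) c, ?_⟩
    change ev (some t) _ = c
    rw [ev_some_single, Fin.val_last, Nat.sub_self, pow_zero, mul_one]

theorem evl2_surj (hd : 1 ≤ d) (P Q : Option k) (hPQ : P ≠ Q) :
    Function.Surjective ((evl (d := d) P).prod (evl Q)) := by
  classical
  -- it is enough to find a vector with values (1, 0) and one with (0, 1)
  have key : ∀ P Q : Option k, P ≠ Q → ∃ a : Fin (d + 1) → k, ev P a = 1 ∧ ev Q a = 0 := by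
    intro P Q hPQ
    cases P with
    | none =>
      cases Q with
      | none => exact absurd rfl hPQ
      | some t =>
        refine ⟨Pi.single 0 1 + Pi.single (Fin.last d) (-t ^ d), ?_, ?_⟩
        · change (Pi.single 0 1 + Pi.single (Fin.last d) (-t ^ d) : Fin (d + 1) → k) 0 = 1
          have h : (0 : Fin (d + 1)) ≠ Fin.last d := by
            intro h
            have := congrArg Fin.val h
            rw [Fin.val_last, Fin.val_zero] at this
            omega
          rw [Pi.add_apply, Pi.single_eq_same, Pi.single_eq_of_ne h, add_zero]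
        · have h := (evl (d := d) (some t)).map_add (Pi.single 0 1)
            (Pi.single (Fin.last d) (-t ^ d))
          change ev (some t) _ = ev (some t) _ + ev (some t) _ at h
          rw [h, ev_some_single, ev_some_single, Fin.val_last, Nat.sub_self, Fin.val_zero]
          simp
    | some s =>
      cases Q with
      | none =>
        refine ⟨Pi.single (Fin.last d) 1, ?_, ?_⟩
        · rw [ev_some_single, Fin.val_last, Nat.sub_self, pow_zero, mul_one]
        · change (Pi.single (Fin.last d) 1 : Fin (d + 1) → k) 0 = 0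
          refine Pi.single_eq_of_ne ?_ _
          intro h
          have := congrArg Fin.val h
          rw [Fin.val_last, Fin.val_zero] at this
          omega
      | some t =>
        have hst : s - t ≠ 0 := by
          intro h
          exact hPQ (by rw [sub_eq_zero.1 h])
        have h1 : d - 1 < d + 1 := by omega
        refine ⟨Pi.single ⟨d - 1, h1⟩ (s - t)⁻¹ + Pi.single (Fin.last d) (-(t * (s - t)⁻¹)), ?_, ?_⟩
        · have h := (evl (d := d) (some s)).map_add (Pi.single ⟨d - 1, h1⟩ (s - t)⁻¹)
            (Pi.single (Fin.last d) (-(t * (s - t)⁻¹)))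
          change ev (some s) _ = ev (some s) _ + ev (some s) _ at h
          rw [h, ev_some_single, ev_some_single, Fin.val_last, Nat.sub_self]
          have h2 : d - (d - 1) = 1 := by omega
          simp only [h2, pow_one, pow_zero, mul_one]
          field_simp
          ring
        · have h := (evl (d := d) (some t)).map_add (Pi.single ⟨d - 1, h1⟩ (s - t)⁻¹)
            (Pi.single (Fin.last d) (-(t * (s - t)⁻¹)))
          change ev (some t) _ = ev (some t) _ + ev (some t) _ at h
          rw [h, ev_some_single, ev_some_single, Fin.val_last, Nat.sub_self]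
          have h2 : d - (d - 1) = 1 := by omega
          simp only [h2, pow_one, pow_zero, mul_one]
          ring
  obtain ⟨a, ha1, ha2⟩ := key P Q hPQ
  obtain ⟨b, hb1, hb2⟩ := key Q P hPQ.symm
  rintro ⟨x, y⟩
  refine ⟨x • a + y • b, ?_⟩
  have e1 : evl (d := d) P (x • a + y • b) = x := by
    rw [map_add, map_smul, map_smul]
    change x * ev P a + y * ev P b = x
    rw [ha1, hb2, mul_one, mul_zero, add_zero]
  have e2 : evl (d := d) Q (x • a + y • b) = y := by
    rw [map_add, map_smul, map_smul]
    change x * ev Q a + y * ev Q b = y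
    rw [ha2, hb1, mul_one, mul_zero, zero_add]
  exact Prod.ext e1 e2

theorem card_zero [Finite k] (P : Option k) :
    Nat.card {a : Fin (d + 1) → k // ev P a = 0} * Nat.card k = Nat.card k ^ (d + 1) :=
  card_ker (evl P) (evl_surj P)

theorem card_zero2 [Finite k] (hd : 1 ≤ d) (P Q : Option k) (hPQ : P ≠ Q) :
    Nat.card {a : Fin (d + 1) → k // ev P a = 0 ∧ ev Q a = 0} * Nat.card k ^ 2 =
      Nat.card k ^ (d + 1) := by
  have h1 := card_ker ((evl (d := d) P).prod (evl Q)) (evl2_surj hd P Q hPQ)
  rw [Nat.card_prod, ← sq] at h1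
  rw [← h1]
  congr 1
  refine Nat.card_congr (Equiv.subtypeEquivRight fun a => ?_)
  change _ ↔ (evl P a, evl Q a) = (0, 0)
  rw [Prod.mk.injEq]
  rfl

open Classical in
/-- number of zeros of a form -/
noncomputable def nz [Fintype k] (a : Fin (d + 1) → k) : ℕ :=
  (Finset.univ.filter fun P : Option k => ev P a = 0).card

open Classical in
theorem sum_nz [Fintype k] : (∑ a : Fin (d + 1) → k, nz a) * Fintype.card k =
    (Fintype.card k + 1) * Fintype.card k ^ (d + 1) := by
  have h1 : ∑ a : Fin (d + 1) → k, nz a =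
      ∑ P : Option k, (Finset.univ.filter fun a : Fin (d + 1) → k => ev P a = 0).card := by
    simp only [nz, Finset.card_filter]
    exact Finset.sum_comm
  have h2 : ∀ P : Option k, (Finset.univ.filter fun a : Fin (d + 1) → k => ev P a = 0).card *
      Fintype.card k = Fintype.card k ^ (d + 1) := by
    intro P
    have h3 := card_zero (d := d) P
    rw [Nat.card_eq_fintype_card, Nat.card_eq_fintype_card, Fintype.card_subtype] at h3
    exact h3
  rw [h1, Finset.sum_mul, Finset.sum_congr rfl fun P _ => h2 P, Finset.sum_const, Finset.card_univ,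
    Fintype.card_option, smul_eq_mul]

open Classical in
theorem sum_nz2 [Fintype k] (hd : 1 ≤ d) :
    (∑ a : Fin (d + 1) → k, nz a * (nz a - 1)) * Fintype.card k ^ 2 =
    ((Fintype.card k + 1) * Fintype.card k) * Fintype.card k ^ (d + 1) := by
  have h1 : ∀ a : Fin (d + 1) → k, nz a * (nz a - 1) =
      ∑ p ∈ (Finset.univ : Finset (Option k)).offDiag, if ev p.1 a = 0 ∧ ev p.2 a = 0 then 1 else 0 := by
    intro a
    have h2 : nz a * (nz a - 1) =
        ((Finset.univ.filter fun P : Option k => ev P a = 0).offDiag).card := by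
      rw [Finset.offDiag_card, Nat.mul_sub, mul_one]
      rfl
    rw [h2, ← Finset.card_filter]
    congr 1
    ext ⟨P, Q⟩
    simp only [Finset.mem_offDiag, Finset.mem_filter, Finset.mem_univ, true_and]
    tauto
  have h3 : ∀ p ∈ (Finset.univ : Finset (Option k)).offDiag,
      (∑ a : Fin (d + 1) → k, if ev p.1 a = 0 ∧ ev p.2 a = 0 then 1 else 0) *
        Fintype.card k ^ 2 = Fintype.card k ^ (d + 1) := by
    rintro ⟨P, Q⟩ hp
    rw [Finset.mem_offDiag] at hp
    have h4 := card_zero2 (d := d) hd P Q hp.2.2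
    rw [Nat.card_eq_fintype_card, Nat.card_eq_fintype_card, Fintype.card_subtype] at h4
    rw [← Finset.card_filter]
    exact h4
  rw [Finset.sum_congr rfl fun a _ => h1 a, Finset.sum_comm, Finset.sum_mul,
    Finset.sum_congr rfl h3, Finset.sum_const, Finset.offDiag_card, Finset.card_univ,
    Fintype.card_option, smul_eq_mul]
  congr 1
  rw [← Nat.mul_sub_one, Nat.add_sub_cancel]

end CntA

open CntA in
open Classical in
theorem free_card {k : Type} [Field k] [Finite k] {d : ℕ} (hd : 2 ≤ d)
    (hq : 8 * d ≤ Nat.card k) :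
    (Nat.card k : ℝ) ^ (d + 1) / (4 * d) ≤
      (({a | Free a} : Set (Fin (d + 1) → k)).ncard : ℝ) := by
  have := Fintype.ofFinite k
  rw [Nat.card_eq_fintype_card] at hq ⊢
  set q := Fintype.card k with hqdef
  have hq0 : 0 < q := by omega
  -- the free forms are the ones with `nz a = 0`
  have hfree : ({a | Free a} : Set (Fin (d + 1) → k)).ncard =
      (Finset.univ.filter fun a : Fin (d + 1) → k => nz a = 0).card := by
    rw [← Set.ncard_coe_finset]
    congr 1
    ext a
    simp only [Finset.coe_filter, Finset.mem_univ, true_and, Set.mem_ofPred_eq]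
    rw [free_iff, nz, Finset.card_eq_zero, Finset.filter_eq_empty_iff]
    simp
  have hS1 : ∑ a : Fin (d + 1) → k, (nz a : ℝ) = (q + 1) * (q : ℝ) ^ d := by
    have h := sum_nz (k := k) (d := d)
    have hq' : (q : ℝ) ≠ 0 := by exact_mod_cast hq0.ne'
    apply mul_right_cancel₀ hq'
    have h' : ((∑ a : Fin (d + 1) → k, nz a : ℕ) : ℝ) * (q : ℝ) = (q + 1) * (q : ℝ) ^ (d + 1) := by
      exact_mod_cast h
    rw [Nat.cast_sum] at h'
    rw [h']
    ring
  have hS2 : ∑ a : Fin (d + 1) → k, ((nz a : ℝ) * (nz a - 1)) = (q + 1) * (q : ℝ) ^ d := by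
    have h := sum_nz2 (k := k) (d := d) (by omega)
    have hq' : (q : ℝ) ^ 2 ≠ 0 := by positivity
    apply mul_right_cancel₀ hq'
    have h' : ((∑ a : Fin (d + 1) → k, nz a * (nz a - 1) : ℕ) : ℝ) * (q : ℝ) ^ 2 =
        ((q + 1) * q) * (q : ℝ) ^ (d + 1) := by
      exact_mod_cast h
    have h2 : ((∑ a : Fin (d + 1) → k, nz a * (nz a - 1) : ℕ) : ℝ) =
        ∑ a : Fin (d + 1) → k, ((nz a : ℝ) * (nz a - 1)) := by
      rw [Nat.cast_sum]
      refine Finset.sum_congr rfl fun a _ => ?_
      rcases Nat.eq_zero_or_pos (nz a) with h0 | h0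
      · rw [h0]; simp
      · rw [Nat.cast_mul, Nat.cast_sub h0, Nat.cast_one]
    rw [← h2, h']
    ring
  -- the value at the zero form
  have hz0 : nz (0 : Fin (d + 1) → k) = q + 1 := by
    have : (Finset.univ.filter fun P : Option k => ev P (0 : Fin (d + 1) → k) = 0) = Finset.univ := by
      ext P
      simp only [Finset.mem_filter, Finset.mem_univ, true_and, iff_true]
      exact (evl (d := d) P).map_zero
    rw [nz, this, Finset.card_univ, Fintype.card_option]
  -- pointwise inequality
  have hpt : ∀ a : Fin (d + 1) → k, a ≠ 0 →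
      (d : ℝ) - (d : ℝ) * (if nz a = 0 then 1 else 0) ≤ d * nz a - nz a * (nz a - 1) := by
    intro a ha
    have h1 := card_zeros_le a ha
    change nz a ≤ d at h1
    split_ifs with h0
    · rw [h0]; simp
    · have h2 : (1 : ℝ) ≤ nz a := by exact_mod_cast Nat.one_le_iff_ne_zero.2 h0
      have h3 : (nz a : ℝ) ≤ d := by exact_mod_cast h1
      nlinarith
  have hpt0 : (d : ℝ) - (d : ℝ) * (if nz (0 : Fin (d + 1) → k) = 0 then 1 else 0) =
      (d * nz (0 : Fin (d + 1) → k) - nz (0 : Fin (d + 1) → k) * (nz (0 : Fin (d + 1) → k) - 1)) +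
        (d - (d * (q + 1) - (q + 1) * q)) := by
    rw [hz0, if_neg (by omega)]
    push_cast
    ring
  have hsum : ∑ a : Fin (d + 1) → k, ((d : ℝ) - (d : ℝ) * (if nz a = 0 then 1 else 0)) ≤
      ∑ a : Fin (d + 1) → k, ((d : ℝ) * nz a - nz a * (nz a - 1)) +
        (d - (d * (q + 1) - (q + 1) * q)) := by
    rw [← Finset.add_sum_erase _ _ (Finset.mem_univ (0 : Fin (d + 1) → k)), hpt0,
      ← Finset.add_sum_erase Finset.univ (fun a : Fin (d + 1) → k =>
        (d : ℝ) * nz a - nz a * (nz a - 1)) (Finset.mem_univ (0 : Fin (d + 1) → k))]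
    have : ∑ a ∈ Finset.univ.erase (0 : Fin (d + 1) → k),
        ((d : ℝ) - (d : ℝ) * (if nz a = 0 then 1 else 0)) ≤
        ∑ a ∈ Finset.univ.erase (0 : Fin (d + 1) → k), ((d : ℝ) * nz a - nz a * (nz a - 1)) :=
      Finset.sum_le_sum fun a ha => hpt a (Finset.mem_erase.1 ha).1
    linarith
  rw [Finset.sum_sub_distrib, Finset.sum_const, Finset.card_univ, ← Finset.mul_sum,
    Finset.sum_sub_distrib, ← Finset.mul_sum, hS1, hS2, Fintype.card_fun, Fintype.card_fin,
    nsmul_eq_mul, Finset.sum_boole] at hsum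
  rw [hfree, div_le_iff₀ (by positivity)]
  push_cast at hsum
  have hqd : (8 : ℝ) * d ≤ q := by exact_mod_cast hq
  have hd' : (2 : ℝ) ≤ d := by exact_mod_cast hd
  have hQ : (q : ℝ) ^ 2 ≤ (q : ℝ) ^ d := pow_le_pow_right₀ (by linarith) hd
  have hpow : (q : ℝ) ^ (d + 1) = q * (q : ℝ) ^ d := by ring
  set Q : ℝ := (q : ℝ) ^ d with hQdef
  have hQ0 : 0 < Q := by positivity
  have h1 : 8 * (d : ℝ) * Q ≤ q * Q := mul_le_mul_of_nonneg_right hqd hQ0.le
  have h2 : 16 * Q ≤ q * Q := mul_le_mul_of_nonneg_right (by linarith) hQ0.le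
  have h3 : (q : ℝ) ≤ d * q := by nlinarith
  rw [hpow] at hsum ⊢
  nlinarith

open Classical in
theorem free_pairs {k : Type} [Field k] [Finite k] {d : ℕ} (hd : 2 ≤ d)
    (hq : 8 * d ≤ Nat.card k) (x y : Fin 2 → k) (h : wd x y ≠ 0) :
    (Nat.card k : ℝ) ^ (2 * (d + 1)) / (4 * d) ^ 2 ≤
      (({t | ∀ z : Fin 2 → k, z ≠ 0 → wd (app (tp (d := d) t) z) x ≠ 0 ∧
        wd (app (tp (d := d) t) z) y ≠ 0} : Set (Fin (2 * (d + 1)) → k)).ncard : ℝ) := by
  have h1 := free_card hd hq
  set A : Set (Fin (d + 1) → k) := {a | Free a} with hA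
  -- the two combinations
  let f : (Fin (2 * (d + 1)) → k) → (Fin (d + 1) → k) × (Fin (d + 1) → k) := fun t =>
    (fun j => t (finProdFinEquiv ((0 : Fin 2), j)) * x 1 - t (finProdFinEquiv ((1 : Fin 2), j)) * x 0,
     fun j => t (finProdFinEquiv ((0 : Fin 2), j)) * y 1 - t (finProdFinEquiv ((1 : Fin 2), j)) * y 0)
  have hwd : ∀ (t : Fin (2 * (d + 1)) → k) (z w : Fin 2 → k),
      wd (app (tp (d := d) t) z) w = MvPolynomial.eval z
        (fm fun j : Fin (d + 1) => t (finProdFinEquiv ((0 : Fin 2), j)) * w 1 -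
          t (finProdFinEquiv ((1 : Fin 2), j)) * w 0) := by
    intro t z w
    have e0 : ∀ i : Fin 2, app (tp (d := d) t) z i = MvPolynomial.eval z
        (fm fun j : Fin (d + 1) => t (finProdFinEquiv (i, j))) := fun i => rfl
    unfold wd
    rw [e0 0, e0 1, CntA.eval_fm, CntA.eval_fm, CntA.eval_fm, Finset.sum_mul, Finset.sum_mul,
      ← Finset.sum_sub_distrib]
    refine Finset.sum_congr rfl fun i _ => ?_
    ring
  have hset : ({t | ∀ z : Fin 2 → k, z ≠ 0 → wd (app (tp (d := d) t) z) x ≠ 0 ∧
        wd (app (tp (d := d) t) z) y ≠ 0} : Set (Fin (2 * (d + 1)) → k)) = f ⁻¹' (A ×ˢ A) := by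
    ext t
    constructor
    · intro ht
      exact ⟨fun z hz => by rw [← hwd]; exact (ht z hz).1, fun z hz => by rw [← hwd]; exact (ht z hz).2⟩
    · rintro ⟨ht1, ht2⟩ z hz
      rw [hwd, hwd]
      exact ⟨ht1 z hz, ht2 z hz⟩
  have hbij : Function.Bijective f := by
    constructor
    · intro t t' htt
      have e1 : ∀ j, t (finProdFinEquiv ((0 : Fin 2), j)) = t' (finProdFinEquiv ((0 : Fin 2), j)) ∧
          t (finProdFinEquiv ((1 : Fin 2), j)) = t' (finProdFinEquiv ((1 : Fin 2), j)) := by
        intro j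
        have e2 := congrFun (congrArg Prod.fst htt) j
        have e3 := congrFun (congrArg Prod.snd htt) j
        change t (finProdFinEquiv ((0 : Fin 2), j)) * x 1 - t (finProdFinEquiv ((1 : Fin 2), j)) * x 0 =
          t' (finProdFinEquiv ((0 : Fin 2), j)) * x 1 - t' (finProdFinEquiv ((1 : Fin 2), j)) * x 0 at e2
        change t (finProdFinEquiv ((0 : Fin 2), j)) * y 1 - t (finProdFinEquiv ((1 : Fin 2), j)) * y 0 =
          t' (finProdFinEquiv ((0 : Fin 2), j)) * y 1 - t' (finProdFinEquiv ((1 : Fin 2), j)) * y 0 at e3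
        unfold wd at h
        constructor
        · apply mul_left_cancel₀ h
          linear_combination (-(y 0)) * e2 + (x 0) * e3
        · apply mul_left_cancel₀ h
          linear_combination (-(y 1)) * e2 + (x 1) * e3
      funext i
      obtain ⟨⟨a, j⟩, rfl⟩ := finProdFinEquiv.surjective i
      fin_cases a
      · exact (e1 j).1
      · exact (e1 j).2
    · rintro ⟨a, b⟩
      let g : Fin 2 × Fin (d + 1) → k := fun p =>
        if p.1 = 0 then (wd x y)⁻¹ * (x 0 * b p.2 - y 0 * a p.2)
        else (wd x y)⁻¹ * (x 1 * b p.2 - y 1 * a p.2)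
      refine ⟨fun i => g (finProdFinEquiv.symm i), Prod.ext ?_ ?_⟩
      · funext j
        change g (finProdFinEquiv.symm (finProdFinEquiv ((0 : Fin 2), j))) * x 1 -
          g (finProdFinEquiv.symm (finProdFinEquiv ((1 : Fin 2), j))) * x 0 = a j
        rw [Equiv.symm_apply_apply, Equiv.symm_apply_apply]
        change (wd x y)⁻¹ * (x 0 * b j - y 0 * a j) * x 1 -
          (wd x y)⁻¹ * (x 1 * b j - y 1 * a j) * x 0 = a j
        have e : (wd x y)⁻¹ * (x 0 * b j - y 0 * a j) * x 1 -
          (wd x y)⁻¹ * (x 1 * b j - y 1 * a j) * x 0 = (wd x y)⁻¹ * wd x y * a j := by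
          unfold wd
          ring
        rw [e, inv_mul_cancel₀ h, one_mul]
      · funext j
        change g (finProdFinEquiv.symm (finProdFinEquiv ((0 : Fin 2), j))) * y 1 -
          g (finProdFinEquiv.symm (finProdFinEquiv ((1 : Fin 2), j))) * y 0 = b j
        rw [Equiv.symm_apply_apply, Equiv.symm_apply_apply]
        change (wd x y)⁻¹ * (x 0 * b j - y 0 * a j) * y 1 -
          (wd x y)⁻¹ * (x 1 * b j - y 1 * a j) * y 0 = b j
        have e : (wd x y)⁻¹ * (x 0 * b j - y 0 * a j) * y 1 -
          (wd x y)⁻¹ * (x 1 * b j - y 1 * a j) * y 0 = (wd x y)⁻¹ * wd x y * b j := by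
          unfold wd
          ring
        rw [e, inv_mul_cancel₀ h, one_mul]
  have hcard : (f ⁻¹' (A ×ˢ A)).ncard = A.ncard * A.ncard := by
    rw [← Set.ncard_prod]
    exact Set.ncard_preimage_of_injective_subset_range hbij.1 (by
      rw [hbij.2.range_eq]
      exact Set.subset_univ _)
  rw [hset, hcard]
  push_cast
  have e : (Nat.card k : ℝ) ^ (2 * (d + 1)) / (4 * d) ^ 2 =
      ((Nat.card k : ℝ) ^ (d + 1) / (4 * d)) * ((Nat.card k : ℝ) ^ (d + 1) / (4 * d)) := by
    rw [two_mul, pow_add]
    ring
  rw [e]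
  exact mul_le_mul h1 h1 (by positivity) (by positivity)

end Pool.Agent.AAP
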