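import Mathlib
import Pool.Agent.AAP.Ovr
import Pool.Agent.TameArb.TameGen

set_option autoImplicit false

/-!
# Frobenius elements move the fibres
-/

namespace Pool.Agent.AAP

open NumberField IsDedekindDomain Polynomial
open scoped WithZero
open Pool.Agent.PNH (Tup app mp IsMor Cert)
open Pool.Agent.TameArb (Over exists_frob)

namespace FrbA

/-! ### the residue field -/

section Res

variable {L : Type} [Field L] (V : Valuation L ℤᵐ⁰)

theorem mem_O {x : L} : x ∈ V.valuationSubring ↔ V x ≤ 1 := V.mem_valuationSubring_iff x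

/-- the residue class of an integral element -/
noncomputable def rs (x : L) (hx : V x ≤ 1) : IsLocalRing.ResidueField V.valuationSubring :=
  IsLocalRing.residue V.valuationSubring ⟨x, (mem_O V).2 hx⟩

theorem residue_eq_zero (x : V.valuationSubring) :
    IsLocalRing.residue V.valuationSubring x = 0 ↔ V (x : L) < 1 := by
  rw [IsLocalRing.residue_eq_zero_iff, IsLocalRing.mem_maximalIdeal, mem_nonunits_iff,
    ← not_iff_not, not_not, not_lt]
  constructor
  · intro hu
    obtain ⟨w, hw⟩ := hu.exists_right_inv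
    have h3 : V (x : L) * V (w : L) = 1 := by
      rw [← map_mul]
      have h4 : (x : L) * (w : L) = 1 := by
        have := congrArg (Subtype.val) hw
        simpa using this
      rw [h4, map_one]
    have h4 : V (w : L) ≤ 1 := (mem_O V).1 w.2
    calc (1 : ℤᵐ⁰) = V (x : L) * V (w : L) := h3.symm
      _ ≤ V (x : L) * 1 := mul_le_mul_of_nonneg_left h4 zero_le
      _ = V (x : L) := mul_one _
  · intro hx
    have hx1 : V (x : L) = 1 := le_antisymm ((mem_O V).1 x.2) hx
    have hx0 : (x : L) ≠ 0 := fun h => by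
      rw [h, map_zero] at hx1
      exact zero_ne_one hx1
    have h3 : ((x : L)⁻¹) ∈ V.valuationSubring := by
      rw [mem_O, map_inv₀, hx1, inv_one]
    refine IsUnit.of_mul_eq_one (⟨(x : L)⁻¹, h3⟩ : V.valuationSubring) ?_
    ext
    simp [hx0]

theorem rs_eq {x y : L} (hx : V x ≤ 1) (hy : V y ≤ 1) : rs V x hx = rs V y hy ↔ V (x - y) < 1 := by
  unfold rs
  rw [← sub_eq_zero, ← map_sub, residue_eq_zero]
  rfl

open Classical in
/-- the elements of the residue field with `a ^ q = a` -/
noncomputable def Fq (q : ℕ) : Finset (IsLocalRing.ResidueField V.valuationSubring) :=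
  (X ^ q - X : (IsLocalRing.ResidueField V.valuationSubring)[X]).roots.toFinset

theorem poly_ne {κ : Type} [Field κ] {q : ℕ} (hq : 1 < q) : (X ^ q - X : κ[X]) ≠ 0 := by
  intro h
  have h3 := congrArg (fun P => coeff P q) h
  simp only [coeff_sub, coeff_X_pow_self, coeff_zero] at h3
  rw [coeff_X_of_ne_one (by omega), sub_zero] at h3
  exact one_ne_zero h3

theorem card_Fq {q : ℕ} (hq : 1 < q) : (Fq V q).card ≤ q := by
  classical
  unfold Fq
  refine (Multiset.toFinset_card_le _).trans ((card_roots' _).trans ?_)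
  refine (natDegree_sub_le _ _).trans (max_le ?_ ?_)
  · exact natDegree_X_pow_le _
  · exact natDegree_X_le.trans hq.le

theorem mem_Fq {q : ℕ} (hq : 1 < q) {x : L} (hx : V x ≤ 1) :
    rs V x hx ∈ Fq V q ↔ V (x - x ^ q) < 1 := by
  classical
  unfold Fq
  rw [Multiset.mem_toFinset, mem_roots (poly_ne hq), IsRoot.def, eval_sub, eval_pow, eval_X]
  have hxq : V (x ^ q) ≤ 1 := by
    rw [map_pow]
    exact pow_le_one' hx q
  have h1 : rs V x hx ^ q = rs V (x ^ q) hxq := by
    unfold rs
    rw [← map_pow]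
    rfl
  rw [h1, sub_eq_zero, rs_eq, Valuation.map_sub_swap]

end Res

/-- a vector proportional to its image under an automorphism, normalised -/
theorem exists_fixed {L : Type} [Field L] {V : Valuation L ℤᵐ⁰} (h : L →+* L) {z : Fin 2 → L}
    (hz : z ≠ 0) (hp : wd (fun i => h (z i)) z = 0) :
    ∃ c : L, c ≠ 0 ∧ nv V (c • z) = 1 ∧ (∃ i, (c • z) i = 1) ∧ ∀ i, h ((c • z) i) = (c • z) i := by
  obtain ⟨c, hc, h1, i, hi⟩ := exists_unitv (v := V) hz
  refine ⟨c, hc, h1, ⟨i, hi⟩, ?_⟩
  set y := c • z with hy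
  have h2 : wd (fun j => h (y j)) y = 0 := by
    have h3 : (fun j => h (y j)) = h c • fun j => h (z j) := by
      funext j
      rw [hy]
      simp [map_mul]
    rw [h3, hy, wd_smul_left, wd_smul_right, hp, mul_zero, mul_zero]
  change h (y 0) * y 1 - h (y 1) * y 0 = 0 at h2
  fin_cases i
  · have hi0 : y 0 = 1 := hi
    have hi' : h (y 0) = 1 := by rw [hi0, map_one]
    rw [hi', hi0, one_mul, mul_one] at h2
    intro j
    fin_cases j
    · exact hi'.trans hi0.symm
    · exact (sub_eq_zero.1 h2).symm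
  · have hi0 : y 1 = 1 := hi
    have hi' : h (y 1) = 1 := by rw [hi0, map_one]
    rw [hi', hi0, one_mul, mul_one] at h2
    intro j
    fin_cases j
    · exact sub_eq_zero.1 h2
    · exact hi'.trans hi0.symm

theorem cg_of_sub {L : Type} [Field L] {V : Valuation L ℤᵐ⁰} {x y : Fin 2 → L} (hx : nv V x = 1)
    (hy : nv V y = 1) (h : ∀ i, V (x i - y i) < 1) : Cg V x y := by
  refine (cg_iff hx hy).2 ⟨1, map_one _, fun i => ?_⟩
  rw [one_mul, Valuation.map_sub_swap]
  exact h i

end FrbA

open FrbA

section Frb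

variable {K : Type} [Field K] [NumberField K]

/-- high fibres, at a good prime -/
theorem frb {d : ℕ} {F : Tup 1 K} (hF : ∀ i, (F i).IsHomogeneous d)
    (v : HeightOneSpectrum (𝓞 K)) (hv : Good (v.valuation K) F) :
    ∃ n : ℕ, ∀ (L : Type) [Field L] [NumberField L] [Algebra K L] [IsGalois K L],
      ∃ h : L ≃ₐ[K] L, ∀ x : Fin 2 → K, x ≠ 0 → ¬ PerMod (v.valuation K) F x →
        ∀ z : Fin 2 → L, z ≠ 0 →
          wd ((app (mp (algebraMap K L) F))^[n] z) (fun i => algebraMap K L (x i)) = 0 →
          wd (fun i => h (z i)) z ≠ 0 := by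
  classical
  set q := Ideal.absNorm v.asIdeal with hq
  have hq1 : 1 < q := HeightOneSpectrum.one_lt_absNorm v
  refine ⟨q ^ 2, fun L _ _ _ _ => ?_⟩
  obtain ⟨w, e, h, he, hval, hpres, hfrob⟩ := exists_frob K L v
  refine ⟨h, fun x hx hper z hz hfib hp => hper ?_⟩
  set V := w.valuation L with hV
  have hov : Over (v.valuation K) V e := ⟨he, hval⟩
  have hG : Good V (mp (algebraMap K L) F) := Over.good hov hv
  have hFL : ∀ i, (mp (algebraMap K L) F i).IsHomogeneous d := fun i => (hF i).map _
  set Z : ℕ → Fin 2 → L := fun j => (app (mp (algebraMap K L) F))^[j] z with hZ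
  have hZ0 : ∀ j, Z j ≠ 0 := fun j => good_iter_ne hFL hG j hz
  have hZp : ∀ j, wd (fun i => h (Z j i)) (Z j) = 0 := by
    intro j
    have h1 : (fun i => h (Z j i)) = (app (mp (algebraMap K L) F))^[j] (fun i => h (z i)) :=
      (iter_aut h F j z).symm
    rw [h1]
    -- `h z` is a multiple of `z`
    obtain ⟨c, hc, -, -, hfix⟩ := exists_fixed (V := V) (h : L →+* L) hz hp
    have h2 : (fun i => h (z i)) = (h c)⁻¹ • (c • z) := by
      funext i
      have h3 : h (c * z i) = c * z i := hfix i
      rw [map_mul] at h3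
      have h4 : h c ≠ 0 := (map_ne_zero h).2 hc
      simp only [Pi.smul_apply, smul_eq_mul]
      rw [← h3, inv_mul_cancel_left₀ h4]
    rw [h2, smul_smul, iter_smul hFL, wd_smul_left, hZ]
    simp only
    rw [wd_self, mul_zero]
  choose c hc hc1 hci hcfix using fun j => exists_fixed (V := V) (h : L →+* L) (hZ0 j) (hZp j)
  set Y : ℕ → Fin 2 → L := fun j => c j • Z j with hY
  have hYle : ∀ j i, V (Y j i) ≤ 1 := fun j i => (hc1 j) ▸ le_nv (v := V) (Y j) i
  have hYq : ∀ j i, V (Y j i - Y j i ^ q) < 1 := by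
    intro j i
    have h1 := hfrob (Y j i) (hYle j i)
    have h2 : h (Y j i) = Y j i := hcfix j i
    rwa [h2] at h1
  have hmaps : ∀ j ∈ Finset.range (q ^ 2 + 1),
      (rs V (Y j 0) (hYle j 0), rs V (Y j 1) (hYle j 1)) ∈ Fq V q ×ˢ Fq V q := by
    intro j _
    rw [Finset.mem_product]
    exact ⟨(mem_Fq V hq1 (hYle j 0)).2 (hYq j 0), (mem_Fq V hq1 (hYle j 1)).2 (hYq j 1)⟩
  have hcard : (Fq V q ×ˢ Fq V q).card < (Finset.range (q ^ 2 + 1)).card := by
    rw [Finset.card_product, Finset.card_range]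
    have h1 := card_Fq V hq1
    have h2 := Nat.mul_le_mul h1 h1
    have h3 : q * q = q ^ 2 := by ring
    omega
  obtain ⟨a, ha, b, hb, hab, heq⟩ := Finset.exists_ne_map_eq_of_card_lt_of_maps_to hcard hmaps
  rw [Prod.mk.injEq, rs_eq, rs_eq] at heq
  have key : ∀ a b : ℕ, a < b → b ≤ q ^ 2 → (∀ i, V (Y a i - Y b i) < 1) →
      PerMod (v.valuation K) F x := by
    intro a b hab hb hi
    have h1 : Cg V (Y a) (Y b) := cg_of_sub (hc1 a) (hc1 b) hi
    have h2 : Cg V (Z a) (Z b) := (cg_smul (hc a) _ _).1 ((cg_smul' (hc b) _ _).1 h1)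
    have h3 := good_cg hFL hG h2 (q ^ 2 - a)
    have h4 : (app (mp (algebraMap K L) F))^[q ^ 2 - a] (Z a) = Z (q ^ 2) := by
      rw [hZ]
      simp only
      rw [← Function.iterate_add_apply]
      congr 1
      omega
    have h5 : (app (mp (algebraMap K L) F))^[q ^ 2 - a] (Z b) =
        (app (mp (algebraMap K L) F))^[b - a] (Z (q ^ 2)) := by
      rw [hZ]
      simp only
      rw [← Function.iterate_add_apply, ← Function.iterate_add_apply]
      congr 1
      omega
    rw [h4, h5] at h3
    have h6 : PerMod V (mp (algebraMap K L) F) (Z (q ^ 2)) := ⟨b - a, by omega, h3.symm⟩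
    have hx' : (fun i => algebraMap K L (x i)) ≠ 0 := by
      intro h0
      refine hx (_root_.funext fun i => ?_)
      have h7 := congrFun h0 i
      exact (map_eq_zero (algebraMap K L)).1 h7
    have h7 : Cg V (Z (q ^ 2)) (fun i => algebraMap K L (x i)) := Cg.of_wd (hZ0 _) hx' hfib
    exact (Over.perMod hov F x).1 (PerMod.of_cg hFL hG h7 h6)
  have ha' := Finset.mem_range.1 ha
  have hb' := Finset.mem_range.1 hb
  rcases lt_or_gt_of_ne hab with hlt | hlt
  · refine key a b hlt (by omega) fun i => ?_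
    fin_cases i
    · exact heq.1
    · exact heq.2
  · refine key b a hlt (by omega) fun i => ?_
    rw [Valuation.map_sub_swap]
    fin_cases i
    · exact heq.1
    · exact heq.2

/-- the integral elements of `L` with `a ^ q = a` modulo `w` are the classes of `𝓞 K` -/
theorem exists_class {L : Type} [Field L] [NumberField L] [Algebra K L]
    (v : HeightOneSpectrum (𝓞 K)) {V : Valuation L ℤᵐ⁰} {e : ℕ} (hov : Over (v.valuation K) V e)
    {a : L} (ha : V a ≤ 1) (haq : V (a - a ^ Ideal.absNorm v.asIdeal) < 1) :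
    ∃ b : 𝓞 K, V (a - algebraMap K L b) < 1 := by
  classical
  set q := Ideal.absNorm v.asIdeal with hq
  have hq1 : 1 < q := HeightOneSpectrum.one_lt_absNorm v
  have hfin : Finite (𝓞 K ⧸ v.asIdeal) := inferInstance
  have := Fintype.ofFinite (𝓞 K ⧸ v.asIdeal)
  have hle : ∀ b : 𝓞 K, V (algebraMap K L b) ≤ 1 := fun b =>
    hov.le_one.2 (v.valuation_le_one b)
  have hlt : ∀ b : 𝓞 K, V (algebraMap K L b) < 1 ↔ b ∈ v.asIdeal := fun b =>
    hov.lt_one.trans (v.valuation_lt_one_iff_mem b)
  -- the classes of `𝓞 K`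
  set f : 𝓞 K ⧸ v.asIdeal → IsLocalRing.ResidueField V.valuationSubring := fun t =>
    rs V (algebraMap K L (Quotient.out t : 𝓞 K)) (hle _) with hf
  have hfinj : Function.Injective f := by
    intro s t hst
    rw [hf] at hst
    simp only at hst
    rw [rs_eq, ← map_sub, ← map_sub] at hst
    have h1 := (hlt _).1 hst
    have h2 := (Ideal.Quotient.mk_eq_mk_iff_sub_mem _ _).2 h1
    rw [Ideal.Quotient.mk_out, Ideal.Quotient.mk_out] at h2
    exact h2
  have hfmem : ∀ t, f t ∈ Fq V q := by
    intro t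
    rw [hf, mem_Fq V hq1, ← map_pow, ← map_sub, ← map_pow, ← map_sub, hlt]
    have h1 : (Ideal.Quotient.mk v.asIdeal (Quotient.out t)) ^ q =
        Ideal.Quotient.mk v.asIdeal (Quotient.out t) := by
      have hmax : v.asIdeal.IsMaximal := v.isMaximal
      let _ : Field (𝓞 K ⧸ v.asIdeal) := Ideal.Quotient.field v.asIdeal
      have h2 := FiniteField.pow_card (Ideal.Quotient.mk v.asIdeal (Quotient.out t))
      rwa [← Nat.card_eq_fintype_card, ← Submodule.cardQuot_apply, ← Ideal.absNorm_apply,
        ← hq] at h2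
    rw [← Ideal.Quotient.eq_zero_iff_mem, map_sub, map_pow, h1, sub_self]
  have hcard : (Finset.univ.image f).card = q := by
    rw [Finset.card_image_of_injective _ hfinj, Finset.card_univ, hq, Ideal.absNorm_apply,
      Submodule.cardQuot_apply, Nat.card_eq_fintype_card]
  have hsub : Finset.univ.image f ⊆ Fq V q := by
    intro c hc
    obtain ⟨t, -, rfl⟩ := Finset.mem_image.1 hc
    exact hfmem t
  have heq : Finset.univ.image f = Fq V q :=
    Finset.eq_of_subset_of_card_le hsub (by rw [hcard]; exact card_Fq V hq1)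
  have hmem : rs V a ha ∈ Finset.univ.image f := by
    rw [heq]
    exact (mem_Fq V hq1 ha).2 haq
  obtain ⟨t, -, ht⟩ := Finset.mem_image.1 hmem
  refine ⟨Quotient.out t, ?_⟩
  rw [hf, rs_eq, Valuation.map_sub_swap] at ht
  exact ht

/-- the first fibre, at any prime with integral coefficients -/
theorem frb1 {d : ℕ} {F : Tup 1 K} (hF : ∀ i, (F i).IsHomogeneous d)
    (v : HeightOneSpectrum (𝓞 K)) (hv : IntT (v.valuation K) F) :
    ∀ (L : Type) [Field L] [NumberField L] [Algebra K L] [IsGalois K L],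
      ∃ h : L ≃ₐ[K] L, ∀ x : Fin 2 → K, nv (v.valuation K) x = 1 →
        (∀ y : Fin 2 → K, nv (v.valuation K) y = 1 → v.valuation K (wd (app F y) x) = 1) →
        ∀ z : Fin 2 → L, z ≠ 0 →
          wd (app (mp (algebraMap K L) F) z) (fun i => algebraMap K L (x i)) = 0 →
          wd (fun i => h (z i)) z ≠ 0 := by
  classical
  intro L _ _ _ _
  set q := Ideal.absNorm v.asIdeal with hq
  obtain ⟨w, e, h, he, hval, hpres, hfrob⟩ := exists_frob K L v
  refine ⟨h, fun x hx hfree z hz hfib hp => ?_⟩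
  set V := w.valuation L with hV
  have hov : Over (v.valuation K) V e := ⟨he, hval⟩
  have hFL : ∀ i, (mp (algebraMap K L) F i).IsHomogeneous d := fun i => (hF i).map _
  obtain ⟨c, hc, hc1, ⟨i₀, hi₀⟩, hfix⟩ := exists_fixed (V := V) (h : L →+* L) hz hp
  set y := c • z with hy
  have hyle : ∀ i, V (y i) ≤ 1 := fun i => hc1 ▸ le_nv (v := V) y i
  have hyq : ∀ i, V (y i - y i ^ q) < 1 := by
    intro i
    have h1 := hfrob (y i) (hyle i)
    have h2 : h (y i) = y i := hfix i
    rwa [h2] at h1
  choose b hb using fun i => exists_class v hov (hyle i) (hyq i)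
  set y' : Fin 2 → K := fun i => (b i : K) with hy'
  have hy'le : ∀ i, v.valuation K (y' i) ≤ 1 := fun i => v.valuation_le_one (b i)
  have hy'1 : nv (v.valuation K) y' = 1 := by
    refine le_antisymm (max_le (hy'le 0) (hy'le 1)) ?_
    have h1 : ¬ v.valuation K (y' i₀) < 1 := by
      intro h2
      have h3 : V (algebraMap K L (y' i₀)) < 1 := hov.lt_one.2 h2
      have h4 := hb i₀
      rw [hi₀] at h4
      have h5 : V (1 - algebraMap K L (b i₀) + algebraMap K L (b i₀)) < 1 :=
        Valuation.map_add_lt _ h4 h3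
      rw [sub_add_cancel, map_one] at h5
      exact lt_irrefl _ h5
    exact (not_lt.1 h1).trans (le_nv (v := v.valuation K) y' i₀)
  have h1 := hfree y' hy'1
  set yL : Fin 2 → L := fun i => algebraMap K L (y' i) with hyL
  have h2 : V (wd (app (mp (algebraMap K L) F) yL) (fun i => algebraMap K L (x i))) = 1 := by
    have h3 : app (mp (algebraMap K L) F) yL = fun i => algebraMap K L (app F y' i) :=
      iter_map F 1 y'
    rw [h3, wd_map, ← hval, h1, one_pow]
  have h3 : wd (app (mp (algebraMap K L) F) y) (fun i => algebraMap K L (x i)) = 0 := by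
    rw [hy, app_smul hFL, wd_smul_left, hfib, mul_zero]
  have hIL : IntT V (mp (algebraMap K L) F) := Over.intT hov hv
  have h4 : ∀ i, V (app (mp (algebraMap K L) F) yL i - app (mp (algebraMap K L) F) y i) < 1 := by
    intro i
    refine eval_sub_lt (hIL i) (fun j => hov.le_one.2 (hy'le j)) hyle fun j => ?_
    rw [Valuation.map_sub_swap]
    exact hb j
  have hxle : ∀ i, V (algebraMap K L (x i)) ≤ 1 := fun i =>
    hov.le_one.2 (hx ▸ le_nv (v := v.valuation K) x i)
  have h5 : V (wd (app (mp (algebraMap K L) F) yL) (fun i => algebraMap K L (x i)) -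
      wd (app (mp (algebraMap K L) F) y) (fun i => algebraMap K L (x i))) < 1 := by
    have h6 : wd (app (mp (algebraMap K L) F) yL) (fun i => algebraMap K L (x i)) -
        wd (app (mp (algebraMap K L) F) y) (fun i => algebraMap K L (x i)) =
        (app (mp (algebraMap K L) F) yL 0 - app (mp (algebraMap K L) F) y 0) *
          algebraMap K L (x 1) -
        (app (mp (algebraMap K L) F) yL 1 - app (mp (algebraMap K L) F) y 1) *
          algebraMap K L (x 0) := by
      unfold wd
      ring
    rw [h6]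
    refine Valuation.map_sub_lt _ ?_ ?_
    · rw [map_mul, mul_comm]
      exact TameArb.mul_lt_one_aux (hxle 1) (h4 0)
    · rw [map_mul, mul_comm]
      exact TameArb.mul_lt_one_aux (hxle 0) (h4 1)
  rw [h3, sub_zero, h2] at h5
  exact lt_irrefl _ h5

end Frb

end Pool.Agent.AAP
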