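import Mathlib
import Pool.Agent.AAP.Den
import Pool.Agent.AAP.Frb

set_option autoImplicit false

/-!
# One good prime gives a positive density of primes
-/

namespace Pool.Agent.AAP

open NumberField IsDedekindDomain Polynomial
open scoped WithZero
open Pool.Agent.PNH (Tup app mp IsMor Cert)
open Pool.Agent.TameArb (PosDens pt Over)

variable {K : Type} [Field K] [NumberField K]

theorem dens_of_mem {d : ℕ} (hd : 2 ≤ d) {F : Tup 1 K} (hF : IsMor d K F)
    (Γ : Finset (Fin 2 → K)) (hΓ : ∀ x ∈ Γ, x ≠ 0) (v : HeightOneSpectrum (𝓞 K))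
    (hv : v ∈ SP F Γ) : PosDens (SP F Γ) := by
  obtain ⟨n, hn⟩ := frb hF.1 v hv.1
  refine dens_of_moves hd hF Γ hΓ n fun L _ _ _ _ => ?_
  obtain ⟨g, hg⟩ := hn L
  exact ⟨g, fun x hx z hz h => hg x (hΓ x hx) (hv.2 x hx) z hz h⟩

end Pool.Agent.AAP
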