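import Mathlib
import Pool.Agent.AAP.Defs
import Pool.Agent.LIM.NullS

set_option autoImplicit false

/-!
# Equidistribution of the integral points of a cube in a finite quotient
-/

namespace Pool.Agent.AAP

open Filter
open Pool.Agent.FAM (Cube)

namespace EquA

theorem mem_cube {R H : ℕ} (s : Fin R → ℤ) :
    s ∈ Cube R H ↔ ∀ i, -(H : ℤ) ≤ s i ∧ s i ≤ H := by
  simp only [Cube, Fintype.mem_piFinset, Finset.mem_Icc]

theorem ev (R L : ℕ) (ε : ℝ) (hε : 0 < ε) : ∃ H₀ : ℕ, ∀ H : ℕ, H₀ ≤ H →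
    (2 * ((H + L : ℕ) : ℝ) + 1) ^ R ≤ (1 + ε) * (2 * (H : ℝ) + 1) ^ R := by
  have h1 : Tendsto (fun H : ℕ => (2 * (L : ℝ)) / (2 * (H : ℝ) + 1)) atTop (nhds 0) :=
    Tendsto.div_atTop tendsto_const_nhds (tendsto_atTop_add_const_right _ 1
      (tendsto_natCast_atTop_atTop.const_mul_atTop two_pos))
  have h2 : Tendsto (fun H : ℕ => (1 + (2 * (L : ℝ)) / (2 * (H : ℝ) + 1)) ^ R) atTop (nhds 1) := by
    have h := (h1.const_add 1).pow R
    rwa [add_zero, one_pow] at h
  obtain ⟨H₀, hH₀⟩ := eventually_atTop.1 (h2.eventually (gt_mem_nhds (show (1 : ℝ) < 1 + ε by linarith)))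
  refine ⟨H₀, fun H hH => ?_⟩
  have h3 := (hH₀ H hH).le
  have h4 : (0 : ℝ) < 2 * (H : ℝ) + 1 := by positivity
  have h5 : 2 * ((H + L : ℕ) : ℝ) + 1 = (1 + (2 * (L : ℝ)) / (2 * (H : ℝ) + 1)) * (2 * (H : ℝ) + 1) := by
    field_simp
    push_cast
    ring
  rw [h5, mul_pow]
  exact mul_le_mul_of_nonneg_right h3 (by positivity)

end EquA

open EquA

open Classical in
theorem equ {R : ℕ} {G : Type} [AddCommGroup G] [Finite G] (ψ : (Fin R → ℤ) →+ G)
    (hψ : Function.Surjective ψ) (A : Set G) (ε : ℝ) (hε : 0 < ε) : ∃ H₀ : ℕ, ∀ H : ℕ, H₀ ≤ H →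
    (((Cube R H).filter fun s => ψ s ∈ A).card : ℝ) ≤
      ((A.ncard : ℝ) / Nat.card G + ε) * (2 * (H : ℝ) + 1) ^ R := by
  have := Fintype.ofFinite G
  choose S hS using hψ
  obtain ⟨L, hL⟩ : ∃ L : ℕ, ∀ g i, (S g i).natAbs ≤ L :=
    ⟨∑ g, ∑ i, (S g i).natAbs, fun g i =>
      (Finset.single_le_sum (f := fun i => (S g i).natAbs) (fun _ _ => Nat.zero_le _)
        (Finset.mem_univ i)).trans
      (Finset.single_le_sum (f := fun g => ∑ i, (S g i).natAbs) (fun _ _ => Nat.zero_le _)
        (Finset.mem_univ g))⟩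
  obtain ⟨H₀, hH₀⟩ := ev R L ε hε
  refine ⟨H₀, fun H hH => ?_⟩
  have hstep : ∀ x g : G, ((Cube R H).filter fun s => ψ s = x).card ≤
      ((Cube R (H + L)).filter fun s => ψ s = x + g).card := by
    intro x g
    refine Finset.card_le_card_of_injOn (fun s => s + S g) (fun s hs => ?_) ?_
    · rw [Finset.mem_coe, Finset.mem_filter, mem_cube] at hs ⊢
      refine ⟨fun i => ?_, ?_⟩
      · have h1 := hs.1 i
        have h2 := hL g i
        change -((H + L : ℕ) : ℤ) ≤ s i + S g i ∧ s i + S g i ≤ ((H + L : ℕ) : ℤ)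
        push_cast
        omega
      · change ψ (s + S g) = x + g
        rw [map_add, hs.2, hS]
    · intro s _ s' _ h
      exact add_right_cancel h
  have hsum : ∀ H' : ℕ, ∑ y : G, ((Cube R H').filter fun s => ψ s = y).card = (Cube R H').card := by
    intro H'
    exact (Finset.card_eq_sum_card_fiberwise (fun s _ => Finset.mem_coe.2 (Finset.mem_univ _))).symm
  have hone : ∀ x : G, Fintype.card G * ((Cube R H).filter fun s => ψ s = x).card ≤
      (Cube R (H + L)).card := by
    intro x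
    rw [← hsum (H + L)]
    calc Fintype.card G * ((Cube R H).filter fun s => ψ s = x).card
        = ∑ _g : G, ((Cube R H).filter fun s => ψ s = x).card := by
          rw [Finset.sum_const, Finset.card_univ, smul_eq_mul]
      _ ≤ ∑ g : G, ((Cube R (H + L)).filter fun s => ψ s = x + g).card :=
          Finset.sum_le_sum fun g _ => hstep x g
      _ = ∑ y : G, ((Cube R (H + L)).filter fun s => ψ s = y).card :=
          Equiv.sum_comp (Equiv.addLeft x)
            (fun y => ((Cube R (H + L)).filter fun s => ψ s = y).card)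
  have hA : ((Cube R H).filter fun s => ψ s ∈ A).card =
      ∑ x ∈ A.toFinset, ((Cube R H).filter fun s => ψ s = x).card := by
    rw [Finset.card_eq_sum_card_fiberwise (f := ψ) (t := A.toFinset)]
    · refine Finset.sum_congr rfl fun x hx => ?_
      congr 1
      ext s
      simp only [Finset.mem_filter]
      constructor
      · rintro ⟨⟨h1, -⟩, h2⟩
        exact ⟨h1, h2⟩
      · rintro ⟨h1, h2⟩
        exact ⟨⟨h1, by rw [h2]; exact Set.mem_toFinset.1 hx⟩, h2⟩
    · intro s hs
      rw [Finset.mem_coe, Finset.mem_filter] at hs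
      exact Finset.mem_coe.2 (Set.mem_toFinset.2 hs.2)
  have hG : (0 : ℝ) < Fintype.card G := by exact_mod_cast Fintype.card_pos
  have hAG : ((A.toFinset.card : ℕ) : ℝ) / Fintype.card G ≤ 1 := by
    rw [div_le_one hG]
    exact_mod_cast Finset.card_le_univ _
  have hcube : ((Cube R (H + L)).card : ℝ) ≤ (1 + ε) * (2 * (H : ℝ) + 1) ^ R := by
    refine le_trans (le_of_eq ?_) (hH₀ H hH)
    rw [Pool.Agent.FAM.card_Cube]
    push_cast
    ring
  rw [hA, Set.ncard_eq_toFinset_card', Nat.card_eq_fintype_card]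
  push_cast
  calc ∑ x ∈ A.toFinset, (((Cube R H).filter fun s => ψ s = x).card : ℝ)
      ≤ ∑ _x ∈ A.toFinset, ((Cube R (H + L)).card : ℝ) / Fintype.card G := by
        refine Finset.sum_le_sum fun x _ => ?_
        rw [le_div_iff₀ hG, mul_comm]
        exact_mod_cast hone x
    _ = ((A.toFinset.card : ℕ) : ℝ) / Fintype.card G * (Cube R (H + L)).card := by
        rw [Finset.sum_const, nsmul_eq_mul]
        ring
    _ ≤ ((A.toFinset.card : ℕ) : ℝ) / Fintype.card G * ((1 + ε) * (2 * (H : ℝ) + 1) ^ R) :=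
        mul_le_mul_of_nonneg_left hcube (by positivity)
    _ ≤ (((A.toFinset.card : ℕ) : ℝ) / Fintype.card G + ε) * (2 * (H : ℝ) + 1) ^ R := by
        rw [← mul_assoc]
        refine mul_le_mul_of_nonneg_right ?_ (by positivity)
        nlinarith

end Pool.Agent.AAP
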