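import Mathlib
import Pool.Agent.AAP.DefsS
import Pool.Agent.AAP.Frb

set_option autoImplicit false

/-!
# Good reduction from the special fibre
-/

namespace Pool.Agent.AAP

open scoped WithZero
open Pool.Agent.PNH (Tup app mp IsMor Cert)
open MvPolynomial

namespace Ex3A

section Comp

variable {A : Type} [CommRing A]

theorem comp_mul {d k : ℕ} {E G : MvPolynomial (Fin 2) A} (hE : E.IsHomogeneous d) :
    homogeneousComponent (d + k) (G * E) = homogeneousComponent k G * E := by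
  have h1 : ∀ i, homogeneousComponent (d + k) (homogeneousComponent i G * E) =
      if i = k then homogeneousComponent k G * E else 0 := by
    intro i
    have h2 : (homogeneousComponent i G * E).IsHomogeneous (i + d) :=
      (homogeneousComponent_isHomogeneous i G).mul hE
    rw [homogeneousComponent_of_mem h2]
    by_cases h : i = k
    · rw [if_pos (by omega), if_pos h, h]
    · rw [if_neg (by omega), if_neg h]
  conv_lhs => rw [← sum_homogeneousComponent G, Finset.sum_mul, map_sum]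
  rw [Finset.sum_congr rfl fun i _ => h1 i, Finset.sum_ite_eq']
  split_ifs with h
  · rfl
  · rw [Finset.mem_range, not_lt] at h
    rw [homogeneousComponent_eq_zero k G (by omega), zero_mul]

/-- homogeneous cofactors -/
theorem exists_cof {d k : ℕ} {E : Tup 1 A} (hE : ∀ i, (E i).IsHomogeneous d)
    {P : MvPolynomial (Fin 2) A} (hP : P.IsHomogeneous (d + k))
    (h : P ∈ Ideal.span (Set.range E)) :
    ∃ G : Tup 1 A, (∀ i, (G i).IsHomogeneous k) ∧ ∑ i, G i * E i = P := by
  obtain ⟨c, hc⟩ := Ideal.mem_span_range_iff_exists_fun.1 h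
  refine ⟨fun i => homogeneousComponent k (c i),
    fun i => homogeneousComponent_isHomogeneous k (c i), ?_⟩
  have h1 := congrArg (homogeneousComponent (d + k)) hc
  rw [homogeneousComponent_eq_self hP, map_sum] at h1
  rw [← h1]
  exact Finset.sum_congr rfl fun i _ => (comp_mul (hE i)).symm

theorem mono_eq (m : Fin 2 →₀ ℕ) :
    (monomial m (1 : A)) = X 0 ^ m 0 * X 1 ^ m 1 := by
  rw [monomial_eq, C_1, one_mul, Finsupp.prod_fintype]
  · rw [Fin.prod_univ_two]
  · intro i
    rw [pow_zero]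

theorem mem_of_pow {I : Ideal (MvPolynomial (Fin 2) A)} {s : Fin 2 → ℕ}
    (hs : ∀ j, X j ^ s j ∈ I) {m : Fin 2 →₀ ℕ} (hm : s 0 + s 1 ≤ m.degree) :
    monomial m (1 : A) ∈ I := by
  have hdeg : m.degree = m 0 + m 1 := by
    rw [Finsupp.degree_eq_sum, Fin.sum_univ_two]
  rw [mono_eq]
  rcases le_or_gt (s 0) (m 0) with h | h
  · refine I.mul_mem_right _ ?_
    exact I.mem_of_dvd (pow_dvd_pow _ h) (hs 0)
  · refine I.mul_mem_left _ ?_
    exact I.mem_of_dvd (pow_dvd_pow _ (by omega)) (hs 1)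

end Comp

section Nak

variable {O : Type} [CommRing O] [IsLocalRing O]

theorem deg_w (m : Fin 2 →₀ ℕ) : Finsupp.weight 1 m = m.degree := by
  rw [Finsupp.degree_eq_weight_one]
  rfl

theorem mem_smul {n : ℕ} {P : MvPolynomial (Fin 2) O} (hP : P.IsHomogeneous n)
    (h : ∀ m, P.coeff m ∈ IsLocalRing.maximalIdeal O) :
    P ∈ IsLocalRing.maximalIdeal O • homogeneousSubmodule (Fin 2) O n := by
  rw [P.as_sum]
  refine Submodule.sum_mem _ fun m hm => ?_
  have h1 : monomial m (P.coeff m) = P.coeff m • monomial m (1 : O) := by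
    rw [smul_monomial, smul_eq_mul, mul_one]
  rw [h1]
  refine Submodule.smul_mem_smul (h m) ?_
  rw [mem_homogeneousSubmodule]
  refine isHomogeneous_monomial _ ?_
  rw [← deg_w]
  exact hP (mem_support_iff.1 hm)

theorem coeff_mem {P Q : MvPolynomial (Fin 2) O} (h : ∀ m, P.coeff m ∈ IsLocalRing.maximalIdeal O)
    (m : Fin 2 →₀ ℕ) : (Q * P).coeff m ∈ IsLocalRing.maximalIdeal O := by
  rw [coeff_mul]
  exact Ideal.sum_mem _ fun x _ => Ideal.mul_mem_left _ _ (h _)

/-- Nakayama: the powers of the variables lie in the ideal of `F` if they do so for a tuple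
congruent to `F` -/
theorem nak {d : ℕ} {F E : Tup 1 O} (hF : ∀ i, (F i).IsHomogeneous d)
    (hE : ∀ i, (E i).IsHomogeneous d)
    (h : ∀ i m, (E i - F i).coeff m ∈ IsLocalRing.maximalIdeal O)
    (hs : ∀ j, ∃ s : ℕ, (X j : MvPolynomial (Fin 2) O) ^ s ∈ Ideal.span (Set.range E)) :
    ∃ e : ℕ, ∀ j, (X j : MvPolynomial (Fin 2) O) ^ e ∈ Ideal.span (Set.range F) := by
  choose s hs using hs
  set e := d + (s 0 + s 1) with he
  set N : Submodule O (MvPolynomial (Fin 2) O) := (Ideal.span (Set.range F)).restrictScalars O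
    with hN
  have hmono : ∀ m : Fin 2 →₀ ℕ, m.degree = e → monomial m (1 : O) ∈
      N ⊔ IsLocalRing.maximalIdeal O • homogeneousSubmodule (Fin 2) O e := by
    intro m hm
    have h1 : monomial m (1 : O) ∈ Ideal.span (Set.range E) := mem_of_pow hs (by omega)
    have h2 : (monomial m (1 : O)).IsHomogeneous (d + (s 0 + s 1)) :=
      isHomogeneous_monomial _ hm
    obtain ⟨G, hG, hGE⟩ := exists_cof hE h2 h1
    have h3 : monomial m (1 : O) = ∑ i, G i * F i + ∑ i, G i * (E i - F i) := by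
      rw [← hGE, ← Finset.sum_add_distrib]
      refine Finset.sum_congr rfl fun i _ => ?_
      ring
    rw [h3]
    refine Submodule.add_mem_sup ?_ ?_
    · change ∑ i, G i * F i ∈ Ideal.span (Set.range F)
      exact Ideal.sum_mem _ fun i _ => Ideal.mul_mem_left _ _ (Ideal.subset_span ⟨i, rfl⟩)
    · refine Submodule.sum_mem _ fun i _ => mem_smul ?_ (coeff_mem (h i))
      have h4 : (G i * (E i - F i)).IsHomogeneous (s 0 + s 1 + d) :=
        (hG i).mul ((hE i).sub (hF i))
      have h5 : s 0 + s 1 + d = e := by omega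
      rwa [h5] at h4
  have hle : homogeneousSubmodule (Fin 2) O e ≤
      N ⊔ IsLocalRing.maximalIdeal O • homogeneousSubmodule (Fin 2) O e := by
    intro P hP
    rw [mem_homogeneousSubmodule] at hP
    rw [P.as_sum]
    refine Submodule.sum_mem _ fun m hm => ?_
    have h1 : monomial m (P.coeff m) = P.coeff m • monomial m (1 : O) := by
      rw [smul_monomial, smul_eq_mul, mul_one]
    rw [h1]
    refine Submodule.smul_mem _ _ (hmono m ?_)
    rw [← deg_w]
    exact hP (mem_support_iff.1 hm)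
  have h5 := Submodule.le_of_le_smul_of_le_jacobson_bot
    (homogeneousSubmodule_fg (σ := Fin 2) (R := O) e)
    (IsLocalRing.maximalIdeal_le_jacobson ⊥) hle
  refine ⟨e, fun j => h5 ?_⟩
  rw [mem_homogeneousSubmodule]
  have h6 := (isHomogeneous_X O j).pow e
  rwa [one_mul] at h6

end Nak

/-! ### the special tuple -/

section Sp

variable (A : Type) [CommRing A]

theorem ex3_zero (d : ℕ) : ex3 A d 0 =
    (X 0 ^ 2 - X 1 ^ 2) * (X 0 - X 1) ^ (d - 2) := rfl

theorem ex3_one (d : ℕ) : ex3 A d 1 = X 0 ^ (d - 2) * X 1 ^ 2 := rfl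

theorem ex3_hom {d : ℕ} (hd : 2 ≤ d) (i : Fin 2) : (ex3 A d i).IsHomogeneous d := by
  have hX : ∀ j, (X j : MvPolynomial (Fin 2) A).IsHomogeneous 1 := isHomogeneous_X A
  have h0 : ((X 0 ^ 2 - X 1 ^ 2) * (X 0 - X 1) ^ (d - 2) : MvPolynomial (Fin 2) A).IsHomogeneous
      (1 * 2 + 1 * (d - 2)) :=
    (((hX 0).pow 2).sub ((hX 1).pow 2)).mul (((hX 0).sub (hX 1)).pow (d - 2))
  have h1 : (X 0 ^ (d - 2) * X 1 ^ 2 : MvPolynomial (Fin 2) A).IsHomogeneous
      (1 * (d - 2) + 1 * 2) := ((hX 0).pow (d - 2)).mul ((hX 1).pow 2)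
  have e0 : 1 * 2 + 1 * (d - 2) = d := by omega
  have e1 : 1 * (d - 2) + 1 * 2 = d := by omega
  rw [e0] at h0
  rw [e1] at h1
  fin_cases i
  · exact h0
  · exact h1

theorem ex3_mp {B : Type} [CommRing B] (f : A →+* B) (d : ℕ) : mp f (ex3 A d) = ex3 B d := by
  funext i
  unfold mp
  fin_cases i
  · change map f ((X 0 ^ 2 - X 1 ^ 2) * (X 0 - X 1) ^ (d - 2)) =
      (X 0 ^ 2 - X 1 ^ 2) * (X 0 - X 1) ^ (d - 2)
    simp only [map_mul, map_sub, map_pow, map_X]
  · change map f (X 0 ^ (d - 2) * X 1 ^ 2) = X 0 ^ (d - 2) * X 1 ^ 2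
    simp only [map_mul, map_pow, map_X]

theorem ex3_pow (d : ℕ) (j : Fin 2) :
    ∃ s : ℕ, (X j : MvPolynomial (Fin 2) A) ^ s ∈ Ideal.span (Set.range (ex3 A d)) := by
  have h0 : (X 0 ^ 2 - X 1 ^ 2) * (X 0 - X 1) ^ (d - 2) ∈
      Ideal.span (Set.range (ex3 A d)) := Ideal.subset_span ⟨0, rfl⟩
  have h1 : X 0 ^ (d - 2) * X 1 ^ 2 ∈ Ideal.span (Set.range (ex3 A d)) :=
    Ideal.subset_span ⟨1, rfl⟩
  change X j ∈ (Ideal.span (Set.range (ex3 A d))).radical
  rw [Ideal.radical_eq_sInf, Ideal.mem_sInf]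
  rintro P ⟨hle, hP⟩
  have h0' := hP.mem_or_mem (hle h0)
  have h1' := hP.mem_or_mem (hle h1)
  have key : X 0 ∈ P ∧ X 1 ∈ P := by
    have h2 : X 0 ∈ P ∨ X 1 ∈ P := h1'.imp (hP.mem_of_pow_mem _) (hP.mem_of_pow_mem _)
    have h3 : X 0 ^ 2 - X 1 ^ 2 ∈ P ∨ X 0 - X 1 ∈ P := h0'.imp_right (hP.mem_of_pow_mem _)
    have h4 : X 0 ^ 2 - X 1 ^ 2 ∈ P := by
      rcases h3 with h3 | h3
      · exact h3
      · have h5 : (X 0 ^ 2 - X 1 ^ 2 : MvPolynomial (Fin 2) A) = (X 0 + X 1) * (X 0 - X 1) := by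
          ring
        rw [h5]
        exact P.mul_mem_left _ h3
    rcases h2 with h2 | h2
    · refine ⟨h2, hP.mem_of_pow_mem 2 ?_⟩
      have h5 : (X 1 ^ 2 : MvPolynomial (Fin 2) A) = X 0 * X 0 - (X 0 ^ 2 - X 1 ^ 2) := by ring
      rw [h5]
      exact P.sub_mem (P.mul_mem_left _ h2) h4
    · refine ⟨hP.mem_of_pow_mem 2 ?_, h2⟩
      have h5 : (X 0 ^ 2 : MvPolynomial (Fin 2) A) = X 1 * X 1 + (X 0 ^ 2 - X 1 ^ 2) := by ring
      rw [h5]
      exact P.add_mem (P.mul_mem_left _ h2) h4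
  fin_cases j
  · exact key.1
  · exact key.2

end Sp

/-! ### lifting to the valuation ring -/

section Lift

variable {K : Type} [Field K] (v : Valuation K ℤᵐ⁰)

theorem mem_max (a : v.valuationSubring) :
    a ∈ IsLocalRing.maximalIdeal v.valuationSubring ↔ v (a : K) < 1 := by
  rw [← IsLocalRing.residue_eq_zero_iff]
  exact FrbA.residue_eq_zero v a

theorem exists_O {F : Tup 1 K} (hF : IntT v F) :
    ∃ F' : Tup 1 v.valuationSubring, mp v.valuationSubring.subtype F' = F := by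
  refine ⟨fun i => ∑ m ∈ (F i).support, monomial m
    (⟨(F i).coeff m, (FrbA.mem_O v).2 (hF i m)⟩ : v.valuationSubring), ?_⟩
  funext i
  unfold mp
  rw [map_sum]
  conv_rhs => rw [(F i).as_sum]
  refine Finset.sum_congr rfl fun m _ => ?_
  rw [map_monomial]
  rfl

theorem sub_inj : Function.Injective v.valuationSubring.subtype := Subtype.val_injective

theorem coeff_O {F : Tup 1 K} {F' : Tup 1 v.valuationSubring}
    (h : mp v.valuationSubring.subtype F' = F) (i : Fin 2) (m : Fin 2 →₀ ℕ) :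
    (((F' i).coeff m : v.valuationSubring) : K) = (F i).coeff m := by
  rw [← h]
  unfold mp
  rw [coeff_map]
  rfl

theorem hom_O {d : ℕ} {F : Tup 1 K} {F' : Tup 1 v.valuationSubring}
    (h : mp v.valuationSubring.subtype F' = F) (hF : ∀ i, (F i).IsHomogeneous d) (i : Fin 2) :
    (F' i).IsHomogeneous d := by
  intro m hm
  refine hF i ?_
  rw [← coeff_O v h]
  intro h0
  exact hm (Subtype.ext h0)

variable {v}

theorem int_ex3 (d : ℕ) : IntT v (ex3 K d) := by
  intro i m
  have h := ex3_mp v.valuationSubring v.valuationSubring.subtype d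
  rw [← coeff_O v h]
  exact (FrbA.mem_O v).1 ((ex3 v.valuationSubring d i).coeff m).2

theorem int_of {d : ℕ} {F : Tup 1 K}
    (hm : ∀ i m, v ((F i).coeff m - (ex3 K d i).coeff m) < 1) : IntT v F := by
  intro i m
  have h : (F i).coeff m = ((F i).coeff m - (ex3 K d i).coeff m) + (ex3 K d i).coeff m := by ring
  rw [h]
  exact Valuation.map_add_le _ (hm i m).le (int_ex3 d i m)

theorem good_ex3 {d : ℕ} (hd : 2 ≤ d) {F : Tup 1 K} (hF : ∀ i, (F i).IsHomogeneous d)
    (hm : ∀ i m, v ((F i).coeff m - (ex3 K d i).coeff m) < 1) : Good v F := by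
  have hI := int_of hm
  obtain ⟨F', hF'⟩ := exists_O v hI
  have hE := ex3_mp v.valuationSubring v.valuationSubring.subtype d
  obtain ⟨e, he⟩ := nak (F := F') (E := ex3 v.valuationSubring d) (hom_O v hF' hF)
    (ex3_hom _ hd) (fun i m => by
      rw [mem_max, coeff_sub]
      change v ((((ex3 v.valuationSubring d i).coeff m : v.valuationSubring) : K) -
        (((F' i).coeff m : v.valuationSubring) : K)) < 1
      rw [coeff_O v hF', coeff_O v hE, Valuation.map_sub_swap]
      exact hm i m) (ex3_pow _ d)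
  refine ⟨hI, e, fun j => ?_⟩
  obtain ⟨c, hc⟩ := Ideal.mem_span_range_iff_exists_fun.1 (he j)
  refine ⟨mp v.valuationSubring.subtype c, fun i m => ?_, ?_⟩
  · unfold mp
    rw [coeff_map]
    exact (FrbA.mem_O v).1 ((c i).coeff m).2
  · have h1 := congrArg (map v.valuationSubring.subtype) hc
    rw [map_sum, map_pow, map_X] at h1
    rw [← h1]
    refine Finset.sum_congr rfl fun i _ => ?_
    rw [map_mul]
    conv_lhs => rw [← hF']
    rfl

end Lift

end Ex3A

end Pool.Agent.AAP
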