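import Mathlib
import Pool.Agent.AAP.Ex3A

set_option autoImplicit false

/-!
# A class of maps modulo a prime of norm 3 all of whose cycles are critical
-/

namespace Pool.Agent.AAP

open NumberField IsDedekindDomain Polynomial
open scoped WithZero
open Pool.Agent.PNH (Tup app mp IsMor Cert)

namespace Ex3A

/-! ### near and ring homomorphisms -/

section Near

variable {A B : Type} [CommRing A] [CommRing B]

/-- the polynomial whose vanishing order is the local degree -/
noncomputable def W (F : Tup 1 A) (N : ℕ) (y u : Fin 2 → A) : A[X] :=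
  wd (near F N y u) fun i => C (y i)

theorem near_map (f : A →+* B) (F : Tup 1 A) (N : ℕ) (y u : Fin 2 → A) :
    near (mp f F) N (fun i => f (y i)) (fun i => f (u i)) =
      fun i => (near F N y u i).map f := by
  unfold near
  have h1 : mp (C : B →+* B[X]) (mp f F) = mp (mapRingHom f) (mp (C : A →+* A[X]) F) := by
    rw [PNH.mp_mp, PNH.mp_mp]
    congr 1
    ext a
    simp
  have h2 := PNH.iter_mp (mapRingHom f) (mp (C : A →+* A[X]) F) N
    (fun i => C (y i) + X * C (u i))
  rw [h1]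
  have h3 : (fun i => C (f (y i)) + X * C (f (u i))) =
      fun i => mapRingHom f (C (y i) + X * C (u i)) := by
    funext i
    simp
  rw [h3, h2]
  rfl

theorem W_map (f : A →+* B) (F : Tup 1 A) (N : ℕ) (y u : Fin 2 → A) :
    W (mp f F) N (fun i => f (y i)) (fun i => f (u i)) = (W F N y u).map f := by
  unfold W
  rw [near_map]
  have h := wd_map (mapRingHom f) (near F N y u) (fun i => C (y i))
  simp only [coe_mapRingHom, map_C] at h
  exact h

theorem app_ex3 (d : ℕ) (z : Fin 2 → A) : app (ex3 A d) z =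
    ![(z 0 ^ 2 - z 1 ^ 2) * (z 0 - z 1) ^ (d - 2), z 0 ^ (d - 2) * z 1 ^ 2] := by
  funext i
  unfold app
  fin_cases i
  · change MvPolynomial.eval z ((MvPolynomial.X 0 ^ 2 - MvPolynomial.X 1 ^ 2) *
      (MvPolynomial.X 0 - MvPolynomial.X 1) ^ (d - 2)) =
      (z 0 ^ 2 - z 1 ^ 2) * (z 0 - z 1) ^ (d - 2)
    simp
  · change MvPolynomial.eval z (MvPolynomial.X 0 ^ (d - 2) * MvPolynomial.X 1 ^ 2) =
      z 0 ^ (d - 2) * z 1 ^ 2
    simp

/-- `(1 : 0)` is a critical fixed point -/
theorem W_inf (d : ℕ) : W (ex3 A d) 1 ![1, 0] ![0, 1] = X ^ 2 * C (-1 : A) := by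
  unfold W near wd
  rw [ex3_mp, Function.iterate_one, app_ex3]
  simp

/-- `0 ↦ -1 ↦ 0` in degree 2 -/
theorem W_zero : W (ex3 A 2) 2 ![0, 1] ![1, 0] = X ^ 2 * (X ^ 2 - 2) := by
  unfold W near wd
  rw [ex3_mp, Function.iterate_succ_apply, Function.iterate_one, app_ex3, app_ex3]
  simp
  ring

theorem W_neg : W (ex3 A 2) 2 ![-1, 1] ![1, 0] = X ^ 2 * (X - 2) ^ 2 := by
  unfold W near wd
  rw [ex3_mp, Function.iterate_succ_apply, Function.iterate_one, app_ex3, app_ex3]
  simp
  ring

end Near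

/-! ### the orbits modulo 3 -/

section Orb

variable {κ : Type} [Field κ]

theorem orb_stable {F : Tup 1 κ} {T : Set (Fin 2 → κ)} (hT : ∀ z ∈ T, app F z ∈ T)
    {p : Fin 2 → κ} (hp : app F p ∈ T) {n : ℕ} (hn : 0 < n) : (app F)^[n] p ∈ T := by
  obtain ⟨m, rfl⟩ : ∃ m, n = m + 1 := ⟨n - 1, by omega⟩
  clear hn
  induction m with
  | zero => exact hp
  | succ m ih =>
    rw [Function.iterate_succ_apply']
    exact hT _ ih

/-- the points `(1 : 0)` and `(0 : 1)` -/
def T1 (κ : Type) [Field κ] : Set (Fin 2 → κ) :=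
  {z | (z 0 = 0 ∧ z 1 ≠ 0) ∨ (z 1 = 0 ∧ z 0 ≠ 0)}

theorem T1_stable {d : ℕ} (hd : 3 ≤ d) (z : Fin 2 → κ) (hz : z ∈ T1 κ) :
    app (ex3 κ d) z ∈ T1 κ := by
  rw [app_ex3]
  right
  rcases hz with ⟨h0, h1⟩ | ⟨h1, h0⟩
  · change z 0 ^ (d - 2) * z 1 ^ 2 = 0 ∧ (z 0 ^ 2 - z 1 ^ 2) * (z 0 - z 1) ^ (d - 2) ≠ 0
    rw [h0]
    refine ⟨by rw [zero_pow (by omega), zero_mul], ?_⟩
    rw [zero_pow two_ne_zero, zero_sub, zero_sub]
    exact mul_ne_zero (neg_ne_zero.2 (pow_ne_zero _ h1)) (pow_ne_zero _ (neg_ne_zero.2 h1))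
  · change z 0 ^ (d - 2) * z 1 ^ 2 = 0 ∧ (z 0 ^ 2 - z 1 ^ 2) * (z 0 - z 1) ^ (d - 2) ≠ 0
    rw [h1]
    refine ⟨by rw [zero_pow two_ne_zero, mul_zero], ?_⟩
    rw [zero_pow two_ne_zero, sub_zero, sub_zero]
    exact mul_ne_zero (pow_ne_zero _ h0) (pow_ne_zero _ h0)

theorem orb_one {d : ℕ} (hd : 3 ≤ d) {n : ℕ} (hn : 0 < n) :
    wd ((app (ex3 κ d))^[n] ![1, 1]) ![1, 1] ≠ 0 := by
  have h : (app (ex3 κ d))^[n] ![1, 1] ∈ T1 κ := by
    refine orb_stable (T1_stable hd) ?_ hn
    rw [app_ex3]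
    left
    simp
  unfold wd
  rcases h with ⟨h0, h1⟩ | ⟨h1, h0⟩
  · rw [h0]
    simpa using h1
  · rw [h1]
    simpa using h0

theorem orb_neg {d : ℕ} (hd : 3 ≤ d) {n : ℕ} (hn : 0 < n) :
    wd ((app (ex3 κ d))^[n] ![-1, 1]) ![-1, 1] ≠ 0 := by
  have h : (app (ex3 κ d))^[n] ![-1, 1] ∈ T1 κ := by
    refine orb_stable (T1_stable hd) ?_ hn
    rw [app_ex3]
    left
    simp
  unfold wd
  rcases h with ⟨h0, h1⟩ | ⟨h1, h0⟩
  · rw [h0]
    simpa using h1
  · rw [h1]
    simpa using h0

theorem orb_zero {d : ℕ} (hd : 3 ≤ d) {n : ℕ} (hn : 0 < n) :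
    wd ((app (ex3 κ d))^[n] ![0, 1]) ![0, 1] ≠ 0 := by
  have h : (app (ex3 κ d))^[n] ![0, 1] ∈ {z : Fin 2 → κ | z 1 = 0 ∧ z 0 ≠ 0} := by
    refine orb_stable ?_ ?_ hn
    · rintro z ⟨h1, h0⟩
      rw [app_ex3]
      change z 0 ^ (d - 2) * z 1 ^ 2 = 0 ∧ (z 0 ^ 2 - z 1 ^ 2) * (z 0 - z 1) ^ (d - 2) ≠ 0
      rw [h1]
      refine ⟨by rw [zero_pow two_ne_zero, mul_zero], ?_⟩
      rw [zero_pow two_ne_zero, sub_zero, sub_zero]
      exact mul_ne_zero (pow_ne_zero _ h0) (pow_ne_zero _ h0)
    · rw [app_ex3]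
      have hd2 : d - 2 ≠ 0 := by omega
      simp [hd2]
  obtain ⟨h1, h0⟩ := h
  unfold wd
  rw [h1]
  simpa using h0

theorem orb_two (h3 : (3 : κ) = 0) {n : ℕ} (hn : 0 < n) :
    wd ((app (ex3 κ 2))^[n] ![1, 1]) ![1, 1] ≠ 0 := by
  have h2 : (2 : κ) ≠ 0 := by
    intro h2
    have : (1 : κ) = 3 - 2 := by norm_num
    rw [h3, h2, sub_zero] at this
    exact one_ne_zero this
  have h : (app (ex3 κ 2))^[n] ![1, 1] ∈ ({![0, 1], ![-1, 1]} : Set (Fin 2 → κ)) := by
    refine orb_stable ?_ ?_ hn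
    · rintro z (rfl | rfl)
      · right
        rw [app_ex3]
        simp
      · left
        rw [app_ex3]
        simp
    · left
      rw [app_ex3]
      simp
  unfold wd
  rcases h with h | h
  · rw [h]
    simp
  · rw [h]
    simp
    intro h4
    apply h2
    linear_combination -h4

end Orb

/-! ### reduction -/

section Rdn

variable {K : Type} [Field K] {v : Valuation K ℤᵐ⁰}

theorem res_ne {a : v.valuationSubring} (h : IsLocalRing.residue v.valuationSubring a ≠ 0) :
    v (a : K) = 1 := by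
  refine le_antisymm ((FrbA.mem_O v).1 a.2) (not_lt.1 fun h1 => h ?_)
  exact (FrbA.residue_eq_zero v a).2 h1

/-- the lift of `F` reduces to the special tuple -/
theorem red_eq {d : ℕ} {F : Tup 1 K} {F' : Tup 1 v.valuationSubring}
    (hF' : mp v.valuationSubring.subtype F' = F)
    (hm : ∀ i m, v ((F i).coeff m - (ex3 K d i).coeff m) < 1) :
    mp (IsLocalRing.residue v.valuationSubring) F' =
      ex3 (IsLocalRing.ResidueField v.valuationSubring) d := by
  have hE := ex3_mp v.valuationSubring v.valuationSubring.subtype d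
  rw [← ex3_mp v.valuationSubring (IsLocalRing.residue v.valuationSubring) d]
  funext i
  unfold mp
  ext m
  rw [MvPolynomial.coeff_map, MvPolynomial.coeff_map, ← sub_eq_zero, ← map_sub,
    FrbA.residue_eq_zero]
  change v ((((F' i).coeff m : v.valuationSubring) : K) -
    (((ex3 v.valuationSubring d i).coeff m : v.valuationSubring) : K)) < 1
  rw [coeff_O v hF', coeff_O v hE]
  exact hm i m

/-- the local degree from the reduction -/
theorem sat_of {d : ℕ} {F : Tup 1 K} {F' : Tup 1 v.valuationSubring}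
    (hF' : mp v.valuationSubring.subtype F' = F)
    (hm : ∀ i m, v ((F i).coeff m - (ex3 K d i).coeff m) < 1) {x : Fin 2 → K}
    {y u : Fin 2 → v.valuationSubring} (hxy : wd x (fun i => (y i : K)) = 0)
    (hy : nv v (fun i => (y i : K)) = 1)
    {p q : Fin 2 → IsLocalRing.ResidueField v.valuationSubring}
    (hp : (fun i => IsLocalRing.residue v.valuationSubring (y i)) = p)
    (hq : (fun i => IsLocalRing.residue v.valuationSubring (u i)) = q)
    (hpq : wd p q ≠ 0) {N : ℕ}
    {Q : (IsLocalRing.ResidueField v.valuationSubring)[X]}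
    (hW : W (ex3 (IsLocalRing.ResidueField v.valuationSubring) d) N p q = X ^ 2 * Q)
    (hQ : Q.coeff 0 ≠ 0) : SAt v F x N 2 := by
  have h1 : W F N (fun i => (y i : K)) (fun i => (u i : K)) =
      (W F' N y u).map v.valuationSubring.subtype := by
    rw [← W_map, hF']
    rfl
  have h2 : W (ex3 (IsLocalRing.ResidueField v.valuationSubring) d) N p q =
      (W F' N y u).map (IsLocalRing.residue v.valuationSubring) := by
    rw [← W_map, red_eq hF' hm, hp, hq]
  have h3 : ∀ j, IsLocalRing.residue v.valuationSubring ((W F' N y u).coeff j) =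
      (X ^ 2 * Q).coeff j := by
    intro j
    rw [← hW, h2, coeff_map]
  have h4 : ∀ j, (wd (near F N (fun i => (y i : K)) (fun i => (u i : K)))
      fun i => C ((fun i => (y i : K)) i)).coeff j =
      (((W F' N y u).coeff j : v.valuationSubring) : K) := by
    intro j
    have h5 := congrArg (fun P => coeff P j) h1
    simp only [coeff_map] at h5
    exact h5
  refine ⟨fun i => (y i : K), fun i => (u i : K), hxy, hy, ?_, ?_, ?_, ?_⟩
  · exact max_le ((FrbA.mem_O v).1 (u 0).2) ((FrbA.mem_O v).1 (u 1).2)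
  · have h5 : IsLocalRing.residue v.valuationSubring (wd y u) ≠ 0 := by
      rw [← wd_map, hp, hq]
      exact hpq
    have h6 := res_ne h5
    have h7 : ((wd y u : v.valuationSubring) : K) = wd (fun i => (y i : K)) (fun i => (u i : K)) :=
      (wd_map v.valuationSubring.subtype y u).symm
    rwa [h7] at h6
  · intro j hj
    rw [h4, ← FrbA.residue_eq_zero, h3, coeff_X_pow_mul', if_neg (by omega)]
  · rw [h4]
    refine res_ne ?_
    rw [h3, coeff_X_pow_mul', if_pos le_rfl, Nat.sub_self]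
    exact hQ

/-- periodic modulo `v`: the reduction is periodic -/
theorem per_of {d : ℕ} {F : Tup 1 K} (hF : ∀ i, (F i).IsHomogeneous d) (hG : Good v F)
    {F' : Tup 1 v.valuationSubring}
    (hF' : mp v.valuationSubring.subtype F' = F)
    (hm : ∀ i m, v ((F i).coeff m - (ex3 K d i).coeff m) < 1)
    {y : Fin 2 → v.valuationSubring}
    (hy : nv v (fun i => (y i : K)) = 1)
    {p : Fin 2 → IsLocalRing.ResidueField v.valuationSubring}
    (hp : (fun i => IsLocalRing.residue v.valuationSubring (y i)) = p)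
    (h : PerMod v F (fun i => (y i : K))) :
    ∃ n : ℕ, 0 < n ∧
      wd ((app (ex3 (IsLocalRing.ResidueField v.valuationSubring) d))^[n] p) p = 0 := by
  obtain ⟨n, hn, hcg⟩ := h
  refine ⟨n, hn, ?_⟩
  have hy0 : (fun i => (y i : K)) ≠ 0 := by
    intro h0
    rw [h0, nv_eq_zero.2 rfl] at hy
    exact zero_ne_one hy
  have h1 : (app F)^[n] (fun i => (y i : K)) = fun i => (((app F')^[n] y i : v.valuationSubring) : K) := by
    rw [← hF']
    exact PNH.iter_mp v.valuationSubring.subtype F' n y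
  unfold Cg at hcg
  rw [good_iter_nv hF hG n hy0, hy, one_pow, one_mul, h1] at hcg
  have h2 : wd (fun i => (((app F')^[n] y i : v.valuationSubring) : K)) (fun i => (y i : K)) =
      ((wd ((app F')^[n] y) y : v.valuationSubring) : K) :=
    wd_map v.valuationSubring.subtype _ _
  rw [h2, ← FrbA.residue_eq_zero, ← wd_map, hp] at hcg
  rw [← red_eq hF' hm, ← hp, PNH.iter_mp, hp]
  exact hcg

end Rdn

/-! ### the residue field with three elements -/

section Three

variable {K : Type} [Field K] [NumberField K]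

theorem small_cube (v : HeightOneSpectrum (𝓞 K)) (hv : Ideal.absNorm v.asIdeal = 3) {a : K}
    (ha : v.valuation K a ≤ 1) : v.valuation K (a - a ^ 3) < 1 := by
  obtain ⟨w, e, h, he, hval, -, hfrob⟩ := TameArb.exists_frob K K v
  have hov : TameArb.Over (v.valuation K) (w.valuation K) e := ⟨he, hval⟩
  have h1 : w.valuation K a ≤ 1 := hov.le_one.2 ha
  have h2 := hfrob a h1
  have h3 : h a = a := h.commutes a
  rw [h3, hv] at h2
  exact hov.lt_one.1 h2

theorem res_three (v : HeightOneSpectrum (𝓞 K)) (hv : Ideal.absNorm v.asIdeal = 3)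
    (r : IsLocalRing.ResidueField (v.valuation K).valuationSubring) : r = 0 ∨ r = 1 ∨ r = -1 := by
  obtain ⟨a, rfl⟩ := IsLocalRing.residue_surjective r
  have h1 := small_cube v hv ((FrbA.mem_O (v.valuation K)).1 a.2)
  have h2 : IsLocalRing.residue (v.valuation K).valuationSubring (a - a ^ 3) = 0 :=
    (FrbA.residue_eq_zero (v.valuation K) (a - a ^ 3)).2 h1
  set b := IsLocalRing.residue (v.valuation K).valuationSubring a with hb
  have h3 : b * ((b - 1) * (b + 1)) = 0 := by
    rw [map_sub, map_pow, ← hb] at h2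
    linear_combination -h2
  rcases mul_eq_zero.1 h3 with h4 | h4
  · exact Or.inl h4
  · rcases mul_eq_zero.1 h4 with h5 | h5
    · exact Or.inr (Or.inl (sub_eq_zero.1 h5))
    · exact Or.inr (Or.inr (eq_neg_of_add_eq_zero_left h5))

theorem val_three (v : HeightOneSpectrum (𝓞 K)) (hv : Ideal.absNorm v.asIdeal = 3) :
    v.valuation K ((3 : ℕ) : K) < 1 := by
  have h1 : ((3 : ℕ) : 𝓞 K) ∈ v.asIdeal := by
    rw [← hv]
    exact Ideal.absNorm_mem v.asIdeal
  have h2 : v.valuation K (algebraMap (𝓞 K) K ((3 : ℕ) : 𝓞 K)) < 1 :=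
    (v.valuation_lt_one_iff_mem (K := K) ((3 : ℕ) : 𝓞 K)).2 h1
  have h3 : algebraMap (𝓞 K) K ((3 : ℕ) : 𝓞 K) = ((3 : ℕ) : K) := map_natCast _ 3
  rwa [h3] at h2

theorem res_three_zero (v : HeightOneSpectrum (𝓞 K)) (hv : Ideal.absNorm v.asIdeal = 3) :
    (3 : IsLocalRing.ResidueField (v.valuation K).valuationSubring) = 0 := by
  have h1 : IsLocalRing.residue (v.valuation K).valuationSubring (3 : ℕ) = 0 := by
    rw [FrbA.residue_eq_zero]
    exact val_three v hv
  rw [map_natCast] at h1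
  exact_mod_cast h1

/-- normal form of the points modulo `v` -/
theorem exists_pt (v : HeightOneSpectrum (𝓞 K)) (hv : Ideal.absNorm v.asIdeal = 3)
    {x : Fin 2 → K} (hx : x ≠ 0) :
    ∃ (c : K) (y : Fin 2 → (v.valuation K).valuationSubring), c ≠ 0 ∧
      (fun i => (y i : K)) = c • x ∧ nv (v.valuation K) (fun i => (y i : K)) = 1 ∧
      ((fun i => IsLocalRing.residue (v.valuation K).valuationSubring (y i)) = ![1, 0] ∨
       (fun i => IsLocalRing.residue (v.valuation K).valuationSubring (y i)) = ![0, 1] ∨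
       (fun i => IsLocalRing.residue (v.valuation K).valuationSubring (y i)) = ![1, 1] ∨
       (fun i => IsLocalRing.residue (v.valuation K).valuationSubring (y i)) = ![-1, 1]) := by
  obtain ⟨c, hc, h1, i, hi⟩ := exists_unitv (v := v.valuation K) hx
  set y : Fin 2 → (v.valuation K).valuationSubring := fun j =>
    ⟨(c • x) j, (FrbA.mem_O (v.valuation K)).2 (h1 ▸ le_nv (v := v.valuation K) (c • x) j)⟩
    with hy
  have hyx : (fun j => (y j : K)) = c • x := rfl
  have hyi : y i = 1 := Subtype.ext hi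
  by_cases hi1 : i = 1
  · subst hi1
    refine ⟨c, y, hc, hyx, hyx ▸ h1, ?_⟩
    have h2 : ∀ r, IsLocalRing.residue (v.valuation K).valuationSubring (y 0) = r →
        (fun j => IsLocalRing.residue (v.valuation K).valuationSubring (y j)) = ![r, 1] := by
      intro r hr
      funext j
      fin_cases j
      · exact hr
      · change IsLocalRing.residue (v.valuation K).valuationSubring (y 1) = 1
        rw [hyi, map_one]
    rcases res_three v hv (IsLocalRing.residue (v.valuation K).valuationSubring (y 0)) with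
      h3 | h3 | h3
    · exact Or.inr (Or.inl (h2 _ h3))
    · exact Or.inr (Or.inr (Or.inl (h2 _ h3)))
    · exact Or.inr (Or.inr (Or.inr (h2 _ h3)))
  · obtain rfl : i = 0 := by omega
    have h2 : ∀ r, IsLocalRing.residue (v.valuation K).valuationSubring (y 1) = r →
        (fun j => IsLocalRing.residue (v.valuation K).valuationSubring (y j)) = ![1, r] := by
      intro r hr
      funext j
      fin_cases j
      · change IsLocalRing.residue (v.valuation K).valuationSubring (y 0) = 1
        rw [hyi, map_one]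
      · exact hr
    rcases res_three v hv (IsLocalRing.residue (v.valuation K).valuationSubring (y 1)) with
      h3 | h3 | h3
    · exact ⟨c, y, hc, hyx, hyx ▸ h1, Or.inl (h2 _ h3)⟩
    · exact ⟨c, y, hc, hyx, hyx ▸ h1, Or.inr (Or.inr (Or.inl (h2 _ h3)))⟩
    · have h4 := h2 _ h3
      have h5 : (fun j => (((-y) j : (v.valuation K).valuationSubring) : K)) = (-c) • x := by
        funext j
        have h6 := congrFun hyx j
        simp only [Pi.neg_apply, Pi.smul_apply, smul_eq_mul] at h6 ⊢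
        rw [neg_mul, ← h6]
        rfl
      refine ⟨-c, -y, neg_ne_zero.2 hc, h5, ?_, Or.inr (Or.inr (Or.inr ?_))⟩
      · rw [h5, neg_smul, ← h1]
        unfold nv
        simp only [Pi.neg_apply, Valuation.map_neg]
      · funext j
        have h6 := congrFun h4 j
        simp only [Pi.neg_apply, map_neg]
        refine (congrArg Neg.neg h6).trans ?_
        fin_cases j
        · simp
        · simp

end Three

end Ex3A

/-- **A class of maps modulo a prime of norm 3 all of whose cycles are critical.** -/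
theorem ex3_sa {K : Type} [Field K] [NumberField K] {d : ℕ} (hd : 2 ≤ d) {F : Tup 1 K}
    (hF : ∀ i, (F i).IsHomogeneous d) (v : HeightOneSpectrum (𝓞 K))
    (hv : Ideal.absNorm v.asIdeal = 3)
    (hm : ∀ i m, v.valuation K ((F i).coeff m - (ex3 K d i).coeff m) < 1) :
    Good (v.valuation K) F ∧ v.valuation K ((3 : ℕ) : K) < 1 ∧ ∀ x : Fin 2 → K, x ≠ 0 →
      ¬ PerMod (v.valuation K) F x ∨ ∃ N, 0 < N ∧ SAt (v.valuation K) F x N 2 := by
  have hG : Good (v.valuation K) F := Ex3A.good_ex3 hd hF hm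
  refine ⟨hG, Ex3A.val_three v hv, fun x hx => ?_⟩
  obtain ⟨F', hF'⟩ := Ex3A.exists_O (v.valuation K) (Ex3A.int_of hm)
  obtain ⟨c, y, hc, hyx, hy, hcl⟩ := Ex3A.exists_pt v hv hx
  have h3 := Ex3A.res_three_zero v hv
  have hxy : wd x (fun i => (y i : K)) = 0 := by
    rw [hyx, wd_smul_right, wd_self, mul_zero]
  have hper : PerMod (v.valuation K) F x → PerMod (v.valuation K) F (fun i => (y i : K)) := by
    intro h
    rw [hyx]
    exact (PerMod.smul hF hc x).2 h
  have h2 : (2 : IsLocalRing.ResidueField (v.valuation K).valuationSubring) ≠ 0 := by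
    intro h2
    have h4 : (1 : IsLocalRing.ResidueField (v.valuation K).valuationSubring) = 3 - 2 := by
      norm_num
    rw [h3, h2, sub_zero] at h4
    exact one_ne_zero h4
  -- the direction `(1, 0)`
  have hu : (fun i => IsLocalRing.residue (v.valuation K).valuationSubring
      ((![1, 0] : Fin 2 → (v.valuation K).valuationSubring) i)) = ![1, 0] := by
    funext i
    fin_cases i
    · exact map_one _
    · exact map_zero _
  have hu' : (fun i => IsLocalRing.residue (v.valuation K).valuationSubring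
      ((![0, 1] : Fin 2 → (v.valuation K).valuationSubring) i)) = ![0, 1] := by
    funext i
    fin_cases i
    · exact map_zero _
    · exact map_one _
  rcases hcl with h | h | h | h
  · right
    refine ⟨1, one_pos, Ex3A.sat_of hF' hm hxy hy h hu' ?_ (Ex3A.W_inf d) ?_⟩
    · simp [wd]
    · simp
  · rcases Nat.eq_or_lt_of_le hd with hd2 | hd3
    · right
      subst hd2
      refine ⟨2, two_pos, Ex3A.sat_of hF' hm hxy hy h hu ?_ Ex3A.W_zero ?_⟩
      · simp [wd]
      · simpa using h2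
    · left
      intro hp
      obtain ⟨n, hn, h4⟩ := Ex3A.per_of hF hG hF' hm hy h (hper hp)
      exact Ex3A.orb_zero hd3 hn h4
  · left
    intro hp
    obtain ⟨n, hn, h4⟩ := Ex3A.per_of hF hG hF' hm hy h (hper hp)
    rcases Nat.eq_or_lt_of_le hd with hd2 | hd3
    · subst hd2
      exact Ex3A.orb_two h3 hn h4
    · exact Ex3A.orb_one hd3 hn h4
  · rcases Nat.eq_or_lt_of_le hd with hd2 | hd3
    · right
      subst hd2
      refine ⟨2, two_pos, Ex3A.sat_of hF' hm hxy hy h hu ?_ Ex3A.W_neg ?_⟩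
      · simp [wd]
      · rw [coeff_zero_eq_eval_zero, eval_pow, eval_sub, eval_X, eval_ofNat, zero_sub]
        exact pow_ne_zero _ (neg_ne_zero.2 h2)
    · left
      intro hp
      obtain ⟨n, hn, h4⟩ := Ex3A.per_of hF hG hF' hm hy h (hper hp)
      exact Ex3A.orb_neg hd3 hn h4

end Pool.Agent.AAP
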