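import Mathlib
import Pool.Agent.AAP.Ex3

set_option autoImplicit false

/-!
# A class of maps of large degree modulo a prime all of whose cycles are critical
-/

namespace Pool.Agent.AAP

open NumberField IsDedekindDomain Polynomial
open scoped WithZero
open Pool.Agent.PNH (Tup app mp IsMor Cert)

/-- The forms `X^e Y^(d-e-q+1) (X^(q-1) - Y^(q-1))` and `X^d + Y^d - X^(d-q+1) Y^(q-1)`. -/
noncomputable def exq (A : Type) [CommRing A] (q e d : ℕ) : Tup 1 A :=
  ![MvPolynomial.X 0 ^ e * MvPolynomial.X 1 ^ (d - (e + q - 1)) *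
      (MvPolynomial.X 0 ^ (q - 1) - MvPolynomial.X 1 ^ (q - 1)),
    MvPolynomial.X 0 ^ d + MvPolynomial.X 1 ^ d -
      MvPolynomial.X 0 ^ (d - q + 1) * MvPolynomial.X 1 ^ (q - 1)]

namespace ExQ

section Sp

open MvPolynomial

variable (A : Type) [CommRing A]

theorem exq_hom {q e d : ℕ} (hq : 2 ≤ q) (hd : q + e ≤ d) (i : Fin 2) :
    (exq A q e d i).IsHomogeneous d := by
  have hX : ∀ j, (MvPolynomial.X j : MvPolynomial (Fin 2) A).IsHomogeneous 1 := isHomogeneous_X A
  have hp : ∀ (j : Fin 2) (n : ℕ), (MvPolynomial.X j ^ n : MvPolynomial (Fin 2) A).IsHomogeneous n := by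
    intro j n
    have := (hX j).pow n
    rwa [one_mul] at this
  have h0 : (MvPolynomial.X 0 ^ e * MvPolynomial.X 1 ^ (d - (e + q - 1)) *
      (MvPolynomial.X 0 ^ (q - 1) - MvPolynomial.X 1 ^ (q - 1)) :
        MvPolynomial (Fin 2) A).IsHomogeneous (e + (d - (e + q - 1)) + (q - 1)) :=
    ((hp 0 e).mul (hp 1 _)).mul ((hp 0 _).sub (hp 1 _))
  have h1 : (MvPolynomial.X 0 ^ (d - q + 1) * MvPolynomial.X 1 ^ (q - 1) :
      MvPolynomial (Fin 2) A).IsHomogeneous (d - q + 1 + (q - 1)) := (hp 0 _).mul (hp 1 _)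
  have e0 : e + (d - (e + q - 1)) + (q - 1) = d := by omega
  have e1 : d - q + 1 + (q - 1) = d := by omega
  rw [e0] at h0
  rw [e1] at h1
  fin_cases i
  · exact h0
  · exact ((hp 0 d).add (hp 1 d)).sub h1

theorem exq_mp {B : Type} [CommRing B] (f : A →+* B) (q e d : ℕ) :
    mp f (exq A q e d) = exq B q e d := by
  funext i
  unfold mp
  fin_cases i
  · change MvPolynomial.map f (MvPolynomial.X 0 ^ e * MvPolynomial.X 1 ^ (d - (e + q - 1)) *
      (MvPolynomial.X 0 ^ (q - 1) - MvPolynomial.X 1 ^ (q - 1))) =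
      MvPolynomial.X 0 ^ e * MvPolynomial.X 1 ^ (d - (e + q - 1)) *
      (MvPolynomial.X 0 ^ (q - 1) - MvPolynomial.X 1 ^ (q - 1))
    simp only [map_mul, map_sub, map_pow, MvPolynomial.map_X]
  · change MvPolynomial.map f (MvPolynomial.X 0 ^ d + MvPolynomial.X 1 ^ d -
      MvPolynomial.X 0 ^ (d - q + 1) * MvPolynomial.X 1 ^ (q - 1)) =
      MvPolynomial.X 0 ^ d + MvPolynomial.X 1 ^ d -
      MvPolynomial.X 0 ^ (d - q + 1) * MvPolynomial.X 1 ^ (q - 1)
    simp only [map_mul, map_sub, map_add, map_pow, MvPolynomial.map_X]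

theorem exq_pow {q e d : ℕ} (hq : 2 ≤ q) (hd : q + e ≤ d) (j : Fin 2) :
    ∃ s : ℕ, (MvPolynomial.X j : MvPolynomial (Fin 2) A) ^ s ∈
      Ideal.span (Set.range (exq A q e d)) := by
  have h0 : MvPolynomial.X 0 ^ e * MvPolynomial.X 1 ^ (d - (e + q - 1)) *
      (MvPolynomial.X 0 ^ (q - 1) - MvPolynomial.X 1 ^ (q - 1)) ∈
      Ideal.span (Set.range (exq A q e d)) := Ideal.subset_span ⟨0, rfl⟩
  have h1 : MvPolynomial.X 0 ^ d + MvPolynomial.X 1 ^ d -
      MvPolynomial.X 0 ^ (d - q + 1) * MvPolynomial.X 1 ^ (q - 1) ∈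
      Ideal.span (Set.range (exq A q e d)) := Ideal.subset_span ⟨1, rfl⟩
  change MvPolynomial.X j ∈ (Ideal.span (Set.range (exq A q e d))).radical
  rw [Ideal.radical_eq_sInf, Ideal.mem_sInf]
  rintro P ⟨hle, hP⟩
  have h0' := hP.mem_or_mem (hle h0)
  have h1' := hle h1
  have hdd : d = (d - q + 1) + (q - 1) := by omega
  -- `X 0 ∈ P` gives `X 1 ∈ P`
  have k0 : MvPolynomial.X 0 ∈ P → MvPolynomial.X 1 ∈ P := by
    intro h
    refine hP.mem_of_pow_mem d ?_
    have h5 : (MvPolynomial.X 1 ^ d : MvPolynomial (Fin 2) A) =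
        (MvPolynomial.X 0 ^ d + MvPolynomial.X 1 ^ d -
          MvPolynomial.X 0 ^ (d - q + 1) * MvPolynomial.X 1 ^ (q - 1)) -
        (MvPolynomial.X 0 ^ d - MvPolynomial.X 0 ^ (d - q + 1) * MvPolynomial.X 1 ^ (q - 1)) := by
      ring
    rw [h5]
    refine P.sub_mem h1' (P.sub_mem ?_ ?_)
    · exact P.pow_mem_of_mem h d (by omega)
    · exact P.mul_mem_right _ (P.pow_mem_of_mem h _ (by omega))
  have k1 : MvPolynomial.X 1 ∈ P → MvPolynomial.X 0 ∈ P := by
    intro h
    refine hP.mem_of_pow_mem d ?_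
    have h5 : (MvPolynomial.X 0 ^ d : MvPolynomial (Fin 2) A) =
        (MvPolynomial.X 0 ^ d + MvPolynomial.X 1 ^ d -
          MvPolynomial.X 0 ^ (d - q + 1) * MvPolynomial.X 1 ^ (q - 1)) -
        (MvPolynomial.X 1 ^ d - MvPolynomial.X 0 ^ (d - q + 1) * MvPolynomial.X 1 ^ (q - 1)) := by
      ring
    rw [h5]
    refine P.sub_mem h1' (P.sub_mem ?_ ?_)
    · exact P.pow_mem_of_mem h d (by omega)
    · exact P.mul_mem_left _ (P.pow_mem_of_mem h _ (by omega))
  have key : MvPolynomial.X 0 ∈ P ∧ MvPolynomial.X 1 ∈ P := by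
    rcases h0' with h | h
    · rcases hP.mem_or_mem h with h | h
      · have h2 := hP.mem_of_pow_mem _ h
        exact ⟨h2, k0 h2⟩
      · have h2 := hP.mem_of_pow_mem _ h
        exact ⟨k1 h2, h2⟩
    · have h2 : MvPolynomial.X 1 ∈ P := by
        refine hP.mem_of_pow_mem d ?_
        have h5 : (MvPolynomial.X 1 ^ d : MvPolynomial (Fin 2) A) =
            (MvPolynomial.X 0 ^ d + MvPolynomial.X 1 ^ d -
              MvPolynomial.X 0 ^ (d - q + 1) * MvPolynomial.X 1 ^ (q - 1)) -
            MvPolynomial.X 0 ^ (d - q + 1) *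
              (MvPolynomial.X 0 ^ (q - 1) - MvPolynomial.X 1 ^ (q - 1)) := by
          have h6 : (MvPolynomial.X 0 ^ d : MvPolynomial (Fin 2) A) =
              MvPolynomial.X 0 ^ (d - q + 1) * MvPolynomial.X 0 ^ (q - 1) := by
            rw [← pow_add, ← hdd]
          rw [h6]
          ring
        rw [h5]
        exact P.sub_mem h1' (P.mul_mem_left _ h)
      exact ⟨k1 h2, h2⟩
  fin_cases j
  · exact key.1
  · exact key.2

theorem app_exq {A : Type} [CommRing A] (q e d : ℕ) (z : Fin 2 → A) : app (exq A q e d) z =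
    ![z 0 ^ e * z 1 ^ (d - (e + q - 1)) * (z 0 ^ (q - 1) - z 1 ^ (q - 1)),
      z 0 ^ d + z 1 ^ d - z 0 ^ (d - q + 1) * z 1 ^ (q - 1)] := by
  funext i
  unfold app
  fin_cases i
  · change MvPolynomial.eval z (MvPolynomial.X 0 ^ e * MvPolynomial.X 1 ^ (d - (e + q - 1)) *
      (MvPolynomial.X 0 ^ (q - 1) - MvPolynomial.X 1 ^ (q - 1))) = _
    simp
  · change MvPolynomial.eval z (MvPolynomial.X 0 ^ d + MvPolynomial.X 1 ^ d -
      MvPolynomial.X 0 ^ (d - q + 1) * MvPolynomial.X 1 ^ (q - 1)) = _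
    simp

end Sp

/-- `(0 : 1)` is a fixed point of local degree `e` -/
theorem W_q {A : Type} [CommRing A] (q e d : ℕ) :
    Ex3A.W (exq A q e d) 1 ![0, 1] ![1, 0] = X ^ e * (X ^ (q - 1) - 1) := by
  unfold Ex3A.W near wd
  rw [exq_mp, Function.iterate_one, app_exq]
  simp

section Orb

variable {κ : Type} [Field κ]

theorem orb_q {q e d : ℕ} (hq : 2 ≤ q) (he : 2 ≤ e) (hd : q + e ≤ d)
    (hκ : ∀ r : κ, r ≠ 0 → r ^ (q - 1) = 1) {z : Fin 2 → κ} (hz : z ≠ 0) {n : ℕ} (hn : 0 < n) :
    (app (exq κ q e d))^[n] z ∈ {z : Fin 2 → κ | z 0 = 0 ∧ z 1 ≠ 0} := by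
  have hall : ∀ z : Fin 2 → κ, z ≠ 0 →
      app (exq κ q e d) z ∈ {z : Fin 2 → κ | z 0 = 0 ∧ z 1 ≠ 0} := by
    intro z hz
    rw [app_exq]
    change z 0 ^ e * z 1 ^ (d - (e + q - 1)) * (z 0 ^ (q - 1) - z 1 ^ (q - 1)) = 0 ∧
      z 0 ^ d + z 1 ^ d - z 0 ^ (d - q + 1) * z 1 ^ (q - 1) ≠ 0
    have hdd : d = (d - q + 1) + (q - 1) := by omega
    by_cases h0 : z 0 = 0
    · have h1 : z 1 ≠ 0 := by
        intro h1
        apply hz
        funext i
        fin_cases i
        · exact h0
        · exact h1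
      rw [h0, zero_pow (by omega : e ≠ 0), zero_mul, zero_mul, zero_pow (by omega : d ≠ 0),
        zero_pow (by omega : d - q + 1 ≠ 0), zero_mul, zero_add, sub_zero]
      exact ⟨rfl, pow_ne_zero _ h1⟩
    · by_cases h1 : z 1 = 0
      · rw [h1, zero_pow (by omega : d - (e + q - 1) ≠ 0), mul_zero, zero_mul,
          zero_pow (by omega : d ≠ 0), zero_pow (by omega : q - 1 ≠ 0), mul_zero, add_zero,
          sub_zero]
        exact ⟨rfl, pow_ne_zero _ h0⟩
      · have h2 : z 0 ^ d = z 0 ^ (d - q + 1) := by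
          conv_lhs => rw [hdd, pow_add, hκ _ h0, mul_one]
        rw [hκ _ h0, hκ _ h1, sub_self, mul_zero, h2, mul_one, add_sub_cancel_left]
        exact ⟨rfl, pow_ne_zero _ h1⟩
  refine Ex3A.orb_stable ?_ (hall z hz) hn
  rintro w ⟨h0, h1⟩
  refine hall w ?_
  rintro rfl
  exact h1 rfl

end Orb

section Rdn

variable {K : Type} [Field K] {v : Valuation K ℤᵐ⁰}

theorem int_exq (q e d : ℕ) : IntT v (exq K q e d) := by
  intro i m
  have h := exq_mp v.valuationSubring v.valuationSubring.subtype q e d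
  rw [← Ex3A.coeff_O v h]
  exact (FrbA.mem_O v).1 ((exq v.valuationSubring q e d i).coeff m).2

theorem int_of {q e d : ℕ} {F : Tup 1 K}
    (hm : ∀ i m, v ((F i).coeff m - (exq K q e d i).coeff m) < 1) : IntT v F := by
  intro i m
  have h : (F i).coeff m =
    ((F i).coeff m - (exq K q e d i).coeff m) + (exq K q e d i).coeff m := by ring
  rw [h]
  exact Valuation.map_add_le _ (hm i m).le (int_exq q e d i m)

theorem good_exq {q e d : ℕ} (hq : 2 ≤ q) (hd : q + e ≤ d) {F : Tup 1 K}
    (hF : ∀ i, (F i).IsHomogeneous d)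
    (hm : ∀ i m, v ((F i).coeff m - (exq K q e d i).coeff m) < 1) : Good v F := by
  have hI := int_of hm
  obtain ⟨F', hF'⟩ := Ex3A.exists_O v hI
  have hE := exq_mp v.valuationSubring v.valuationSubring.subtype q e d
  obtain ⟨s, hs⟩ := Ex3A.nak (F := F') (E := exq v.valuationSubring q e d) (Ex3A.hom_O v hF' hF)
    (exq_hom _ hq hd) (fun i m => by
      rw [Ex3A.mem_max, MvPolynomial.coeff_sub]
      change v ((((exq v.valuationSubring q e d i).coeff m : v.valuationSubring) : K) -
        (((F' i).coeff m : v.valuationSubring) : K)) < 1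
      rw [Ex3A.coeff_O v hF', Ex3A.coeff_O v hE, Valuation.map_sub_swap]
      exact hm i m) (exq_pow _ hq hd)
  refine ⟨hI, s, fun j => ?_⟩
  obtain ⟨c, hc⟩ := Ideal.mem_span_range_iff_exists_fun.1 (hs j)
  refine ⟨mp v.valuationSubring.subtype c, fun i m => ?_, ?_⟩
  · unfold mp
    rw [MvPolynomial.coeff_map]
    exact (FrbA.mem_O v).1 ((c i).coeff m).2
  · have h1 := congrArg (MvPolynomial.map v.valuationSubring.subtype) hc
    rw [map_sum, map_pow, MvPolynomial.map_X] at h1
    rw [← h1]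
    refine Finset.sum_congr rfl fun i _ => ?_
    rw [map_mul]
    conv_lhs => rw [← hF']
    rfl

/-- the lift of `F` reduces to the special tuple -/
theorem red_eq {q e d : ℕ} {F : Tup 1 K} {F' : Tup 1 v.valuationSubring}
    (hF' : mp v.valuationSubring.subtype F' = F)
    (hm : ∀ i m, v ((F i).coeff m - (exq K q e d i).coeff m) < 1) :
    mp (IsLocalRing.residue v.valuationSubring) F' =
      exq (IsLocalRing.ResidueField v.valuationSubring) q e d := by
  have hE := exq_mp v.valuationSubring v.valuationSubring.subtype q e d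
  rw [← exq_mp v.valuationSubring (IsLocalRing.residue v.valuationSubring) q e d]
  funext i
  unfold mp
  ext m
  rw [MvPolynomial.coeff_map, MvPolynomial.coeff_map, ← sub_eq_zero, ← map_sub,
    FrbA.residue_eq_zero]
  change v ((((F' i).coeff m : v.valuationSubring) : K) -
    (((exq v.valuationSubring q e d i).coeff m : v.valuationSubring) : K)) < 1
  rw [Ex3A.coeff_O v hF', Ex3A.coeff_O v hE]
  exact hm i m

/-- the local degree from the reduction -/
theorem sat_of {q e d : ℕ} {F : Tup 1 K} {F' : Tup 1 v.valuationSubring}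
    (hF' : mp v.valuationSubring.subtype F' = F)
    (hm : ∀ i m, v ((F i).coeff m - (exq K q e d i).coeff m) < 1) {x : Fin 2 → K}
    {y u : Fin 2 → v.valuationSubring} (hxy : wd x (fun i => (y i : K)) = 0)
    (hy : nv v (fun i => (y i : K)) = 1)
    {p r : Fin 2 → IsLocalRing.ResidueField v.valuationSubring}
    (hp : (fun i => IsLocalRing.residue v.valuationSubring (y i)) = p)
    (hq : (fun i => IsLocalRing.residue v.valuationSubring (u i)) = r)
    (hpq : wd p r ≠ 0) {N : ℕ}
    {Q : (IsLocalRing.ResidueField v.valuationSubring)[X]}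
    (hW : Ex3A.W (exq (IsLocalRing.ResidueField v.valuationSubring) q e d) N p r = X ^ e * Q)
    (hQ : Q.coeff 0 ≠ 0) : SAt v F x N e := by
  have h1 : Ex3A.W F N (fun i => (y i : K)) (fun i => (u i : K)) =
      (Ex3A.W F' N y u).map v.valuationSubring.subtype := by
    rw [← Ex3A.W_map, hF']
    rfl
  have h2 : Ex3A.W (exq (IsLocalRing.ResidueField v.valuationSubring) q e d) N p r =
      (Ex3A.W F' N y u).map (IsLocalRing.residue v.valuationSubring) := by
    rw [← Ex3A.W_map, red_eq hF' hm, hp, hq]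
  have h3 : ∀ j, IsLocalRing.residue v.valuationSubring ((Ex3A.W F' N y u).coeff j) =
      (X ^ e * Q).coeff j := by
    intro j
    rw [← hW, h2, coeff_map]
  have h4 : ∀ j, (wd (near F N (fun i => (y i : K)) (fun i => (u i : K)))
      fun i => C ((fun i => (y i : K)) i)).coeff j =
      (((Ex3A.W F' N y u).coeff j : v.valuationSubring) : K) := by
    intro j
    have h5 := congrArg (fun P => coeff P j) h1
    simp only [coeff_map] at h5
    exact h5
  refine ⟨fun i => (y i : K), fun i => (u i : K), hxy, hy, ?_, ?_, ?_, ?_⟩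
  · exact max_le ((FrbA.mem_O v).1 (u 0).2) ((FrbA.mem_O v).1 (u 1).2)
  · have h5 : IsLocalRing.residue v.valuationSubring (wd y u) ≠ 0 := by
      rw [← wd_map, hp, hq]
      exact hpq
    have h6 := Ex3A.res_ne h5
    have h7 : ((wd y u : v.valuationSubring) : K) = wd (fun i => (y i : K)) (fun i => (u i : K)) :=
      (wd_map v.valuationSubring.subtype y u).symm
    rwa [h7] at h6
  · intro j hj
    rw [h4, ← FrbA.residue_eq_zero, h3, coeff_X_pow_mul', if_neg (by omega)]
  · rw [h4]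
    refine Ex3A.res_ne ?_
    rw [h3, coeff_X_pow_mul', if_pos le_rfl, Nat.sub_self]
    exact hQ

/-- periodic modulo `v`: the reduction is periodic -/
theorem per_of {q e d : ℕ} {F : Tup 1 K} (hF : ∀ i, (F i).IsHomogeneous d) (hG : Good v F)
    {F' : Tup 1 v.valuationSubring}
    (hF' : mp v.valuationSubring.subtype F' = F)
    (hm : ∀ i m, v ((F i).coeff m - (exq K q e d i).coeff m) < 1)
    {y : Fin 2 → v.valuationSubring}
    (hy : nv v (fun i => (y i : K)) = 1)
    (h : PerMod v F (fun i => (y i : K))) :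
    ∃ n : ℕ, 0 < n ∧
      wd ((app (exq (IsLocalRing.ResidueField v.valuationSubring) q e d))^[n]
        (fun i => IsLocalRing.residue v.valuationSubring (y i)))
        (fun i => IsLocalRing.residue v.valuationSubring (y i)) = 0 := by
  obtain ⟨n, hn, hcg⟩ := h
  refine ⟨n, hn, ?_⟩
  have hy0 : (fun i => (y i : K)) ≠ 0 := by
    intro h0
    rw [h0, nv_eq_zero.2 rfl] at hy
    exact zero_ne_one hy
  have h1 : (app F)^[n] (fun i => (y i : K)) = fun i => (((app F')^[n] y i : v.valuationSubring) : K) := by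
    rw [← hF']
    exact PNH.iter_mp v.valuationSubring.subtype F' n y
  unfold Cg at hcg
  rw [good_iter_nv hF hG n hy0, hy, one_pow, one_mul, h1] at hcg
  have h2 : wd (fun i => (((app F')^[n] y i : v.valuationSubring) : K)) (fun i => (y i : K)) =
      ((wd ((app F')^[n] y) y : v.valuationSubring) : K) :=
    wd_map v.valuationSubring.subtype _ _
  rw [h2, ← FrbA.residue_eq_zero, ← wd_map] at hcg
  rw [← red_eq hF' hm, PNH.iter_mp]
  exact hcg

end Rdn

section Fermat

variable {K : Type} [Field K] [NumberField K]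

theorem small_q (v : HeightOneSpectrum (𝓞 K)) {a : K} (ha : v.valuation K a ≤ 1) :
    v.valuation K (a - a ^ Ideal.absNorm v.asIdeal) < 1 := by
  obtain ⟨w, e, h, he, hval, -, hfrob⟩ := TameArb.exists_frob K K v
  have hov : TameArb.Over (v.valuation K) (w.valuation K) e := ⟨he, hval⟩
  have h1 : w.valuation K a ≤ 1 := hov.le_one.2 ha
  have h2 := hfrob a h1
  have h3 : h a = a := h.commutes a
  rw [h3] at h2
  exact hov.lt_one.1 h2

theorem two_le (v : HeightOneSpectrum (𝓞 K)) : 2 ≤ Ideal.absNorm v.asIdeal := by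
  have h0 : Ideal.absNorm v.asIdeal ≠ 0 := by
    intro h
    exact v.ne_bot (Ideal.absNorm_eq_zero_iff.1 h)
  have h1 : Ideal.absNorm v.asIdeal ≠ 1 := by
    intro h
    exact v.isPrime.ne_top (Ideal.absNorm_eq_one_iff.1 h)
  omega

theorem fermat (v : HeightOneSpectrum (𝓞 K))
    (r : IsLocalRing.ResidueField (v.valuation K).valuationSubring) (hr : r ≠ 0) :
    r ^ (Ideal.absNorm v.asIdeal - 1) = 1 := by
  obtain ⟨a, rfl⟩ := IsLocalRing.residue_surjective r
  have h1 := small_q v ((FrbA.mem_O (v.valuation K)).1 a.2)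
  have h2 : IsLocalRing.residue (v.valuation K).valuationSubring
      (a - a ^ Ideal.absNorm v.asIdeal) = 0 :=
    (FrbA.residue_eq_zero (v.valuation K) (a - a ^ Ideal.absNorm v.asIdeal)).2 h1
  rw [map_sub, map_pow] at h2
  have h3 := two_le v
  obtain ⟨n, hn⟩ : ∃ n, Ideal.absNorm v.asIdeal = n + 1 := ⟨Ideal.absNorm v.asIdeal - 1, by omega⟩
  rw [hn, pow_succ] at h2
  rw [hn, Nat.add_sub_cancel]
  apply mul_right_cancel₀ hr
  rw [one_mul]
  exact (sub_eq_zero.1 h2).symm

end Fermat

end ExQ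

/-- **A class of maps of large degree modulo a prime all of whose cycles are critical.** -/
theorem exq_sa {K : Type} [Field K] [NumberField K] {d e : ℕ} {F : Tup 1 K}
    (hF : ∀ i, (F i).IsHomogeneous d) (v : HeightOneSpectrum (𝓞 K)) (he : 2 ≤ e)
    (hd : Ideal.absNorm v.asIdeal + e ≤ d)
    (hm : ∀ i m, v.valuation K ((F i).coeff m -
      (exq K (Ideal.absNorm v.asIdeal) e d i).coeff m) < 1) :
    Good (v.valuation K) F ∧ ∀ x : Fin 2 → K, x ≠ 0 →
      ¬ PerMod (v.valuation K) F x ∨ SAt (v.valuation K) F x 1 e := by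
  have hq := ExQ.two_le v
  have hκ := ExQ.fermat v
  set q := Ideal.absNorm v.asIdeal with hqdef
  have hG : Good (v.valuation K) F := ExQ.good_exq hq hd hF hm
  refine ⟨hG, fun x hx => ?_⟩
  obtain ⟨F', hF'⟩ := Ex3A.exists_O (v.valuation K) (ExQ.int_of hm)
  obtain ⟨c, hc, h1, i, hi⟩ := exists_unitv (v := v.valuation K) hx
  set y : Fin 2 → (v.valuation K).valuationSubring := fun j =>
    ⟨(c • x) j, (FrbA.mem_O (v.valuation K)).2 (h1 ▸ le_nv (v := v.valuation K) (c • x) j)⟩
    with hy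
  have hyx : (fun j => (y j : K)) = c • x := rfl
  have hyi : y i = 1 := Subtype.ext hi
  have hy1 : nv (v.valuation K) (fun j => (y j : K)) = 1 := hyx ▸ h1
  have hxy : wd x (fun i => (y i : K)) = 0 := by
    rw [hyx, wd_smul_right, wd_self, mul_zero]
  have hri : IsLocalRing.residue (v.valuation K).valuationSubring (y i) = 1 := by
    rw [hyi, map_one]
  have hne : (fun j => IsLocalRing.residue (v.valuation K).valuationSubring (y j)) ≠ 0 := by
    intro h0
    have h2 := congrFun h0 i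
    simp only [Pi.zero_apply] at h2
    rw [hri] at h2
    exact one_ne_zero h2
  by_cases h0 : IsLocalRing.residue (v.valuation K).valuationSubring (y 0) = 0
  · right
    have hi1 : i = 1 := by
      by_contra hi1
      have hi0 : i = 0 := by omega
      rw [hi0, h0] at hri
      exact zero_ne_one hri
    have hp : (fun j => IsLocalRing.residue (v.valuation K).valuationSubring (y j)) = ![0, 1] := by
      funext j
      fin_cases j
      · exact h0
      · rw [hi1] at hri
        exact hri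
    have hu : (fun i => IsLocalRing.residue (v.valuation K).valuationSubring
        ((![1, 0] : Fin 2 → (v.valuation K).valuationSubring) i)) = ![1, 0] := by
      funext i
      fin_cases i
      · exact map_one _
      · exact map_zero _
    refine ExQ.sat_of hF' hm hxy hy1 hp hu ?_ (ExQ.W_q q e d) ?_
    · simp [wd]
    · have h2 : q - 1 ≠ 0 := by omega
      rw [coeff_sub, coeff_X_pow, coeff_one_zero, if_neg (by omega), zero_sub]
      exact neg_ne_zero.2 one_ne_zero
  · left
    intro hp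
    have hp' : PerMod (v.valuation K) F (fun i => (y i : K)) := by
      rw [hyx]
      exact (PerMod.smul hF hc x).2 hp
    obtain ⟨n, hn, h4⟩ := ExQ.per_of hF hG hF' hm hy1 hp'
    obtain ⟨h5, h6⟩ := ExQ.orb_q hq he hd hκ hne hn
    unfold wd at h4
    rw [h5, zero_mul, zero_sub, neg_eq_zero] at h4
    rcases mul_eq_zero.1 h4 with h7 | h7
    · exact h6 h7
    · exact h0 h7

end Pool.Agent.AAP
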