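import Mathlib
import Pool.Agent.AAP.Defs
import Pool.Agent.AAP.Equ
import Pool.Agent.LIM.NullS
import Pool.Agent.TameArb.Down

set_option autoImplicit false

/-!
# The sieve over the prime ideals of a number field
-/

namespace Pool.Agent.AAP

open NumberField IsDedekindDomain
open Pool.Agent.TameArb (PosDens pt)
open Pool.Agent.FAM (Cube)
open Pool.Agent.LIM (Null)

variable {K : Type} [Field K] [NumberField K]

theorem PosDens.div {S B : Set (HeightOneSpectrum (𝓞 K))} (hS : PosDens S) (hB : B.Finite) :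
    ¬ Summable fun v : (S \ B : Set (HeightOneSpectrum (𝓞 K))) =>
      (Ideal.absNorm v.1.asIdeal : ℝ)⁻¹ := by
  intro hsum
  obtain ⟨c, hc, C, h⟩ := TameArb.PosDens.mono hS hB (S := S \ B) (by
    rw [Set.union_sdiff_self]
    exact Set.subset_union_right)
  obtain ⟨M, hM⟩ : ∃ M : ℝ, M = ∑' v : (S \ B : Set (HeightOneSpectrum (𝓞 K))),
    (Ideal.absNorm v.1.asIdeal : ℝ)⁻¹ := ⟨_, rfl⟩
  have h1 : ∀ s : ℝ, 1 < s → s < 2 → c * Real.log (1 / (s - 1)) - C ≤ M := by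
    intro s hs hs2
    refine (h s hs hs2).trans ?_
    rw [hM]
    refine Summable.tsum_le_tsum (fun v => ?_) ((TameArb.pt_summable K hs).subtype _) hsum
    have h2 := TameArb.two_le_norm K v.1
    have h3 : (1 : ℝ) ≤ (Ideal.absNorm v.1.asIdeal : ℝ) := by
      exact_mod_cast (by omega : 1 ≤ Ideal.absNorm v.1.asIdeal)
    unfold pt
    rw [← Real.rpow_neg_one]
    exact Real.rpow_le_rpow_of_exponent_le h3 (by linarith)
  obtain ⟨X, hX⟩ : ∃ X : ℝ, X = (M + C + 1) / c := ⟨_, rfl⟩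
  obtain ⟨e, he⟩ : ∃ e : ℝ, e = min (1 / 2) (Real.exp (-X)) := ⟨_, rfl⟩
  have he0 : 0 < e := he ▸ lt_min (by norm_num) (Real.exp_pos _)
  have he1 : e ≤ 1 / 2 := he ▸ min_le_left _ _
  have h2 := h1 (1 + e) (by linarith) (by linarith)
  rw [add_sub_cancel_left, one_div, Real.log_inv] at h2
  have h3 : Real.log e ≤ -X := by
    rw [← Real.log_exp (-X)]
    exact Real.log_le_log he0 (he ▸ min_le_right _ _)
  have h4 : c * X = M + C + 1 := by
    rw [hX]
    field_simp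
  have h5 : c * X ≤ c * (-Real.log e) := mul_le_mul_of_nonneg_left (by linarith) hc.le
  linarith

theorem vc_surj {r m R : ℕ} (ω : Module.Basis (Fin m) ℤ (𝓞 K)) (e : Fin R ≃ Fin r × Fin m)
    (V : Finset (HeightOneSpectrum (𝓞 K))) (b : ∀ v : HeightOneSpectrum (𝓞 K), Fin r → 𝓞 K) :
    ∃ s : Fin R → ℤ, ∀ v ∈ V, ∀ i, vc ω e s i - b v i ∈ v.asIdeal := by
  have h1 : ∀ i : Fin r, ∃ a : 𝓞 K, ∀ v ∈ V, a - b v i ∈ v.asIdeal := by
    intro i
    obtain ⟨a, ha⟩ := IsDedekindDomain.exists_forall_sub_mem_ideal (R := 𝓞 K) (s := V)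
      (fun v => v.asIdeal) (fun _ => 1) (fun v _ => v.prime)
      (fun v _ w _ hvw h => hvw (HeightOneSpectrum.ext h)) (fun v => b v.1 i)
    refine ⟨a, fun v hv => ?_⟩
    have h2 := ha v hv
    rwa [pow_one] at h2
  choose a ha using h1
  refine ⟨fun t => ω.repr (a (e t).1) (e t).2, fun v hv i => ?_⟩
  have h2 : vc ω e (fun t => ω.repr (a (e t).1) (e t).2) i = a i := by
    unfold vc
    simp only [Equiv.apply_symm_apply]
    exact ω.sum_repr (a i)
  rw [h2]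
  exact ha i v hv

namespace SivA

variable {r m R : ℕ} (ω : Module.Basis (Fin m) ℤ (𝓞 K)) (e : Fin R ≃ Fin r × Fin m)

/-- the residues modulo the primes of a finite set -/
noncomputable def ps (V : Finset (HeightOneSpectrum (𝓞 K))) :
    (Fin R → ℤ) →+ (∀ v : V, Fin r → 𝓞 K ⧸ v.1.asIdeal) where
  toFun s v i := Ideal.Quotient.mk v.1.asIdeal (vc ω e s i)
  map_zero' := by
    funext v i
    simp [vc]
  map_add' s t := by
    funext v i
    simp only [vc, Pi.add_apply, add_smul, Finset.sum_add_distrib, map_add]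

theorem ps_surj (V : Finset (HeightOneSpectrum (𝓞 K))) : Function.Surjective (ps ω e V) := by
  classical
  intro g
  have h1 : ∀ (v : V) (i : Fin r), ∃ a : 𝓞 K, Ideal.Quotient.mk v.1.asIdeal a = g v i :=
    fun v i => Ideal.Quotient.mk_surjective (g v i)
  choose a ha using h1
  obtain ⟨s, hs⟩ := vc_surj ω e V fun v i => if h : v ∈ V then a ⟨v, h⟩ i else 0
  refine ⟨s, ?_⟩
  funext v i
  change Ideal.Quotient.mk v.1.asIdeal (vc ω e s i) = g v i
  rw [← ha v i, Ideal.Quotient.eq]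
  have h2 := hs v.1 v.2 i
  rwa [dif_pos v.2] at h2

end SivA

open SivA in
theorem sieve {r m R : ℕ} (ω : Module.Basis (Fin m) ℤ (𝓞 K)) (e : Fin R ≃ Fin r × Fin m)
    (S : Set (HeightOneSpectrum (𝓞 K)))
    (A : ∀ v : HeightOneSpectrum (𝓞 K), Set (Fin r → 𝓞 K ⧸ v.asIdeal))
    (δ : HeightOneSpectrum (𝓞 K) → ℝ) (h0 : ∀ v ∈ S, 0 ≤ δ v)
    (h1 : ∀ v ∈ S, ((A v).ncard : ℝ) ≤ (1 - δ v) * (Ideal.absNorm v.asIdeal : ℝ) ^ r)
    (h2 : ¬ Summable fun v : S => δ v.1) :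
    Null {s : Fin R → ℤ | ∀ v ∈ S, (fun i => Ideal.Quotient.mk v.asIdeal (vc ω e s i)) ∈ A v} := by
  classical
  intro ε hε
  obtain ⟨B, hB⟩ : ∃ B : ℝ, Real.exp (-B) ≤ ε / 2 := by
    have h3 : Filter.Tendsto (fun B : ℝ => Real.exp (-B)) Filter.atTop (nhds 0) :=
      Real.tendsto_exp_atBot.comp Filter.tendsto_neg_atTop_atBot
    exact ((h3.eventually (gt_mem_nhds (half_pos hε))).exists).imp fun _ h => h.le
  obtain ⟨u, hu⟩ : ∃ u : Finset S, B < ∑ v ∈ u, δ v.1 := by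
    by_contra hcon
    push Not at hcon
    exact h2 (summable_of_sum_le (fun v => h0 v.1 v.2) hcon)
  obtain ⟨V, hV⟩ : ∃ V : Finset (HeightOneSpectrum (𝓞 K)), V = u.map (Function.Embedding.subtype _) :=
    ⟨_, rfl⟩
  have hVS : ∀ v ∈ V, v ∈ S := by
    intro v hv
    rw [hV, Finset.mem_map] at hv
    obtain ⟨w, _, rfl⟩ := hv
    exact w.2
  have hsum : B ≤ ∑ v ∈ V, δ v := by
    rw [hV, Finset.sum_map]
    exact hu.le
  have hfin : ∀ v : HeightOneSpectrum (𝓞 K), Finite (𝓞 K ⧸ v.asIdeal) := fun v =>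
    Ideal.finiteQuotientOfFreeOfNeBot v.asIdeal v.ne_bot
  have hcard : ∀ v : HeightOneSpectrum (𝓞 K),
      Nat.card (Fin r → 𝓞 K ⧸ v.asIdeal) = Ideal.absNorm v.asIdeal ^ r := by
    intro v
    rw [Nat.card_fun, Nat.card_fin, Ideal.absNorm_apply]
    rfl
  obtain ⟨T, hT⟩ : ∃ T : Set (∀ v : V, Fin r → 𝓞 K ⧸ v.1.asIdeal),
    T = Set.pi Set.univ fun v : V => A v.1 := ⟨_, rfl⟩
  obtain ⟨H₀, hH⟩ := equ (ps ω e V) (ps_surj ω e V) T (ε / 2) (half_pos hε)
  refine ⟨H₀, fun H hH0 => ?_⟩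
  have h4 := hH H hH0
  have h5 : (T.ncard : ℝ) / Nat.card (∀ v : V, Fin r → 𝓞 K ⧸ v.1.asIdeal) ≤ ε / 2 := by
    have h7 : (T.ncard : ℝ) = ∏ v : V, ((A v.1).ncard : ℝ) := by
      rw [← Nat.card_coe_set_eq, hT, Nat.card_congr (Equiv.Set.univPi fun v : V => A v.1),
        Nat.card_pi, Nat.cast_prod]
      exact Finset.prod_congr rfl fun v _ => by rw [Nat.card_coe_set_eq]
    have h8 : (Nat.card (∀ v : V, Fin r → 𝓞 K ⧸ v.1.asIdeal) : ℝ) =
        ∏ v : V, (Ideal.absNorm v.1.asIdeal : ℝ) ^ r := by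
      rw [Nat.card_pi, Nat.cast_prod]
      exact Finset.prod_congr rfl fun v _ => by rw [hcard, Nat.cast_pow]
    rw [h7, h8, ← Finset.prod_div_distrib]
    have h9 : ∀ v : V, ((A v.1).ncard : ℝ) / (Ideal.absNorm v.1.asIdeal : ℝ) ^ r ≤
        Real.exp (-δ v.1) := by
      intro v
      have h10 : (0 : ℝ) < (Ideal.absNorm v.1.asIdeal : ℝ) := by
        have := TameArb.two_le_norm K v.1
        exact_mod_cast (by omega : 0 < Ideal.absNorm v.1.asIdeal)
      rw [div_le_iff₀ (pow_pos h10 r)]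
      refine (h1 v.1 (hVS v.1 v.2)).trans (mul_le_mul_of_nonneg_right ?_ (pow_pos h10 r).le)
      have := Real.add_one_le_exp (-δ v.1)
      linarith
    calc ∏ v : V, ((A v.1).ncard : ℝ) / (Ideal.absNorm v.1.asIdeal : ℝ) ^ r
        ≤ ∏ v : V, Real.exp (-δ v.1) :=
          Finset.prod_le_prod (fun v _ => by positivity) fun v _ => h9 v
      _ = Real.exp (-∑ v ∈ V, δ v) := by
          rw [← Real.exp_sum, Finset.sum_neg_distrib, Finset.sum_coe_sort V δ]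
      _ ≤ Real.exp (-B) := Real.exp_le_exp.2 (neg_le_neg hsum)
      _ ≤ ε / 2 := hB
  have h6 : ((Cube R H : Set (Fin R → ℤ)) ∩
      {s : Fin R → ℤ | ∀ v ∈ S, (fun i => Ideal.Quotient.mk v.asIdeal (vc ω e s i)) ∈ A v}).ncard ≤
      ((Cube R H).filter fun s => ps ω e V s ∈ T).card := by
    rw [← Set.ncard_coe_finset]
    refine Set.ncard_le_ncard ?_ (Finset.finite_toSet _)
    rintro s ⟨hs1, hs2⟩
    rw [Finset.coe_filter]
    refine ⟨hs1, ?_⟩
    rw [hT]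
    exact fun v _ => hs2 v.1 (hVS v.1 v.2)
  calc (((Cube R H : Set (Fin R → ℤ)) ∩ {s : Fin R → ℤ |
        ∀ v ∈ S, (fun i => Ideal.Quotient.mk v.asIdeal (vc ω e s i)) ∈ A v}).ncard : ℝ)
      ≤ _ := by exact_mod_cast h6
    _ ≤ _ := h4
    _ ≤ (ε / 2 + ε / 2) * (2 * (H : ℝ) + 1) ^ R :=
        mul_le_mul_of_nonneg_right (add_le_add_left h5 _) (by positivity)
    _ = ε * (2 * (H : ℝ) + 1) ^ R := by rw [add_halves]

end Pool.Agent.AAP
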