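import Mathlib
import Pool.Agent.AAP.Defs
import Pool.Agent.AAP.Red
import Pool.Agent.AAP.Bad
import Pool.Agent.AAP.Siv
import Pool.Agent.AAP.DenM
import Pool.Agent.LIM.NullS

set_option autoImplicit false

/-!
# Almost all points coincide with a given point modulo a prime of a given set
-/

namespace Pool.Agent.AAP

open NumberField IsDedekindDomain
open scoped WithZero
open Pool.Agent.PNH (Tup app mp IsMor Cert)
open Pool.Agent.TameArb (PosDens pt)
open Pool.Agent.LIM (Null)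

namespace HitA

/-- the vectors over a finite domain that are not nonzero multiples of a given one -/
theorem ncard_le {k : Type} [CommRing k] [IsDomain k] [Finite k] (a : Fin 2 → k) (ha : a ≠ 0) :
    (({t | ¬ ∃ c : k, c ≠ 0 ∧ t = c • a} : Set (Fin 2 → k)).ncard : ℝ) ≤
      (1 - (1 / 2) * ((Nat.card k : ℝ))⁻¹) * (Nat.card k : ℝ) ^ 2 := by
  classical
  set B : Set (Fin 2 → k) := {t | ∃ c : k, c ≠ 0 ∧ t = c • a} with hB
  have h1 : {t | ¬ ∃ c : k, c ≠ 0 ∧ t = c • a} = Bᶜ := rfl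
  have h2 : B = (fun c : k => c • a) '' {c | c ≠ 0} := by
    ext t
    constructor
    · rintro ⟨c, hc, rfl⟩
      exact ⟨c, hc, rfl⟩
    · rintro ⟨c, hc, rfl⟩
      exact ⟨c, hc, rfl⟩
  have hinj : Function.Injective fun c : k => c • a := by
    obtain ⟨i, hi⟩ := Function.ne_iff.1 ha
    intro c c' h
    have h' : c * a i = c' * a i := congrFun h i
    exact mul_right_cancel₀ hi h'
  have h3 : B.ncard = ({c : k | c ≠ 0} : Set k).ncard := by
    rw [h2]
    exact Set.ncard_image_of_injective _ hinj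
  have h4 : ({c : k | c ≠ 0} : Set k).ncard + 1 = Nat.card k := by
    have h := Set.ncard_add_ncard_compl ({0} : Set k)
    rw [Set.ncard_singleton] at h
    change (({0} : Set k)ᶜ).ncard + 1 = Nat.card k
    omega
  have h5 := Set.ncard_add_ncard_compl B
  have h6 : Nat.card (Fin 2 → k) = Nat.card k ^ 2 := by
    rw [Nat.card_fun, Nat.card_fin]
  have hq : 2 ≤ Nat.card k := Finite.one_lt_card
  rw [h1]
  have h7 : (B.ncard : ℝ) + (Bᶜ.ncard : ℝ) = (Nat.card k : ℝ) ^ 2 := by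
    rw [h6] at h5
    exact_mod_cast h5
  have h8 : (B.ncard : ℝ) + 1 = Nat.card k := by
    rw [h3]
    exact_mod_cast h4
  have hq' : (2 : ℝ) ≤ Nat.card k := by exact_mod_cast hq
  have h9 : (1 - (1 / 2) * ((Nat.card k : ℝ))⁻¹) * (Nat.card k : ℝ) ^ 2 =
      (Nat.card k : ℝ) ^ 2 - (Nat.card k : ℝ) / 2 := by
    field_simp
  rw [h9]
  linarith

end HitA

open HitA

variable {K : Type} [Field K] [NumberField K]

theorem null_hit {m R : ℕ} (ω : Module.Basis (Fin m) ℤ (𝓞 K)) (e : Fin R ≃ Fin 2 × Fin m)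
    (S : Set (HeightOneSpectrum (𝓞 K))) (hS : PosDens S) (x : Fin 2 → K) (hx : x ≠ 0) :
    Null {s : Fin R → ℤ | ∀ v ∈ S,
      ¬ Cg (v.valuation K) (fun i => ((vc ω e s i : 𝓞 K) : K)) x} := by
  classical
  obtain ⟨b, hb⟩ := IsLocalization.exist_integer_multiples_of_finite (nonZeroDivisors (𝓞 K)) x
  have hb0 : ((b : 𝓞 K) : K) ≠ 0 := by
    intro h
    exact nonZeroDivisors.ne_zero b.2 (RingOfIntegers.coe_injective h)
  choose a ha using hb
  obtain ⟨x', hx'⟩ : ∃ x' : Fin 2 → K, x' = ((b : 𝓞 K) : K) • x := ⟨_, rfl⟩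
  have hax : ∀ i, ((a i : 𝓞 K) : K) = x' i := by
    intro i
    rw [hx']
    exact (ha i).trans (Algebra.smul_def _ _)
  have hx'0 : x' ≠ 0 := by
    rw [hx']
    exact smul_ne_zero hb0 hx
  set B : Set (HeightOneSpectrum (𝓞 K)) := {v | nv (v.valuation K) x' ≠ 1} with hB
  have hBf : B.Finite := finite_nv hx'0
  set A : ∀ v : HeightOneSpectrum (𝓞 K), Set (Fin 2 → 𝓞 K ⧸ v.asIdeal) := fun v =>
    {t | ¬ ∃ c : 𝓞 K ⧸ v.asIdeal, c ≠ 0 ∧ t = c • fun i => Ideal.Quotient.mk v.asIdeal (a i)}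
    with hA
  have hmem : ∀ v ∉ B, ∃ i, a i ∉ v.asIdeal := by
    intro v hv
    by_contra hcon
    push Not at hcon
    have h1 : nv (v.valuation K) x' = 1 := by
      by_contra h
      exact hv h
    obtain ⟨i, hi⟩ := exists_nv (v.valuation K) x'
    rw [h1, ← hax i] at hi
    exact absurd ((v.valuation_lt_one_iff_mem (K := K) (a i)).2 (hcon i)) (by
      rw [not_lt]
      exact hi.ge)
  refine Null.mono ?_ (sieve ω e (S \ B) A (fun v => (1 / 2) * ((Ideal.absNorm v.asIdeal : ℝ))⁻¹)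
    (fun v _ => by positivity) ?_ ?_)
  · rintro s hs v ⟨hvS, hvB⟩
    rintro ⟨c, hc0, h⟩
    apply hs v hvS
    obtain ⟨γ, rfl⟩ := Ideal.Quotient.mk_surjective c
    have hγ : γ ∉ v.asIdeal := fun h' => hc0 (Ideal.Quotient.eq_zero_iff_mem.2 h')
    have hy : ∀ i, vc ω e s i - γ * a i ∈ v.asIdeal := by
      intro i
      rw [← Ideal.Quotient.eq]
      have h' := congrFun h i
      rw [map_mul]
      exact h'
    obtain ⟨i, hi⟩ := hmem v hvB
    have hprime := v.isPrime
    have hyi : vc ω e s i ∉ v.asIdeal := by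
      intro h'
      have h'' : γ * a i ∈ v.asIdeal := by
        have := v.asIdeal.sub_mem h' (hy i)
        rwa [sub_sub_cancel] at this
      rcases hprime.mem_or_mem h'' with h3 | h3
      · exact hγ h3
      · exact hi h3
    have hone : ∀ r : 𝓞 K, r ∉ v.asIdeal → v.valuation K (r : K) = 1 := by
      intro r hr
      refine le_antisymm (v.valuation_le_one r) ?_
      rw [← not_lt]
      exact fun h' => hr ((v.valuation_lt_one_iff_mem (K := K) r).1 h')
    have hnx : nv (v.valuation K) x' = 1 := by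
      by_contra h'
      exact hvB h'
    have hny : nv (v.valuation K) (fun i => ((vc ω e s i : 𝓞 K) : K)) = 1 := by
      refine le_antisymm (max_le (v.valuation_le_one _) (v.valuation_le_one _)) ?_
      rw [← hone _ hyi]
      exact le_nv (v := v.valuation K) (fun i => ((vc ω e s i : 𝓞 K) : K)) i
    have hcg : Cg (v.valuation K) (fun i => ((vc ω e s i : 𝓞 K) : K)) x' := by
      rw [Cg, hnx, hny, one_mul]
      have h3 : wd (fun i => ((vc ω e s i : 𝓞 K) : K)) x' =
          (((vc ω e s 0 - γ * a 0) * a 1 - (vc ω e s 1 - γ * a 1) * a 0 : 𝓞 K) : K) := by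
        unfold wd
        rw [← hax 0, ← hax 1]
        push_cast
        ring
      rw [h3]
      refine (v.valuation_lt_one_iff_mem (K := K) _).2 ?_
      exact v.asIdeal.sub_mem (v.asIdeal.mul_mem_right _ (hy 0)) (v.asIdeal.mul_mem_right _ (hy 1))
    rw [hx'] at hcg
    exact (cg_smul' hb0 _ _).1 hcg
  · rintro v ⟨-, hvB⟩
    have hprime := v.isPrime
    have hfin : Finite (𝓞 K ⧸ v.asIdeal) := Ideal.finiteQuotientOfFreeOfNeBot _ v.ne_bot
    obtain ⟨i, hi⟩ := hmem v hvB
    have hne : (fun i => Ideal.Quotient.mk v.asIdeal (a i)) ≠ 0 := by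
      intro h
      exact hi (Ideal.Quotient.eq_zero_iff_mem.1 (congrFun h i))
    have h := ncard_le (fun i => Ideal.Quotient.mk v.asIdeal (a i)) hne
    rw [Ideal.absNorm_apply, Submodule.cardQuot_apply]
    exact h
  · intro h
    refine PosDens.div hS hBf ?_
    have h2 := h.mul_left (2 : ℝ)
    refine h2.congr fun v => ?_
    ring

open Classical in
theorem null_pairs {d : ℕ} (hd : 2 ≤ d) {F : Tup 1 K} (hF : IsMor d K F)
    (Γ : Finset (Fin 2 → K)) (hΓ : ∀ x ∈ Γ, x ≠ 0) (hΓ' : Γ.Nonempty)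
    (hne : (SP F Γ).Nonempty) {m R : ℕ} (ω : Module.Basis (Fin m) ℤ (𝓞 K))
    (e : Fin R ≃ Fin 2 × Fin m) :
    Null {s : Fin R → ℤ | ¬ PosDens (SP F (insert (fun i => ((vc ω e s i : 𝓞 K) : K)) Γ))} := by
  obtain ⟨v₀, hv₀⟩ := hne
  obtain ⟨x, hx⟩ := hΓ'
  have hS : PosDens (SP F Γ) := dens_of_mem hd hF Γ hΓ v₀ hv₀
  refine Null.mono ?_ (null_hit ω e (SP F Γ) hS x (hΓ x hx))
  intro s hs v hv hcg
  apply hs
  refine dens_of_mem hd hF _ ?_ v ⟨hv.1, ?_⟩
  · intro y hy
    rcases Finset.mem_insert.1 hy with rfl | hy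
    · exact hcg.ne.1
    · exact hΓ y hy
  · intro y hy
    rcases Finset.mem_insert.1 hy with rfl | hy
    · intro hper
      exact hv.2 x hx (PerMod.of_cg hF.1 hv.1 hcg hper)
    · exact hv.2 y hy

end Pool.Agent.AAP
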