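import Mathlib
import Pool.Agent.AAP.Defs
import Pool.Agent.PNH.UniO
import Pool.Agent.PNH.Bty

set_option autoImplicit false

/-!
# Almost all pairs of forms of degree `d` are rational maps of degree `d`
-/

namespace Pool.Agent.AAP

open NumberField
open Pool.Agent.PNH (Tup app mp IsMor univO univO_mor mem)
open Pool.Agent.LIM (Null)
open Pool.Agent.FamK (ev)

namespace NulMA

/-- the monomial `X^j Y^(d-j)` -/
noncomputable def mo (d : ℕ) (j : Fin (d + 1)) : Fin 2 →₀ ℕ :=
  Finsupp.single 0 (j : ℕ) + Finsupp.single 1 (d - (j : ℕ))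

theorem mo_zero (d : ℕ) (j : Fin (d + 1)) : mo d j 0 = j := by
  simp [mo]

theorem mo_one (d : ℕ) (j : Fin (d + 1)) : mo d j 1 = d - j := by
  simp [mo]

theorem mo_deg (d : ℕ) (j : Fin (d + 1)) : (mo d j).degree = d := by
  rw [Finsupp.degree_eq_sum, Fin.sum_univ_two, mo_zero, mo_one]
  omega

/-- the monomials of degree `d` -/
noncomputable def eqv (d : ℕ) : Fin (d + 1) ≃ {α : Fin 2 →₀ ℕ // α.degree = d} where
  toFun j := ⟨mo d j, mo_deg d j⟩
  invFun α := ⟨α.1 0, by
    have := α.2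
    rw [Finsupp.degree_eq_sum, Fin.sum_univ_two] at this
    omega⟩
  left_inv j := Fin.ext (mo_zero d j)
  right_inv α := by
    have h := α.2
    rw [Finsupp.degree_eq_sum, Fin.sum_univ_two] at h
    apply Subtype.ext
    ext i
    fin_cases i
    · exact mo_zero d _
    · change mo d _ 1 = α.1 1
      rw [mo_one]
      change d - α.1 0 = α.1 1
      omega

theorem coeff_fm {k : Type} [CommRing k] {d : ℕ} (a : Fin (d + 1) → k) (j : Fin (d + 1)) :
    (fm a).coeff (mo d j) = a j := by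
  classical
  unfold fm
  rw [MvPolynomial.coeff_sum, Finset.sum_eq_single j]
  · rw [mul_assoc, MvPolynomial.coeff_C_mul, MvPolynomial.X_pow_eq_monomial,
      MvPolynomial.X_pow_eq_monomial, MvPolynomial.monomial_mul, MvPolynomial.coeff_monomial]
    simp [mo]
  · intro i _ hij
    rw [mul_assoc, MvPolynomial.coeff_C_mul, MvPolynomial.X_pow_eq_monomial,
      MvPolynomial.X_pow_eq_monomial, MvPolynomial.monomial_mul, MvPolynomial.coeff_monomial,
      if_neg, mul_zero]
    intro h
    apply hij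
    have h1 := DFunLike.congr_fun h 0
    have h2 := mo_zero d j
    rw [h2] at h1
    simp at h1
    exact Fin.ext h1
  · intro h
    exact absurd (Finset.mem_univ _) h

theorem hom_fm {k : Type} [CommRing k] {d : ℕ} (a : Fin (d + 1) → k) :
    (fm a).IsHomogeneous d := by
  unfold fm
  refine MvPolynomial.IsHomogeneous.sum _ _ _ fun i _ => ?_
  have h := ((MvPolynomial.isHomogeneous_C (Fin 2) (a i)).mul
    ((MvPolynomial.isHomogeneous_X k (0 : Fin 2)).pow (i : ℕ))).mul
    ((MvPolynomial.isHomogeneous_X k (1 : Fin 2)).pow (d - (i : ℕ)))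
  have h1 : 0 + 1 * (i : ℕ) + 1 * (d - (i : ℕ)) = d := by omega
  rw [h1] at h
  exact h

variable {K : Type} [Field K] [NumberField K]

theorem tp_eq {d m R : ℕ} (ω : Fin m → 𝓞 K) (e : Fin R ≃ Fin (2 * (d + 1)) × Fin m)
    (s : Fin R → ℤ) :
    (tp (d := d) fun i => ((vc ω e s i : 𝓞 K) : K)) =
      mem s (univO (N := 1) ω (e.trans (((finProdFinEquiv.symm : Fin (2 * (d + 1)) ≃ _).trans
        ((Equiv.refl (Fin 2)).prodCongr (eqv d))).prodCongr (Equiv.refl (Fin m))))) := by
  funext i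
  set e' := e.trans (((finProdFinEquiv.symm : Fin (2 * (d + 1)) ≃ _).trans
        ((Equiv.refl (Fin 2)).prodCongr (eqv d))).prodCongr (Equiv.refl (Fin m))) with he'
  have hh : (mem s (univO (N := 1) ω e') i).IsHomogeneous d :=
    PNH.hom_mp d _ _ (fun i => PNH.UniO.hom_univO ω e' i) i
  ext α
  by_cases hα : α.degree = d
  · obtain ⟨j, hj⟩ := (eqv d).surjective ⟨α, hα⟩
    have hj' : mo d j = α := congrArg Subtype.val hj
    rw [← hj']
    have h1 : (tp (d := d) (fun i => ((vc ω e s i : 𝓞 K) : K)) i).coeff (mo d j) =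
        ((vc ω e s (finProdFinEquiv (i, j)) : 𝓞 K) : K) := coeff_fm _ j
    rw [h1]
    have h2 : (mem s (univO (N := 1) ω e') i).coeff (mo d j) =
        ((algebraMap (𝓞 K) K).comp (ev s)) ((univO (N := 1) ω e' i).coeff (mo d j)) :=
      MvPolynomial.coeff_map _ _ _
    have h3 := PNH.UniO.coeff_univO (N := 1) ω e' (i, ⟨mo d j, mo_deg d j⟩)
    simp only at h3
    rw [h2, h3, RingHom.comp_apply, map_sum]
    unfold vc
    congr 1
    refine Finset.sum_congr rfl fun t _ => ?_
    rw [map_mul]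
    unfold ev
    rw [MvPolynomial.eval_C, MvPolynomial.eval_X]
    have h4 : e'.symm ((i, ⟨mo d j, mo_deg d j⟩), t) = e.symm (finProdFinEquiv (i, j), t) := by
      rw [Equiv.symm_apply_eq, he']
      have h5 : eqv d j = ⟨mo d j, mo_deg d j⟩ := rfl
      simp only [Equiv.trans_apply, Equiv.apply_symm_apply, Equiv.prodCongr_apply, Prod.map_apply,
        Equiv.symm_apply_apply, Equiv.refl_apply, h5]
    rw [h4, zsmul_eq_mul, mul_comm]
  · have h1 : (tp (d := d) (fun i => ((vc ω e s i : 𝓞 K) : K)) i).coeff α = 0 :=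
      (hom_fm _).coeff_eq_zero hα
    rw [h1, hh.coeff_eq_zero hα]

end NulMA

open NulMA in
/-- Almost all pairs of forms of degree `d` are rational maps of degree `d`. -/
theorem null_mor {K : Type} [Field K] [NumberField K] {d : ℕ} (_hd : 2 ≤ d) {m R : ℕ}
    (ω : Module.Basis (Fin m) ℤ (𝓞 K)) (e : Fin R ≃ Fin (2 * (d + 1)) × Fin m) :
    Null {s : Fin R → ℤ | ¬ IsMor d K (tp (d := d) fun i => ((vc ω e s i : 𝓞 K) : K))} := by
  have hω : ∃ j, ω j ≠ 0 := by
    by_contra h
    push Not at h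
    have h1 : IsEmpty (Fin m) := ⟨fun j => ω.ne_zero j (h j)⟩
    have h2 := ω.linearCombination_repr (1 : 𝓞 K)
    rw [Subsingleton.elim (ω.repr 1) 0, map_zero] at h2
    exact zero_ne_one h2
  have h := PNH.mor_mem _ (univO_mor (N := 1) (d := d) ω hω (e.trans
    (((finProdFinEquiv.symm : Fin (2 * (d + 1)) ≃ _).trans
      ((Equiv.refl (Fin 2)).prodCongr (eqv d))).prodCongr (Equiv.refl (Fin m)))))
  simp only [← tp_eq] at h
  exact h

end Pool.Agent.AAP
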