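import Mathlib
import Pool.Agent.AAP.DefsS

set_option autoImplicit false

/-!
# The coefficients of binary forms
-/

namespace Pool.Agent.AAP

open scoped WithZero
open Pool.Agent.PNH (Tup app mp IsMor Cert)

namespace PosA

/-- the exponent of the `j`-th monomial -/
noncomputable def ex (d : ℕ) (j : Fin (d + 1)) : Fin 2 →₀ ℕ :=
  Finsupp.single 0 (j : ℕ) + Finsupp.single 1 (d - (j : ℕ))

theorem fm_eq {k : Type} [CommRing k] {d : ℕ} (a : Fin (d + 1) → k) :
    fm a = ∑ j : Fin (d + 1), MvPolynomial.monomial (ex d j) (a j) := by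
  unfold fm
  refine Finset.sum_congr rfl fun j _ => ?_
  unfold ex
  rw [MvPolynomial.C_mul_X_pow_eq_monomial, MvPolynomial.X_pow_eq_monomial,
    MvPolynomial.monomial_mul, mul_one]

theorem ex_inj {d : ℕ} {i j : Fin (d + 1)} (h : ex d i = ex d j) : i = j := by
  have h1 := DFunLike.congr_fun h 0
  unfold ex at h1
  simp at h1
  exact Fin.ext h1

theorem coeff_fm {k : Type} [CommRing k] {d : ℕ} (a : Fin (d + 1) → k) (j : Fin (d + 1)) :
    (fm a).coeff (ex d j) = a j := by
  classical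
  rw [fm_eq, MvPolynomial.coeff_sum, Finset.sum_eq_single j]
  · rw [MvPolynomial.coeff_monomial, if_pos rfl]
  · intro i _ hij
    rw [MvPolynomial.coeff_monomial, if_neg]
    exact fun h => hij (ex_inj h)
  · intro h
    exact absurd (Finset.mem_univ j) h

theorem hom_fm {k : Type} [CommRing k] {d : ℕ} (a : Fin (d + 1) → k) :
    (fm a).IsHomogeneous d := by
  rw [fm_eq]
  refine MvPolynomial.IsHomogeneous.sum _ _ _ fun j _ => ?_
  apply MvPolynomial.isHomogeneous_monomial
  unfold ex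
  rw [map_add, Finsupp.degree_single, Finsupp.degree_single]
  have := j.2
  omega

/-- the monomials of degree `d` -/
theorem exists_ex {d : ℕ} {m : Fin 2 →₀ ℕ} (h : m.degree = d) : ∃ j : Fin (d + 1), m = ex d j := by
  have h1 : m 0 + m 1 = d := by
    rw [← h, Finsupp.degree_eq_sum, Fin.sum_univ_two]
  refine ⟨⟨m 0, by omega⟩, ?_⟩
  ext i
  unfold ex
  fin_cases i
  · simp
  · simp
    omega

theorem eq_fm {k : Type} [CommRing k] {d : ℕ} {P : MvPolynomial (Fin 2) k}
    (hP : P.IsHomogeneous d) : P = fm fun j => P.coeff (ex d j) := by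
  ext m
  by_cases hm : m.degree = d
  · obtain ⟨j, rfl⟩ := exists_ex hm
    rw [coeff_fm]
  · rw [hP.coeff_eq_zero hm, (hom_fm _).coeff_eq_zero hm]

theorem hom_tp {k : Type} [CommRing k] {d : ℕ} (t : Fin (2 * (d + 1)) → k) (i : Fin 2) :
    (tp t i).IsHomogeneous d := hom_fm _

/-- congruent coefficients -/
theorem fm_sub {k : Type} [Field k] {v : Valuation k ℤᵐ⁰} {d : ℕ} {a b : Fin (d + 1) → k}
    (h : ∀ j, v (a j - b j) < 1) (m : Fin 2 →₀ ℕ) : v ((fm a).coeff m - (fm b).coeff m) < 1 := by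
  by_cases hm : m.degree = d
  · obtain ⟨j, rfl⟩ := exists_ex hm
    rw [coeff_fm, coeff_fm]
    exact h j
  · rw [(hom_fm a).coeff_eq_zero hm, (hom_fm b).coeff_eq_zero hm, sub_zero, map_zero]
    exact zero_lt_one

theorem hom_ex3 (A : Type) [CommRing A] {d : ℕ} (hd : 2 ≤ d) (i : Fin 2) :
    (ex3 A d i).IsHomogeneous d := by
  have h0 : (MvPolynomial.X 0 ^ 2 - MvPolynomial.X 1 ^ 2 :
      MvPolynomial (Fin 2) A).IsHomogeneous 2 := by
    have h1 := (MvPolynomial.isHomogeneous_X A (0 : Fin 2)).pow 2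
    have h2 := (MvPolynomial.isHomogeneous_X A (1 : Fin 2)).pow 2
    rw [one_mul] at h1 h2
    exact h1.sub h2
  have h1 : ((MvPolynomial.X 0 - MvPolynomial.X 1 :
      MvPolynomial (Fin 2) A) ^ (d - 2)).IsHomogeneous (d - 2) := by
    have h2 := ((MvPolynomial.isHomogeneous_X A (0 : Fin 2)).sub
      (MvPolynomial.isHomogeneous_X A (1 : Fin 2))).pow (d - 2)
    rwa [one_mul] at h2
  have h2 : (MvPolynomial.X 0 ^ (d - 2) :
      MvPolynomial (Fin 2) A).IsHomogeneous (d - 2) := by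
    have h3 := (MvPolynomial.isHomogeneous_X A (0 : Fin 2)).pow (d - 2)
    rwa [one_mul] at h3
  have h3 : (MvPolynomial.X 1 ^ 2 : MvPolynomial (Fin 2) A).IsHomogeneous 2 := by
    have h3 := (MvPolynomial.isHomogeneous_X A (1 : Fin 2)).pow 2
    rwa [one_mul] at h3
  fin_cases i
  · have h4 := h0.mul h1
    rwa [show 2 + (d - 2) = d by omega] at h4
  · have h4 := h2.mul h3
    rwa [show d - 2 + 2 = d by omega] at h4

theorem map_ex3 {A B : Type} [CommRing A] [CommRing B] (f : A →+* B) (d : ℕ) (i : Fin 2) :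
    MvPolynomial.map f (ex3 A d i) = ex3 B d i := by
  unfold ex3
  fin_cases i
  · simp
  · simp

end PosA

end Pool.Agent.AAP
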