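import Mathlib
import Pool.Agent.AAP.Siv
import Pool.Agent.AAP.Cnt
import Pool.Agent.AAP.Frb
import Pool.Agent.AAP.Den
import Pool.Agent.AAP.Bad
import Pool.Agent.AAP.TpA
import Pool.Agent.AAP.NulM
import Pool.Agent.LIM.NullS
import Pool.Agent.TameArb.OnePrime

set_option autoImplicit false

/-!
# Almost all maps, for two given points
-/

namespace Pool.Agent.AAP

open NumberField IsDedekindDomain
open scoped WithZero
open Pool.Agent.PNH (Tup app mp IsMor Cert)
open Pool.Agent.TameArb (PosDens pt Over)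
open Pool.Agent.FAM (Cube)
open Pool.Agent.LIM (Null)
open PosA

namespace NMpA

/-- the coefficient vectors over `k` of pairs of forms whose combinations given by `x` and `y` have
no zero over `k` -/
def Gd {k : Type} [CommRing k] (d : ℕ) (x y : Fin 2 → k) : Set (Fin (2 * (d + 1)) → k) :=
  {t | ∀ z : Fin 2 → k, z ≠ 0 → wd (app (tp (d := d) t) z) x ≠ 0 ∧
    wd (app (tp (d := d) t) z) y ≠ 0}

theorem card_compl {k : Type} [Field k] [Finite k] {d : ℕ} (hd : 2 ≤ d)
    (hq : 8 * d ≤ Nat.card k) (x y : Fin 2 → k) (h : wd x y ≠ 0) :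
    (((Gd d x y)ᶜ : Set (Fin (2 * (d + 1)) → k)).ncard : ℝ) ≤
      (1 - 1 / (4 * d) ^ 2) * (Nat.card k : ℝ) ^ (2 * (d + 1)) := by
  have h1 := free_pairs hd hq x y h
  have h2 := Set.ncard_add_ncard_compl (Gd d x y)
  rw [Nat.card_fun, Nat.card_fin] at h2
  have h3 : ((Gd d x y).ncard : ℝ) + (((Gd d x y)ᶜ : Set _).ncard : ℝ) =
      (Nat.card k : ℝ) ^ (2 * (d + 1)) := by exact_mod_cast h2
  have h4 : (Nat.card k : ℝ) ^ (2 * (d + 1)) / (4 * d) ^ 2 ≤ ((Gd d x y).ncard : ℝ) := h1
  rw [sub_mul, one_mul, one_div, inv_mul_eq_div]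
  linarith

variable {K : Type} [Field K] [NumberField K]

/-- integral elements are congruent to algebraic integers -/
theorem exists_int (v : HeightOneSpectrum (𝓞 K)) {a : K} (ha : v.valuation K a ≤ 1) :
    ∃ b : 𝓞 K, v.valuation K (a - b) < 1 := by
  obtain ⟨w, e, h, he, hval, hpres, hfrob⟩ := TameArb.exists_frob K K v
  have hov : Over (v.valuation K) (w.valuation K) e := ⟨he, hval⟩
  have h1 : w.valuation K a ≤ 1 := hov.le_one.2 ha
  have h2 : w.valuation K (a - a ^ Ideal.absNorm v.asIdeal) < 1 := by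
    have h3 := hfrob a h1
    have h4 : h a = a := h.commutes a
    rwa [h4] at h3
  obtain ⟨b, hb⟩ := exists_class v hov h1 h2
  refine ⟨b, ?_⟩
  have h3 : w.valuation K (algebraMap K K (a - b)) < 1 := by
    simpa using hb
  exact hov.lt_one.1 h3

/-- a common multiple with integral coordinates -/
theorem exists_mul (x : Fin 2 → K) : ∃ b : K, b ≠ 0 ∧ ∃ a : Fin 2 → 𝓞 K,
    b • x = fun i => (a i : K) := by
  obtain ⟨b, hb⟩ := IsLocalization.exist_integer_multiples_of_finite (nonZeroDivisors (𝓞 K)) x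
  have hb0 : ((b : 𝓞 K) : K) ≠ 0 := by
    intro h
    exact nonZeroDivisors.ne_zero b.2 (RingOfIntegers.coe_injective h)
  choose a ha using hb
  refine ⟨((b : 𝓞 K) : K), hb0, a, ?_⟩
  funext i
  exact ((ha i).trans (Algebra.smul_def _ _)).symm

omit [NumberField K] in
/-- evaluation modulo `v` -/
theorem wd_mk {d : ℕ} (v : HeightOneSpectrum (𝓞 K)) (t : Fin (2 * (d + 1)) → 𝓞 K)
    (z a : Fin 2 → 𝓞 K) :
    Ideal.Quotient.mk v.asIdeal (wd (app (tp (d := d) t) z) a) =
      wd (app (tp (d := d) fun i => Ideal.Quotient.mk v.asIdeal (t i))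
        (fun i => Ideal.Quotient.mk v.asIdeal (z i))) (fun i => Ideal.Quotient.mk v.asIdeal (a i)) := by
  have h1 : ∀ i, Ideal.Quotient.mk v.asIdeal (app (tp (d := d) t) z i) =
      app (tp (d := d) fun i => Ideal.Quotient.mk v.asIdeal (t i))
        (fun i => Ideal.Quotient.mk v.asIdeal (z i)) i := by
    intro i
    unfold app tp fm
    simp only [map_sum, map_mul, map_pow, MvPolynomial.eval_C, MvPolynomial.eval_X]
  unfold wd
  rw [map_sub, map_mul, map_mul, h1, h1]

omit [NumberField K] in
/-- evaluation over `K` -/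
theorem wd_coe {d : ℕ} (t : Fin (2 * (d + 1)) → 𝓞 K) (z a : Fin 2 → 𝓞 K) :
    ((wd (app (tp (d := d) t) z) a : 𝓞 K) : K) =
      wd (app (tp (d := d) fun i => (t i : K)) (fun i => (z i : K))) (fun i => (a i : K)) := by
  have h1 : ∀ i, ((app (tp (d := d) t) z i : 𝓞 K) : K) =
      app (tp (d := d) fun i => (t i : K)) (fun i => (z i : K)) i := by
    intro i
    unfold app tp fm
    simp only [map_sum, map_mul, map_pow, MvPolynomial.eval_C, MvPolynomial.eval_X]
  unfold wd
  rw [← h1, ← h1]
  push_cast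
  ring

theorem int_tp {d : ℕ} (v : HeightOneSpectrum (𝓞 K)) (t : Fin (2 * (d + 1)) → 𝓞 K) :
    IntT (v.valuation K) (tp (d := d) fun i => (t i : K)) := by
  intro i m
  by_cases hm : m.degree = d
  · obtain ⟨j, rfl⟩ := exists_ex hm
    unfold tp
    rw [coeff_fm]
    exact v.valuation_le_one _
  · rw [(hom_tp _ i).coeff_eq_zero hm, map_zero]
    exact zero_le_one

theorem unit_iff (v : HeightOneSpectrum (𝓞 K)) (a : 𝓞 K) :
    v.valuation K (a : K) = 1 ↔ Ideal.Quotient.mk v.asIdeal a ≠ 0 := by
  rw [Ne, Ideal.Quotient.eq_zero_iff_mem, ← v.valuation_lt_one_iff_mem (K := K), not_lt]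
  exact ⟨fun h => h.ge, fun h => le_antisymm (v.valuation_le_one a) h⟩

theorem unit_of_mk {d : ℕ} (v : HeightOneSpectrum (𝓞 K)) (t : Fin (2 * (d + 1)) → 𝓞 K)
    (a : Fin 2 → 𝓞 K) (z : Fin 2 → K) (hz : nv (v.valuation K) z = 1) (b : Fin 2 → 𝓞 K)
    (hb : ∀ i, v.valuation K (z i - b i) < 1)
    (h : wd (app (tp (d := d) fun i => Ideal.Quotient.mk v.asIdeal (t i))
      (fun i => Ideal.Quotient.mk v.asIdeal (b i)))
      (fun i => Ideal.Quotient.mk v.asIdeal (a i)) ≠ 0) :
    v.valuation K (wd (app (tp (d := d) fun i => (t i : K)) z) (fun i => (a i : K))) = 1 := by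
  rw [← wd_mk, ← unit_iff, wd_coe] at h
  set F := tp (d := d) fun i => (t i : K) with hF
  have hI : IntT (v.valuation K) F := int_tp v t
  have hzle : ∀ i, v.valuation K (z i) ≤ 1 := fun i => hz ▸ le_nv (v := v.valuation K) z i
  have hble : ∀ i, v.valuation K (b i : K) ≤ 1 := fun i => v.valuation_le_one _
  have h4 : ∀ i, v.valuation K (app F z i - app F (fun i => (b i : K)) i) < 1 := fun i =>
    eval_sub_lt (hI i) hzle hble fun j => hb j
  have h5 : v.valuation K (wd (app F z) (fun i => (a i : K)) -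
      wd (app F fun i => (b i : K)) (fun i => (a i : K))) < 1 := by
    have h6 : wd (app F z) (fun i => (a i : K)) - wd (app F fun i => (b i : K)) (fun i => (a i : K)) =
        (app F z 0 - app F (fun i => (b i : K)) 0) * (a 1 : K) -
        (app F z 1 - app F (fun i => (b i : K)) 1) * (a 0 : K) := by
      unfold wd
      ring
    rw [h6]
    refine Valuation.map_sub_lt _ ?_ ?_
    · rw [map_mul]
      exact mul_lt_one_of_lt_of_le (h4 0) (v.valuation_le_one _)
    · rw [map_mul]
      exact mul_lt_one_of_lt_of_le (h4 1) (v.valuation_le_one _)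
  have h7 := (v.valuation K).map_sub_eq_of_lt_right (x := wd (app F z) (fun i => (a i : K)) -
      wd (app F fun i => (b i : K)) (fun i => (a i : K)))
      (y := - wd (app F fun i => (b i : K)) (fun i => (a i : K))) (by
        rw [Valuation.map_neg, h]
        exact h5)
  rw [sub_neg_eq_add, sub_add_cancel, Valuation.map_neg, h] at h7
  exact h7

theorem small_norm (n : ℕ) : {v : HeightOneSpectrum (𝓞 K) | Ideal.absNorm v.asIdeal < n}.Finite := by
  have h1 := Ideal.finite_setOfPred_absNorm_le (S := 𝓞 K) n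
  refine Set.Finite.of_finite_image (f := fun v : HeightOneSpectrum (𝓞 K) => v.asIdeal)
    (h1.subset ?_) ?_
  · rintro _ ⟨v, hv, rfl⟩
    exact (show Ideal.absNorm v.asIdeal < n from hv).le
  · intro v _ w _ h
    exact HeightOneSpectrum.ext h

end NMpA

open NMpA

theorem null_maps {K : Type} [Field K] [NumberField K] {d : ℕ} (hd : 2 ≤ d) {m R : ℕ}
    (ω : Module.Basis (Fin m) ℤ (𝓞 K)) (e : Fin R ≃ Fin (2 * (d + 1)) × Fin m)
    (x y : Fin 2 → K) (h : wd x y ≠ 0)
    (Γ : Finset (Fin 2 → K)) (hΓ : ∀ z ∈ Γ, z = x ∨ z = y) :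
    Null {s : Fin R → ℤ | ¬ (IsMor d K (tp (d := d) fun i => ((vc ω e s i : 𝓞 K) : K)) ∧
      PosDens (SP (tp (d := d) fun i => ((vc ω e s i : 𝓞 K) : K)) Γ))} := by
  classical
  obtain ⟨bx, hbx, ax, hax⟩ := exists_mul x
  obtain ⟨by', hby, ay, hay⟩ := exists_mul y
  set x' : Fin 2 → K := fun i => (ax i : K) with hx'
  set y' : Fin 2 → K := fun i => (ay i : K) with hy'
  have hwd : wd x' y' ≠ 0 := by
    rw [← hax, ← hay, wd_smul_left, wd_smul_right]
    exact mul_ne_zero hbx (mul_ne_zero hby h)
  have hwdO : ((wd ax ay : 𝓞 K) : K) = wd x' y' := by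
    unfold wd
    push_cast
    rfl
  set B : Set (HeightOneSpectrum (𝓞 K)) :=
    {v | v.valuation K (wd x' y') ≠ 1} ∪ {v | Ideal.absNorm v.asIdeal < 8 * d} with hB
  have hBf : B.Finite := (finite_one hwd).union (small_norm _)
  have hx0 : x ≠ 0 := fun h0 => h (by rw [h0]; unfold wd; simp)
  have hy0 : y ≠ 0 := fun h0 => h (by rw [h0]; unfold wd; simp)
  refine Null.mono ?_ ((null_mor (K := K) hd ω e).union (sieve ω e Bᶜ
    (fun v => (Gd d (fun i => Ideal.Quotient.mk v.asIdeal (ax i))
      (fun i => Ideal.Quotient.mk v.asIdeal (ay i)))ᶜ)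
    (fun _ => 1 / (4 * d) ^ 2) (fun v _ => by positivity) ?_ ?_))
  · intro s hs
    by_cases hmor : IsMor d K (tp (d := d) fun i => ((vc ω e s i : 𝓞 K) : K))
    · right
      intro v hvB hmem
      apply hs
      refine ⟨hmor, ?_⟩
      -- the units
      have hw1 : v.valuation K (wd x' y') = 1 := by
        by_contra hcon
        exact hvB (Or.inl hcon)
      have hxle : ∀ i, v.valuation K (x' i) ≤ 1 := fun i => v.valuation_le_one _
      have hyle : ∀ i, v.valuation K (y' i) ≤ 1 := fun i => v.valuation_le_one _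
      have hnle := wd_le (v := v.valuation K) x' y'
      have hnx1 : nv (v.valuation K) x' ≤ 1 := max_le (hxle 0) (hxle 1)
      have hny1 : nv (v.valuation K) y' ≤ 1 := max_le (hyle 0) (hyle 1)
      have hnx : nv (v.valuation K) x' = 1 := by
        refine le_antisymm hnx1 ?_
        rw [← hw1]
        exact hnle.trans (mul_le_of_le_one_right' hny1)
      have hny : nv (v.valuation K) y' = 1 := by
        refine le_antisymm hny1 ?_
        rw [← hw1]
        exact hnle.trans (mul_le_of_le_one_left' hnx1)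
      have hfree : ∀ z : Fin 2 → K, nv (v.valuation K) z = 1 →
          v.valuation K (wd (app (tp (d := d) fun i => ((vc ω e s i : 𝓞 K) : K)) z) x') = 1 ∧
          v.valuation K (wd (app (tp (d := d) fun i => ((vc ω e s i : 𝓞 K) : K)) z) y') = 1 := by
        intro z hz
        have hzle : ∀ i, v.valuation K (z i) ≤ 1 := fun i => hz ▸ le_nv (v := v.valuation K) z i
        choose b hb using fun i => exists_int v (hzle i)
        have hb0 : (fun i => Ideal.Quotient.mk v.asIdeal (b i)) ≠ 0 := by
          intro h0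
          obtain ⟨i, hi⟩ := exists_nv (v.valuation K) z
          have h1 : v.valuation K (b i : K) < 1 := by
            rw [v.valuation_lt_one_iff_mem, ← Ideal.Quotient.eq_zero_iff_mem]
            exact congrFun h0 i
          have h2 := (v.valuation K).map_add_lt (hb i) h1
          rw [sub_add_cancel, hi, hz] at h2
          exact lt_irrefl _ h2
        have h3 := hmem _ hb0
        exact ⟨unit_of_mk v _ ax z hz b hb h3.1, unit_of_mk v _ ay z hz b hb h3.2⟩
      refine dens_of_moves hd hmor Γ ?_ 1 fun L _ _ _ _ => ?_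
      · intro z hz
        rcases hΓ z hz with rfl | rfl
        · exact hx0
        · exact hy0
      · obtain ⟨g, hg⟩ := frb1 hmor.1 v (int_tp v _) L
        refine ⟨g, fun z hz w hw hfib => ?_⟩
        rw [Function.iterate_one] at hfib
        rcases hΓ z hz with rfl | rfl
        · refine hg x' hnx (fun u hu => (hfree u hu).1) w hw ?_
          rw [← hax]
          have h1 : (fun i => algebraMap K L ((bx • z) i)) =
              algebraMap K L bx • fun i => algebraMap K L (z i) := by
            funext i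
            simp
          rw [h1, wd_smul_right, hfib, mul_zero]
        · refine hg y' hny (fun u hu => (hfree u hu).2) w hw ?_
          rw [← hay]
          have h1 : (fun i => algebraMap K L ((by' • z) i)) =
              algebraMap K L by' • fun i => algebraMap K L (z i) := by
            funext i
            simp
          rw [h1, wd_smul_right, hfib, mul_zero]
    · left
      exact hmor
  · intro v hv
    have hfin : Finite (𝓞 K ⧸ v.asIdeal) := Ideal.finiteQuotientOfFreeOfNeBot _ v.ne_bot
    have hmax := v.isMaximal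
    let _ := Ideal.Quotient.field v.asIdeal
    have hq : Nat.card (𝓞 K ⧸ v.asIdeal) = Ideal.absNorm v.asIdeal := by
      rw [Ideal.absNorm_apply]
      rfl
    have h1 : 8 * d ≤ Nat.card (𝓞 K ⧸ v.asIdeal) := by
      rw [hq]
      by_contra hcon
      exact hv (Or.inr (not_le.1 hcon))
    have h2 := card_compl hd h1 (fun i => Ideal.Quotient.mk v.asIdeal (ax i))
      (fun i => Ideal.Quotient.mk v.asIdeal (ay i)) (by
        intro h0
        have h3 : Ideal.Quotient.mk v.asIdeal (wd ax ay) = 0 := by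
          rw [← h0]
          unfold wd
          rw [map_sub, map_mul, map_mul]
        rw [Ideal.Quotient.eq_zero_iff_mem, ← v.valuation_lt_one_iff_mem (K := K)] at h3
        have h4 : v.valuation K ((wd ax ay : 𝓞 K) : K) < 1 := h3
        rw [hwdO] at h4
        exact hv (Or.inl h4.ne))
    rw [hq] at h2
    exact h2
  · intro hsum
    have hinf : Infinite (HeightOneSpectrum (𝓞 K)) := TameArb.infinite_primes K
    have h1 : (Bᶜ : Set (HeightOneSpectrum (𝓞 K))).Infinite := hBf.infinite_compl
    have := h1.to_subtype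
    rw [summable_const_iff] at hsum
    have h2 : (0 : ℝ) < 1 / (4 * d) ^ 2 := by positivity
    exact h2.ne' hsum

end Pool.Agent.AAP
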