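import Mathlib
import Pool.Agent.PNH.Defs
import Pool.Agent.PNH.ParL
import Pool.Agent.TameArb.OnePrime

set_option autoImplicit false

/-!
# A rational map has a fixed point with another preimage
-/

namespace Pool.Agent.AAP

open Polynomial
open Pool.Agent.PNH

section top

variable {F : Type} [Field F]

/-- The restriction of a form in two variables to the line `X z + w`. -/
noncomputable def lin (z w : Fin 2 → F) (G : MvPolynomial (Fin 2) F) : F[X] :=
  MvPolynomial.aeval (fun j => C (z j) * X + C (w j)) G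

theorem eval_lin (z w : Fin 2 → F) (G : MvPolynomial (Fin 2) F) (x : F) :
    (lin z w G).eval x = MvPolynomial.eval (fun j => z j * x + w j) G := by
  unfold lin
  have h : ((Polynomial.evalRingHom x).comp
      (MvPolynomial.aeval (fun j => C (z j) * X + C (w j)) : MvPolynomial (Fin 2) F →ₐ[F] F[X]).toRingHom) =
      MvPolynomial.eval (fun j => z j * x + w j) := by
    refine MvPolynomial.ringHom_ext (fun a => ?_) (fun i => ?_)
    · simp
    · simp
  exact RingHom.congr_fun h G

theorem natDegree_line (a b : F) : (C a * X + C b).natDegree ≤ 1 := by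
  compute_degree

theorem coeff_line (a b : F) : (C a * X + C b).coeff 1 = a := by
  simp

theorem lin_top (z w : Fin 2 → F) (G : MvPolynomial (Fin 2) F) (d : ℕ) (h : G.IsHomogeneous d) :
    (lin z w G).natDegree ≤ d ∧ (lin z w G).coeff d = MvPolynomial.eval z G := by
  classical
  have key : ∀ s ∈ G.support, ((∏ j, (C (z j) * X + C (w j)) ^ s j : F[X])).natDegree ≤ d ∧
      ((∏ j, (C (z j) * X + C (w j)) ^ s j : F[X])).coeff d = ∏ j, z j ^ s j := by
    intro s hs
    have hd : s 0 + s 1 = d := by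
      have h1 := h (MvPolynomial.mem_support_iff.1 hs)
      rw [← h1, Finsupp.weight_apply, Finsupp.sum_fintype _ _ (fun _ => by simp)]
      simp [Fin.sum_univ_two]
    rw [Fin.prod_univ_two, Fin.prod_univ_two, ← hd]
    have h0 : ((C (z 0) * X + C (w 0)) ^ s 0 : F[X]).natDegree ≤ s 0 := by
      have := natDegree_pow_le_of_le (s 0) (natDegree_line (z 0) (w 0))
      rwa [mul_one] at this
    have h1 : ((C (z 1) * X + C (w 1)) ^ s 1 : F[X]).natDegree ≤ s 1 := by
      have := natDegree_pow_le_of_le (s 1) (natDegree_line (z 1) (w 1))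
      rwa [mul_one] at this
    have h2 : ((C (z 0) * X + C (w 0)) ^ s 0 : F[X]).coeff (s 0) = z 0 ^ s 0 := by
      have := coeff_pow_of_natDegree_le (m := s 0) (natDegree_line (z 0) (w 0))
      rwa [mul_one, coeff_line] at this
    have h3 : ((C (z 1) * X + C (w 1)) ^ s 1 : F[X]).coeff (s 1) = z 1 ^ s 1 := by
      have := coeff_pow_of_natDegree_le (m := s 1) (natDegree_line (z 1) (w 1))
      rwa [mul_one, coeff_line] at this
    refine ⟨natDegree_mul_le_of_le h0 h1, ?_⟩
    rw [coeff_mul_add_eq_of_natDegree_le h0 h1, h2, h3]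
  have hlin : lin z w G = ∑ s ∈ G.support, C (G.coeff s) * ∏ j, (C (z j) * X + C (w j)) ^ s j := by
    unfold lin
    rw [MvPolynomial.aeval_def, MvPolynomial.eval₂_eq']
    rfl
  constructor
  · rw [hlin]
    refine natDegree_sum_le_of_forall_le _ _ (fun s hs => ?_)
    exact (natDegree_C_mul_le _ _).trans (key s hs).1
  · rw [hlin, finsetSum_coeff, MvPolynomial.eval_eq']
    refine Finset.sum_congr rfl (fun s hs => ?_)
    rw [coeff_C_mul, (key s hs).2]

end top

/-- The determinant. -/
def dt {F : Type} [CommRing F] (x y : Fin 2 → F) : F := x 0 * y 1 - x 1 * y 0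

theorem par_iff_dt {F : Type} [CommRing F] (x y : Fin (1 + 1) → F) : Par x y ↔ dt x y = 0 := by
  unfold Par dt
  constructor
  · intro h
    rw [h 0 1, sub_self]
  · intro h i j
    have h1 : x 0 * y 1 = x 1 * y 0 := sub_eq_zero.1 h
    fin_cases i <;> fin_cases j
    · rfl
    · exact h1
    · exact h1.symm
    · rfl

theorem expand {F : Type} [Field F] (z w v : Fin 2 → F) (h : dt z w ≠ 0) (i : Fin 2) :
    v i = dt v w / dt z w * z i + dt z v / dt z w * w i := by
  have h1 : dt z w * v i = dt v w * z i + dt z v * w i := by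
    unfold dt
    fin_cases i
    · simp only [Fin.zero_eta, Fin.isValue]
      ring
    · simp only [Fin.mk_one, Fin.isValue]
      ring
  field_simp
  linear_combination h1

theorem exists_fix {F : Type} [Field F] [IsAlgClosed F] (φ : Tup 1 F) (d : ℕ)
    (hom : ∀ i, (φ i).IsHomogeneous d) :
    ∃ z : Fin (1 + 1) → F, z ≠ 0 ∧ Par (app φ z) z := by
  classical
  -- the points `(1, 0)` and `(x, 1)`
  by_cases h1 : MvPolynomial.eval ![1, 0] (φ 1) = 0
  · refine ⟨![1, 0], ?_, ?_⟩
    · intro h
      exact one_ne_zero (congrFun h 0)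
    · rw [par_iff_dt]
      unfold dt app
      simp [h1]
  · -- the polynomial `x φ_1 (x, 1) - φ_0 (x, 1)`
    let P : F[X] := X * lin ![1, 0] ![0, 1] (φ 1) - lin ![1, 0] ![0, 1] (φ 0)
    obtain ⟨ha, hb⟩ := lin_top ![1, 0] ![0, 1] (φ 1) d (hom 1)
    obtain ⟨ha', hb'⟩ := lin_top ![1, 0] ![0, 1] (φ 0) d (hom 0)
    have hc : P.coeff (d + 1) ≠ 0 := by
      rw [coeff_sub, coeff_X_mul, hb, coeff_eq_zero_of_natDegree_lt (by omega), sub_zero]
      exact h1
    obtain ⟨x, hx⟩ := IsAlgClosed.exists_root P (by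
      intro hd
      have h2 : P.natDegree = 0 := natDegree_eq_zero_iff_degree_le_zero.2 hd.le
      exact hc (coeff_eq_zero_of_natDegree_lt (by omega)))
    have hx' : x * MvPolynomial.eval ![x, 1] (φ 1) - MvPolynomial.eval ![x, 1] (φ 0) = 0 := by
      rw [IsRoot.def, eval_sub, eval_mul, eval_X, eval_lin, eval_lin] at hx
      have h3 : (fun j => (![1, 0] : Fin 2 → F) j * x + (![0, 1] : Fin 2 → F) j) = ![x, 1] := by
        funext j
        fin_cases j <;> simp
      rw [h3] at hx
      exact hx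
    refine ⟨![x, 1], ?_, ?_⟩
    · intro h
      exact one_ne_zero (congrFun h 1)
    · rw [par_iff_dt]
      unfold dt app
      simp only [Matrix.cons_val_zero, Matrix.cons_val_one, mul_one]
      linear_combination -hx'

/-- Some fixed point has another preimage. -/
theorem exists_fix_pre {F : Type} [Field F] [IsAlgClosed F] [CharZero F] (φ : Tup 1 F) (d : ℕ)
    (hd : 2 ≤ d) (hom : ∀ i, (φ i).IsHomogeneous d) (h0 : ∀ x, app φ x = 0 → x = 0) :
    ∃ z δ : Fin (1 + 1) → F, z ≠ 0 ∧ δ ≠ 0 ∧ Par (app φ z) z ∧ Par (app φ δ) z ∧ ¬ Par δ z := by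
  classical
  obtain ⟨z, hz, hfix⟩ := exists_fix φ d hom
  by_cases hex : ∃ δ : Fin (1 + 1) → F, δ ≠ 0 ∧ Par (app φ δ) z ∧ ¬ Par δ z
  · obtain ⟨δ, h1, h2, h3⟩ := hex
    exact ⟨z, δ, hz, h1, hfix, h2, h3⟩
  have hex' : ∀ δ : Fin (1 + 1) → F, δ ≠ 0 → Par (app φ δ) z → Par δ z := fun δ h1 h2 => by
    by_contra h3
    exact hex ⟨δ, h1, h2, h3⟩
  -- a vector which is not proportional to `z`
  obtain ⟨w, hw⟩ : ∃ w : Fin 2 → F, dt z w ≠ 0 := by
    by_cases h1 : z 0 = 0
    · refine ⟨![1, 0], ?_⟩
      intro h2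
      apply hz
      unfold dt at h2
      simp only [Matrix.cons_val_zero, Matrix.cons_val_one, mul_zero, mul_one, zero_sub,
        neg_eq_zero] at h2
      funext j
      fin_cases j
      · exact h1
      · exact h2
    · refine ⟨![0, 1], ?_⟩
      unfold dt
      simpa using h1
  let q : F → Fin 2 → F := fun x j => z j * x + w j
  have hq : ∀ x, dt z (q x) = dt z w := fun x => by
    unfold dt
    simp only [q]
    ring
  have hq0 : ∀ x, q x ≠ 0 := fun x h1 => hw (by rw [← hq x, h1]; simp [dt])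
  have hqz : ∀ x, ¬ Par (q x) z := fun x h1 => by
    have h2 := (par_iff_dt _ _).1 h1.symm
    exact hw ((hq x).symm.trans h2)
  let α : F[X] := C (dt z w)⁻¹ * (lin z w (φ 0) * C (w 1) - lin z w (φ 1) * C (w 0))
  let β : F[X] := C (dt z w)⁻¹ * (C (z 0) * lin z w (φ 1) - C (z 1) * lin z w (φ 0))
  have hα : ∀ x, α.eval x = dt (app φ (q x)) w / dt z w := fun x => by
    simp only [α, eval_mul, eval_C, eval_sub, eval_lin]
    unfold dt app
    rw [div_eq_inv_mul]
  have hβ : ∀ x, β.eval x = dt z (app φ (q x)) / dt z w := fun x => by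
    simp only [β, eval_mul, eval_C, eval_sub, eval_lin]
    unfold dt app
    rw [div_eq_inv_mul]
  have hroot : ∀ x, β.eval x ≠ 0 := fun x h1 => by
    rw [hβ, div_eq_zero_iff, or_iff_left hw] at h1
    exact hqz x (hex' (q x) (hq0 x) ((par_iff_dt _ _).2 h1).symm)
  have hβd : β.degree = 0 := by
    by_contra h1
    obtain ⟨x, hx⟩ := IsAlgClosed.exists_root β h1
    exact hroot x hx
  obtain ⟨c, hc⟩ : ∃ c : F, β = C c := ⟨_, eq_C_of_degree_eq_zero hβd⟩
  have hc0 : c ≠ 0 := by
    have := hroot 0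
    rw [hc, eval_C] at this
    exact this
  have hαtop : α.coeff d ≠ 0 ∧ α.natDegree ≤ d := by
    obtain ⟨ha, hb⟩ := lin_top z w (φ 1) d (hom 1)
    obtain ⟨ha', hb'⟩ := lin_top z w (φ 0) d (hom 0)
    constructor
    · simp only [α, coeff_C_mul, coeff_sub, coeff_mul_C, hb, hb']
      intro h1
      have h2 : dt (app φ z) w = 0 := by
        rcases mul_eq_zero.1 h1 with h3 | h3
        · exact absurd (inv_eq_zero.1 h3) hw
        · exact h3
      -- `φ(z) = l z`
      obtain ⟨l, hl⟩ := hfix.symm.exists_smul hz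
      have h3 : app φ z ≠ 0 := fun h4 => hz (h0 z h4)
      have h4 : l ≠ 0 := fun h5 => h3 (by rw [hl, h5, zero_smul])
      rw [hl] at h2
      have h5 : dt (l • z) w = l * dt z w := by
        unfold dt
        simp only [Pi.smul_apply, smul_eq_mul]
        ring
      rw [h5] at h2
      exact mul_ne_zero h4 hw h2
    · refine (natDegree_C_mul_le _ _).trans ((natDegree_sub_le _ _).trans (max_le ?_ ?_))
      · exact (natDegree_mul_C_le _ _).trans ha'
      · exact (natDegree_mul_C_le _ _).trans ha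
  let f : F[X] := C c⁻¹ * α
  have hf : f.natDegree = d := by
    refine le_antisymm ((natDegree_C_mul_le _ _).trans hαtop.2) ?_
    refine le_natDegree_of_ne_zero ?_
    rw [coeff_C_mul]
    exact mul_ne_zero (inv_ne_zero hc0) hαtop.1
  obtain ⟨ζ, δ, h1, h2, h3⟩ := Pool.Agent.TameArb.exists_fixed_preimage f (by rw [hf]; exact hd)
  have happ : ∀ x, app φ (q x) = c • q (f.eval x) := fun x => by
    funext i
    rw [expand z w (app φ (q x)) hw i, ← hα, ← hβ, hc, eval_C]
    simp only [Pi.smul_apply, smul_eq_mul, q, f, eval_mul, eval_C]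
    field_simp
  refine ⟨q ζ, q δ, hq0 ζ, hq0 δ, ?_, ?_, ?_⟩
  · rw [happ, h1]
    exact (Par.refl _).smul_left c
  · rw [happ, h2]
    exact (Par.refl _).smul_left c
  · intro h4
    rw [par_iff_dt] at h4
    have h5 : dt (q δ) (q ζ) = (δ - ζ) * dt z w := by
      unfold dt
      simp only [q]
      ring
    rw [h5] at h4
    exact mul_ne_zero (sub_ne_zero.2 h3) hw h4

end Pool.Agent.AAP
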