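import Mathlib
import Pool.Agent.AAP.Red
import Pool.Agent.PNH.Cer
import Pool.Agent.PNH.ParL
import Pool.Agent.AAP.FixPre

set_option autoImplicit false

/-!
# A point with infinite orbit is not periodic modulo some prime
-/

namespace Pool.Agent.AAP

open NumberField IsDedekindDomain Polynomial
open scoped WithZero
open Pool.Agent.PNH (Tup app mp Par IsMor Cert mp_mp app_mp exists_cert)

namespace OneInf

section dt

variable {K : Type} [CommRing K]

theorem wd_expand (z y x : Fin (1 + 1) → K) : wd z y • x = wd x y • z + wd z x • y := by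
  funext i
  unfold wd
  simp only [Pi.smul_apply, Pi.add_apply, smul_eq_mul]
  fin_cases i
  · simp only [Fin.zero_eta, Fin.isValue]
    ring
  · simp only [Fin.mk_one, Fin.isValue]
    ring

theorem wd_plucker (z y x x' : Fin (1 + 1) → K) :
    wd x x' * wd z y = wd x y * wd z x' - wd z x * wd x' y := by
  unfold wd
  ring

theorem par_iff (x y : Fin (1 + 1) → K) : Par x y ↔ wd x y = 0 := by
  unfold Par wd
  constructor
  · intro h
    rw [h 0 1, sub_self]
  · intro h i j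
    have h1 : x 0 * y 1 = x 1 * y 0 := sub_eq_zero.1 h
    fin_cases i <;> fin_cases j
    · rfl
    · exact h1
    · exact h1.symm
    · rfl

end dt

section win

variable {K : Type} [Field K] {d : ℕ} (F : Tup 1 K) (hF : ∀ i, (F i).IsHomogeneous d)
  (z y : Fin (1 + 1) → K)

/-- the image of the line through `p` and `q` -/
theorem near_line (a : AbsoluteValue K ℝ) (p q : Fin (1 + 1) → K) (h0 : wd z (app F p) = 0)
    (h1 : wd (app F p) y ≠ 0) (η : ℝ) (hη : 0 < η) :
    ∃ ε : ℝ, 0 < ε ∧ ∀ τ : K, a τ < ε →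
      a (wd z (app F fun j => q j * τ + p j)) < η * a (wd (app F fun j => q j * τ + p j) y) := by
  obtain ⟨P, hP⟩ : ∃ P : K[X], ∀ τ, P.eval τ = wd z (app F fun j => q j * τ + p j) := by
    refine ⟨C (z 0) * lin q p (F 1) - C (z 1) * lin q p (F 0), fun τ => ?_⟩
    rw [eval_sub, eval_mul, eval_mul, eval_C, eval_C, eval_lin, eval_lin]
    rfl
  obtain ⟨Q, hQ⟩ : ∃ Q : K[X], ∀ τ, Q.eval τ = wd (app F fun j => q j * τ + p j) y := by
    refine ⟨lin q p (F 0) * C (y 1) - lin q p (F 1) * C (y 0), fun τ => ?_⟩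
    rw [eval_sub, eval_mul, eval_mul, eval_C, eval_C, eval_lin, eval_lin]
    rfl
  have hp : (fun j => q j * 0 + p j) = p := by
    funext j
    rw [mul_zero, zero_add]
  have hP0 : P.eval 0 = 0 := by
    rw [hP, hp, h0]
  have hQ0 : Q.eval 0 ≠ 0 := by
    rw [hQ, hp]
    exact h1
  have hpos : 0 < a (Q.eval 0) := a.pos hQ0
  obtain ⟨ε₁, hε₁, H₁⟩ := TameArb.abs_eval_cont a P 0 (η * (a (Q.eval 0) / 2)) (by positivity)
  obtain ⟨ε₂, hε₂, H₂⟩ := TameArb.abs_eval_cont a Q 0 (a (Q.eval 0) / 2) (by positivity)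
  refine ⟨min ε₁ ε₂, lt_min hε₁ hε₂, fun τ hτ => ?_⟩
  have g₁ := H₁ τ (by rw [sub_zero]; exact hτ.trans_le (min_le_left _ _))
  have g₂ := H₂ τ (by rw [sub_zero]; exact hτ.trans_le (min_le_right _ _))
  rw [hP0, sub_zero] at g₁
  rw [← hP, ← hQ]
  have h3 : a (Q.eval 0) ≤ a (Q.eval τ) + a (Q.eval τ - Q.eval 0) := by
    have h4 := a.sub_le (Q.eval τ) (Q.eval τ) (Q.eval 0)
    have h5 := a.add_le (Q.eval τ) (Q.eval 0 - Q.eval τ)
    rw [add_sub_cancel, a.map_sub (Q.eval 0)] at h5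
    exact h5
  refine g₁.trans ?_
  refine mul_lt_mul_of_pos_left ?_ hη
  linarith

include hF in
theorem near (a : AbsoluteValue K ℝ) (p q : Fin (1 + 1) → K) (h0 : wd z (app F p) = 0)
    (h1 : wd (app F p) y ≠ 0) (η : ℝ) (hη : 0 < η) :
    ∃ ε : ℝ, 0 < ε ∧ ∀ s t : K, a t < ε * a s →
      a (wd z (app F (s • p + t • q))) < η * a (wd (app F (s • p + t • q)) y) := by
  obtain ⟨ε, hε, H⟩ := near_line F z y a p q h0 h1 η hη
  refine ⟨ε, hε, fun s t hst => ?_⟩
  have hs : s ≠ 0 := by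
    rintro rfl
    rw [a.map_zero, mul_zero] at hst
    exact absurd hst (not_lt.2 (a.nonneg t))
  have has : 0 < a s := a.pos hs
  have h2 : s • p + t • q = s • fun j => q j * (t / s) + p j := by
    funext j
    simp only [Pi.add_apply, Pi.smul_apply, smul_eq_mul]
    field_simp
    ring
  have h3 : a (t / s) < ε := by
    rw [map_div₀, div_lt_iff₀ has]
    exact hst
  have h4 := H (t / s) h3
  rw [h2, PNH.app_smul d F hF, wd_smul_left, wd_smul_right, a.map_mul, a.map_mul, mul_left_comm]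
  exact mul_lt_mul_of_pos_left h4 (by rw [a.map_pow]; exact pow_pos has _)

include hF in
theorem near_z (hzy : wd z y ≠ 0) (h0 : wd z (app F z) = 0) (h1 : wd (app F z) y ≠ 0)
    (a : AbsoluteValue K ℝ) (η : ℝ) (hη : 0 < η) :
    ∃ ε : ℝ, 0 < ε ∧ ∀ x : Fin (1 + 1) → K, a (wd z x) < ε * a (wd x y) →
      a (wd z (app F x)) < η * a (wd (app F x) y) := by
  obtain ⟨ε, hε, H⟩ := near F hF z y a z y h0 h1 η hη
  refine ⟨ε, hε, fun x hx => ?_⟩
  have h2 := H _ _ hx
  rw [← wd_expand z y x, PNH.app_smul d F hF, wd_smul_left, wd_smul_right, a.map_mul, a.map_mul,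
    mul_left_comm] at h2
  exact lt_of_mul_lt_mul_left h2 (a.nonneg _)

include hF in
theorem near_y (hzy : wd z y ≠ 0) (h0 : wd z (app F y) = 0) (h1 : wd (app F y) y ≠ 0)
    (a : AbsoluteValue K ℝ) (η : ℝ) (hη : 0 < η) :
    ∃ ε : ℝ, 0 < ε ∧ ∀ x : Fin (1 + 1) → K, a (wd x y) < ε * a (wd z x) →
      a (wd z (app F x)) < η * a (wd (app F x) y) := by
  obtain ⟨ε, hε, H⟩ := near F hF z y a y z h0 h1 η hη
  refine ⟨ε, hε, fun x hx => ?_⟩
  have h2 := H _ _ hx
  rw [add_comm (wd z x • y), ← wd_expand z y x, PNH.app_smul d F hF, wd_smul_left, wd_smul_right,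
    a.map_mul, a.map_mul, mul_left_comm] at h2
  exact lt_of_mul_lt_mul_left h2 (a.nonneg _)

variable (hzy : wd z y ≠ 0) (hz0 : wd z (app F z) = 0) (hz1 : wd (app F z) y ≠ 0)
  (hy0 : wd z (app F y) = 0) (hy1 : wd (app F y) y ≠ 0)

include hF hzy hz0 hz1 hy0 hy1

theorem near_iter (a : AbsoluteValue K ℝ) (j : ℕ) (η : ℝ) (hη : 0 < η) :
    ∃ ε : ℝ, 0 < ε ∧ ∀ x : Fin (1 + 1) → K, a (wd x y) < ε * a (wd z x) →
      a (wd z ((app F)^[j + 1] x)) < η * a (wd ((app F)^[j + 1] x) y) := by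
  induction j generalizing η with
  | zero =>
    obtain ⟨ε, hε, H⟩ := near_y F hF z y hzy hy0 hy1 a η hη
    exact ⟨ε, hε, fun x hx => H x hx⟩
  | succ j ih =>
    obtain ⟨ε₁, hε₁, H₁⟩ := near_z F hF z y hzy hz0 hz1 a η hη
    obtain ⟨ε, hε, H⟩ := ih ε₁ hε₁
    refine ⟨ε, hε, fun x hx => ?_⟩
    rw [Function.iterate_succ_apply']
    exact H₁ _ (H x hx)

theorem gap (a : AbsoluteValue K ℝ) (N : ℕ) :
    ∃ ε : ℝ, 0 < ε ∧ ε ≤ 1 ∧ ∀ x : Fin (1 + 1) → K, a (wd x y) < ε * a (wd z x) → ∀ j < N,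
      a (wd z ((app F)^[j + 1] x)) < a (wd ((app F)^[j + 1] x) y) := by
  induction N with
  | zero => exact ⟨1, one_pos, le_rfl, fun x _ j hj => absurd hj (Nat.not_lt_zero _)⟩
  | succ N ih =>
    obtain ⟨ε₁, hε₁, hε₁', h₁⟩ := ih
    obtain ⟨ε₂, hε₂, h₂⟩ := near_iter F hF z y hzy hz0 hz1 hy0 hy1 a N 1 one_pos
    refine ⟨min ε₁ ε₂, lt_min hε₁ hε₂, (min_le_left _ _).trans hε₁', fun x hx j hj => ?_⟩
    rcases Nat.lt_succ_iff_lt_or_eq.mp hj with hj | rfl
    · exact h₁ x (hx.trans_le (mul_le_mul_of_nonneg_right (min_le_left _ _) (a.nonneg _))) j hj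
    · have h3 := h₂ x (hx.trans_le (mul_le_mul_of_nonneg_right (min_le_right _ _) (a.nonneg _)))
      rwa [one_mul] at h3

/-- in every window there is an index which is good for all the given absolute values -/
theorem window (T : Finset (AbsoluteValue K ℝ)) (x : Fin (1 + 1) → K) :
    ∃ ε : AbsoluteValue K ℝ → ℝ, (∀ a, 0 < ε a) ∧ ∀ m₀ : ℕ, ∃ m, m₀ ≤ m ∧ ∀ a ∈ T,
      ε a * a (wd z ((app F)^[m] x)) ≤ a (wd ((app F)^[m] x) y) := by
  classical
  choose ε hε hε' h using fun a : AbsoluteValue K ℝ =>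
    gap F hF z y hzy hz0 hz1 hy0 hy1 a T.card
  refine ⟨ε, hε, fun m₀ => ?_⟩
  by_contra hcon
  push Not at hcon
  have hcon' : ∀ i : ℕ, ∃ a ∈ T,
      a (wd ((app F)^[m₀ + i] x) y) < ε a * a (wd z ((app F)^[m₀ + i] x)) :=
    fun i => hcon (m₀ + i) (Nat.le_add_right _ _)
  choose b hbT hb using hcon'
  obtain ⟨i, hi, j, hj, hij, hbij⟩ := Finset.exists_ne_map_eq_of_card_lt_of_maps_to
    (s := Finset.range (T.card + 1)) (t := T) (f := b) (by simp) (fun i _ => hbT i)
  wlog hlt : i < j generalizing i j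
  · exact this j hj i hi (Ne.symm hij) hbij.symm (lt_of_le_of_ne (not_lt.mp hlt) (Ne.symm hij))
  rw [Finset.mem_range] at hi hj
  have h1 := h (b i) ((app F)^[m₀ + i] x) (hb i) (j - i - 1) (by omega)
  rw [← Function.iterate_add_apply] at h1
  have h2 : j - i - 1 + 1 + (m₀ + i) = m₀ + j := by omega
  rw [h2, hbij] at h1
  have h3 := hb j
  have h4 : ε (b j) * (b j) (wd z ((app F)^[m₀ + j] x)) ≤ (b j) (wd z ((app F)^[m₀ + j] x)) :=
    mul_le_of_le_one_left ((b j).nonneg _) (hε' _)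
  linarith

end win

section val

variable {K : Type} [Field K]

/-- if the orbit is periodic modulo `v` then it avoids `y` modulo `v` -/
theorem orbit {d : ℕ} (v : Valuation K ℤᵐ⁰) (F : Tup 1 K) (hF : ∀ i, (F i).IsHomogeneous d)
    (hg : Good v F) (z y x : Fin (1 + 1) → K) (hz : nv v z ≤ 1)
    (hy : nv v y ≤ 1) (hzy : v (wd z y) = 1) (hFz : wd (app F z) z = 0) (hFy : wd (app F y) z = 0)
    (n : ℕ) (hn : 0 < n) (hper : Cg v ((app F)^[n] x) x) (m : ℕ) :
    v (wd z ((app F)^[m] x)) ≤ v (wd ((app F)^[m] x) y) := by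
  have hzy1 : 1 ≤ nv v z * nv v y := by
    rw [← hzy]
    exact wd_le z y
  have hz1 : nv v z = 1 :=
    le_antisymm hz (hzy1.trans (mul_le_of_le_one_right' hy))
  have hy1 : nv v y = 1 :=
    le_antisymm hy (hzy1.trans (mul_le_of_le_one_left' hz))
  have hz0 : z ≠ 0 := by
    rintro rfl
    rw [nv_eq_zero.2 rfl] at hz1
    exact zero_ne_one hz1
  have hy0 : y ≠ 0 := by
    rintro rfl
    rw [nv_eq_zero.2 rfl] at hy1
    exact zero_ne_one hy1
  by_contra hlt
  rw [not_le] at hlt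
  have hcy : Cg v ((app F)^[m] x) y := by
    unfold Cg
    rw [hy1, mul_one]
    refine hlt.trans_le ((wd_le z _).trans ?_)
    rw [hz1, one_mul]
  have hFyz : Cg v (app F y) z := Cg.of_wd (good_ne hF hg hy0) hz0 hFy
  have hFzz : Cg v (app F z) z := Cg.of_wd (good_ne hF hg hz0) hz0 hFz
  have hk : ∀ k, Cg v ((app F)^[k + 1] ((app F)^[m] x)) z := by
    intro k
    induction k with
    | zero => exact (good_cg_one hF hg hcy).trans hFyz
    | succ k ih =>
      rw [Function.iterate_succ_apply']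
      exact (good_cg_one hF hg ih).trans hFzz
  obtain ⟨k, rfl⟩ : ∃ k, n = k + 1 := ⟨n - 1, by omega⟩
  have h1 := good_cg hF hg hper m
  rw [← Function.iterate_add_apply, add_comm m, Function.iterate_add_apply] at h1
  have h2 : Cg v z y := ((hk k).symm.trans h1).trans hcy
  unfold Cg at h2
  rw [hz1, hy1, mul_one] at h2
  exact absurd hzy (ne_of_lt h2)

end val

section finite

/-- The certificate over a field. -/
theorem exists_cert_field {K : Type} [Field K] {N : ℕ} (F : Tup N K)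
    (h : ∀ x : Fin (N + 1) → AlgebraicClosure K,
      app (mp (algebraMap K (AlgebraicClosure K)) F) x = 0 → x = 0) :
    ∃ (c : K) (e : ℕ), c ≠ 0 ∧ Cert F c e := by
  obtain ⟨e, he⟩ : ∃ e : FractionRing K ≃+* K, ∀ x, e (algebraMap K (FractionRing K) x) = x := by
    refine ⟨(FractionRing.algEquiv K K).toRingEquiv, fun x => ?_⟩
    exact (FractionRing.algEquiv K K).commutes x
  obtain ⟨φ, hφ⟩ : ∃ φ : AlgebraicClosure (FractionRing K) ≃+* AlgebraicClosure K,
      ∀ x, φ (algebraMap (FractionRing K) _ x) = algebraMap K _ (e x) :=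
    ⟨IsAlgClosure.equivOfEquiv (AlgebraicClosure (FractionRing K)) (AlgebraicClosure K) e,
      fun x => IsAlgClosure.equivOfEquiv_algebraMap _ _ e x⟩
  refine exists_cert F fun x hx => ?_
  have h1 : (φ : AlgebraicClosure (FractionRing K) →+* AlgebraicClosure K).comp
      (algebraMap K (AlgebraicClosure (FractionRing K))) = algebraMap K (AlgebraicClosure K) := by
    refine RingHom.ext fun t => ?_
    rw [IsScalarTower.algebraMap_eq K (FractionRing K) (AlgebraicClosure (FractionRing K))]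
    change φ (algebraMap (FractionRing K) _ (algebraMap K (FractionRing K) t)) = _
    rw [hφ, he]
  have h2 := app_mp (φ : AlgebraicClosure (FractionRing K) →+* AlgebraicClosure K)
    (mp (algebraMap K (AlgebraicClosure (FractionRing K))) F) x
  rw [mp_mp, h1, hx] at h2
  have h3 := h _ (h2.trans (funext fun i => map_zero _))
  funext i
  have h4 := congrFun h3 i
  change φ (x i) = 0 at h4
  exact (map_eq_zero_iff φ φ.injective).1 h4


variable {K : Type} [Field K] [NumberField K]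

theorem finite_bad_coeff (G : MvPolynomial (Fin (1 + 1)) K) :
    {v : HeightOneSpectrum (𝓞 K) | ∃ m, 1 < v.valuation K (G.coeff m)}.Finite := by
  have h : {v : HeightOneSpectrum (𝓞 K) | ∃ m, 1 < v.valuation K (G.coeff m)} ⊆
      ⋃ m ∈ G.support, {v : HeightOneSpectrum (𝓞 K) | 1 < v.valuation K (G.coeff m)} := by
    rintro v ⟨m, hm⟩
    simp only [Set.mem_iUnion]
    refine ⟨m, ?_, hm⟩
    rw [MvPolynomial.mem_support_iff]
    intro h0
    rw [h0, map_zero] at hm
    exact not_lt_zero hm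
  exact (Set.Finite.biUnion (Finset.finite_toSet _)
    fun m _ => TameArb.finite_one_lt (G.coeff m)).subset h

theorem fin_good {d : ℕ} {F : Tup 1 K} (hF : IsMor d K F) :
    {v : HeightOneSpectrum (𝓞 K) | ¬ Good (v.valuation K) F}.Finite := by
  classical
  obtain ⟨c, e, hc, hC⟩ := exists_cert_field F hF.2
  choose G hG using hC
  have h1 : ({v : HeightOneSpectrum (𝓞 K) | ¬ Good (v.valuation K) F}) ⊆
      (⋃ i, {v : HeightOneSpectrum (𝓞 K) | ∃ m, 1 < v.valuation K ((F i).coeff m)}) ∪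
      (⋃ j, ⋃ i, {v : HeightOneSpectrum (𝓞 K) |
        ∃ m, 1 < v.valuation K ((MvPolynomial.C c⁻¹ * G j i).coeff m)}) := by
    intro v hv
    by_contra hcon
    apply hv
    simp only [Set.mem_union, Set.mem_iUnion, Set.mem_ofPred_eq, not_or, not_exists, not_lt]
      at hcon
    refine ⟨hcon.1, e, fun j => ⟨fun i => MvPolynomial.C c⁻¹ * G j i, hcon.2 j, ?_⟩⟩
    have h2 : ∑ i, MvPolynomial.C c⁻¹ * G j i * F i =
        MvPolynomial.C c⁻¹ * ∑ i, G j i * F i := by
      rw [Finset.mul_sum]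
      exact Finset.sum_congr rfl fun i _ => mul_assoc _ _ _
    rw [h2, hG j, ← mul_assoc, ← MvPolynomial.C_mul, inv_mul_cancel₀ hc, MvPolynomial.C_1,
      one_mul]
  refine Set.Finite.subset ?_ h1
  exact (Set.finite_iUnion fun i => finite_bad_coeff (F i)).union
    (Set.finite_iUnion fun j => Set.finite_iUnion fun i => finite_bad_coeff _)

end finite

end OneInf

open OneInf in
/-- A point with infinite orbit is not periodic modulo infinitely many primes. -/
theorem one_inf {L : Type} [Field L] [NumberField L] {d : ℕ} (F : Tup 1 L) (hF : IsMor d L F)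
    (ζ δ : Fin 2 → L) (hζ : ζ ≠ 0) (hδ : δ ≠ 0) (h1 : wd (app F ζ) ζ = 0)
    (h2 : wd (app F δ) ζ = 0) (h3 : wd δ ζ ≠ 0) (x : Fin 2 → L) (_hx : x ≠ 0)
    (hinf : ∀ a b, a < b → wd ((app F)^[a] x) ((app F)^[b] x) ≠ 0)
    (S : Set (HeightOneSpectrum (𝓞 L))) (hS : S.Finite) :
    ∃ v, v ∉ S ∧ ∀ n, 0 < n → ¬ Cg (v.valuation L) ((app F)^[n] x) x := by
  classical
  have h0 : ∀ x, app F x = 0 → x = 0 := by
    obtain ⟨c, e, hc, hC⟩ := exists_cert_field F hF.2
    exact fun x hx => hC.eq_zero hc x hx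
  have hD : wd ζ δ ≠ 0 := by
    rw [wd_swap]
    exact neg_ne_zero.2 h3
  have hz : Par (app F ζ) ζ := (par_iff _ _).2 h1
  have hy : Par (app F δ) ζ := (par_iff _ _).2 h2
  have hnp : ¬ Par ζ δ := fun h => hD ((par_iff _ _).1 h)
  have hz0 : wd ζ (app F ζ) = 0 := (par_iff _ _).1 hz.symm
  have hy0 : wd ζ (app F δ) = 0 := (par_iff _ _).1 hy.symm
  have hz1 : wd (app F ζ) δ ≠ 0 := fun h =>
    hnp (hz.symm.trans (fun h' => hζ (h0 ζ h')) ((par_iff _ _).2 h))
  have hy1 : wd (app F δ) δ ≠ 0 := fun h =>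
    hnp (hy.symm.trans (fun h' => hδ (h0 δ h')) ((par_iff _ _).2 h))
  by_contra hcon
  push Not at hcon
  obtain ⟨S', hS'⟩ : ∃ S' : Set (HeightOneSpectrum (𝓞 L)), S' = S ∪
      {v | ¬ Good (v.valuation L) F} ∪ ((⋃ i, {v | 1 < v.valuation L (ζ i)}) ∪
        (⋃ i, {v | 1 < v.valuation L (δ i)})) ∪
      ({v | 1 < v.valuation L (wd ζ δ)} ∪ {v | v.valuation L (wd ζ δ) < 1}) := ⟨_, rfl⟩
  have hSf : S'.Finite := by
    rw [hS']
    exact ((hS.union (fin_good hF)).union ((Set.finite_iUnion fun i =>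
      TameArb.finite_one_lt (ζ i)).union (Set.finite_iUnion fun i =>
      TameArb.finite_one_lt (δ i)))).union
      ((TameArb.finite_one_lt (wd ζ δ)).union (TameArb.finite_lt_one (wd ζ δ) hD))
  have hone : ∀ v, v ∉ S' → ∀ m,
      v.valuation L (wd ζ ((app F)^[m] x)) ≤ v.valuation L (wd ((app F)^[m] x) δ) := by
    intro v hv m
    rw [hS'] at hv
    simp only [Set.mem_union, Set.mem_iUnion, Set.mem_ofPred_eq, not_or, not_exists, not_lt,
      not_not] at hv
    obtain ⟨⟨⟨g1, g2⟩, g3, g4⟩, g5, g6⟩ := hv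
    obtain ⟨n, hn, hper⟩ := hcon v g1
    exact orbit (v.valuation L) F hF.1 g2 ζ δ x (max_le (g3 0) (g3 1)) (max_le (g4 0) (g4 1))
      (le_antisymm g5 g6) h1 h2 n hn hper m
  obtain ⟨T, hT⟩ : ∃ T : Finset (AbsoluteValue L ℝ),
      T = (Finset.univ : Finset (InfinitePlace L)).image
        (fun w => w.val) ∪ hSf.toFinset.image (fun v => (FinitePlace.mk v).val) := ⟨_, rfl⟩
  obtain ⟨ε, hε, hwin⟩ := window F hF.1 ζ δ hD hz0 hz1 hy0 hy1 T x
  have hfin := TameArb.finite_bounded S' hSf fun a => (ε a)⁻¹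
  obtain ⟨G, hG⟩ : ∃ G : Set ℕ, G = {m | ∀ a ∈ T,
    ε a * a (wd ζ ((app F)^[m] x)) ≤ a (wd ((app F)^[m] x) δ)} := ⟨_, rfl⟩
  have hGinf : G.Infinite := by
    refine Set.infinite_of_forall_exists_gt fun m₀ => ?_
    obtain ⟨m, hm, h⟩ := hwin (m₀ + 1)
    refine ⟨m, ?_, by omega⟩
    rw [hG]
    exact h
  have hxm : ∀ m, (app F)^[m] x ≠ 0 := by
    intro m h
    refine hinf m (m + 1) (Nat.lt_succ_self m) ?_
    rw [h]
    unfold wd
    simp
  have hα : ∀ m, wd ((app F)^[m] x) δ ≠ 0 := by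
    intro m h
    have g1 : Par ((app F)^[m] x) δ := (par_iff _ _).2 h
    have g2 : Par ((app F)^[m + 1] x) ζ := by
      rw [Function.iterate_succ_apply']
      exact (PNH.Par.iter F hF.1 (hxm m) g1 1).trans (fun h' => hδ (h0 δ h')) hy
    have g3 : Par ((app F)^[m + 1 + 1] x) ζ := by
      rw [Function.iterate_succ_apply']
      exact (PNH.Par.iter F hF.1 (hxm (m + 1)) g2 1).trans (fun h' => hζ (h0 ζ h')) hz
    exact hinf (m + 1) (m + 1 + 1) (Nat.lt_succ_self _) ((par_iff _ _).1 (g2.trans hζ g3.symm))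
  have htinj : Function.Injective fun m =>
      wd ζ ((app F)^[m] x) / wd ((app F)^[m] x) δ := by
    intro m k h
    have g1 : wd ζ ((app F)^[m] x) * wd ((app F)^[k] x) δ =
        wd ζ ((app F)^[k] x) * wd ((app F)^[m] x) δ := (div_eq_div_iff (hα m) (hα k)).1 h
    have g2 : wd ((app F)^[m] x) ((app F)^[k] x) = 0 := by
      have g3 := wd_plucker ζ δ ((app F)^[m] x) ((app F)^[k] x)
      rw [mul_comm (wd ((app F)^[m] x) δ), ← g1, sub_self] at g3
      exact (mul_eq_zero.1 g3).resolve_right hD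
    rcases lt_trichotomy m k with g4 | g4 | g4
    · exact absurd g2 (hinf m k g4)
    · exact g4
    · refine absurd ?_ (hinf k m g4)
      rw [wd_swap, g2, neg_zero]
  refine hGinf ((hfin.preimage htinj.injOn).subset ?_)
  intro m hm
  rw [hG] at hm
  rw [Set.mem_preimage]
  have hbd : ∀ a ∈ T, a (wd ζ ((app F)^[m] x) / wd ((app F)^[m] x) δ) ≤ (ε a)⁻¹ := by
    intro a ha
    rw [map_div₀, div_le_iff₀ (a.pos (hα m)), ← div_eq_inv_mul, le_div_iff₀ (hε a), mul_comm]
    exact hm a ha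
  refine ⟨fun w => hbd _ ?_, fun v hv => hbd _ ?_, fun v hv => ?_⟩
  · rw [hT]
    exact Finset.mem_union_left _ (Finset.mem_image_of_mem _ (Finset.mem_univ w))
  · rw [hT]
    exact Finset.mem_union_right _ (Finset.mem_image_of_mem _ (by simpa using hv))
  · rw [map_div₀]
    exact div_le_one_of_le₀ (hone v hv m) zero_le

end Pool.Agent.AAP
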