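import Pool.Agent.AAP.Zd
import Pool.Agent.AAP.Ovr
import Pool.Agent.AAP.Bad
import Pool.Agent.AAP.OneInf
import Pool.Agent.PNH.ParL

set_option autoImplicit false

/-!
# A nonperiodic point is nonperiodic modulo some good prime
-/

namespace Pool.Agent.AAP

open NumberField IsDedekindDomain Polynomial
open scoped WithZero
open Pool.Agent.PNH (Tup app mp IsMor Cert Par)
open Pool.Agent.TameArb (PosDens pt Over)

namespace OneAux

variable {K : Type} [Field K] [NumberField K]

theorem app_ne {d : ℕ} {F : Tup 1 K} (hF : IsMor d K F) (x : Fin 2 → K) (h : app F x = 0) :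
    x = 0 := by
  obtain ⟨e, he⟩ := exists_cert1 hF
  exact he.eq_zero one_ne_zero x h

omit [NumberField K] in
theorem mor_ext {L : Type} [Field L] [NumberField L] [Algebra K L] {d : ℕ} {F : Tup 1 K}
    (hF : IsMor d K F) : IsMor d L (mp (algebraMap K L) F) := by
  obtain ⟨e, he⟩ := exists_cert1 hF
  refine ⟨fun i => (hF.1 i).map _, fun x hx => ?_⟩
  have h1 := (he.mp (algebraMap K L)).mp (algebraMap L (AlgebraicClosure L))
  rw [map_one, map_one] at h1
  exact h1.eq_zero one_ne_zero x hx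

/-- the primes above a finite set -/
theorem finite_under {L : Type} [Field L] [NumberField L] [Algebra K L]
    (B : Set (HeightOneSpectrum (𝓞 K))) (hB : B.Finite) :
    {w : HeightOneSpectrum (𝓞 L) | w.under (𝓞 K) ∈ B}.Finite := by
  have hex : ∀ v : HeightOneSpectrum (𝓞 K), ∃ a : K, a ≠ 0 ∧ v.valuation K a < 1 := by
    intro v
    obtain ⟨a, ha, ha0⟩ := Submodule.exists_mem_ne_zero_of_ne_bot v.ne_bot
    refine ⟨algebraMap (𝓞 K) K a, ?_, (v.valuation_lt_one_iff_mem a).2 ha⟩
    exact (map_ne_zero_iff _ (FaithfulSMul.algebraMap_injective (𝓞 K) K)).2 ha0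
  choose a ha0 ha using hex
  refine (hB.biUnion fun v _ => TameArb.finite_lt (algebraMap K L (a v)) ?_).subset ?_
  · rw [Ne, map_eq_zero]
    exact ha0 v
  · intro w hw
    rw [Set.mem_iUnion₂]
    refine ⟨w.under (𝓞 K), hw, ?_⟩
    obtain ⟨e, he, hval⟩ := TameArb.under_le_one_iff (K := K) w
    change w.valuation L (algebraMap K L (a (w.under (𝓞 K)))) < 1
    rw [← hval]
    exact pow_lt_one' (ha _) he

omit [NumberField K] in
theorem iter_ext {L : Type} [Field L] [Algebra K L] (F : Tup 1 K) (n : ℕ) (x : Fin 2 → K) :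
    (app (mp (algebraMap K L) F))^[n] (fun i => algebraMap K L (x i)) =
      fun i => algebraMap K L ((app F)^[n] x i) :=
  PNH.iter_mp (algebraMap K L) F n x

omit [NumberField K] in
theorem wd_ext {L : Type} [Field L] [Algebra K L] (x y : Fin 2 → K) :
    wd (fun i => algebraMap K L (x i)) (fun i => algebraMap K L (y i)) =
      algebraMap K L (wd x y) := by
  unfold wd
  rw [map_sub, map_mul, map_mul]

/-- infinite orbit -/
theorem inf {d : ℕ} (hd : 2 ≤ d) {F : Tup 1 K} (hF : IsMor d K F) (x : Fin 2 → K)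
    (hx : x ≠ 0) (hinf : ∀ a b, a < b → wd ((app F)^[a] x) ((app F)^[b] x) ≠ 0) :
    ∃ v, v ∈ SP F {x} := by
  obtain ⟨L, _, _, _, ζ, δ, hζ, hδ, h1, h2, h3⟩ := exists_ext K hd hF
  obtain ⟨w, hw, hn⟩ := one_inf (mp (algebraMap K L) F) (mor_ext hF) ζ δ hζ hδ h1 h2 h3
    (fun i => algebraMap K L (x i)) (fun h => hx (funext fun i => by
      have := congrFun h i
      exact (map_eq_zero _).1 this)) (fun a b hab => by
        rw [iter_ext, iter_ext, wd_ext, Ne, map_eq_zero]
        exact hinf a b hab) _ (finite_under _ (finite_bad hF))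
  obtain ⟨e, he, hval⟩ := TameArb.under_le_one_iff (K := K) w
  have hover : Over ((w.under (𝓞 K)).valuation K) (w.valuation L) e := ⟨he, hval⟩
  refine ⟨w.under (𝓞 K), not_not.1 hw, ?_⟩
  intro y hy
  rw [Finset.mem_singleton.1 hy, ← Over.perMod hover F x]
  rintro ⟨n, hn0, hcg⟩
  exact hn n hn0 hcg

/-- finite orbit: every iterate is one of the first ones -/
theorem rep {d : ℕ} {F : Tup 1 K} (hF : IsMor d K F) (x : Fin 2 → K) (hx : x ≠ 0) {a b : ℕ}
    (hab : a < b) (h : wd ((app F)^[a] x) ((app F)^[b] x) = 0) (n : ℕ) (hn : 0 < n) :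
    ∃ k, 0 < k ∧ k ≤ b ∧ Par ((app F)^[n] x) ((app F)^[k] x) := by
  have hne : ∀ m, (app F)^[m] x ≠ 0 := fun m => PNH.iter_ne_zero F (app_ne hF) m hx
  induction n using Nat.strong_induction_on with
  | _ n ih =>
    by_cases hnb : n ≤ b
    · exact ⟨n, hn, hnb, PNH.Par.refl _⟩
    · obtain ⟨k, hk, hkb, hpar⟩ := ih (n - (b - a)) (by omega) (by omega)
      refine ⟨k, hk, hkb, PNH.Par.trans (hne _) ?_ hpar⟩
      have h1 : Par ((app F)^[b] x) ((app F)^[a] x) := (par_iff_wd.2 h).symm
      have h2 := PNH.Par.iter F hF.1 (hne b) h1 (n - b)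
      rw [← Function.iterate_add_apply, ← Function.iterate_add_apply] at h2
      have e1 : n - b + b = n := by omega
      have e2 : n - b + a = n - (b - a) := by omega
      rwa [e1, e2] at h2

end OneAux

open OneAux

theorem exists_prime {K : Type} [Field K] [NumberField K] {d : ℕ} (hd : 2 ≤ d) {F : Tup 1 K}
    (hF : IsMor d K F) (x : Fin 2 → K)
    (hx : x ≠ 0) (hp : ¬ Periodic F x) : ∃ v, v ∈ SP F {x} := by
  by_cases hinf : ∀ a b, a < b → wd ((app F)^[a] x) ((app F)^[b] x) ≠ 0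
  · exact inf hd hF x hx hinf
  · push Not at hinf
    obtain ⟨a, b, hab, h⟩ := hinf
    have hper : ∀ k, 0 < k → wd ((app F)^[k] x) x ≠ 0 := fun k hk h0 => hp ⟨k, hk, h0⟩
    have hne : ∀ m, (app F)^[m] x ≠ 0 := fun m => PNH.iter_ne_zero F (app_ne hF) m hx
    have hfin : ({v : HeightOneSpectrum (𝓞 K) | ¬ Good (v.valuation K) F} ∪
        ⋃ k ∈ Finset.Icc 1 b, {v : HeightOneSpectrum (𝓞 K) |
          Cg (v.valuation K) ((app F)^[k] x) x}).Finite :=
      (finite_bad hF).union (Set.Finite.biUnion (Finset.finite_toSet _) fun k hk =>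
        finite_cg (hper k (Finset.mem_Icc.1 hk).1))
    have := TameArb.infinite_primes K
    obtain ⟨v, hv⟩ := hfin.infinite_compl.nonempty
    refine ⟨v, ?_, ?_⟩
    · by_contra hg
      exact hv (Or.inl hg)
    · intro y hy
      rw [Finset.mem_singleton.1 hy]
      rintro ⟨n, hn, hcg⟩
      obtain ⟨k, hk, hkb, hpar⟩ := rep hF x hx hab h n hn
      obtain ⟨c, hc⟩ := hpar.exists_smul (hne n)
      have hc0 : c ≠ 0 := by
        rintro rfl
        rw [zero_smul] at hc
        exact hne k hc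
      refine hv (Or.inr ?_)
      rw [Set.mem_iUnion₂]
      refine ⟨k, Finset.mem_Icc.2 ⟨hk, hkb⟩, ?_⟩
      change Cg (v.valuation K) ((app F)^[k] x) x
      rw [hc, cg_smul hc0]
      exact hcg

end Pool.Agent.AAP
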