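import Mathlib
import Pool.Agent.AAP.Frb

set_option autoImplicit false

/-!
# Automorphisms that act as a Frobenius on the residue field
-/

namespace Pool.Agent.AAP

open NumberField IsDedekindDomain Polynomial
open scoped WithZero
open Pool.Agent.PNH (Tup app mp IsMor Cert)
open FrbA

theorem frb_core {K : Type} [Field K] {L : Type} [Field L] [Algebra K L] {V : Valuation L ℤᵐ⁰}
    {d : ℕ} {F : Tup 1 K} (hF : ∀ i, (F i).IsHomogeneous d)
    (hG : Good V (mp (algebraMap K L) F)) (g : L ≃ₐ[K] L) (_hg : ∀ x, V (g x) = V x) {Q : ℕ}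
    (hQ : 1 < Q) (hfr : ∀ x : L, V x ≤ 1 → V (g x - x ^ Q) < 1) {z : Fin 2 → L} (hz : z ≠ 0)
    (hgz : wd (fun i => g (z i)) z = 0) {n : ℕ} (hn : Q ^ 2 ≤ n) :
    ∃ i j, i < j ∧ j ≤ n ∧ Cg V ((app (mp (algebraMap K L) F))^[i] z)
      ((app (mp (algebraMap K L) F))^[j] z) := by
  classical
  have hFL : ∀ i, (mp (algebraMap K L) F i).IsHomogeneous d := fun i => (hF i).map _
  set Z : ℕ → Fin 2 → L := fun j => (app (mp (algebraMap K L) F))^[j] z with hZ
  have hZ0 : ∀ j, Z j ≠ 0 := fun j => good_iter_ne hFL hG j hz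
  have hZp : ∀ j, wd (fun i => g (Z j i)) (Z j) = 0 := by
    intro j
    have h1 : (fun i => g (Z j i)) = (app (mp (algebraMap K L) F))^[j] (fun i => g (z i)) :=
      (iter_aut g F j z).symm
    rw [h1]
    obtain ⟨c, hc, -, -, hfix⟩ := exists_fixed (V := V) (g : L →+* L) hz hgz
    have h2 : (fun i => g (z i)) = (g c)⁻¹ • (c • z) := by
      funext i
      have h3 : g (c * z i) = c * z i := hfix i
      rw [map_mul] at h3
      have h4 : g c ≠ 0 := (map_ne_zero g).2 hc
      simp only [Pi.smul_apply, smul_eq_mul]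
      rw [← h3, inv_mul_cancel_left₀ h4]
    rw [h2, smul_smul, iter_smul hFL, wd_smul_left, hZ]
    simp only
    rw [wd_self, mul_zero]
  choose c hc hc1 hci hcfix using fun j => exists_fixed (V := V) (g : L →+* L) (hZ0 j) (hZp j)
  set Y : ℕ → Fin 2 → L := fun j => c j • Z j with hY
  have hYle : ∀ j i, V (Y j i) ≤ 1 := fun j i => (hc1 j) ▸ le_nv (v := V) (Y j) i
  have hYq : ∀ j i, V (Y j i - Y j i ^ Q) < 1 := by
    intro j i
    have h1 := hfr (Y j i) (hYle j i)
    have h2 : g (Y j i) = Y j i := hcfix j i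
    rwa [h2] at h1
  have hmaps : ∀ j ∈ Finset.range (Q ^ 2 + 1),
      (rs V (Y j 0) (hYle j 0), rs V (Y j 1) (hYle j 1)) ∈ Fq V Q ×ˢ Fq V Q := by
    intro j _
    rw [Finset.mem_product]
    exact ⟨(mem_Fq V hQ (hYle j 0)).2 (hYq j 0), (mem_Fq V hQ (hYle j 1)).2 (hYq j 1)⟩
  have hcard : (Fq V Q ×ˢ Fq V Q).card < (Finset.range (Q ^ 2 + 1)).card := by
    rw [Finset.card_product, Finset.card_range]
    have h1 := card_Fq V hQ
    have h2 := Nat.mul_le_mul h1 h1
    have h3 : Q * Q = Q ^ 2 := by ring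
    omega
  obtain ⟨a, ha, b, hb, hab, heq⟩ := Finset.exists_ne_map_eq_of_card_lt_of_maps_to hcard hmaps
  rw [Prod.mk.injEq, rs_eq, rs_eq] at heq
  have ha' := Finset.mem_range.1 ha
  have hb' := Finset.mem_range.1 hb
  rcases lt_or_gt_of_ne hab with hlt | hlt
  · refine ⟨a, b, hlt, by omega, ?_⟩
    have h1 : Cg V (Y a) (Y b) := cg_of_sub (hc1 a) (hc1 b) fun i => by
      fin_cases i
      · exact heq.1
      · exact heq.2
    exact (cg_smul (hc a) _ _).1 ((cg_smul' (hc b) _ _).1 h1)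
  · refine ⟨b, a, hlt, by omega, ?_⟩
    have h1 : Cg V (Y b) (Y a) := cg_of_sub (hc1 b) (hc1 a) fun i => by
      rw [Valuation.map_sub_swap]
      fin_cases i
      · exact heq.1
      · exact heq.2
    exact (cg_smul (hc b) _ _).1 ((cg_smul' (hc a) _ _).1 h1)

end Pool.Agent.AAP
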