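import Mathlib
import Pool.Agent.TameArb.Moved
import Pool.Agent.TameArb.BC
import Pool.Agent.TameArb.TameGen

set_option autoImplicit false

/-!
# A tame generator and a Frobenius element at the same place
-/

namespace Pool.Agent.AAP

open NumberField IsDedekindDomain
open scoped WithZero Pointwise
open Pool.Agent.TameArb (Over Tame Frob exists_tame valuation_smul valuation_frob_sub)

/-- a Frobenius element at a given place -/
theorem frob_at (K L : Type) [Field K] [NumberField K] [Field L] [NumberField L]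
    [Algebra K L] [IsGalois K L] (v : HeightOneSpectrum (𝓞 K)) (w : HeightOneSpectrum (𝓞 L))
    (hw : w.asIdeal.LiesOver v.asIdeal) :
    ∃ h : L ≃ₐ[K] L, (∀ x : L, w.valuation L (h x) = w.valuation L x) ∧
      ∀ x : L, w.valuation L x ≤ 1 →
        w.valuation L (h x - x ^ Ideal.absNorm v.asIdeal) < 1 := by
  have hfin : Finite (𝓞 L ⧸ w.asIdeal) := inferInstance
  have hwp : w.asIdeal.IsPrime := w.isPrime
  obtain ⟨h, hh⟩ := IsArithFrobAt.exists_of_isInvariant (𝓞 K) (L ≃ₐ[K] L) w.asIdeal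
  have hcard : Nat.card (𝓞 K ⧸ w.asIdeal.under (𝓞 K)) = Ideal.absNorm v.asIdeal := by
    rw [← hw.over, Ideal.absNorm_apply, Submodule.cardQuot_apply]
  have hst : ∀ x : 𝓞 L, h • x ∈ w.asIdeal ↔ x ∈ w.asIdeal := by
    intro x
    have h1 : h • w.asIdeal = w.asIdeal := hh.mem_stabilizer
    conv_lhs => rw [← h1]
    exact Ideal.smul_mem_pointwise_smul_iff
  have hcong : ∀ x : 𝓞 L, h • x - x ^ Ideal.absNorm v.asIdeal ∈ w.asIdeal := by
    intro x
    have h1 := hh x
    rw [hcard] at h1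
    exact h1
  exact ⟨h, valuation_smul h w hst, valuation_frob_sub w h _ hst hcong⟩

theorem exists_tame_frob (K L : Type) [Field K] [NumberField K] [Field L] [NumberField L]
    [Algebra K L] [IsGalois K L] (v : HeightOneSpectrum (𝓞 K)) (p : ℕ) (hp : p.Prime)
    (hpv : v.valuation K (p : K) < 1) :
    ∃ (w : HeightOneSpectrum (𝓞 L)) (e : ℕ) (τ h : L ≃ₐ[K] L),
      Tame (v.valuation K) (w.valuation L) e p τ ∧
      (∀ x : L, w.valuation L (τ x) = w.valuation L x) ∧
      Frob (v.valuation K) (w.valuation L) e (Ideal.absNorm v.asIdeal) h ∧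
      (∀ x : L, w.valuation L (h x) = w.valuation L x) := by
  obtain ⟨w, e, τ, he, hval, h1, h2, h3⟩ := exists_tame K L v p hp hpv
  have ho : Over (v.valuation K) (w.valuation L) e := ⟨he, hval⟩
  have hw : w.asIdeal.LiesOver v.asIdeal := by
    refine ⟨?_⟩
    ext x
    rw [Ideal.under_def, Ideal.mem_comap]
    rw [← v.valuation_lt_one_iff_mem (K := K) x, ← w.valuation_lt_one_iff_mem (K := L)]
    exact ho.lt_one.symm
  obtain ⟨h, hh1, hh2⟩ := frob_at K L v w hw
  exact ⟨w, e, τ, h, ⟨ho, h2, h3⟩, h1, ⟨ho, hh2⟩, hh1⟩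

end Pool.Agent.AAP
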