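import Mathlib
import Pool.Agent.AAP.Siv
import Pool.Agent.AAP.DefsS
import Pool.Agent.AAP.Red
import Pool.Agent.AAP.TpA
import Pool.Agent.AAP.SA
import Pool.Agent.AAP.Ex3
import Pool.Agent.AAP.NulM

set_option autoImplicit false

/-!
# A positive proportion of the maps
-/

namespace Pool.Agent.AAP

open NumberField IsDedekindDomain
open scoped WithZero
open Pool.Agent.PNH (Tup app mp IsMor Cert)
open Pool.Agent.TameArb (PosDens pt Over Tame Frob)
open Pool.Agent.FAM (Cube)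
open Pool.Agent.LIM (Null)

open PosA

open Classical in
/-- the residue classes modulo `v` have positive density -/
theorem pos_class {K : Type} [Field K] [NumberField K] {r m R : ℕ}
    (ω : Module.Basis (Fin m) ℤ (𝓞 K)) (e : Fin R ≃ Fin r × Fin m)
    (v : HeightOneSpectrum (𝓞 K)) (a : Fin r → 𝓞 K) :
    ∃ c : ℝ, 0 < c ∧ ∃ H₀ : ℕ, ∀ H : ℕ, H₀ ≤ H → c * (2 * H + 1) ^ R ≤
      (((Cube R H).filter fun s => ∀ i, vc ω e s i - a i ∈ v.asIdeal).card : ℝ) := by
  set G := ∀ _ : ({v} : Finset (HeightOneSpectrum (𝓞 K))), Fin r → 𝓞 K ⧸ v.asIdeal with hG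
  set ψ : (Fin R → ℤ) →+ (Fin r → 𝓞 K ⧸ v.asIdeal) :=
    { toFun := fun s i => Ideal.Quotient.mk v.asIdeal (vc ω e s i)
      map_zero' := by
        funext i
        simp [vc]
      map_add' := fun s t => by
        funext i
        rw [Pi.add_apply, ← map_add]
        congr 1
        unfold vc
        rw [← Finset.sum_add_distrib]
        refine Finset.sum_congr rfl fun j _ => ?_
        rw [Pi.add_apply, add_smul] } with hψ
  have hψs : Function.Surjective ψ := by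
    intro b
    choose b' hb' using fun i => Ideal.Quotient.mk_surjective (I := v.asIdeal) (b i)
    obtain ⟨s, hs⟩ := vc_surj ω e {v} (fun _ => b')
    refine ⟨s, funext fun i => ?_⟩
    have h1 := hs v (Finset.mem_singleton_self v) i
    rw [← hb' i]
    exact (Ideal.Quotient.mk_eq_mk_iff_sub_mem _ _).mpr h1
  have hfin : Finite (𝓞 K ⧸ v.asIdeal) := Ideal.finiteQuotientOfFreeOfNeBot v.asIdeal v.ne_bot
  set ā : Fin r → 𝓞 K ⧸ v.asIdeal := fun i => Ideal.Quotient.mk v.asIdeal (a i) with hā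
  set q : ℝ := (Nat.card (Fin r → 𝓞 K ⧸ v.asIdeal) : ℝ) with hq
  have hq0 : 0 < q := by
    rw [hq]
    exact_mod_cast Nat.card_pos
  obtain ⟨H₀, hH₀⟩ := equ ψ hψs ({ā}ᶜ) (1 / (2 * q)) (by positivity)
  refine ⟨1 / (2 * q), by positivity, H₀, fun H hH => ?_⟩
  have h1 := hH₀ H hH
  have h2 : (({ā}ᶜ : Set (Fin r → 𝓞 K ⧸ v.asIdeal)).ncard : ℝ) = q - 1 := by
    have h3 := Set.ncard_add_ncard_compl ({ā} : Set (Fin r → 𝓞 K ⧸ v.asIdeal))
    rw [Set.ncard_singleton] at h3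
    have h4 : (1 : ℝ) + (({ā}ᶜ : Set (Fin r → 𝓞 K ⧸ v.asIdeal)).ncard : ℝ) = q := by
      rw [hq]
      exact_mod_cast h3
    linarith
  rw [h2, ← hq] at h1
  have h3 : ((Cube R H).filter fun s => ψ s ∈ ({ā}ᶜ : Set (Fin r → 𝓞 K ⧸ v.asIdeal))).card +
      ((Cube R H).filter fun s => ∀ i, vc ω e s i - a i ∈ v.asIdeal).card =
      (Cube R H).card := by
    have h4 := Finset.card_filter_add_card_filter_not (s := Cube R H)
      (fun s => ψ s ∈ ({ā}ᶜ : Set (Fin r → 𝓞 K ⧸ v.asIdeal)))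
    have h5 : ((Cube R H).filter fun s => ¬ ψ s ∈ ({ā}ᶜ : Set (Fin r → 𝓞 K ⧸ v.asIdeal))) =
        ((Cube R H).filter fun s => ∀ i, vc ω e s i - a i ∈ v.asIdeal) := by
      refine Finset.filter_congr fun s _ => ?_
      rw [Set.mem_compl_iff, not_not, Set.mem_singleton_iff]
      constructor
      · intro h i
        exact (Ideal.Quotient.mk_eq_mk_iff_sub_mem _ _).mp (congrFun h i)
      · intro h
        funext i
        exact (Ideal.Quotient.mk_eq_mk_iff_sub_mem _ _).mpr (h i)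
    rw [h5] at h4
    exact h4
  have h4 : ((Cube R H).card : ℝ) = (2 * (H : ℝ) + 1) ^ R := by
    rw [Pool.Agent.FAM.card_Cube]
    push_cast
    rfl
  have h5 : (((Cube R H).filter fun s => ψ s ∈ ({ā}ᶜ : Set (Fin r → 𝓞 K ⧸ v.asIdeal))).card : ℝ) +
      (((Cube R H).filter fun s => ∀ i, vc ω e s i - a i ∈ v.asIdeal).card : ℝ) =
      (2 * (H : ℝ) + 1) ^ R := by
    rw [← h4]
    exact_mod_cast h3
  have h6 : ((q - 1) / q + 1 / (2 * q)) = 1 - 1 / (2 * q) := by
    field_simp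
    ring
  rw [h6, sub_mul, one_mul] at h1
  have h7 : (((Cube R H).filter fun s => ψ s ∈ ({ā}ᶜ : Set (Fin r → 𝓞 K ⧸ v.asIdeal))).card : ℝ) ≤
      (2 * (H : ℝ) + 1) ^ R - 1 / (2 * q) * (2 * (H : ℝ) + 1) ^ R := by
    have hfil : ∀ i1 i2 : DecidablePred fun s : Fin R → ℤ =>
        ψ s ∈ ({ā}ᶜ : Set (Fin r → 𝓞 K ⧸ v.asIdeal)),
        @Finset.filter _ _ i1 (Cube R H) = @Finset.filter _ _ i2 (Cube R H) := fun i1 i2 => by
      rw [Subsingleton.elim i1 i2]
    rw [hfil _ fun _ => Classical.propDecidable _]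
    exact h1
  linarith

open Classical in
theorem pos_sa {K : Type} [Field K] [NumberField K] {d : ℕ} (hd : 2 ≤ d)
    (v : HeightOneSpectrum (𝓞 K)) (hv : Ideal.absNorm v.asIdeal = 3) {m R : ℕ}
    (ω : Module.Basis (Fin m) ℤ (𝓞 K)) (e : Fin R ≃ Fin (2 * (d + 1)) × Fin m) :
    ∃ c : ℝ, 0 < c ∧ ∃ H₀ : ℕ, ∀ H : ℕ, H₀ ≤ H → c * (2 * H + 1) ^ R ≤
      (((Cube R H).filter fun s =>
        IsMor d K (tp (d := d) fun i => ((vc ω e s i : 𝓞 K) : K)) ∧
        ∀ Γ : Finset (Fin 2 → K),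
          (∀ x ∈ Γ, x ≠ 0 ∧ ¬ Periodic (tp (d := d) fun i => ((vc ω e s i : 𝓞 K) : K)) x) →
          PosDens (SP (tp (d := d) fun i => ((vc ω e s i : 𝓞 K) : K)) Γ)).card : ℝ) := by
  -- the coefficients of the model
  set a : Fin (2 * (d + 1)) → 𝓞 K := fun l =>
    (ex3 (𝓞 K) d (finProdFinEquiv.symm l).1).coeff (ex d (finProdFinEquiv.symm l).2) with ha
  obtain ⟨c, hc, H₁, h1⟩ := pos_class ω e v a
  obtain ⟨H₂, h2⟩ := null_mor (K := K) hd ω e (c / 2) (by positivity)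
  refine ⟨c / 2, by positivity, max H₁ H₂, fun H hH => ?_⟩
  have h3 := h1 H ((le_max_left _ _).trans hH)
  have h4 := h2 H ((le_max_right _ _).trans hH)
  have hset : ((Cube R H : Set (Fin R → ℤ)) ∩
      {s : Fin R → ℤ | ¬ IsMor d K (tp (d := d) fun i => ((vc ω e s i : 𝓞 K) : K))}) =
      ((Cube R H).filter (fun s => ¬ IsMor d K (tp (d := d) fun i => ((vc ω e s i : 𝓞 K) : K))) :
        Finset (Fin R → ℤ)) := by
    ext s
    simp
  rw [hset, Set.ncard_coe_finset] at h4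
  have h5 : ((Cube R H).filter fun s => ∀ i, vc ω e s i - a i ∈ v.asIdeal) ⊆
      ((Cube R H).filter fun s => ¬ IsMor d K (tp (d := d) fun i => ((vc ω e s i : 𝓞 K) : K))) ∪
      ((Cube R H).filter fun s =>
        IsMor d K (tp (d := d) fun i => ((vc ω e s i : 𝓞 K) : K)) ∧
        ∀ Γ : Finset (Fin 2 → K),
          (∀ x ∈ Γ, x ≠ 0 ∧ ¬ Periodic (tp (d := d) fun i => ((vc ω e s i : 𝓞 K) : K)) x) →
          PosDens (SP (tp (d := d) fun i => ((vc ω e s i : 𝓞 K) : K)) Γ)) := by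
    intro s hs
    obtain ⟨hs1, hs2⟩ := Finset.mem_filter.mp hs
    rw [Finset.mem_union, Finset.mem_filter, Finset.mem_filter]
    by_cases hmor : IsMor d K (tp (d := d) fun i => ((vc ω e s i : 𝓞 K) : K))
    · right
      refine ⟨hs1, hmor, fun Γ hΓ => ?_⟩
      have hm : ∀ i m, v.valuation K ((tp (d := d) (fun i => ((vc ω e s i : 𝓞 K) : K)) i).coeff m -
          (ex3 K d i).coeff m) < 1 := by
        intro i m
        have h6 := eq_fm (hom_ex3 K hd i)
        rw [h6]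
        refine fm_sub (fun j => ?_) m
        have h7 : (ex3 K d i).coeff (ex d j) =
            ((a (finProdFinEquiv (i, j)) : 𝓞 K) : K) := by
          rw [ha]
          simp only [Equiv.symm_apply_apply]
          rw [← map_ex3 (algebraMap (𝓞 K) K) d i, MvPolynomial.coeff_map]
        rw [h7]
        have h8 := hs2 (finProdFinEquiv (i, j))
        have h9 := (v.valuation_lt_one_iff_mem (K := K) _).mpr h8
        have h10 : ((vc ω e s (finProdFinEquiv (i, j)) - a (finProdFinEquiv (i, j)) : 𝓞 K) : K) =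
            ((vc ω e s (finProdFinEquiv (i, j)) : 𝓞 K) : K) -
              ((a (finProdFinEquiv (i, j)) : 𝓞 K) : K) := map_sub (algebraMap (𝓞 K) K) _ _
        show v.valuation K (((vc ω e s (finProdFinEquiv (i, j)) : 𝓞 K) : K) -
          ((a (finProdFinEquiv (i, j)) : 𝓞 K) : K)) < 1
        rw [← h10]
        exact h9
      obtain ⟨hG, h3v, hall⟩ := ex3_sa hd hmor.1 v hv hm
      refine dens_sa hd hmor v hG Nat.prime_three h3v Γ (fun x hx => (hΓ x hx).1) fun x hx => ?_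
      rcases hall x (hΓ x hx).1 with h6 | ⟨N, hN, hS⟩
      · exact Or.inl h6
      · exact Or.inr ⟨(hΓ x hx).2, N, 2, hN, le_rfl, by omega, hS⟩
    · left
      exact ⟨hs1, hmor⟩
  have h6 := (Finset.card_le_card h5).trans (Finset.card_union_le _ _)
  have h7 : (((Cube R H).filter fun s => ∀ i, vc ω e s i - a i ∈ v.asIdeal).card : ℝ) ≤
      (((Cube R H).filter (fun s =>
        ¬ IsMor d K (tp (d := d) fun i => ((vc ω e s i : 𝓞 K) : K)))).card : ℝ) +
      (((Cube R H).filter fun s =>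
        IsMor d K (tp (d := d) fun i => ((vc ω e s i : 𝓞 K) : K)) ∧
        ∀ Γ : Finset (Fin 2 → K),
          (∀ x ∈ Γ, x ≠ 0 ∧ ¬ Periodic (tp (d := d) fun i => ((vc ω e s i : 𝓞 K) : K)) x) →
          PosDens (SP (tp (d := d) fun i => ((vc ω e s i : 𝓞 K) : K)) Γ)).card : ℝ) := by
    exact_mod_cast h6
  have h8 : c * (2 * (H : ℝ) + 1) ^ R = c / 2 * (2 * (H : ℝ) + 1) ^ R +
      c / 2 * (2 * (H : ℝ) + 1) ^ R := by ring
  linarith

end Pool.Agent.AAP
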