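import Mathlib
import Pool.Agent.HTK.Low

set_option autoImplicit false

/-!
# An upper bound for the number of points of bounded height
-/

namespace Pool.Agent.AAP

open NumberField
open Pool.Agent.HTK (Bx)

namespace SmCA

/-- the number of integral vectors in a box -/
theorem bx_card (K : Type) [Field K] [NumberField K] (r : ℕ) : ∃ C : ℝ, 0 < C ∧ ∀ Y : ℝ, 0 ≤ Y →
    ((Bx K r Y).ncard : ℝ) ≤ (C * Y + 1) ^ (Module.finrank ℚ K * r) := by
  classical
  let n := Module.finrank ℤ (𝓞 K)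
  have hn : n = Module.finrank ℚ K := RingOfIntegers.rank K
  let ω : Module.Basis (Fin n) ℤ (𝓞 K) := Module.finBasis ℤ (𝓞 K)
  obtain ⟨C, hC, h⟩ := HTK.exists_rep K ω
  refine ⟨2 * C, by positivity, fun Y hY => ?_⟩
  let q : ℤ := ⌊C * Y⌋
  have hq : (q : ℝ) ≤ C * Y := Int.floor_le _
  have hq0 : 0 ≤ q := Int.floor_nonneg.2 (by positivity)
  let S : Finset (Fin r → Fin n → ℤ) :=
    Fintype.piFinset fun _ => Fintype.piFinset fun _ => Finset.Icc (-q) q
  let g : (Fin r → 𝓞 K) → (Fin r → Fin n → ℤ) := fun u i j => ω.repr (u i) j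
  have hg : Function.Injective g := by
    intro u w huw
    funext i
    apply ω.repr.injective
    ext j
    exact congrFun (congrFun huw i) j
  have hsub : g '' (Bx K r Y) ⊆ (S : Set (Fin r → Fin n → ℤ)) := by
    rintro _ ⟨u, hu, rfl⟩
    rw [Finset.mem_coe, Fintype.mem_piFinset]
    intro i
    rw [Fintype.mem_piFinset]
    intro j
    have h1 := h Y (u i) (hu i) j
    rw [Finset.mem_Icc, ← abs_le]
    refine Int.le_floor.2 ?_
    rw [Int.cast_abs]
    exact h1
  have hcard : ((Bx K r Y).ncard : ℝ) ≤ (S.card : ℝ) := by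
    have h1 := Set.ncard_le_ncard hsub S.finite_toSet
    rw [Set.ncard_image_of_injective _ hg, Set.ncard_coe_finset] at h1
    exact_mod_cast h1
  refine hcard.trans ?_
  have hS : S.card = (2 * q + 1).toNat ^ (n * r) := by
    simp only [S, Fintype.card_piFinset, Int.card_Icc, Finset.prod_const, Finset.card_univ,
      Fintype.card_fin]
    rw [← pow_mul]
    congr 1
    congr 1
    ring
  rw [hS, ← hn]
  push_cast
  refine pow_le_pow_left₀ (Nat.cast_nonneg _) ?_ _
  have h3 : (((2 * q + 1).toNat : ℤ) : ℝ) = 2 * q + 1 := by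
    rw [Int.toNat_of_nonneg (by linarith)]
    push_cast
    ring
  have h4 : (((2 * q + 1).toNat : ℕ) : ℝ) = 2 * q + 1 := by
    rw [← h3]
    norm_cast
  rw [h4]
  linarith

end SmCA

/-- There are at most `C T^2` points of height at most `T` on the projective line. -/
theorem pts_card (K : Type) [Field K] [NumberField K] : ∃ C : ℝ, 0 < C ∧ ∀ T : ℝ, 1 ≤ T →
    ({P : Projectivization K (Fin 2 → K) | P.mulHeight ≤ T}.ncard : ℝ) ≤ C * T ^ 2 := by
  obtain ⟨C, hC, U, hU, h⟩ := HTK.exists_rep_pt K 2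
  obtain ⟨A, hA, hb⟩ := SmCA.bx_card K 2
  set n := Module.finrank ℚ K with hn
  have hn0 : 0 < n := Module.finrank_pos
  refine ⟨(A * C + 1) ^ (n * 2), by positivity, fun T hT => ?_⟩
  set Y : ℝ := T ^ ((n : ℝ)⁻¹) with hY
  have hY1 : 1 ≤ Y := Real.one_le_rpow hT (by positivity)
  have hYn : Y ^ n = T := by
    rw [hY, ← Real.rpow_natCast, ← Real.rpow_mul (by linarith),
      inv_mul_cancel₀ (by exact_mod_cast hn0.ne'), Real.rpow_one]
  have h1 : {P : Projectivization K (Fin 2 → K) | P.mulHeight ≤ T}.ncard ≤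
      (Bx K 2 (C * Y)).ncard := by
    rw [← Set.ncard_image_of_injective _ hU]
    refine Set.ncard_le_ncard ?_ (HTK.bx_finite K 2 _)
    rintro _ ⟨P, hP, rfl⟩
    exact (h P).2 T hP
  have h2 : (0 : ℝ) ≤ C * Y := by positivity
  calc ({P : Projectivization K (Fin 2 → K) | P.mulHeight ≤ T}.ncard : ℝ) ≤
      ((Bx K 2 (C * Y)).ncard : ℝ) := by exact_mod_cast h1
    _ ≤ (A * (C * Y) + 1) ^ (n * 2) := hb _ h2
    _ ≤ ((A * C + 1) * Y) ^ (n * 2) := by
        refine pow_le_pow_left₀ (by positivity) ?_ _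
        linarith
    _ = (A * C + 1) ^ (n * 2) * T ^ 2 := by
        rw [mul_pow, pow_mul Y, hYn]

end Pool.Agent.AAP
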