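import Mathlib
import Pool.Agent.AAP.NMp
import Pool.Agent.HTK.Low
import Pool.Agent.NDE.Mer
import Pool.Agent.NDE.Mon

set_option autoImplicit false

/-!
# The number of the maps of bounded height for which a given pair is not good
-/

namespace Pool.Agent.AAP

open NumberField IsDedekindDomain
open scoped WithZero
open Pool.Agent.PNH (Tup app mp IsMor Cert)
open Pool.Agent.TameArb (PosDens pt)
open Pool.Agent.FAM (Cube)
open Pool.Agent.NDE (up nm mem_up)

namespace SmPA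

open NMpA

/-- a pair whose reduction is good -/
theorem pos_of_good {K : Type} [Field K] [NumberField K] {d : ℕ} (hd : 2 ≤ d)
    (t : Fin (2 * (d + 1)) → 𝓞 K) (hmor : IsMor d K (tp (d := d) fun i => (t i : K)))
    (x y : Fin 2 → K) (bx by' : K) (ax ay : Fin 2 → 𝓞 K)
    (hax : bx • x = fun i => (ax i : K)) (hay : by' • y = fun i => (ay i : K))
    (v : HeightOneSpectrum (𝓞 K)) (hwv : wd ax ay ∉ v.asIdeal)
    (hmem : (fun i => Ideal.Quotient.mk v.asIdeal (t i)) ∈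
      Gd d (fun i => Ideal.Quotient.mk v.asIdeal (ax i)) (fun i => Ideal.Quotient.mk v.asIdeal (ay i)))
    (Γ : Finset (Fin 2 → K)) (hΓ : ∀ z ∈ Γ, z = x ∨ z = y) :
    PosDens (SP (tp (d := d) fun i => (t i : K)) Γ) := by
  set x' : Fin 2 → K := fun i => (ax i : K) with hx'
  set y' : Fin 2 → K := fun i => (ay i : K) with hy'
  have hwdO : ((wd ax ay : 𝓞 K) : K) = wd x' y' := by
    unfold wd
    push_cast
    rfl
  have hw1 : v.valuation K (wd x' y') = 1 := by
    rw [← hwdO]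
    refine le_antisymm (v.valuation_le_one _) ?_
    rw [← not_lt]
    exact fun h' => hwv ((v.valuation_lt_one_iff_mem (K := K) _).1 h')
  have hwd : wd x' y' ≠ 0 := by
    intro h0
    rw [h0, map_zero] at hw1
    exact zero_ne_one hw1
  have hx0 : x ≠ 0 := by
    intro h0
    apply hwd
    rw [← hax, h0, smul_zero]
    unfold wd
    simp
  have hy0 : y ≠ 0 := by
    intro h0
    apply hwd
    rw [← hay, h0, smul_zero]
    unfold wd
    simp
  have hxle : ∀ i, v.valuation K (x' i) ≤ 1 := fun i => v.valuation_le_one _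
  have hyle : ∀ i, v.valuation K (y' i) ≤ 1 := fun i => v.valuation_le_one _
  have hnle := wd_le (v := v.valuation K) x' y'
  have hnx1 : nv (v.valuation K) x' ≤ 1 := max_le (hxle 0) (hxle 1)
  have hny1 : nv (v.valuation K) y' ≤ 1 := max_le (hyle 0) (hyle 1)
  have hnx : nv (v.valuation K) x' = 1 := by
    refine le_antisymm hnx1 ?_
    rw [← hw1]
    exact hnle.trans (mul_le_of_le_one_right' hny1)
  have hny : nv (v.valuation K) y' = 1 := by
    refine le_antisymm hny1 ?_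
    rw [← hw1]
    exact hnle.trans (mul_le_of_le_one_left' hnx1)
  have hfree : ∀ z : Fin 2 → K, nv (v.valuation K) z = 1 →
      v.valuation K (wd (app (tp (d := d) fun i => (t i : K)) z) x') = 1 ∧
      v.valuation K (wd (app (tp (d := d) fun i => (t i : K)) z) y') = 1 := by
    intro z hz
    have hzle : ∀ i, v.valuation K (z i) ≤ 1 := fun i => hz ▸ le_nv (v := v.valuation K) z i
    choose b hb using fun i => exists_int v (hzle i)
    have hb0 : (fun i => Ideal.Quotient.mk v.asIdeal (b i)) ≠ 0 := by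
      intro h0
      obtain ⟨i, hi⟩ := exists_nv (v.valuation K) z
      have h1 : v.valuation K (b i : K) < 1 := by
        rw [v.valuation_lt_one_iff_mem, ← Ideal.Quotient.eq_zero_iff_mem]
        exact congrFun h0 i
      have h2 := (v.valuation K).map_add_lt (hb i) h1
      rw [sub_add_cancel, hi, hz] at h2
      exact lt_irrefl _ h2
    have h3 := hmem _ hb0
    exact ⟨unit_of_mk v _ ax z hz b hb h3.1, unit_of_mk v _ ay z hz b hb h3.2⟩
  refine dens_of_moves hd hmor Γ ?_ 1 fun L _ _ _ _ => ?_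
  · intro z hz
    rcases hΓ z hz with rfl | rfl
    · exact hx0
    · exact hy0
  · obtain ⟨g, hg⟩ := frb1 hmor.1 v (int_tp v _) L
    refine ⟨g, fun z hz w hw hfib => ?_⟩
    rw [Function.iterate_one] at hfib
    rcases hΓ z hz with rfl | rfl
    · refine hg x' hnx (fun u hu => (hfree u hu).1) w hw ?_
      rw [← hax]
      have h1 : (fun i => algebraMap K L ((bx • z) i)) =
          algebraMap K L bx • fun i => algebraMap K L (z i) := by
        funext i
        simp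
      rw [h1, wd_smul_right, hfib, mul_zero]
    · refine hg y' hny (fun u hu => (hfree u hu).2) w hw ?_
      rw [← hay]
      have h1 : (fun i => algebraMap K L ((by' • z) i)) =
          algebraMap K L by' • fun i => algebraMap K L (z i) := by
        funext i
        simp
      rw [h1, wd_smul_right, hfib, mul_zero]

variable {K : Type} [Field K] [NumberField K]

/-- the number of the good classes modulo `v` -/
theorem card_good {d : ℕ} (hd : 2 ≤ d) (v : HeightOneSpectrum (𝓞 K)) (hv : 8 * (d : ℝ) ≤ nm v)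
    (ax ay : Fin 2 → 𝓞 K) (hw : wd ax ay ∉ v.asIdeal) :
    1 / (4 * (d : ℝ)) ^ 2 * nm v ^ (2 * (d + 1)) ≤
      ((Gd d (fun i => Ideal.Quotient.mk v.asIdeal (ax i))
        (fun i => Ideal.Quotient.mk v.asIdeal (ay i)) :
          Set (Fin (2 * (d + 1)) → 𝓞 K ⧸ v.asIdeal)).ncard : ℝ) := by
  have hfin : Finite (𝓞 K ⧸ v.asIdeal) := Ideal.finiteQuotientOfFreeOfNeBot _ v.ne_bot
  have hmax := v.isMaximal
  let _ := Ideal.Quotient.field v.asIdeal
  have hq : (Nat.card (𝓞 K ⧸ v.asIdeal) : ℝ) = nm v := by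
    unfold NDE.nm
    rw [Ideal.absNorm_apply]
    rfl
  have h1 : 8 * d ≤ Nat.card (𝓞 K ⧸ v.asIdeal) := by
    rw [← hq] at hv
    exact_mod_cast hv
  have h2 := free_pairs hd h1 (fun i => Ideal.Quotient.mk v.asIdeal (ax i))
    (fun i => Ideal.Quotient.mk v.asIdeal (ay i)) (by
      intro h0
      apply hw
      rw [← Ideal.Quotient.eq_zero_iff_mem, ← h0]
      unfold wd
      rw [map_sub, map_mul, map_mul])
  rw [hq] at h2
  rw [one_div, inv_mul_eq_div]
  exact h2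

/-- the norm of the determinant -/
theorem norm_wd {T : ℝ} (hT : 0 ≤ T) {a b : Fin 2 → 𝓞 K} (ha : a ∈ HTK.Bx K 2 T)
    (hb : b ∈ HTK.Bx K 2 T) :
    (Ideal.absNorm (Ideal.span {wd a b}) : ℝ) ≤ (2 * T ^ 2) ^ Module.finrank ℚ K := by
  rw [NDE.nrm_prod]
  have h1 : ∀ σ : K →ₐ[ℚ] ℂ, ‖σ ((wd a b : 𝓞 K) : K)‖ ≤ 2 * T ^ 2 := by
    intro σ
    have h2 : ∀ (c : Fin 2 → 𝓞 K), c ∈ HTK.Bx K 2 T → ∀ i, ‖σ (c i : K)‖ ≤ T := by
      intro c hc i
      have h3 := hc i (InfinitePlace.mk (σ : K →+* ℂ))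
      rw [InfinitePlace.apply] at h3
      exact h3
    have h3 : σ ((wd a b : 𝓞 K) : K) =
        σ (a 0 : K) * σ (b 1 : K) - σ (a 1 : K) * σ (b 0 : K) := by
      unfold wd
      push_cast
      rw [map_sub, map_mul, map_mul]
    rw [h3]
    calc ‖σ (a 0 : K) * σ (b 1 : K) - σ (a 1 : K) * σ (b 0 : K)‖
        ≤ ‖σ (a 0 : K) * σ (b 1 : K)‖ + ‖σ (a 1 : K) * σ (b 0 : K)‖ := norm_sub_le _ _
      _ ≤ T * T + T * T := by
          rw [norm_mul, norm_mul]
          exact add_le_add (mul_le_mul (h2 a ha 0) (h2 b hb 1) (norm_nonneg _) hT)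
            (mul_le_mul (h2 a ha 1) (h2 b hb 0) (norm_nonneg _) hT)
      _ = 2 * T ^ 2 := by ring
  calc ∏ σ : K →ₐ[ℚ] ℂ, ‖σ ((wd a b : 𝓞 K) : K)‖
      ≤ ∏ _σ : K →ₐ[ℚ] ℂ, (2 * T ^ 2) := Finset.prod_le_prod (fun _ _ => norm_nonneg _)
        fun σ _ => h1 σ
    _ = (2 * T ^ 2) ^ Module.finrank ℚ K := by
        rw [Finset.prod_const, Finset.card_univ, AlgHom.card]

open Classical in
/-- the number of the primes dividing a number -/
theorem card_dvd (a : 𝓞 K) (ha : a ≠ 0) (x : ℝ) :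
    (((up K x).filter fun v => a ∈ v.asIdeal).card : ℝ) * Real.log 2 ≤
      Real.log (Ideal.absNorm (Ideal.span {a}) : ℝ) := by
  refine le_trans ?_ (NDE.log_norm_ge a ha x)
  rw [← nsmul_eq_mul, ← Finset.sum_const]
  refine Finset.sum_le_sum fun v _ => ?_
  exact Real.log_le_log (by norm_num) (NDE.two_le_nm v)

/-- representatives of different points -/
theorem wd_ne {P Q : Projectivization K (Fin 2 → K)} (hPQ : P ≠ Q) {a b : Fin 2 → 𝓞 K} {c c' : K}
    (hc : c ≠ 0) (hc' : c' ≠ 0) (ha : c • P.rep = fun i => (a i : K))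
    (hb : c' • Q.rep = fun i => (b i : K)) : wd a b ≠ 0 := by
  intro h0
  apply hPQ
  have h1 : ((wd a b : 𝓞 K) : K) = wd (fun i => (a i : K)) (fun i => (b i : K)) := by
    unfold wd
    push_cast
    rfl
  rw [h0, ← ha, ← hb, wd_smul_left, wd_smul_right] at h1
  have h2 : wd P.rep Q.rep = 0 := by
    have h3 : c * (c' * wd P.rep Q.rep) = 0 := h1.symm.trans (by simp)
    rcases mul_eq_zero.1 h3 with h4 | h4
    · exact absurd h4 hc
    · exact (mul_eq_zero.1 h4).resolve_left hc'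
  obtain ⟨i, hi⟩ : ∃ i, Q.rep i ≠ 0 := by
    by_contra hcon
    push Not at hcon
    exact Q.rep_nonzero (funext hcon)
  rw [← P.mk_rep, ← Q.mk_rep, Projectivization.mk_eq_mk_iff']
  refine ⟨P.rep i / Q.rep i, ?_⟩
  unfold wd at h2
  funext j
  rw [Pi.smul_apply, smul_eq_mul, div_mul_eq_mul_div, div_eq_iff hi]
  have h3 : P.rep 0 * Q.rep 1 = P.rep 1 * Q.rep 0 := sub_eq_zero.1 h2
  fin_cases i <;> fin_cases j
  · rfl
  · exact h3
  · exact h3.symm
  · rfl

open Filter Asymptotics in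
/-- the growth of `Q = (X / M) ^ α` -/
theorem ana {α M c₀ A B X₁ : ℝ} (hα : 0 < α) (hα1 : α ≤ 1) (hM : 1 ≤ M) (hc₀ : 0 < c₀) :
    ∃ X₀ : ℕ, ∀ X : ℕ, X₀ ≤ X → 3 ≤ ((X : ℝ) / M) ^ α ∧ X₁ ≤ ((X : ℝ) / M) ^ α ∧
      ((X : ℝ) / M) ^ α ≤ X ∧
      (A + B * Real.log X) * Real.log X ≤ c₀ / 2 * ((X : ℝ) / M) ^ α := by
  have hM0 : 0 < M := lt_of_lt_of_le one_pos hM
  have ht : Tendsto (fun X : ℕ => ((X : ℝ) / M) ^ α) atTop atTop :=
    (tendsto_rpow_atTop hα).comp (tendsto_natCast_atTop_atTop.atTop_div_const hM0)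
  set β := α⁻¹ with hβ
  set μ := Real.log M with hμ
  have hf : (fun q : ℝ => (A + B * (β * Real.log q + μ)) * (β * Real.log q + μ)) =o[atTop]
      (id : ℝ → ℝ) := by
    have e : (fun q : ℝ => (A + B * (β * Real.log q + μ)) * (β * Real.log q + μ)) =
        fun q => (B * β ^ 2) * (Real.log q) ^ 2 + (A * β + 2 * B * β * μ) * Real.log q +
          (A * μ + B * μ ^ 2) := by
      funext q
      ring
    rw [e]
    exact (((Real.isLittleO_pow_log_id_atTop (n := 2)).const_mul_left _).add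
      (Real.isLittleO_log_id_atTop.const_mul_left _)).add (isLittleO_const_id_atTop _)
  have h1 := ht.eventually (hf.bound (half_pos hc₀))
  have h2 := ht.eventually (eventually_ge_atTop 3)
  have h3 := ht.eventually (eventually_ge_atTop X₁)
  have h4 := tendsto_natCast_atTop_atTop (R := ℝ) |>.eventually (eventually_ge_atTop M)
  obtain ⟨X₀, hX₀⟩ := eventually_atTop.1 (h1.and (h2.and (h3.and h4)))
  refine ⟨X₀, fun X hX => ?_⟩
  obtain ⟨g1, g2, g3, g4⟩ := hX₀ X hX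
  have hX0 : (0 : ℝ) < X := lt_of_lt_of_le hM0 g4
  have hy : 1 ≤ (X : ℝ) / M := (one_le_div hM0).2 g4
  refine ⟨g2, g3, ?_, ?_⟩
  · calc ((X : ℝ) / M) ^ α ≤ ((X : ℝ) / M) ^ (1 : ℝ) := Real.rpow_le_rpow_of_exponent_le hy hα1
      _ = X / M := Real.rpow_one _
      _ ≤ X := div_le_self hX0.le hM
  · have h5 : β * Real.log (((X : ℝ) / M) ^ α) + μ = Real.log X := by
      rw [Real.log_rpow (by positivity), ← mul_assoc, hβ, inv_mul_cancel₀ hα.ne', one_mul,
        Real.log_div hX0.ne' hM0.ne', sub_add_cancel]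
    rw [h5, id, Real.norm_eq_abs, Real.norm_eq_abs,
      abs_of_nonneg (by positivity : (0 : ℝ) ≤ ((X : ℝ) / M) ^ α)] at g1
    exact (le_abs_self _).trans g1

end SmPA

open SmPA NMpA

open Classical in
/-- The number of the rational maps of bounded coefficients for which the pair `P`, `Q` is not
good. -/
theorem pair_bound_of {K : Type} [Field K] [NumberField K] {d : ℕ} (hd : 2 ≤ d) {n R : ℕ}
    (ω : Module.Basis (Fin n) ℤ (𝓞 K)) (e : Fin R ≃ Fin (2 * (d + 1)) × Fin n)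
    (hturan : ∃ C : ℝ, 0 < C ∧ ∀ (X : ℕ) (Q : ℝ) (V : Finset (HeightOneSpectrum (𝓞 K)))
      (A : ∀ v : HeightOneSpectrum (𝓞 K), Set (Fin (2 * (d + 1)) → 𝓞 K ⧸ v.asIdeal)), V.Nonempty →
      (∀ v ∈ V, nm v ≤ Q) →
      (∀ v ∈ V, 1 / (4 * (d : ℝ)) ^ 2 * nm v ^ (2 * (d + 1)) ≤ ((A v).ncard : ℝ)) →
      C * (Q ^ ((n : ℝ)⁻¹)) ^ 2 * V.card ≤ X →
      (((Cube R X).filter fun s =>
        ∀ v ∈ V, (fun i => Ideal.Quotient.mk v.asIdeal (vc ω e s i)) ∉ A v).card : ℝ) ≤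
        C / V.card * (2 * (X : ℝ) + 1) ^ R) :
    ∃ C : ℝ, 0 < C ∧ ∃ X₀ : ℕ, ∀ X : ℕ, X₀ ≤ X → ∀ P Q : Projectivization K (Fin 2 → K), P ≠ Q →
      P.mulHeight ≤ (X : ℝ) ^ n → Q.mulHeight ≤ (X : ℝ) ^ n →
      (((Cube R X).filter fun s =>
        IsMor d K (tp (d := d) fun i => ((vc ω e s i : 𝓞 K) : K)) ∧
        ¬ PosDens (SP (tp (d := d) fun i => ((vc ω e s i : 𝓞 K) : K)) {P.rep, Q.rep})).card : ℝ) ≤
      C * (Real.log X / (X : ℝ) ^ ((n : ℝ) / (n + 2))) * (2 * (X : ℝ) + 1) ^ R := by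
  have hnf : n = Module.finrank ℚ K := by
    rw [← RingOfIntegers.rank K, Module.finrank_eq_card_basis ω, Fintype.card_fin]
  have hn0 : 0 < n := hnf ▸ Module.finrank_pos
  have hnR : (0 : ℝ) < n := by exact_mod_cast hn0
  have hd0 : (0 : ℝ) < d := by exact_mod_cast (by omega : 0 < d)
  obtain ⟨Ct, hCt, htur⟩ := hturan
  obtain ⟨Cp, hCp, hpi⟩ := NDE.pi_up K
  obtain ⟨c₀, hc₀, X₁, hlow⟩ := NDE.pi_low K
  obtain ⟨C₁, hC₁, U, -, hU⟩ := HTK.exists_rep_pt K 2
  obtain ⟨M, hM⟩ : ∃ M : ℝ, M = max 1 (Ct * Cp) := ⟨_, rfl⟩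
  have hM1 : 1 ≤ M := hM ▸ le_max_left _ _
  have hM2 : Ct * Cp ≤ M := hM ▸ le_max_right _ _
  have hM0 : 0 < M := lt_of_lt_of_le one_pos hM1
  obtain ⟨α, hα⟩ : ∃ α : ℝ, α = (n : ℝ) / (n + 2) := ⟨_, rfl⟩
  have hα0 : 0 < α := by rw [hα]; positivity
  have hα1 : α ≤ 1 := by
    rw [hα, div_le_one (by positivity)]
    linarith
  have hlog2 : 0 < Real.log 2 := Real.log_pos (by norm_num)
  obtain ⟨A, hA⟩ : ∃ A : ℝ, A = (up K (8 * d)).card +
      n * (Real.log 2 + 2 * Real.log C₁) / Real.log 2 := ⟨_, rfl⟩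
  obtain ⟨B, hB⟩ : ∃ B : ℝ, B = n * 2 / Real.log 2 := ⟨_, rfl⟩
  obtain ⟨X₀, hX₀⟩ := ana (A := A) (B := B) (X₁ := X₁) hα0 hα1 hM1 hc₀
  refine ⟨2 * Ct * M ^ α / c₀, by positivity, X₀, fun X hX P P' hPP hP hP' => ?_⟩
  rw [← hα]
  obtain ⟨q3, q1, qX, qmain⟩ := hX₀ X hX
  have hQdef : ∃ Q : ℝ, Q = ((X : ℝ) / M) ^ α := ⟨_, rfl⟩
  obtain ⟨Q, hQ⟩ := hQdef
  rw [← hQ] at q3 q1 qX qmain
  have hX3 : (3 : ℝ) ≤ X := q3.trans qX
  have hX0 : (0 : ℝ) < X := by linarith
  have hQ0 : 0 < Q := by linarith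
  have hlogX : 0 < Real.log X := Real.log_pos (by linarith)
  have hlogQ1 : 1 ≤ Real.log Q := by
    rw [← Real.log_exp 1]
    refine Real.log_le_log (Real.exp_pos 1) ?_
    have := Real.exp_one_lt_d9
    linarith
  have hlogQ : 0 < Real.log Q := by linarith
  have hlogQX : Real.log Q ≤ Real.log X := Real.log_le_log hQ0 qX
  -- representatives
  obtain ⟨⟨c, hc, hcP⟩, hb⟩ := hU P
  obtain ⟨⟨c', hc', hcP'⟩, hb'⟩ := hU P'
  have hpow : ((X : ℝ) ^ n) ^ ((Module.finrank ℚ K : ℝ)⁻¹) = X := by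
    rw [← hnf, ← Real.rpow_natCast, ← Real.rpow_mul hX0.le, mul_inv_cancel₀ hnR.ne', Real.rpow_one]
  have hb1 := hb _ hP
  have hb2 := hb' _ hP'
  rw [hpow] at hb1 hb2
  have hw0 : wd (U P) (U P') ≠ 0 := wd_ne hPP hc hc' hcP hcP'
  have hnorm := norm_wd (by positivity) hb1 hb2
  rw [← hnf] at hnorm
  have hN1 : (0 : ℝ) < (Ideal.absNorm (Ideal.span {wd (U P) (U P')}) : ℝ) := by
    rw [Nat.cast_pos, Nat.pos_iff_ne_zero]
    intro h0
    rw [Ideal.absNorm_eq_zero_iff, Ideal.span_singleton_eq_bot] at h0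
    exact hw0 h0
  have hlogN : Real.log (Ideal.absNorm (Ideal.span {wd (U P) (U P')}) : ℝ) ≤
      n * (Real.log 2 + 2 * Real.log C₁) + n * 2 * Real.log X := by
    have h1 := Real.log_le_log hN1 hnorm
    rw [Real.log_pow, Real.log_mul (by norm_num) (by positivity), Real.log_pow,
      Real.log_mul hC₁.ne' hX0.ne'] at h1
    push_cast at h1
    linarith
  -- the set of primes
  obtain ⟨V, hV⟩ : ∃ V : Finset (HeightOneSpectrum (𝓞 K)), V = (up K Q).filter fun v =>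
    8 * (d : ℝ) ≤ nm v ∧ wd (U P) (U P') ∉ v.asIdeal := ⟨_, rfl⟩
  have hsub : up K Q ⊆ V ∪ (up K (8 * d) ∪ (up K Q).filter fun v => wd (U P) (U P') ∈ v.asIdeal) := by
    intro v hv
    rw [Finset.mem_union, Finset.mem_union, Finset.mem_filter, mem_up (x := 8 * (d : ℝ)), hV,
      Finset.mem_filter]
    by_cases h1 : 8 * (d : ℝ) ≤ nm v
    · by_cases h2 : wd (U P) (U P') ∈ v.asIdeal
      · exact Or.inr (Or.inr ⟨hv, h2⟩)
      · exact Or.inl ⟨hv, h1, h2⟩
    · exact Or.inr (Or.inl (not_le.1 h1).le)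
  have hcard : ((up K Q).card : ℝ) ≤ V.card + ((up K (8 * d)).card +
      (((up K Q).filter fun v => wd (U P) (U P') ∈ v.asIdeal).card : ℝ)) := by
    have h1 := (Finset.card_le_card hsub).trans ((Finset.card_union_le _ _).trans
      (Nat.add_le_add_left (Finset.card_union_le _ _) _))
    exact_mod_cast h1
  have hdvd : (((up K Q).filter fun v => wd (U P) (U P') ∈ v.asIdeal).card : ℝ) ≤
      n * (Real.log 2 + 2 * Real.log C₁) / Real.log 2 + B * Real.log X := by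
    have h1 := (card_dvd _ hw0 Q).trans hlogN
    rw [← le_div_iff₀ hlog2, add_div] at h1
    rw [hB]
    calc _ ≤ _ := h1
      _ = _ := by ring
  have hVlow : c₀ / 2 * (Q / Real.log X) ≤ V.card := by
    have h1 := hlow Q q1
    have h2 : A + B * Real.log X ≤ c₀ / 2 * (Q / Real.log X) := by
      rw [← mul_div_assoc, le_div_iff₀ hlogX]
      exact qmain
    have h3 : Q / Real.log X ≤ Q / Real.log Q := div_le_div_of_nonneg_left hQ0.le hlogQ hlogQX
    have h4 : c₀ * (Q / Real.log X) ≤ c₀ * (Q / Real.log Q) := mul_le_mul_of_nonneg_left h3 hc₀.le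
    rw [hA] at h2
    linarith
  have hVpos : (0 : ℝ) < V.card := lt_of_lt_of_le (by positivity) hVlow
  have hVne : V.Nonempty := by
    rw [← Finset.card_pos]
    exact_mod_cast hVpos
  have hVup : (V.card : ℝ) ≤ Cp * Q := by
    have h1 : V.card ≤ (up K Q).card := by
      rw [hV]
      exact Finset.card_filter_le _ _
    have h2 := hpi Q (by linarith)
    have h3 : Q / Real.log Q ≤ Q := div_le_self hQ0.le hlogQ1
    calc (V.card : ℝ) ≤ (up K Q).card := by exact_mod_cast h1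
      _ ≤ Cp * (Q / Real.log Q) := h2
      _ ≤ Cp * Q := mul_le_mul_of_nonneg_left h3 hCp.le
  have hXM : 0 < (X : ℝ) / M := by positivity
  have hQpow : (Q ^ ((n : ℝ)⁻¹)) ^ 2 * Q = X / M := by
    rw [hQ, ← Real.rpow_mul hXM.le, ← Real.rpow_natCast, ← Real.rpow_mul hXM.le,
      ← Real.rpow_add hXM]
    have h1 : α * (n : ℝ)⁻¹ * ((2 : ℕ) : ℝ) + α = 1 := by
      rw [hα]
      push_cast
      field_simp
      ring
    rw [h1, Real.rpow_one]
  have hcond : Ct * (Q ^ ((n : ℝ)⁻¹)) ^ 2 * V.card ≤ X := by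
    calc Ct * (Q ^ ((n : ℝ)⁻¹)) ^ 2 * V.card ≤ Ct * (Q ^ ((n : ℝ)⁻¹)) ^ 2 * (Cp * Q) :=
          mul_le_mul_of_nonneg_left hVup (by positivity)
      _ = (Ct * Cp) * ((Q ^ ((n : ℝ)⁻¹)) ^ 2 * Q) := by ring
      _ = (Ct * Cp) * (X / M) := by rw [hQpow]
      _ ≤ M * (X / M) := mul_le_mul_of_nonneg_right hM2 hXM.le
      _ = X := by field_simp
  have hT := htur X Q V (fun v => Gd d (fun i => Ideal.Quotient.mk v.asIdeal (U P i))
    (fun i => Ideal.Quotient.mk v.asIdeal (U P' i))) hVne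
    (fun v hv => by
      rw [hV, Finset.mem_filter] at hv
      exact mem_up.1 hv.1)
    (fun v hv => by
      rw [hV, Finset.mem_filter] at hv
      exact card_good hd v hv.2.1 _ _ hv.2.2) hcond
  refine (le_trans ?_ hT).trans ?_
  · have h1 : ((Cube R X).filter fun s =>
        IsMor d K (tp (d := d) fun i => ((vc ω e s i : 𝓞 K) : K)) ∧
        ¬ PosDens (SP (tp (d := d) fun i => ((vc ω e s i : 𝓞 K) : K)) {P.rep, P'.rep})) ⊆
        ((Cube R X).filter fun s =>
          ∀ v ∈ V, (fun i => Ideal.Quotient.mk v.asIdeal (vc ω e s i)) ∉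
            Gd d (fun i => Ideal.Quotient.mk v.asIdeal (U P i))
              (fun i => Ideal.Quotient.mk v.asIdeal (U P' i))) := by
      intro s hs
      rw [Finset.mem_filter] at hs ⊢
      refine ⟨hs.1, fun v hv hmem => hs.2.2 ?_⟩
      rw [hV, Finset.mem_filter] at hv
      refine pos_of_good hd (vc ω e s) hs.2.1 P.rep P'.rep c c' (U P) (U P') hcP hcP' v hv.2.2 hmem
        _ fun z hz => ?_
      rw [Finset.mem_insert, Finset.mem_singleton] at hz
      exact hz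
    exact_mod_cast Finset.card_le_card h1
  · refine mul_le_mul_of_nonneg_right ?_ (by positivity)
    have h1 : Ct / V.card ≤ Ct / (c₀ / 2 * (Q / Real.log X)) :=
      div_le_div_of_nonneg_left hCt.le (by positivity) hVlow
    refine h1.trans (le_of_eq ?_)
    rw [hQ, Real.div_rpow hX0.le hM0.le]
    have hXα : (0 : ℝ) < (X : ℝ) ^ α := by positivity
    have hMα : (0 : ℝ) < M ^ α := by positivity
    field_simp

end Pool.Agent.AAP
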