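import Mathlib
import Pool.Agent.AAP.SmPA
import Pool.Agent.NDE.Tur

set_option autoImplicit false

/-!
# The number of the maps of bounded height for which a given pair is not good
-/

namespace Pool.Agent.AAP

open NumberField IsDedekindDomain
open Pool.Agent.PNH (Tup app mp IsMor Cert)
open Pool.Agent.TameArb (PosDens pt)
open Pool.Agent.FAM (Cube)

open Classical in
/-- The number of the rational maps of bounded coefficients for which the pair `P`, `Q` is not
good. -/
theorem pair_bound {K : Type} [Field K] [NumberField K] {d : ℕ} (hd : 2 ≤ d) {n R : ℕ}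
    (ω : Module.Basis (Fin n) ℤ (𝓞 K)) (e : Fin R ≃ Fin (2 * (d + 1)) × Fin n) :
    ∃ C : ℝ, 0 < C ∧ ∃ X₀ : ℕ, ∀ X : ℕ, X₀ ≤ X → ∀ P Q : Projectivization K (Fin 2 → K), P ≠ Q →
      P.mulHeight ≤ (X : ℝ) ^ n → Q.mulHeight ≤ (X : ℝ) ^ n →
      (((Cube R X).filter fun s =>
        IsMor d K (tp (d := d) fun i => ((vc ω e s i : 𝓞 K) : K)) ∧
        ¬ PosDens (SP (tp (d := d) fun i => ((vc ω e s i : 𝓞 K) : K)) {P.rep, Q.rep})).card : ℝ) ≤
      C * (Real.log X / (X : ℝ) ^ ((n : ℝ) / (n + 2))) * (2 * (X : ℝ) + 1) ^ R :=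
  pair_bound_of hd ω e (NDE.turan (r := 2 * (d + 1)) ω e (1 / (4 * (d : ℝ)) ^ 2)
    (by have : (0 : ℝ) < d := by exact_mod_cast (by omega : 0 < d)
        positivity))

end Pool.Agent.AAP
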