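import Mathlib
import Pool.Agent.AAP.SmC
import Pool.Agent.AAP.SmP
import Pool.Agent.AAP.NulM
import Pool.Agent.LIM.NullS

set_option autoImplicit false

/-!
# Almost all maps, for all pairs of points of small height
-/

namespace Pool.Agent.AAP

open NumberField IsDedekindDomain Filter
open Pool.Agent.PNH (Tup app mp IsMor Cert)
open Pool.Agent.TameArb (PosDens pt)
open Pool.Agent.FAM (Cube mem_Cube)
open Pool.Agent.LIM (Null)
open Pool.Agent.HTK (Bx)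

namespace SmlA

/-- the height of the coefficient vector is at most a power of the size of the box -/
theorem height_le {K : Type} [Field K] [NumberField K] {r n R : ℕ}
    (ω : Module.Basis (Fin n) ℤ (𝓞 K)) (e : Fin R ≃ Fin r × Fin n) :
    ∃ C : ℝ, 1 ≤ C ∧ ∀ (X : ℕ), ∀ s ∈ Cube R X, vc ω e s ≠ 0 →
      Height.mulHeight (fun i => ((vc ω e s i : 𝓞 K) : K)) ≤ (C * X) ^ n := by
  obtain ⟨C, hC, h⟩ := HTK.exists_up K ω
  have hn : n = Module.finrank ℚ K := by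
    rw [← RingOfIntegers.rank K, Module.finrank_eq_card_basis ω, Fintype.card_fin]
  refine ⟨max C 1, le_max_right _ _, fun X s hs h0 => ?_⟩
  rw [mem_Cube] at hs
  have h1 : vc ω e s ∈ Bx K r (C * X) := by
    intro i v
    refine h X (fun j => s (e.symm (i, j))) (Nat.cast_nonneg _) (fun j => ?_) v
    exact_mod_cast hs (e.symm (i, j))
  have h2 := HTK.mulHeight_le h0 (C * X) (by positivity) h1
  rw [← hn] at h2
  refine h2.trans (pow_le_pow_left₀ (by positivity) ?_ _)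
  exact mul_le_mul_of_nonneg_right (le_max_left _ _) (Nat.cast_nonneg _)

/-- the total error tends to zero -/
theorem err_le (n : ℕ) (hn : 0 < n) (c : ℝ) (hc : c * (4 * n + 8) < 1) (A C : ℝ) (hC : 1 ≤ C)
    (ε : ℝ) (hε : 0 < ε) : ∃ X₀ : ℕ, ∀ X : ℕ, X₀ ≤ X →
      A * (((C * (X : ℝ)) ^ n) ^ c) ^ 4 * (Real.log X / (X : ℝ) ^ ((n : ℝ) / (n + 2))) ≤ ε := by
  have hn0 : (0 : ℝ) < n := by exact_mod_cast hn
  have hδ : 0 < (n : ℝ) / (n + 2) - n * c * 4 := by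
    rw [sub_pos, lt_div_iff₀ (by positivity)]
    nlinarith
  set δ : ℝ := (n : ℝ) / (n + 2) - n * c * 4 with hδd
  have h1 : Tendsto (fun X : ℝ => A * C ^ ((n : ℝ) * c * 4) * (Real.log X / X ^ δ)) atTop
      (nhds (A * C ^ ((n : ℝ) * c * 4) * 0)) :=
    ((isLittleO_log_rpow_atTop hδ).tendsto_div_nhds_zero).const_mul _
  rw [mul_zero] at h1
  have h2 := (h1.comp tendsto_natCast_atTop_atTop).eventually (gt_mem_nhds hε)
  obtain ⟨X₀, hX₀⟩ := eventually_atTop.1 h2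
  refine ⟨max X₀ 1, fun X hX => ?_⟩
  have hX1 : (0 : ℝ) < X := by
    exact_mod_cast lt_of_lt_of_le Nat.one_pos ((le_max_right _ _).trans hX)
  have h3 := (hX₀ X ((le_max_left _ _).trans hX)).le
  refine le_trans (le_of_eq ?_) h3
  have hC0 : 0 < C := by linarith
  have h4 : (((C * (X : ℝ)) ^ n) ^ c) ^ 4 = C ^ ((n : ℝ) * c * 4) * (X : ℝ) ^ ((n : ℝ) * c * 4) := by
    rw [← Real.mul_rpow hC0.le hX1.le, ← Real.rpow_natCast (C * X) n,
      ← Real.rpow_natCast (((C * (X : ℝ)) ^ (n : ℝ)) ^ c) 4, ← Real.rpow_mul (by positivity),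
      ← Real.rpow_mul (by positivity)]
    congr 1
    push_cast
    ring
  have h5 : (X : ℝ) ^ ((n : ℝ) / (n + 2)) = X ^ δ * (X : ℝ) ^ ((n : ℝ) * c * 4) := by
    rw [← Real.rpow_add hX1, hδd]
    congr 1
    ring
  have h6 : (X : ℝ) ^ δ ≠ 0 := (Real.rpow_pos_of_pos hX1 _).ne'
  have h7 : (X : ℝ) ^ ((n : ℝ) * c * 4) ≠ 0 := (Real.rpow_pos_of_pos hX1 _).ne'
  simp only [Function.comp]
  rw [h4, h5]
  field_simp

end SmlA

open Classical in
theorem null_small {K : Type} [Field K] [NumberField K] {d : ℕ} (hd : 2 ≤ d) {n R : ℕ}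
    (ω : Module.Basis (Fin n) ℤ (𝓞 K)) (e : Fin R ≃ Fin (2 * (d + 1)) × Fin n) (c : ℝ)
    (hc0 : 0 < c) (hc : c * (4 * n + 8) < 1) :
    Null {s : Fin R → ℤ | ¬ (IsMor d K (tp (d := d) fun i => ((vc ω e s i : 𝓞 K) : K)) ∧
      ∀ P Q : Projectivization K (Fin 2 → K), P ≠ Q →
        P.mulHeight ≤ Height.mulHeight (fun i => ((vc ω e s i : 𝓞 K) : K)) ^ c →
        Q.mulHeight ≤ Height.mulHeight (fun i => ((vc ω e s i : 𝓞 K) : K)) ^ c →
        PosDens (SP (tp (d := d) fun i => ((vc ω e s i : 𝓞 K) : K)) {P.rep, Q.rep}))} := by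
  have hn : n = Module.finrank ℚ K := by
    rw [← RingOfIntegers.rank K, Module.finrank_eq_card_basis ω, Fintype.card_fin]
  have hn0 : 0 < n := hn ▸ Module.finrank_pos
  obtain ⟨C₁, hC₁, hpts⟩ := pts_card K
  obtain ⟨C₂, hC₂, X₂, hpair⟩ := pair_bound hd ω e
  obtain ⟨C₃, hC₃, hht⟩ := SmlA.height_le ω e
  intro ε hε
  obtain ⟨X₁, hX₁⟩ := null_mor (K := K) hd ω e (ε / 2) (by positivity)
  obtain ⟨X₄, hX₄⟩ := SmlA.err_le n hn0 c hc (C₁ ^ 2 * C₂) C₃ hC₃ (ε / 2) (by positivity)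
  refine ⟨max (max X₁ X₂) (max X₄ (⌈C₃⌉₊ + 1)), fun X hX => ?_⟩
  have hXX₁ : X₁ ≤ X := ((le_max_left _ _).trans (le_max_left _ _)).trans hX
  have hXX₂ : X₂ ≤ X := ((le_max_right _ _).trans (le_max_left _ _)).trans hX
  have hXX₄ : X₄ ≤ X := ((le_max_left _ _).trans (le_max_right _ _)).trans hX
  have hXC : ⌈C₃⌉₊ + 1 ≤ X := ((le_max_right _ _).trans (le_max_right _ _)).trans hX
  have hX1 : (1 : ℝ) ≤ X := by exact_mod_cast le_trans (by omega) hXC
  have hXC' : C₃ ≤ X := (Nat.le_ceil _).trans (by exact_mod_cast le_trans (by omega) hXC)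
  set T : ℝ := ((C₃ * (X : ℝ)) ^ n) ^ c with hT
  have hCX1 : 1 ≤ C₃ * (X : ℝ) := one_le_mul_of_one_le_of_one_le hC₃ hX1
  have hT1 : 1 ≤ T := Real.one_le_rpow (one_le_pow₀ hCX1) hc0.le
  have hc2 : 2 * c ≤ 1 := by
    have h1 : (1 : ℝ) ≤ n := by exact_mod_cast hn0
    nlinarith
  have hTX : T ≤ (X : ℝ) ^ n := by
    have hXn : (1 : ℝ) ≤ (X : ℝ) ^ n := one_le_pow₀ hX1
    calc T ≤ (((X : ℝ) ^ n) ^ (2 : ℝ)) ^ c := by
          refine Real.rpow_le_rpow (by positivity) ?_ hc0.le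
          rw [Real.rpow_two, ← pow_mul, mul_comm n 2, pow_mul]
          refine pow_le_pow_left₀ (by positivity) ?_ _
          rw [sq]
          exact mul_le_mul_of_nonneg_right hXC' (by positivity)
      _ = ((X : ℝ) ^ n) ^ (2 * c) := by rw [← Real.rpow_mul (by positivity)]
      _ ≤ ((X : ℝ) ^ n) ^ (1 : ℝ) := Real.rpow_le_rpow_of_exponent_le hXn hc2
      _ = (X : ℝ) ^ n := Real.rpow_one _
  have hfin := HTK.pts_finite K 2 T
  set FP : Finset (Projectivization K (Fin 2 → K)) := hfin.toFinset with hFP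
  have hFPm : ∀ P, P ∈ FP ↔ P.mulHeight ≤ T := by
    intro P
    rw [hFP, Set.Finite.mem_toFinset]
    rfl
  have hFPc : (FP.card : ℝ) ≤ C₁ * T ^ 2 := by
    have h1 := hpts T hT1
    rwa [Set.ncard_eq_toFinset_card _ hfin] at h1
  let Sp : Projectivization K (Fin 2 → K) × Projectivization K (Fin 2 → K) → Finset (Fin R → ℤ) :=
    fun q => (Cube R X).filter fun s =>
      IsMor d K (tp (d := d) fun i => ((vc ω e s i : 𝓞 K) : K)) ∧
      ¬ PosDens (SP (tp (d := d) fun i => ((vc ω e s i : 𝓞 K) : K)) {q.1.rep, q.2.rep})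
  set Z : Finset (Projectivization K (Fin 2 → K) × Projectivization K (Fin 2 → K)) :=
    (FP ×ˢ FP).filter fun q => q.1 ≠ q.2 with hZ
  have hZc : (Z.card : ℝ) ≤ (C₁ * T ^ 2) * (C₁ * T ^ 2) := by
    have h1 : Z.card ≤ FP.card * FP.card := by
      rw [← Finset.card_product]
      exact Finset.card_filter_le _ _
    calc (Z.card : ℝ) ≤ (FP.card : ℝ) * FP.card := by exact_mod_cast h1
      _ ≤ _ := mul_le_mul hFPc hFPc (Nat.cast_nonneg _) (by positivity)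
  have hsub : ((Cube R X : Set (Fin R → ℤ)) ∩ {s : Fin R → ℤ |
      ¬ (IsMor d K (tp (d := d) fun i => ((vc ω e s i : 𝓞 K) : K)) ∧
      ∀ P Q : Projectivization K (Fin 2 → K), P ≠ Q →
        P.mulHeight ≤ Height.mulHeight (fun i => ((vc ω e s i : 𝓞 K) : K)) ^ c →
        Q.mulHeight ≤ Height.mulHeight (fun i => ((vc ω e s i : 𝓞 K) : K)) ^ c →
        PosDens (SP (tp (d := d) fun i => ((vc ω e s i : 𝓞 K) : K)) {P.rep, Q.rep}))}) ⊆
      ((Cube R X : Set (Fin R → ℤ)) ∩ {s : Fin R → ℤ |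
        ¬ IsMor d K (tp (d := d) fun i => ((vc ω e s i : 𝓞 K) : K))}) ∪
      ((Z.biUnion Sp : Finset (Fin R → ℤ)) : Set (Fin R → ℤ)) := by
    rintro s ⟨hsC, hs⟩
    by_cases hmor : IsMor d K (tp (d := d) fun i => ((vc ω e s i : 𝓞 K) : K))
    · right
      rw [Set.mem_ofPred_eq, not_and] at hs
      have hs2 := hs hmor
      push Not at hs2
      obtain ⟨P, Q, hPQ, hP, hQ, hnot⟩ := hs2
      have h0 : vc ω e s ≠ 0 := by
        intro h0
        have h1 := hmor.2 (fun _ => 1) (by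
          funext i
          simp [app, mp, tp, fm, h0])
        exact one_ne_zero (congrFun h1 0)
      have hh := hht X s hsC h0
      have hh2 : Height.mulHeight (fun i => ((vc ω e s i : 𝓞 K) : K)) ^ c ≤ T :=
        Real.rpow_le_rpow (Height.mulHeight_pos _).le hh hc0.le
      rw [Finset.mem_coe, Finset.mem_biUnion]
      refine ⟨(P, Q), ?_, ?_⟩
      · rw [hZ, Finset.mem_filter, Finset.mem_product]
        exact ⟨⟨(hFPm P).2 (hP.trans hh2), (hFPm Q).2 (hQ.trans hh2)⟩, hPQ⟩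
      · exact Finset.mem_filter.2 ⟨hsC, hmor, hnot⟩
    · left
      exact ⟨hsC, hmor⟩
  have hcard : (((Cube R X : Set (Fin R → ℤ)) ∩ {s : Fin R → ℤ |
      ¬ (IsMor d K (tp (d := d) fun i => ((vc ω e s i : 𝓞 K) : K)) ∧
      ∀ P Q : Projectivization K (Fin 2 → K), P ≠ Q →
        P.mulHeight ≤ Height.mulHeight (fun i => ((vc ω e s i : 𝓞 K) : K)) ^ c →
        Q.mulHeight ≤ Height.mulHeight (fun i => ((vc ω e s i : 𝓞 K) : K)) ^ c →
        PosDens (SP (tp (d := d) fun i => ((vc ω e s i : 𝓞 K) : K)) {P.rep, Q.rep}))}).ncard : ℝ) ≤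
      (((Cube R X : Set (Fin R → ℤ)) ∩ {s : Fin R → ℤ |
        ¬ IsMor d K (tp (d := d) fun i => ((vc ω e s i : 𝓞 K) : K))}).ncard : ℝ) +
      ∑ q ∈ Z, ((Sp q).card : ℝ) := by
    have h1 := Set.ncard_le_ncard hsub
      (((Cube R X).finite_toSet.inter_of_left _).union (Finset.finite_toSet _))
    have h2 := Set.ncard_union_le ((Cube R X : Set (Fin R → ℤ)) ∩ {s : Fin R → ℤ |
        ¬ IsMor d K (tp (d := d) fun i => ((vc ω e s i : 𝓞 K) : K))})
      ((Z.biUnion Sp : Finset (Fin R → ℤ)) : Set (Fin R → ℤ))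
    rw [Set.ncard_coe_finset] at h2
    have h3 : (Z.biUnion Sp).card ≤ ∑ q ∈ Z, (Sp q).card := Finset.card_biUnion_le
    exact_mod_cast h1.trans (h2.trans (Nat.add_le_add_left h3 _))
  refine hcard.trans ?_
  have hsum : ∑ q ∈ Z, ((Sp q).card : ℝ) ≤
      (Z.card : ℝ) * (C₂ * (Real.log X / (X : ℝ) ^ ((n : ℝ) / (n + 2))) * (2 * (X : ℝ) + 1) ^ R) := by
    rw [← nsmul_eq_mul]
    refine Finset.sum_le_card_nsmul _ _ _ fun q hq => ?_
    rw [hZ, Finset.mem_filter, Finset.mem_product] at hq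
    exact hpair X hXX₂ q.1 q.2 hq.2 (((hFPm _).1 hq.1.1).trans hTX) (((hFPm _).1 hq.1.2).trans hTX)
  have hlog : 0 ≤ Real.log X := Real.log_nonneg hX1
  have hpos : (0 : ℝ) ≤ C₂ * (Real.log X / (X : ℝ) ^ ((n : ℝ) / (n + 2))) * (2 * (X : ℝ) + 1) ^ R := by
    positivity
  have herr := hX₄ X hXX₄
  have hmor := hX₁ X hXX₁
  have hW : (0 : ℝ) ≤ (2 * (X : ℝ) + 1) ^ R := by positivity
  calc (((Cube R X : Set (Fin R → ℤ)) ∩ {s : Fin R → ℤ |
        ¬ IsMor d K (tp (d := d) fun i => ((vc ω e s i : 𝓞 K) : K))}).ncard : ℝ) +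
        ∑ q ∈ Z, ((Sp q).card : ℝ) ≤ ε / 2 * (2 * (X : ℝ) + 1) ^ R +
        (C₁ * T ^ 2) * (C₁ * T ^ 2) *
          (C₂ * (Real.log X / (X : ℝ) ^ ((n : ℝ) / (n + 2))) * (2 * (X : ℝ) + 1) ^ R) :=
        add_le_add hmor (hsum.trans (mul_le_mul_of_nonneg_right hZc hpos))
    _ = ε / 2 * (2 * (X : ℝ) + 1) ^ R +
        (C₁ ^ 2 * C₂ * T ^ 4 * (Real.log X / (X : ℝ) ^ ((n : ℝ) / (n + 2)))) *
          (2 * (X : ℝ) + 1) ^ R := by ring
    _ ≤ ε / 2 * (2 * (X : ℝ) + 1) ^ R + ε / 2 * (2 * (X : ℝ) + 1) ^ R :=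
        add_le_add le_rfl (mul_le_mul_of_nonneg_right herr hW)
    _ = ε * (2 * (X : ℝ) + 1) ^ R := by ring

end Pool.Agent.AAP
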