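import Mathlib
import Pool.Agent.AAP.One
import Pool.Agent.AAP.Hit
import Pool.Agent.AAP.NMp
import Pool.Agent.AAP.Pos
import Pool.Agent.AAP.Sml
import Pool.Agent.HTK.Frm
import Pool.Agent.HFW.FH

set_option autoImplicit false

/-!
# Almost all points, almost all maps, ordered by height
-/

namespace Pool.Agent.AAP

open NumberField IsDedekindDomain
open scoped WithZero
open Pool.Agent.PNH (Tup app mp IsMor Cert)
open Pool.Agent.TameArb (PosDens pt)
open Pool.Agent.FAM (Cube)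
open Pool.Agent.LIM (Null)
open Pool.Agent.HTK (sc)

namespace FinA

section scale

variable {k : Type} [Field k] {v : Valuation k ℤᵐ⁰} {d : ℕ}

theorem intT_sc {F : Tup 1 k} {c : k} (hc : v c ≤ 1) (h : IntT v F) : IntT v (sc c F) := by
  intro i m
  unfold sc
  rw [MvPolynomial.coeff_C_mul, map_mul]
  exact mul_le_one' hc (h i m)

theorem good_sc {F : Tup 1 k} {c : k} (hc : v c = 1) (h : Good v F) : Good v (sc c F) := by
  have hc0 : c ≠ 0 := by
    rintro rfl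
    rw [map_zero] at hc
    exact zero_ne_one hc
  refine ⟨intT_sc hc.le h.1, ?_⟩
  obtain ⟨e, he⟩ := h.2
  refine ⟨e, fun j => ?_⟩
  obtain ⟨G, hG, h1⟩ := he j
  refine ⟨sc c⁻¹ G, intT_sc (by rw [map_inv₀, hc, inv_one]) hG, ?_⟩
  rw [← h1]
  refine Finset.sum_congr rfl fun i _ => ?_
  unfold sc
  have h2 : (MvPolynomial.C c⁻¹ * MvPolynomial.C c : MvPolynomial (Fin 2) k) = 1 := by
    rw [← map_mul, inv_mul_cancel₀ hc0, map_one]
  calc MvPolynomial.C c⁻¹ * G i * (MvPolynomial.C c * F i) =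
      (MvPolynomial.C c⁻¹ * MvPolynomial.C c) * (G i * F i) := by ring
    _ = G i * F i := by rw [h2, one_mul]

theorem perMod_sc {F : Tup 1 k} (hF : ∀ i, (F i).IsHomogeneous d) {c : k} (hc : c ≠ 0)
    {x : Fin 2 → k} (h : PerMod v (sc c F) x) : PerMod v F x := by
  obtain ⟨n, hn, h1⟩ := h
  obtain ⟨a, ha, h2⟩ := HTK.iter_sc F hF c hc n x
  rw [h2, cg_smul ha] at h1
  exact ⟨n, hn, h1⟩

end scale

variable {K : Type} [Field K] [NumberField K]

theorem sp_sc {d : ℕ} {F : Tup 1 K} (hF : ∀ i, (F i).IsHomogeneous d) {c : K} (hc : c ≠ 0)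
    (Γ : Finset (Fin 2 → K)) (h : PosDens (SP F Γ)) : PosDens (SP (sc c F) Γ) := by
  refine h.mono (finite_one hc) ?_
  intro v hv
  by_cases hvc : v.valuation K c = 1
  · right
    exact ⟨good_sc hvc hv.1, fun x hx hper => hv.2 x hx (perMod_sc hF hc hper)⟩
  · left
    exact hvc

theorem tp_smul {d : ℕ} (c : K) (t : Fin (2 * (d + 1)) → K) :
    tp (d := d) (c • t) = sc c (tp (d := d) t) := by
  funext i
  unfold tp sc fm
  rw [Finset.mul_sum]
  refine Finset.sum_congr rfl fun j _ => ?_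
  simp only [Pi.smul_apply, smul_eq_mul, map_mul]
  ring

theorem mor_smul {d : ℕ} {c : K} (hc : c ≠ 0) (Γ : Finset (Fin 2 → K))
    {t : Fin (2 * (d + 1)) → K} (h : IsMor d K (tp (d := d) t) ∧ PosDens (SP (tp (d := d) t) Γ)) :
    IsMor d K (tp (d := d) (c • t)) ∧ PosDens (SP (tp (d := d) (c • t)) Γ) := by
  rw [tp_smul]
  exact ⟨HTK.isMor_sc _ c hc h.1, sp_sc h.1.1 hc Γ h.2⟩

open Classical in
theorem sp_insert {d : ℕ} {F : Tup 1 K} (hF : ∀ i, (F i).IsHomogeneous d) {c : K} (hc : c ≠ 0)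
    (x : Fin 2 → K) (Γ : Finset (Fin 2 → K)) :
    SP F (insert (c • x) Γ) = SP F (insert x Γ) := by
  ext v
  unfold SP
  simp only [Set.mem_ofPred_eq, Finset.forall_mem_insert]
  rw [PerMod.smul hF hc]

/-- a numbering -/
theorem exists_equiv (r m : ℕ) : Nonempty (Fin (r * m) ≃ Fin r × Fin m) :=
  ⟨finProdFinEquiv.symm⟩

end FinA

open FinA

variable {K : Type} [Field K] [NumberField K]

open Classical in
/-- almost all points, ordered by height -/
theorem height_pairs {d : ℕ} (hd : 2 ≤ d) {F : Tup 1 K} (hF : IsMor d K F)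
    (Γ : Finset (Fin 2 → K)) (hΓ : ∀ x ∈ Γ, x ≠ 0) (hΓ' : Γ.Nonempty)
    (hne : (SP F Γ).Nonempty) (ε : ℝ) (hε : 0 < ε) : ∃ B₀ : ℝ, ∀ B : ℝ, B₀ ≤ B →
      ({P : Projectivization K (Fin 2 → K) | P.mulHeight ≤ B ∧
        ¬ PosDens (SP F (insert P.rep Γ))}.ncard : ℝ) ≤
        ε * ({P : Projectivization K (Fin 2 → K) | P.mulHeight ≤ B}.ncard : ℝ) := by
  obtain ⟨e⟩ := exists_equiv 2 (Module.finrank ℤ (𝓞 K))
  have ω : Module.Basis (Fin (Module.finrank ℤ (𝓞 K))) ℤ (𝓞 K) := Module.finBasis ℤ (𝓞 K)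
  exact HTK.den K 2 le_rfl ω e (fun t => ¬ PosDens (SP F (insert t Γ)))
    (fun c t hc h => by rwa [sp_insert hF.1 hc]) (null_pairs hd hF Γ hΓ hΓ' hne ω e) ε hε

open Classical in
/-- almost all maps, all pairs of small points, ordered by height -/
theorem height_small {d : ℕ} (hd : 2 ≤ d) (c : ℝ) (hc0 : 0 < c)
    (hc : c * (4 * Module.finrank ℚ K + 8) < 1) (ε : ℝ) (hε : 0 < ε) :
    ∃ B₀ : ℝ, ∀ B : ℝ, B₀ ≤ B →
      ({T : Projectivization K (Fin (2 * (d + 1)) → K) | T.mulHeight ≤ B ∧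
        ¬ (IsMor d K (tp (d := d) T.rep) ∧
          ∀ P Q : Projectivization K (Fin 2 → K), P ≠ Q → P.mulHeight ≤ T.mulHeight ^ c →
            Q.mulHeight ≤ T.mulHeight ^ c →
            PosDens (SP (tp (d := d) T.rep) {P.rep, Q.rep}))}.ncard : ℝ) ≤
        ε * ({T : Projectivization K (Fin (2 * (d + 1)) → K) | T.mulHeight ≤ B}.ncard : ℝ) := by
  obtain ⟨e⟩ := exists_equiv (2 * (d + 1)) (Module.finrank ℤ (𝓞 K))
  have ω : Module.Basis (Fin (Module.finrank ℤ (𝓞 K))) ℤ (𝓞 K) := Module.finBasis ℤ (𝓞 K)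
  have hn : (Module.finrank ℤ (𝓞 K) : ℝ) = Module.finrank ℚ K := by
    exact_mod_cast RingOfIntegers.rank K
  have h1 := null_small hd ω e c hc0 (by rwa [hn])
  have h2 := HTK.den K (2 * (d + 1)) (by omega) ω e
    (fun t => ¬ (IsMor d K (tp (d := d) t) ∧
      ∀ P Q : Projectivization K (Fin 2 → K), P ≠ Q → P.mulHeight ≤ Height.mulHeight t ^ c →
        Q.mulHeight ≤ Height.mulHeight t ^ c → PosDens (SP (tp (d := d) t) {P.rep, Q.rep})))
    (fun a t ha h1 h2 => h1 ?_) h1 ε hε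
  · obtain ⟨B₀, h3⟩ := h2
    refine ⟨B₀, fun B hB => ?_⟩
    have h4 : ∀ T : Projectivization K (Fin (2 * (d + 1)) → K),
        Height.mulHeight T.rep = T.mulHeight := by
      intro T
      conv_rhs => rw [← T.mk_rep]
      rw [Projectivization.mulHeight_mk]
    have h5 := h3 B hB
    simp only [h4] at h5
    exact h5
  · refine ⟨?_, fun P Q hPQ hP hQ => ?_⟩
    · have h3 := HTK.isMor_sc _ a⁻¹ (inv_ne_zero ha) h2.1
      rwa [tp_smul, HTK.sc_sc, inv_mul_cancel₀ ha, HTK.sc_one] at h3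
    · have h3 : Height.mulHeight (a • t) = Height.mulHeight t :=
        Height.mulHeight_smul_eq_mulHeight _ ha
      rw [← h3] at hP hQ
      have h4 := mor_smul (inv_ne_zero ha) {P.rep, Q.rep} ⟨h2.1, h2.2 P Q hPQ hP hQ⟩
      rw [smul_smul, inv_mul_cancel₀ ha, one_smul] at h4
      exact h4.2

end Pool.Agent.AAP
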