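import Mathlib
import Pool.Agent.HTK.Low

set_option autoImplicit false

/-!
# AAP/Lwc: points of bounded height in a residue class
-/

namespace Pool.Agent.AAP

open NumberField IsDedekindDomain
open Pool.Agent.HTK

/-- A bound for the conjugates of finitely many algebraic integers. -/
theorem lwc_bd {K : Type} [Field K] [NumberField K] {r : ℕ} (b : 𝓞 K) (a : Fin r → 𝓞 K) :
    ∃ M : ℝ, 1 ≤ M ∧ (∀ w : InfinitePlace K, w (b : K) ≤ M) ∧
      ∀ (i : Fin r) (w : InfinitePlace K), w (a i : K) ≤ M := by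
  have h1 : ∀ w : InfinitePlace K, w (b : K) ≤ ∑ w : InfinitePlace K, w (b : K) := fun w =>
    Finset.single_le_sum (f := fun w : InfinitePlace K => w (b : K))
      (fun _ _ => apply_nonneg _ _) (Finset.mem_univ w)
  have h2 : ∀ (i : Fin r) (w : InfinitePlace K), w (a i : K) ≤
      ∑ i, ∑ w : InfinitePlace K, w (a i : K) := fun i w =>
    (Finset.single_le_sum (f := fun w : InfinitePlace K => w (a i : K))
      (fun _ _ => apply_nonneg _ _) (Finset.mem_univ w)).trans
      (Finset.single_le_sum (f := fun i => ∑ w : InfinitePlace K, w (a i : K))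
        (fun _ _ => Finset.sum_nonneg fun _ _ => apply_nonneg _ _) (Finset.mem_univ i))
  have h3 : 0 ≤ ∑ w : InfinitePlace K, w (b : K) :=
    Finset.sum_nonneg fun _ _ => apply_nonneg _ _
  have h4 : 0 ≤ ∑ i, ∑ w : InfinitePlace K, w (a i : K) :=
    Finset.sum_nonneg fun _ _ => Finset.sum_nonneg fun _ _ => apply_nonneg _ _
  refine ⟨1 + ∑ w : InfinitePlace K, w (b : K) + ∑ i, ∑ w : InfinitePlace K, w (a i : K),
    by linarith, fun w => ?_, fun i w => ?_⟩
  · have := h1 w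
    linarith
  · have := h2 i w
    linarith

/-- Many vectors of the box are in the class of `a` modulo `v`. -/
theorem lwc_tot (K : Type) [Field K] [NumberField K] (r : ℕ) (v : HeightOneSpectrum (𝓞 K))
    (a : Fin r → 𝓞 K) : ∃ c X₀ : ℝ, 0 < c ∧ ∀ X : ℝ, X₀ ≤ X →
      c * X ^ (Module.finrank ℚ K * r) ≤
        ({u | u ∈ Bx K r X ∧ ∀ i, u i - a i ∈ v.asIdeal} : Set (Fin r → 𝓞 K)).ncard := by
  obtain ⟨c₀, X₁, hc₀, htot⟩ := tot K r
  obtain ⟨b, hbv, hb0⟩ := Submodule.exists_mem_ne_zero_of_ne_bot v.ne_bot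
  obtain ⟨M, hM1, hMb, hMa⟩ := lwc_bd b a
  have hM0 : 0 < M := by linarith
  refine ⟨c₀ * (1 / (2 * M)) ^ (Module.finrank ℚ K * r), max (2 * M) (M * (X₁ + 1)),
    by positivity, fun X hX => ?_⟩
  have hX2 : 2 * M ≤ X := (le_max_left _ _).trans hX
  have hX3 : M * (X₁ + 1) ≤ X := (le_max_right _ _).trans hX
  have hX0 : 0 < X := by linarith
  have hY1 : X₁ ≤ X / M - 1 := by
    have : X₁ + 1 ≤ X / M := by
      rw [le_div_iff₀ hM0]
      linarith
    linarith
  have hY2 : 1 / (2 * M) * X ≤ X / M - 1 := by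
    have h1 : 1 ≤ X / (2 * M) := by
      rw [le_div_iff₀ (by positivity)]
      linarith
    have h2 : X / M = X / (2 * M) + X / (2 * M) := by
      field_simp
      ring
    have h3 : 1 / (2 * M) * X = X / (2 * M) := by ring
    rw [h3, h2]
    linarith
  have hY0 : 0 ≤ 1 / (2 * M) * X := by positivity
  have h1 := htot (X / M - 1) hY1
  have h2 : (1 / (2 * M) * X) ^ (Module.finrank ℚ K * r) ≤
      (X / M - 1) ^ (Module.finrank ℚ K * r) := pow_le_pow_left₀ hY0 hY2 _
  have h3 : (Bx K r (X / M - 1)).ncard ≤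
      ({u | u ∈ Bx K r X ∧ ∀ i, u i - a i ∈ v.asIdeal} : Set (Fin r → 𝓞 K)).ncard := by
    refine Set.ncard_le_ncard_of_injOn (fun t => fun i => a i + b * t i) ?_ ?_
      ((bx_finite K r X).subset fun u hu => hu.1)
    · intro t ht
      refine ⟨fun i w => ?_, fun i => ?_⟩
      · have h4 : w ((a i + b * t i : 𝓞 K) : K) ≤ w (a i : K) + w (b : K) * w (t i : K) := by
          rw [← map_mul]
          push_cast
          exact w.1.add_le _ _
        have h5 : w (b : K) * w (t i : K) ≤ M * (X / M - 1) :=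
          mul_le_mul (hMb w) (ht i w) (apply_nonneg _ _) hM0.le
        have h6 : M * (X / M - 1) = X - M := by
          field_simp
        have h7 := hMa i w
        show w ((a i + b * t i : 𝓞 K) : K) ≤ X
        linarith
      · have h8 : a i + b * t i - a i = t i * b := by ring
        show a i + b * t i - a i ∈ v.asIdeal
        rw [h8]
        exact v.asIdeal.mul_mem_left _ hbv
    · intro t _ t' _ h
      funext i
      have h9 : a i + b * t i = a i + b * t' i := congrFun h i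
      exact mul_left_cancel₀ hb0 (add_left_cancel h9)
  have h4 : ((Bx K r (X / M - 1)).ncard : ℝ) ≤
      (({u | u ∈ Bx K r X ∧ ∀ i, u i - a i ∈ v.asIdeal} : Set (Fin r → 𝓞 K)).ncard : ℝ) := by
    exact_mod_cast h3
  calc c₀ * (1 / (2 * M)) ^ (Module.finrank ℚ K * r) * X ^ (Module.finrank ℚ K * r) =
        c₀ * (1 / (2 * M) * X) ^ (Module.finrank ℚ K * r) := by rw [mul_pow]; ring
    _ ≤ c₀ * (X / M - 1) ^ (Module.finrank ℚ K * r) := mul_le_mul_of_nonneg_left h2 hc₀.le
    _ ≤ ((Bx K r (X / M - 1)).ncard : ℝ) := h1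
    _ ≤ _ := h4

theorem low_class (K : Type) [Field K] [NumberField K] (r : ℕ) (hr : 2 ≤ r)
    (v : HeightOneSpectrum (𝓞 K)) (a : Fin r → 𝓞 K) : ∃ c B₀ : ℝ, 0 < c ∧ ∀ B : ℝ, B₀ ≤ B →
      c * B ^ r ≤ ({P : Projectivization K (Fin r → K) | P.mulHeight ≤ B ∧
        ∃ (b : K) (u : Fin r → 𝓞 K), b ≠ 0 ∧ (b • P.rep = fun i => (u i : K)) ∧
          ∀ i, u i - a i ∈ v.asIdeal}.ncard : ℝ) := by
  classical
  obtain ⟨c₀, X₁, hc₀, htot⟩ := lwc_tot K r v a
  obtain ⟨G, X₂, hcon⟩ := con K r hr (c₀ / 4) (by positivity)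
  obtain ⟨δ, X₃, hδ, hthin⟩ := thin K r (by omega) (c₀ / 4) (by positivity)
  obtain ⟨A, hA⟩ := mul K r G δ hδ
  set n := Module.finrank ℚ K with hn
  have hn0 : 0 < n := Module.finrank_pos
  set M : ℝ := max (max X₁ X₂) (max X₃ 1) with hM
  have hM1 : 1 ≤ M := (le_max_right _ _).trans (le_max_right _ _)
  refine ⟨c₀ / (2 * (A + 1)), M ^ n, by positivity, fun B hB => ?_⟩
  have hB0 : 0 ≤ B := (pow_nonneg (zero_le_one.trans hM1) n).trans hB
  set X : ℝ := B ^ ((n : ℝ)⁻¹) with hX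
  have hX0 : 0 ≤ X := Real.rpow_nonneg hB0 _
  have hXn : X ^ n = B := by
    rw [hX, ← Real.rpow_natCast, ← Real.rpow_mul hB0, inv_mul_cancel₀ (by exact_mod_cast hn0.ne'),
      Real.rpow_one]
  have hMX : M ≤ X := by
    by_contra hlt
    push Not at hlt
    have := pow_lt_pow_left₀ hlt hX0 hn0.ne'
    rw [hXn] at this
    exact absurd hB (not_le.2 this)
  have hXpos : 0 < X := by linarith
  have hX1 : X₁ ≤ X := ((le_max_left _ _).trans (le_max_left _ _)).trans hMX
  have hX2 : X₂ ≤ X := ((le_max_right _ _).trans (le_max_left _ _)).trans hMX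
  have hX3 : X₃ ≤ X := ((le_max_left _ _).trans (le_max_right _ _)).trans hMX
  set Cl : Set (Fin r → 𝓞 K) := {u | u ∈ Bx K r X ∧ ∀ i, u i - a i ∈ v.asIdeal} with hCl
  set Nice : Set (Fin r → 𝓞 K) := {u | u ∈ Bx K r X ∧ cont u ≤ G ∧
    (∀ v : InfinitePlace K, ∃ i, δ * X ≤ v (u i : K)) ∧ ∀ i, u i - a i ∈ v.asIdeal} with hNice
  have hfin := bx_finite K r X
  have hNfin : Nice.Finite := hfin.subset fun u hu => hu.1
  have hsub : Cl ⊆ Nice ∪ ({u | u ∈ Bx K r X ∧ G < cont u} ∪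
      {u | u ∈ Bx K r X ∧ ∃ v : InfinitePlace K, ∀ i, v (u i : K) < δ * X}) := by
    rintro u ⟨hu, hua⟩
    by_cases h1 : cont u ≤ G
    · by_cases h2 : ∀ v : InfinitePlace K, ∃ i, δ * X ≤ v (u i : K)
      · exact Or.inl ⟨hu, h1, h2, hua⟩
      · push Not at h2
        exact Or.inr (Or.inr ⟨hu, h2⟩)
    · exact Or.inr (Or.inl ⟨hu, not_le.1 h1⟩)
  have hcount : (Cl.ncard : ℝ) ≤ Nice.ncard +
      (({u | u ∈ Bx K r X ∧ G < cont u} : Set (Fin r → 𝓞 K)).ncard +
        ({u | u ∈ Bx K r X ∧ ∃ v : InfinitePlace K, ∀ i, v (u i : K) < δ * X} :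
          Set (Fin r → 𝓞 K)).ncard) := by
    have h1 := Set.ncard_le_ncard hsub (hNfin.union ((hfin.subset fun u hu => hu.1).union
      (hfin.subset fun u hu => hu.1)))
    have h2 := Set.ncard_union_le Nice ({u | u ∈ Bx K r X ∧ G < cont u} ∪
      {u | u ∈ Bx K r X ∧ ∃ v : InfinitePlace K, ∀ i, v (u i : K) < δ * X})
    have h3 := Set.ncard_union_le ({u | u ∈ Bx K r X ∧ G < cont u} : Set (Fin r → 𝓞 K))
      {u | u ∈ Bx K r X ∧ ∃ v : InfinitePlace K, ∀ i, v (u i : K) < δ * X}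
    exact_mod_cast h1.trans (h2.trans (Nat.add_le_add_left h3 _))
  have hnice : c₀ / 2 * X ^ (n * r) ≤ (Nice.ncard : ℝ) := by
    have h1 := htot X hX1
    have h2 := hcon X hX2
    have h3 := hthin X hX3
    linarith
  -- the map to the points
  set PT : Set (Projectivization K (Fin r → K)) := {P | P.mulHeight ≤ B ∧
        ∃ (b : K) (u : Fin r → 𝓞 K), b ≠ 0 ∧ (b • P.rep = fun i => (u i : K)) ∧
          ∀ i, u i - a i ∈ v.asIdeal} with hPT
  have hfP : PT.Finite := (pts_finite K r B).subset fun P hP => hP.1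
  have hne : ∀ u ∈ Nice, (fun i => (u i : K)) ≠ 0 := by
    rintro u ⟨-, -, hu, -⟩ h0
    obtain ⟨v⟩ : Nonempty (InfinitePlace K) := inferInstance
    obtain ⟨i, hi⟩ := hu v
    have : (u i : K) = 0 := congrFun h0 i
    rw [this, map_zero] at hi
    have := mul_pos hδ hXpos
    linarith
  have hone : (fun _ => 1 : Fin r → K) ≠ 0 := by
    intro h
    exact one_ne_zero (congrFun h ⟨0, by omega⟩)
  set f : (Fin r → 𝓞 K) → Projectivization K (Fin r → K) := fun u =>
    if h : (fun i => (u i : K)) ≠ 0 then Projectivization.mk K _ h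
    else Projectivization.mk K _ hone with hf
  have hfmem : ∀ u ∈ hNfin.toFinset, f u ∈ hfP.toFinset := by
    intro u hu
    rw [Set.Finite.mem_toFinset] at hu ⊢
    have h1 := hne u hu
    have hfu : f u = Projectivization.mk K _ h1 := by
      rw [hf]
      simp only [dif_pos h1]
    refine ⟨?_, ?_⟩
    · rw [hfu, Projectivization.mulHeight_mk, ← hXn]
      exact mulHeight_le (fun h => h1 (by rw [h]; funext i; simp)) X hX0 hu.1
    · have h2 : Projectivization.mk K _ h1 = f u := hfu.symm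
      rw [← (f u).mk_rep, Projectivization.mk_eq_mk_iff'] at h2
      obtain ⟨b, hb⟩ := h2
      refine ⟨b, u, ?_, hb, hu.2.2.2⟩
      rintro rfl
      rw [zero_smul] at hb
      exact h1 hb.symm
  have hfib : ∀ P ∈ hfP.toFinset, (hNfin.toFinset.filter fun u => f u = P).card ≤ A := by
    intro P _
    refine le_trans ?_ (hA X P.rep hXpos P.rep_nonzero)
    rw [← Set.ncard_coe_finset]
    refine Set.ncard_le_ncard ?_ (hfin.subset fun u hu => hu.1)
    intro u hu
    rw [Finset.coe_filter] at hu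
    obtain ⟨hu1, hu2⟩ := hu
    rw [Set.Finite.mem_toFinset] at hu1
    refine ⟨hu1.1, hu1.2.1, hu1.2.2.1, ?_⟩
    have h1 := hne u hu1
    rw [hf] at hu2
    simp only [dif_pos h1] at hu2
    rw [← P.mk_rep, Projectivization.mk_eq_mk_iff'] at hu2
    obtain ⟨z, hz⟩ := hu2
    exact ⟨z, fun i => (congrFun hz i).symm⟩
  have hcard := Finset.card_le_mul_card_image_of_maps_to hfmem A hfib
  rw [← Set.ncard_eq_toFinset_card _ hNfin, ← Set.ncard_eq_toFinset_card _ hfP] at hcard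
  have hcard' : (Nice.ncard : ℝ) ≤ A * (PT.ncard : ℝ) := by exact_mod_cast hcard
  have hXr : X ^ (n * r) = B ^ r := by rw [pow_mul, hXn]
  rw [hXr] at hnice
  have hA1 : (0 : ℝ) < 2 * (A + 1) := by positivity
  rw [div_mul_eq_mul_div, div_le_iff₀ hA1]
  have hnn : (0 : ℝ) ≤ (PT.ncard : ℝ) := Nat.cast_nonneg _
  nlinarith

end Pool.Agent.AAP
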