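import Mathlib
import Pool.Agent.LIM.Defs

set_option autoImplicit false

/-!
# Sets of integral points avoiding residue classes modulo many primes have density zero
-/

namespace Pool.Agent.AAP

open Pool.Agent.FAM (Cube)

namespace NullCA

/-- the number of elements of `[-H, H]` in a residue class -/
lemma card_class (H M : ℕ) (hM : 0 < M) (a : ℤ) :
    (((Finset.Icc (-(H : ℤ)) H).filter (fun t => t ≡ a [ZMOD M])).card : ℝ) ≤
      (2 * (H : ℝ) + 1) / M + 1 := by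
  have h1 : Finset.Icc (-(H : ℤ)) H = Finset.Ico (-(H : ℤ)) (H + 1) := by
    ext t
    simp only [Finset.mem_Icc, Finset.mem_Ico]
    omega
  rw [h1]
  have hM0 : (0 : ℤ) < M := by exact_mod_cast hM
  have h2 := Int.Ico_filter_modEq_card (-(H : ℤ)) (H + 1) hM0 a
  have hMq : (0 : ℚ) < (M : ℤ) := by exact_mod_cast hM
  have h3 : ((((Finset.Ico (-(H : ℤ)) (H + 1)).filter (fun t => t ≡ a [ZMOD M])).card : ℤ) : ℚ) ≤
      (2 * (H : ℚ) + 1) / M + 1 := by
    rw [h2]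
    push_cast
    apply max_le
    · have h4 := Int.ceil_lt_add_one (((H : ℚ) + 1 - a) / M)
      have h5 := Int.le_ceil ((-(H : ℚ) - a) / M)
      have h6 : ((H : ℚ) + 1 - a) / M - (-(H : ℚ) - a) / M = (2 * (H : ℚ) + 1) / M := by
        rw [← sub_div]
        congr 1
        ring
      linarith
    · have : (0 : ℚ) < M := by exact_mod_cast hM
      positivity
  have h4 : ((((((Finset.Ico (-(H : ℤ)) (H + 1)).filter
      (fun t => t ≡ a [ZMOD M])).card : ℤ) : ℚ)) : ℝ) ≤ (((2 * (H : ℚ) + 1) / M + 1 : ℚ) : ℝ) := by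
    exact_mod_cast h3
  push_cast at h4
  exact h4

lemma dvd_prod (Q : Finset ℕ) (hQ : ∀ p ∈ Q, p.Prime) (z : ℤ) (hz : ∀ p ∈ Q, (p : ℤ) ∣ z) :
    ((∏ p ∈ Q, p : ℕ) : ℤ) ∣ z := by
  rw [Nat.cast_prod]
  refine Finset.prod_dvd_of_coprime ?_ hz
  intro p hp q hq hpq
  show IsCoprime (p : ℤ) (q : ℤ)
  rw [Nat.isCoprime_iff_coprime]
  exact (Nat.coprime_primes (hQ p hp) (hQ q hq)).2 hpq

open Classical in
lemma count {r : ℕ} (H : ℕ) (Q : Finset ℕ) (hQ : ∀ p ∈ Q, p.Prime)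
    (R : ∀ p : ℕ, Set (Fin r → ZMod p)) (S : Set (Fin r → ℤ))
    (hS : ∀ s ∈ S, ∀ p ∈ Q, (fun i => (s i : ZMod p)) ∉ R p) :
    (((Cube r H : Set (Fin r → ℤ)) ∩ S).ncard : ℝ) ≤
      ((2 * (H : ℝ) + 1) / ((∏ p ∈ Q, p : ℕ) : ℝ) + 1) ^ r *
        ∏ p ∈ Q, ((p : ℝ) ^ r - (R p).ncard) := by
  have hne : ∀ p : Q, NeZero (p : ℕ) := fun p => ⟨(hQ p.1 p.2).ne_zero⟩
  obtain ⟨M, hM⟩ : ∃ M : ℕ, M = ∏ p ∈ Q, p := ⟨_, rfl⟩
  have hM0 : 0 < M := hM ▸ Finset.prod_pos fun p hp => (hQ p hp).pos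
  rw [← hM]
  obtain ⟨N, hN⟩ : ∃ N : ℝ, N = (2 * (H : ℝ) + 1) / M + 1 := ⟨_, rfl⟩
  have hN0 : 0 ≤ N := by rw [hN]; positivity
  rw [← hN]
  set A : Finset (Fin r → ℤ) := (Cube r H).filter (· ∈ S) with hA
  have hAc : ((Cube r H : Set (Fin r → ℤ)) ∩ S).ncard = A.card := by
    rw [← Set.ncard_coe_finset, hA]
    congr 1
    ext s
    simp [Finset.mem_filter]
  rw [hAc]
  let f : (Fin r → ℤ) → (∀ p : Q, Fin r → ZMod (p : ℕ)) := fun s p i => (s i : ZMod (p : ℕ))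
  have hfib : ∀ b ∈ A.image f, ((A.filter (fun s => f s = b)).card : ℝ) ≤ N ^ r := by
    intro b hb
    obtain ⟨s0, hs0, hb0⟩ := Finset.mem_image.1 hb
    have h1 : A.filter (fun s => f s = b) ⊆ Fintype.piFinset fun i : Fin r =>
        (Finset.Icc (-(H : ℤ)) H).filter (fun t => t ≡ s0 i [ZMOD M]) := by
      intro s hs
      obtain ⟨hs1, hs2⟩ := Finset.mem_filter.1 hs
      rw [Fintype.mem_piFinset]
      intro i
      rw [Finset.mem_filter]
      have h2 := (Finset.mem_filter.1 hs1).1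
      unfold Cube at h2
      rw [Fintype.mem_piFinset] at h2
      refine ⟨h2 i, ?_⟩
      rw [Int.modEq_iff_dvd, hM]
      refine dvd_prod Q hQ _ fun p hp => ?_
      have h3 := congrFun (congrFun (hs2.trans hb0.symm) ⟨p, hp⟩) i
      exact (ZMod.intCast_eq_intCast_iff_dvd_sub _ _ _).1 h3
    have h2 := Finset.card_le_card h1
    rw [Fintype.card_piFinset] at h2
    calc ((A.filter (fun s => f s = b)).card : ℝ)
        ≤ ((∏ i : Fin r, ((Finset.Icc (-(H : ℤ)) H).filter (fun t => t ≡ s0 i [ZMOD M])).card :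
          ℕ) : ℝ) := by exact_mod_cast h2
      _ = ∏ i : Fin r, (((Finset.Icc (-(H : ℤ)) H).filter
          (fun t => t ≡ s0 i [ZMOD M])).card : ℝ) := by push_cast; rfl
      _ ≤ ∏ _i : Fin r, N := Finset.prod_le_prod (fun _ _ => Nat.cast_nonneg _)
          fun i _ => by rw [hN]; exact card_class H M hM0 _
      _ = N ^ r := by rw [Finset.prod_const, Finset.card_univ, Fintype.card_fin]
  have himg : ((A.image f).card : ℝ) ≤ ∏ p ∈ Q, ((p : ℝ) ^ r - (R p).ncard) := by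
    have h1 : A.image f ⊆ Fintype.piFinset fun p : Q =>
        (Finset.univ.filter (fun x : Fin r → ZMod (p : ℕ) => x ∉ R p)) := by
      intro b hb
      obtain ⟨s, hs, rfl⟩ := Finset.mem_image.1 hb
      rw [Fintype.mem_piFinset]
      intro p
      rw [Finset.mem_filter]
      exact ⟨Finset.mem_univ _, hS s (Finset.mem_filter.1 hs).2 p.1 p.2⟩
    have h2 := Finset.card_le_card h1
    rw [Fintype.card_piFinset] at h2
    have h3 : ∀ p : Q, (((Finset.univ.filter (fun x : Fin r → ZMod (p : ℕ) => x ∉ R p)).card : ℕ) :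
        ℝ) = ((p : ℕ) : ℝ) ^ r - (R p).ncard := by
      intro p
      have h4 : (Finset.univ.filter (fun x : Fin r → ZMod (p : ℕ) => x ∈ R p)).card +
          (Finset.univ.filter (fun x : Fin r → ZMod (p : ℕ) => x ∉ R p)).card =
          Fintype.card (Fin r → ZMod (p : ℕ)) :=
        Finset.card_filter_add_card_filter_not (s := Finset.univ)
          (fun x : Fin r → ZMod (p : ℕ) => x ∈ R p)
      have h5 : (Finset.univ.filter (fun x : Fin r → ZMod (p : ℕ) => x ∈ R p)).card =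
          (R p).ncard := by
        rw [← Set.ncard_coe_finset]
        congr 1
        ext x
        simp
      rw [h5, Fintype.card_fun, ZMod.card, Fintype.card_fin] at h4
      have h6 : (((R p).ncard : ℕ) : ℝ) + (((Finset.univ.filter
          (fun x : Fin r → ZMod (p : ℕ) => x ∉ R p)).card : ℕ) : ℝ) = ((p : ℕ) : ℝ) ^ r := by
        exact_mod_cast h4
      linarith
    calc ((A.image f).card : ℝ) ≤ ((∏ p : Q, (Finset.univ.filter
          (fun x : Fin r → ZMod (p : ℕ) => x ∉ R p)).card : ℕ) : ℝ) := by exact_mod_cast h2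
      _ = ∏ p : Q, (((p : ℕ) : ℝ) ^ r - (R p).ncard) := by
        rw [Nat.cast_prod]
        exact Finset.prod_congr rfl fun p _ => h3 p
      _ = ∏ p ∈ Q, ((p : ℝ) ^ r - (R p).ncard) :=
        Finset.prod_coe_sort Q (fun p : ℕ => ((p : ℝ) ^ r - (R p).ncard))
  calc (A.card : ℝ) = ((∑ b ∈ A.image f, (A.filter (fun s => f s = b)).card : ℕ) : ℝ) := by
        rw [← Finset.card_eq_sum_card_image f A]
    _ = ∑ b ∈ A.image f, ((A.filter (fun s => f s = b)).card : ℝ) := by push_cast; rfl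
    _ ≤ ∑ _b ∈ A.image f, N ^ r := Finset.sum_le_sum hfib
    _ = (A.image f).card * N ^ r := by rw [Finset.sum_const, nsmul_eq_mul]
    _ ≤ (∏ p ∈ Q, ((p : ℝ) ^ r - (R p).ncard)) * N ^ r :=
        mul_le_mul_of_nonneg_right himg (pow_nonneg hN0 r)
    _ = _ := mul_comm _ _

lemma prod_bound {r : ℕ} (Q : Finset ℕ) (hQ : ∀ p ∈ Q, p.Prime) (c : ℝ)
    (R : ∀ p : ℕ, Set (Fin r → ZMod p)) (hR : ∀ p ∈ Q, c * (p : ℝ) ^ r ≤ p * (R p).ncard)
    (hR1 : ∀ p ∈ Q, ((R p).ncard : ℝ) ≤ (p : ℝ) ^ r) :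
    ∏ p ∈ Q, ((p : ℝ) ^ r - (R p).ncard) ≤
      ((∏ p ∈ Q, p : ℕ) : ℝ) ^ r * Real.exp (-(c * ∑ p ∈ Q, (1 : ℝ) / p)) := by
  have h1 : ∀ p ∈ Q, ((p : ℝ) ^ r - (R p).ncard) ≤ (p : ℝ) ^ r * Real.exp (-(c * ((1 : ℝ) / p))) := by
    intro p hp
    have hp0 : (0 : ℝ) < p := by exact_mod_cast (hQ p hp).pos
    have h2 : c / p * (p : ℝ) ^ r ≤ (R p).ncard := by
      rw [div_mul_eq_mul_div, div_le_iff₀ hp0, mul_comm ((R p).ncard : ℝ)]
      exact hR p hp
    have h3 : 1 - c / p ≤ Real.exp (-(c * ((1 : ℝ) / p))) := by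
      have := Real.add_one_le_exp (-(c * ((1 : ℝ) / p)))
      have h4 : c * ((1 : ℝ) / p) = c / p := by ring
      rw [h4] at this ⊢
      linarith
    calc ((p : ℝ) ^ r - (R p).ncard) ≤ (p : ℝ) ^ r - c / p * (p : ℝ) ^ r := by linarith
      _ = (p : ℝ) ^ r * (1 - c / p) := by ring
      _ ≤ _ := mul_le_mul_of_nonneg_left h3 (by positivity)
  calc ∏ p ∈ Q, ((p : ℝ) ^ r - (R p).ncard)
      ≤ ∏ p ∈ Q, ((p : ℝ) ^ r * Real.exp (-(c * ((1 : ℝ) / p)))) :=
        Finset.prod_le_prod (fun p hp => sub_nonneg.2 (hR1 p hp)) h1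
    _ = _ := by
        rw [Finset.prod_mul_distrib, Finset.prod_pow, ← Real.exp_sum, Nat.cast_prod,
          Finset.sum_neg_distrib, Finset.mul_sum]

end NullCA

open NullCA in
/-- A set of integral points which avoids, for every `p` in a set of primes with divergent sum of
`1 / p`, a proportion of about `c / p` of the residue classes modulo `p`, has density zero. -/
theorem null_cong {r : ℕ} (P : Set ℕ) (hP : ∀ p ∈ P, p.Prime)
    (hs : ¬ Summable (P.indicator fun p : ℕ => (1 : ℝ) / p)) (c : ℝ) (hc : 0 < c)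
    (R : ∀ p : ℕ, Set (Fin r → ZMod p)) (hR : ∀ p ∈ P, c * (p : ℝ) ^ r ≤ p * (R p).ncard)
    (S : Set (Fin r → ℤ)) (hS : ∀ s ∈ S, ∀ p ∈ P, (fun i => (s i : ZMod p)) ∉ R p) :
    LIM.Null S := by
  classical
  intro ε hε
  -- a finite set of primes with a large sum
  obtain ⟨B, hB⟩ : ∃ B : ℝ, (2 : ℝ) ^ r * Real.exp (-(c * B)) ≤ ε := by
    have h1 : Filter.Tendsto (fun B : ℝ => (2 : ℝ) ^ r * Real.exp (-(c * B))) Filter.atTop
        (nhds ((2 : ℝ) ^ r * 0)) := by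
      refine Filter.Tendsto.const_mul _ (Real.tendsto_exp_atBot.comp ?_)
      exact Filter.tendsto_neg_atTop_atBot.comp (Filter.tendsto_id.const_mul_atTop hc)
    rw [mul_zero] at h1
    exact ((h1.eventually (gt_mem_nhds hε)).exists).imp fun _ h => h.le
  obtain ⟨u, hu⟩ : ∃ u : Finset ℕ, B < ∑ p ∈ u, P.indicator (fun p : ℕ => (1 : ℝ) / p) p := by
    by_contra hcon
    push Not at hcon
    exact hs (summable_of_sum_le (fun p => Set.indicator_nonneg (fun _ _ => by positivity) p) hcon)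
  set Q : Finset ℕ := u.filter (· ∈ P) with hQdef
  have hQP : ∀ p ∈ Q, p ∈ P := fun p hp => (Finset.mem_filter.1 hp).2
  have hQ : ∀ p ∈ Q, p.Prime := fun p hp => hP p (hQP p hp)
  have hsum : B ≤ ∑ p ∈ Q, (1 : ℝ) / p := by
    rw [hQdef, Finset.sum_filter]
    refine hu.le.trans (le_of_eq (Finset.sum_congr rfl fun p _ => ?_))
    rw [Set.indicator_apply]
  obtain ⟨M, hM⟩ : ∃ M : ℕ, M = ∏ p ∈ Q, p := ⟨_, rfl⟩
  have hM0 : 0 < M := hM ▸ Finset.prod_pos fun p hp => (hQ p hp).pos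
  have hM0' : (0 : ℝ) < M := by exact_mod_cast hM0
  refine ⟨M, fun H hH => ?_⟩
  have hR1 : ∀ p ∈ Q, ((R p).ncard : ℝ) ≤ (p : ℝ) ^ r := by
    intro p hp
    have : NeZero p := ⟨(hQ p hp).ne_zero⟩
    have h1 : (R p).ncard ≤ Nat.card (Fin r → ZMod p) := by
      rw [← Set.ncard_univ]
      exact Set.ncard_le_ncard (Set.subset_univ _) (Set.toFinite _)
    rw [Nat.card_fun, Nat.card_fin, Nat.card_zmod] at h1
    exact_mod_cast h1
  have h1 := count H Q hQ R S fun s hs p hp => hS s hs p (hQP p hp)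
  have h2 := prod_bound Q hQ c R (fun p hp => hR p (hQP p hp)) hR1
  rw [← hM] at h1 h2
  have hHM : (M : ℝ) ≤ H := by exact_mod_cast hH
  have h3 : Real.exp (-(c * ∑ p ∈ Q, (1 : ℝ) / p)) ≤ Real.exp (-(c * B)) :=
    Real.exp_le_exp.2 (neg_le_neg (mul_le_mul_of_nonneg_left hsum hc.le))
  calc (((Cube r H : Set (Fin r → ℤ)) ∩ S).ncard : ℝ)
      ≤ ((2 * (H : ℝ) + 1) / M + 1) ^ r * ∏ p ∈ Q, ((p : ℝ) ^ r - (R p).ncard) := h1
    _ ≤ ((2 * (H : ℝ) + 1) / M + 1) ^ r * ((M : ℝ) ^ r *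
        Real.exp (-(c * ∑ p ∈ Q, (1 : ℝ) / p))) :=
        mul_le_mul_of_nonneg_left h2 (by positivity)
    _ = (2 * (H : ℝ) + 1 + M) ^ r * Real.exp (-(c * ∑ p ∈ Q, (1 : ℝ) / p)) := by
        rw [← mul_assoc, ← mul_pow]
        congr 2
        field_simp
    _ ≤ (2 * (2 * (H : ℝ) + 1)) ^ r * Real.exp (-(c * B)) := by
        refine mul_le_mul (pow_le_pow_left₀ (by positivity) (by linarith) r) h3
          (Real.exp_pos _).le (by positivity)
    _ = (2 ^ r * Real.exp (-(c * B))) * (2 * (H : ℝ) + 1) ^ r := by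
        rw [mul_pow]
        ring
    _ ≤ ε * (2 * (H : ℝ) + 1) ^ r := mul_le_mul_of_nonneg_right hB (by positivity)

end Pool.Agent.AAP
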