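import Mathlib
import Pool.Agent.AAP.Ex3
import Pool.Agent.LIM.NullS

set_option autoImplicit false

/-!
# A residue class of coefficients has positive density
-/

namespace Pool.Agent.AAP

open NumberField IsDedekindDomain
open scoped WithZero
open Pool.Agent.PNH (Tup app mp IsMor Cert)
open Pool.Agent.FAM (Cube)

namespace PosA

section Fm

variable {A : Type} [CommRing A] {d : ℕ}

/-- the exponent `(i, d - i)` -/
noncomputable def mi (d : ℕ) (i : Fin (d + 1)) : Fin 2 →₀ ℕ :=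
  Finsupp.single 0 (i : ℕ) + Finsupp.single 1 (d - (i : ℕ))

theorem mi_zero (i : Fin (d + 1)) : mi d i 0 = i := by
  unfold mi
  rw [Finsupp.add_apply, Finsupp.single_eq_same, Finsupp.single_eq_of_ne (by decide), add_zero]

theorem mi_one (i : Fin (d + 1)) : mi d i 1 = d - i := by
  unfold mi
  rw [Finsupp.add_apply, Finsupp.single_eq_same, Finsupp.single_eq_of_ne (by decide), zero_add]

theorem mi_eq (m : Fin 2 →₀ ℕ) (i : Fin (d + 1)) : mi d i = m ↔ m 0 = i ∧ m 1 = d - i := by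
  constructor
  · rintro rfl
    exact ⟨mi_zero i, mi_one i⟩
  · rintro ⟨h0, h1⟩
    ext j
    fin_cases j
    · exact (mi_zero i).trans h0.symm
    · exact (mi_one i).trans h1.symm

theorem fm_eq (a : Fin (d + 1) → A) : fm a = ∑ i, MvPolynomial.monomial (mi d i) (a i) := by
  unfold fm
  refine Finset.sum_congr rfl fun i _ => ?_
  rw [MvPolynomial.monomial_eq, Finsupp.prod_fintype _ _ fun i => pow_zero _, Fin.prod_univ_two,
    mi_zero, mi_one, mul_assoc]

theorem coeff_fm (a : Fin (d + 1) → A) (m : Fin 2 →₀ ℕ) :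
    (fm a).coeff m = ∑ i, if mi d i = m then a i else 0 := by
  classical
  rw [fm_eq, MvPolynomial.coeff_sum]
  refine Finset.sum_congr rfl fun i _ => ?_
  rw [MvPolynomial.coeff_monomial]

theorem fm_hom (a : Fin (d + 1) → A) : (fm a).IsHomogeneous d := by
  rw [fm_eq]
  refine MvPolynomial.IsHomogeneous.sum _ _ _ fun i _ => ?_
  refine MvPolynomial.isHomogeneous_monomial _ ?_
  rw [Finsupp.degree_eq_sum, Fin.sum_univ_two, mi_zero, mi_one]
  omega

theorem exists_fm {P : MvPolynomial (Fin 2) A} (hP : P.IsHomogeneous d) :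
    ∃ a : Fin (d + 1) → A, fm a = P := by
  classical
  refine ⟨fun i => P.coeff (mi d i), ?_⟩
  ext m
  rw [coeff_fm]
  by_cases hm : m 0 + m 1 = d
  · have h1 : mi d ⟨m 0, by omega⟩ = m := (mi_eq m _).2 ⟨rfl, by
      change m 1 = d - m 0
      omega⟩
    rw [Finset.sum_eq_single (⟨m 0, by omega⟩ : Fin (d + 1))]
    · rw [if_pos h1, h1]
    · intro i _ hi
      rw [if_neg]
      intro h2
      exact hi (Fin.ext ((mi_eq m i).1 h2).1.symm)
    · intro h
      exact absurd (Finset.mem_univ _) h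
  · rw [hP.coeff_eq_zero (by rwa [Finsupp.degree_eq_sum, Fin.sum_univ_two])]
    refine Finset.sum_eq_zero fun i _ => ?_
    rw [if_neg]
    intro h2
    have h3 := (mi_eq m i).1 h2
    have := i.2
    omega

theorem coeff_fm_sub (a b : Fin (d + 1) → A) (m : Fin 2 →₀ ℕ) :
    (fm a).coeff m - (fm b).coeff m = ∑ i, if mi d i = m then a i - b i else 0 := by
  rw [coeff_fm, coeff_fm, ← Finset.sum_sub_distrib]
  refine Finset.sum_congr rfl fun i _ => ?_
  split_ifs
  · rfl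
  · rw [sub_zero]

theorem exists_tp {E : Tup 1 A} (hE : ∀ i, (E i).IsHomogeneous d) :
    ∃ t : Fin (2 * (d + 1)) → A, tp t = E := by
  choose a ha using fun i => exists_fm (hE i)
  refine ⟨fun n => a (finProdFinEquiv.symm n).1 (finProdFinEquiv.symm n).2, ?_⟩
  funext i
  unfold tp
  rw [← ha i]
  congr 1
  funext j
  simp only [Equiv.symm_apply_apply]

theorem tp_mp {B : Type} [CommRing B] (f : A →+* B) (t : Fin (2 * (d + 1)) → A) :
    mp f (tp t) = tp fun n => f (t n) := by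
  funext i
  unfold mp tp
  rw [fm_eq, fm_eq, map_sum]
  refine Finset.sum_congr rfl fun j _ => ?_
  rw [MvPolynomial.map_monomial]

theorem tp_hom (t : Fin (2 * (d + 1)) → A) (i : Fin 2) : (tp t i).IsHomogeneous d := fm_hom _

end Fm

/-- a residue class modulo 3 in the cube -/
theorem card_class {R : ℕ} (s₀ : Fin R → ℤ) {H : ℕ} (hH : 4 ≤ H) :
    ((1 : ℝ) / 9) ^ R * (2 * (H : ℝ) + 1) ^ R ≤
      (((Cube R H).filter fun s => ∀ i, (3 : ℤ) ∣ s i - s₀ i).card : ℝ) := by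
  classical
  set h : ℕ := (H - 2) / 3 with hh
  have h1 : 3 * h + 2 ≤ H := by omega
  have h2 : H ≤ 3 * h + 4 := by omega
  have hsub : (Cube R h).image (fun t i => 3 * t i + s₀ i % 3) ⊆
      (Cube R H).filter fun s => ∀ i, (3 : ℤ) ∣ s i - s₀ i := by
    intro s hs
    rw [Finset.mem_image] at hs
    obtain ⟨t, ht, rfl⟩ := hs
    unfold Cube at ht ⊢
    rw [Finset.mem_filter, Fintype.mem_piFinset]
    rw [Fintype.mem_piFinset] at ht
    refine ⟨fun i => ?_, fun i => ?_⟩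
    · have h3 := Finset.mem_Icc.1 (ht i)
      rw [Finset.mem_Icc]
      have h4 := Int.emod_nonneg (s₀ i) (by norm_num : (3 : ℤ) ≠ 0)
      have h5 := Int.emod_lt_of_pos (s₀ i) (by norm_num : (0 : ℤ) < 3)
      constructor <;> omega
    · change (3 : ℤ) ∣ 3 * t i + s₀ i % 3 - s₀ i
      omega
  have hinj : Function.Injective (fun (t : Fin R → ℤ) i => 3 * t i + s₀ i % 3) := by
    intro t t' htt
    funext i
    have := congrFun htt i
    simp only at this
    omega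
  have h3 := Finset.card_le_card hsub
  rw [Finset.card_image_of_injective _ hinj, FAM.card_Cube] at h3
  have h4 : ((1 : ℝ) / 9) ^ R * (2 * (H : ℝ) + 1) ^ R ≤ ((2 * h + 1) ^ R : ℕ) := by
    rw [← mul_pow]
    push_cast
    refine pow_le_pow_left₀ (by positivity) ?_ R
    have h5 : (H : ℝ) ≤ 3 * h + 4 := by exact_mod_cast h2
    have h6 : (4 : ℝ) ≤ H := by exact_mod_cast hH
    linarith
  exact h4.trans (by exact_mod_cast h3)

/-- **a positive proportion of all tuples is congruent to the special one** -/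
theorem pos_of {K : Type} [Field K] [NumberField K] {d : ℕ} (hd : 2 ≤ d)
    (v : HeightOneSpectrum (𝓞 K)) (hv : Ideal.absNorm v.asIdeal = 3) {m R : ℕ}
    (ω : Module.Basis (Fin m) ℤ (𝓞 K)) (e : Fin R ≃ Fin (2 * (d + 1)) × Fin m)
    (P : Tup 1 K → Prop) [DecidablePred P] (hP : ∀ F : Tup 1 K, (∀ i, (F i).IsHomogeneous d) →
      (∀ i m, v.valuation K ((F i).coeff m - (ex3 K d i).coeff m) < 1) → P F) :
    ∃ c : ℝ, 0 < c ∧ ∃ H₀ : ℕ, ∀ H : ℕ, H₀ ≤ H → c * (2 * H + 1) ^ R ≤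
      (((Cube R H).filter fun s =>
        P (tp (d := d) fun i => ((vc ω e s i : 𝓞 K) : K))).card : ℝ) := by
  classical
  obtain ⟨t₀, ht₀⟩ := exists_tp (A := 𝓞 K) (Ex3A.ex3_hom (𝓞 K) hd)
  set s₀ : Fin R → ℤ := fun n => ω.repr (t₀ (e n).1) (e n).2 with hs₀
  have hvc : ∀ i, vc ω e s₀ i = t₀ i := by
    intro i
    unfold vc
    rw [hs₀]
    simp only [Equiv.apply_symm_apply]
    exact ω.sum_repr (t₀ i)
  have hex : ex3 K d = tp fun n => ((t₀ n : 𝓞 K) : K) := by
    rw [← Ex3A.ex3_mp (𝓞 K) (algebraMap (𝓞 K) K) d, ← ht₀, tp_mp]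
  refine ⟨((1 : ℝ) / 9) ^ R, by positivity, 4, fun H hH => (card_class s₀ hH).trans ?_⟩
  refine Nat.cast_le.2 (Finset.card_le_card fun s hs => ?_)
  rw [Finset.mem_filter] at hs ⊢
  refine ⟨hs.1, hP _ (tp_hom _) fun i mm => ?_⟩
  have hsmall : ∀ n, v.valuation K (((vc ω e s n : 𝓞 K) : K) - ((t₀ n : 𝓞 K) : K)) < 1 := by
    intro n
    have h1 : vc ω e s n - t₀ n ∈ v.asIdeal := by
      rw [← hvc n]
      unfold vc
      rw [← Finset.sum_sub_distrib]
      refine Ideal.sum_mem _ fun j _ => ?_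
      rw [← sub_smul]
      obtain ⟨q, hq⟩ := hs.2 (e.symm (n, j))
      rw [hq, mul_smul, zsmul_eq_mul, zsmul_eq_mul]
      refine Ideal.mul_mem_right _ _ ?_
      have h3 : ((3 : ℕ) : 𝓞 K) ∈ v.asIdeal := by
        rw [← hv]
        exact Ideal.absNorm_mem v.asIdeal
      exact_mod_cast h3
    have h2 : v.valuation K (algebraMap (𝓞 K) K (vc ω e s n - t₀ n)) < 1 :=
      (v.valuation_lt_one_iff_mem (K := K) _).2 h1
    rwa [map_sub] at h2
  rw [hex]
  unfold tp
  rw [coeff_fm_sub]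
  refine Valuation.map_sum_lt _ one_ne_zero fun j _ => ?_
  split_ifs
  · exact hsmall _
  · rw [map_zero]
    exact zero_lt_one

/-- good reduction implies that the tuple is a morphism -/
theorem good_mor {K : Type} [Field K] {v : Valuation K ℤᵐ⁰} {d : ℕ} {F : Tup 1 K}
    (hF : ∀ i, (F i).IsHomogeneous d) (hG : Good v F) : IsMor d K F := by
  refine ⟨hF, fun x hx => ?_⟩
  obtain ⟨-, e, he⟩ := hG
  have hc : Cert F 1 e := by
    intro j
    obtain ⟨G, -, hG⟩ := he j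
    exact ⟨G, by rw [hG, MvPolynomial.C_1, one_mul]⟩
  have hc' := PNH.Cert.mp (algebraMap K (AlgebraicClosure K)) hc
  refine PNH.Cert.eq_zero hc' ?_ x hx
  rw [map_one]
  exact one_ne_zero

open Classical in
/-- the positive proportion, from the density theorem -/
theorem pos_sa_of {K : Type} [Field K] [NumberField K] {d : ℕ} (hd : 2 ≤ d)
    (v : HeightOneSpectrum (𝓞 K)) (hv : Ideal.absNorm v.asIdeal = 3) {m R : ℕ}
    (ω : Module.Basis (Fin m) ℤ (𝓞 K)) (e : Fin R ≃ Fin (2 * (d + 1)) × Fin m)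
    (hden : ∀ F : Tup 1 K, IsMor d K F → Good (v.valuation K) F →
      v.valuation K ((3 : ℕ) : K) < 1 → ∀ Γ : Finset (Fin 2 → K), (∀ x ∈ Γ, x ≠ 0) →
      (∀ x ∈ Γ, ¬ PerMod (v.valuation K) F x ∨ (¬ Periodic F x ∧ ∃ N e, 0 < N ∧ 2 ≤ e ∧
        ¬ 3 ∣ e ∧ SAt (v.valuation K) F x N e)) → TameArb.PosDens (SP F Γ)) :
    ∃ c : ℝ, 0 < c ∧ ∃ H₀ : ℕ, ∀ H : ℕ, H₀ ≤ H → c * (2 * H + 1) ^ R ≤
      (((Cube R H).filter fun s =>
        IsMor d K (tp (d := d) fun i => ((vc ω e s i : 𝓞 K) : K)) ∧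
        ∀ Γ : Finset (Fin 2 → K),
          (∀ x ∈ Γ, x ≠ 0 ∧ ¬ Periodic (tp (d := d) fun i => ((vc ω e s i : 𝓞 K) : K)) x) →
          TameArb.PosDens (SP (tp (d := d) fun i => ((vc ω e s i : 𝓞 K) : K)) Γ)).card : ℝ) := by
  refine pos_of hd v hv ω e (fun F => IsMor d K F ∧ ∀ Γ : Finset (Fin 2 → K),
    (∀ x ∈ Γ, x ≠ 0 ∧ ¬ Periodic F x) → TameArb.PosDens (SP F Γ)) fun F hF hm => ?_
  obtain ⟨hG, h3, hx⟩ := ex3_sa hd hF v hv hm
  refine ⟨good_mor hF hG, fun Γ hΓ => hden F (good_mor hF hG) hG h3 Γ (fun x h => (hΓ x h).1)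
    fun x h => ?_⟩
  rcases hx x (hΓ x h).1 with h4 | ⟨N, hN, h4⟩
  · exact Or.inl h4
  · exact Or.inr ⟨(hΓ x h).2, N, 2, hN, le_rfl, by norm_num, h4⟩

end PosA

end Pool.Agent.AAP
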