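import Mathlib
import Pool.Agent.FAM.Defs
import Pool.Agent.HTK.Low

set_option autoImplicit false

/-!
# Upper bound for the number of points of bounded height
-/

namespace Pool.Agent.AAP

open NumberField IsDedekindDomain

theorem upp (K : Type) [Field K] [NumberField K] (r : ℕ) : ∃ C : ℝ, 0 < C ∧ ∀ B : ℝ, 1 ≤ B →
    ({P : Projectivization K (Fin r → K) | P.mulHeight ≤ B}.ncard : ℝ) ≤ C * B ^ r := by
  obtain ⟨C, hC, U, hU, hrep⟩ := HTK.exists_rep_pt K r
  have ω := Module.finBasis ℤ (𝓞 K)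
  obtain ⟨m, hm⟩ : ∃ m : ℕ, m = Module.finrank ℤ (𝓞 K) := ⟨_, rfl⟩
  rw [← hm] at ω
  obtain ⟨C₁, hC₁, hco⟩ := HTK.exists_rep K ω
  obtain ⟨n, hn⟩ : ∃ n : ℕ, n = Module.finrank ℚ K := ⟨_, rfl⟩
  have hn0 : n ≠ 0 := by rw [hn]; exact Module.finrank_pos.ne'
  have hmn : m = n := by rw [hm, hn, RingOfIntegers.rank K]
  rw [← hn] at hrep
  refine ⟨(2 * (C₁ * C) + 1) ^ (r * m), by positivity, fun B hB => ?_⟩
  obtain ⟨t, ht⟩ : ∃ t : ℝ, t = B ^ ((n : ℝ)⁻¹) := ⟨_, rfl⟩
  have ht1 : 1 ≤ t := by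
    rw [ht]
    exact Real.one_le_rpow hB (by positivity)
  have htn : t ^ n = B := by
    rw [ht]
    exact Real.rpow_inv_natCast_pow (by linarith) hn0
  obtain ⟨H, hH⟩ : ∃ H : ℕ, H = ⌊C₁ * (C * t)⌋₊ := ⟨_, rfl⟩
  have hHle : (H : ℝ) ≤ C₁ * (C * t) := by
    rw [hH]
    exact Nat.floor_le (by positivity)
  have key : {P : Projectivization K (Fin r → K) | P.mulHeight ≤ B}.ncard ≤
      (2 * H + 1) ^ (r * m) := by
    rw [← FAM.card_Cube (r * m) H, ← Set.ncard_coe_finset]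
    refine Set.ncard_le_ncard_of_injOn
      (fun P => fun l : Fin (r * m) => ω.repr (U P (finProdFinEquiv.symm l).1)
        (finProdFinEquiv.symm l).2) ?_ ?_ (Finset.finite_toSet _)
    · intro P hP
      rw [Finset.mem_coe, FAM.mem_Cube]
      intro l
      have h1 := (hrep P).2 B hP
      have h2 := hco _ (U P (finProdFinEquiv.symm l).1) (fun v => h1 _ v)
        (finProdFinEquiv.symm l).2
      rw [← ht] at h2
      rw [Int.abs_eq_natAbs, hH]
      have h3 : (ω.repr (U P (finProdFinEquiv.symm l).1) (finProdFinEquiv.symm l).2).natAbs ≤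
          ⌊C₁ * (C * t)⌋₊ := by
        refine Nat.le_floor ?_
        rw [Nat.cast_natAbs, Int.cast_abs]
        exact h2
      exact_mod_cast h3
    · intro P _ Q _ hPQ
      refine hU (funext fun i => ω.repr.injective (Finsupp.ext fun j => ?_))
      have h1 := congrFun hPQ (finProdFinEquiv (i, j))
      simpa using h1
  calc ({P : Projectivization K (Fin r → K) | P.mulHeight ≤ B}.ncard : ℝ) ≤
      ((2 * H + 1 : ℕ) : ℝ) ^ (r * m) := by exact_mod_cast key
    _ ≤ ((2 * (C₁ * C) + 1) * t) ^ (r * m) := by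
        refine pow_le_pow_left₀ (by positivity) ?_ _
        push_cast
        nlinarith
    _ = (2 * (C₁ * C) + 1) ^ (r * m) * B ^ r := by
        rw [mul_pow, mul_comm r m, pow_mul t, hmn, htn]

end Pool.Agent.AAP
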