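import Mathlib
import Pool.Agent.AAP.Pos
import Pool.Agent.AAP.Fin
import Pool.Agent.AAP.Lwc
import Pool.Agent.AAP.Upp
import Pool.Agent.AAP.ExQ
import Pool.Agent.NDE.Chv

set_option autoImplicit false

/-!
# A positive proportion of the maps, ordered by height
-/

namespace Pool.Agent.AAP

open NumberField IsDedekindDomain
open scoped WithZero
open Pool.Agent.PNH (Tup app mp IsMor Cert)
open Pool.Agent.TameArb (PosDens pt)
open Pool.Agent.HTK (sc)
open PosA FinA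

namespace PosHA

theorem hom_exq (A : Type) [CommRing A] {q e d : ℕ} (hq : 2 ≤ q) (hd : q + e ≤ d) (i : Fin 2) :
    (exq A q e d i).IsHomogeneous d := by
  have hp : ∀ (j : Fin 2) (n : ℕ), ((MvPolynomial.X j : MvPolynomial (Fin 2) A) ^ n).IsHomogeneous n := by
    intro j n
    have h3 := (MvPolynomial.isHomogeneous_X A j).pow n
    rwa [one_mul] at h3
  fin_cases i
  · have h1 := ((hp 0 e).mul (hp 1 (d - (e + q - 1)))).mul ((hp 0 (q - 1)).sub (hp 1 (q - 1)))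
    rwa [show e + (d - (e + q - 1)) + (q - 1) = d by omega] at h1
  · have h1 := (hp 0 (d - q + 1)).mul (hp 1 (q - 1))
    rw [show d - q + 1 + (q - 1) = d by omega] at h1
    exact ((hp 0 d).add (hp 1 d)).sub h1

theorem map_exq {A B : Type} [CommRing A] [CommRing B] (f : A →+* B) (q e d : ℕ) (i : Fin 2) :
    MvPolynomial.map f (exq A q e d i) = exq B q e d i := by
  unfold exq
  fin_cases i
  · simp
  · simp

variable {K : Type} [Field K] [NumberField K]

omit [NumberField K] in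
/-- good reduction implies that the tuple is a morphism -/
theorem good_mor {v : Valuation K ℤᵐ⁰} {d : ℕ} {F : Tup 1 K}
    (hF : ∀ i, (F i).IsHomogeneous d) (hG : Good v F) : IsMor d K F := by
  refine ⟨hF, fun x hx => ?_⟩
  obtain ⟨-, e, he⟩ := hG
  have hc : Cert F 1 e := by
    intro j
    obtain ⟨G, -, hG⟩ := he j
    exact ⟨G, by rw [hG, MvPolynomial.C_1, one_mul]⟩
  have hc' := PNH.Cert.mp (algebraMap K (AlgebraicClosure K)) hc
  refine PNH.Cert.eq_zero hc' ?_ x hx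
  rw [map_one]
  exact one_ne_zero

/-- the coefficient vector of a model -/
theorem model {d : ℕ} {E : Tup 1 (𝓞 K)} (hE : ∀ i, (E i).IsHomogeneous d)
    (v : HeightOneSpectrum (𝓞 K)) (t : Fin (2 * (d + 1)) → K)
    (h : ∀ i j, v.valuation K (t (finProdFinEquiv (i, j)) - ((E i).coeff (ex d j) : 𝓞 K)) < 1)
    (i : Fin 2) (m : Fin 2 →₀ ℕ) :
    v.valuation K ((tp (d := d) t i).coeff m - ((mp (algebraMap (𝓞 K) K) E) i).coeff m) < 1 := by
  have h6 : (mp (algebraMap (𝓞 K) K) E) i =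
      fm fun j => algebraMap (𝓞 K) K ((E i).coeff (ex d j)) := by
    have h7 := eq_fm ((hE i).map (algebraMap (𝓞 K) K))
    simp only [MvPolynomial.coeff_map] at h7
    exact h7
  rw [h6]
  exact fm_sub (fun j => h i j) m

/-- maps congruent to a good model -/
theorem exists_model {d : ℕ} (hd : 2 ≤ d) (v : HeightOneSpectrum (𝓞 K))
    (hv : Ideal.absNorm v.asIdeal = 3 ∨ Ideal.absNorm v.asIdeal + 3 ≤ d) :
    ∃ a : Fin (2 * (d + 1)) → 𝓞 K, ∀ t : Fin (2 * (d + 1)) → 𝓞 K,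
      (∀ l, t l - a l ∈ v.asIdeal) → IsMor d K (tp (d := d) fun i => (t i : K)) ∧
      ∀ Γ : Finset (Fin 2 → K),
        (∀ x ∈ Γ, x ≠ 0 ∧ ¬ Periodic (tp (d := d) fun i => (t i : K)) x) →
        PosDens (SP (tp (d := d) fun i => (t i : K)) Γ) := by
  -- from the tuple to the coefficients
  have key : ∀ E : Tup 1 (𝓞 K), (∀ i, (E i).IsHomogeneous d) → ∀ t : Fin (2 * (d + 1)) → 𝓞 K,
      (∀ l, t l - (E (finProdFinEquiv.symm l).1).coeff (ex d (finProdFinEquiv.symm l).2) ∈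
        v.asIdeal) → ∀ i m, v.valuation K ((tp (d := d) (fun i => (t i : K)) i).coeff m -
          ((mp (algebraMap (𝓞 K) K) E) i).coeff m) < 1 := by
    intro E hE t ht
    refine model hE v _ fun i j => ?_
    have h8 := ht (finProdFinEquiv (i, j))
    rw [Equiv.symm_apply_apply] at h8
    have h9 : v.valuation K (algebraMap (𝓞 K) K
        (t (finProdFinEquiv (i, j)) - (E i).coeff (ex d j))) < 1 :=
      (v.valuation_lt_one_iff_mem (K := K) _).mpr h8
    rw [map_sub] at h9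
    exact h9
  rcases hv with hv | hv
  · refine ⟨fun l => (ex3 (𝓞 K) d (finProdFinEquiv.symm l).1).coeff
      (ex d (finProdFinEquiv.symm l).2), fun t ht => ?_⟩
    have hm := key _ (hom_ex3 (𝓞 K) hd) t ht
    have hmp : mp (algebraMap (𝓞 K) K) (ex3 (𝓞 K) d) = ex3 K d :=
      funext fun i => map_ex3 _ d i
    rw [hmp] at hm
    obtain ⟨hG, h3v, hall⟩ := ex3_sa hd (hom_tp _) v hv hm
    have hmor := good_mor (hom_tp (fun i => (t i : K))) hG
    refine ⟨hmor, fun Γ hΓ => ?_⟩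
    refine dens_sa hd hmor v hG Nat.prime_three h3v Γ (fun x hx => (hΓ x hx).1) fun x hx => ?_
    rcases hall x (hΓ x hx).1 with h6 | ⟨N, hN, hS⟩
    · exact Or.inl h6
    · exact Or.inr ⟨(hΓ x hx).2, N, 2, hN, le_rfl, by omega, hS⟩
  · set q := Ideal.absNorm v.asIdeal with hq
    have hq2 : 2 ≤ q := HeightOneSpectrum.one_lt_absNorm v
    obtain ⟨p, hp, hpv⟩ : ∃ p : ℕ, p.Prime ∧ v.valuation K (p : K) < 1 := by
      refine ⟨NDE.ChvA.pv v, NDE.ChvA.pv_prime v, ?_⟩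
      have h1 : v.valuation K (algebraMap (𝓞 K) K ((NDE.ChvA.pv v : ℕ) : 𝓞 K)) < 1 :=
        (v.valuation_lt_one_iff_mem (K := K) _).2 (NDE.ChvA.pv_mem v)
      rwa [map_natCast] at h1
    obtain ⟨e, he2, he3, hpe⟩ : ∃ e : ℕ, 2 ≤ e ∧ e ≤ 3 ∧ ¬ p ∣ e := by
      by_cases h2 : p ∣ 2
      · refine ⟨3, by omega, le_rfl, fun h3 => ?_⟩
        have h1 : p ∣ 3 - 2 := Nat.dvd_sub h3 h2
        exact hp.one_lt.ne' (Nat.dvd_one.1 h1)
      · exact ⟨2, le_rfl, by omega, h2⟩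
    refine ⟨fun l => (exq (𝓞 K) q e d (finProdFinEquiv.symm l).1).coeff
      (ex d (finProdFinEquiv.symm l).2), fun t ht => ?_⟩
    have hm := key _ (hom_exq (𝓞 K) hq2 (by omega)) t ht
    have hmp : mp (algebraMap (𝓞 K) K) (exq (𝓞 K) q e d) = exq K q e d :=
      funext fun i => map_exq _ q e d i
    rw [hmp] at hm
    obtain ⟨hG, hall⟩ := exq_sa (hom_tp _) v he2 (by omega) hm
    have hmor := good_mor (hom_tp (fun i => (t i : K))) hG
    refine ⟨hmor, fun Γ hΓ => ?_⟩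
    refine dens_sa hd hmor v hG hp hpv Γ (fun x hx => (hΓ x hx).1) fun x hx => ?_
    rcases hall x (hΓ x hx).1 with h6 | hS
    · exact Or.inl h6
    · exact Or.inr ⟨(hΓ x hx).2, 1, e, one_pos, he2, hpe, hS⟩

omit [NumberField K] in
theorem periodic_sc {d : ℕ} {F : Tup 1 K} (hF : ∀ i, (F i).IsHomogeneous d) {c : K} (hc : c ≠ 0)
    {x : Fin 2 → K} (h : Periodic (sc c F) x) : Periodic F x := by
  obtain ⟨n, hn, h1⟩ := h
  obtain ⟨a, ha, h2⟩ := HTK.iter_sc F hF c hc n x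
  rw [h2, wd_smul_left] at h1
  exact ⟨n, hn, (mul_eq_zero.1 h1).resolve_left ha⟩

end PosHA

open PosHA

theorem pos_height {K : Type} [Field K] [NumberField K] {d : ℕ} (hd : 2 ≤ d)
    (v : HeightOneSpectrum (𝓞 K))
    (hv : Ideal.absNorm v.asIdeal = 3 ∨ Ideal.absNorm v.asIdeal + 3 ≤ d) :
    ∃ c : ℝ, 0 < c ∧ ∃ B₀ : ℝ, ∀ B : ℝ, B₀ ≤ B →
      c * ({T : Projectivization K (Fin (2 * (d + 1)) → K) | T.mulHeight ≤ B}.ncard : ℝ) ≤
        ({T : Projectivization K (Fin (2 * (d + 1)) → K) | T.mulHeight ≤ B ∧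
          IsMor d K (tp (d := d) T.rep) ∧ ∀ Γ : Finset (Fin 2 → K),
            (∀ x ∈ Γ, x ≠ 0 ∧ ¬ Periodic (tp (d := d) T.rep) x) →
            PosDens (SP (tp (d := d) T.rep) Γ)}.ncard : ℝ) := by
  obtain ⟨a, ha⟩ := exists_model (K := K) hd v hv
  obtain ⟨c, B₁, hc, h1⟩ := low_class K (2 * (d + 1)) (by omega) v a
  obtain ⟨C, hC, h2⟩ := upp K (2 * (d + 1))
  refine ⟨c / C, by positivity, max B₁ 1, fun B hB => ?_⟩
  have h3 := h1 B ((le_max_left _ _).trans hB)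
  have h4 := h2 B ((le_max_right _ _).trans hB)
  have h5 := Set.ncard_le_ncard (s := {P : Projectivization K (Fin (2 * (d + 1)) → K) |
      P.mulHeight ≤ B ∧ ∃ (b : K) (u : Fin (2 * (d + 1)) → 𝓞 K), b ≠ 0 ∧
        (b • P.rep = fun i => (u i : K)) ∧ ∀ i, u i - a i ∈ v.asIdeal})
    (t := {T : Projectivization K (Fin (2 * (d + 1)) → K) | T.mulHeight ≤ B ∧
          IsMor d K (tp (d := d) T.rep) ∧ ∀ Γ : Finset (Fin 2 → K),
            (∀ x ∈ Γ, x ≠ 0 ∧ ¬ Periodic (tp (d := d) T.rep) x) →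
            PosDens (SP (tp (d := d) T.rep) Γ)}) ?_
    ((HTK.pts_finite K (2 * (d + 1)) B).subset fun T hT => hT.1)
  · calc c / C * ({T : Projectivization K (Fin (2 * (d + 1)) → K) | T.mulHeight ≤ B}.ncard : ℝ)
        ≤ c / C * (C * B ^ (2 * (d + 1))) := mul_le_mul_of_nonneg_left h4 (by positivity)
      _ = c * B ^ (2 * (d + 1)) := by field_simp
      _ ≤ _ := h3.trans (by exact_mod_cast h5)
  · rintro P ⟨hP, b, u, hb, hbu, hu⟩
    obtain ⟨h6, h7⟩ := ha u hu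
    rw [← hbu, tp_smul] at h6 h7
    have h8 : sc b⁻¹ (sc b (tp (d := d) P.rep)) = tp P.rep := by
      rw [HTK.sc_sc, inv_mul_cancel₀ hb, HTK.sc_one]
    refine ⟨hP, ?_, fun Γ hΓ => ?_⟩
    · have h9 := HTK.isMor_sc _ b⁻¹ (inv_ne_zero hb) h6
      rwa [h8] at h9
    · have h9 := h7 Γ fun x hx => ⟨(hΓ x hx).1, fun h =>
        (hΓ x hx).2 (periodic_sc (hom_tp _) hb h)⟩
      have h10 := sp_sc h6.1 (inv_ne_zero hb) Γ h9
      rwa [h8] at h10

end Pool.Agent.AAP
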