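import Pool.Agent.AAP.Red
import Pool.Agent.AAP.FixP

set_option autoImplicit false

/-!
# A fixed point of a rational map and another preimage of it
-/

namespace Pool.Agent.AAP

open NumberField
open Pool.Agent.PNH (Tup app mp IsMor Par)

theorem par_iff_wd {A : Type} [CommRing A] {x y : Fin (1 + 1) → A} : Par x y ↔ wd x y = 0 := by
  rw [FixPAux.par_iff, wd, sub_eq_zero]

theorem exists_pair {Ω : Type} [Field Ω] [IsAlgClosed Ω] [CharZero Ω] {d : ℕ} (hd : 2 ≤ d)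
    (F : Tup 1 Ω) (hF : ∀ i, (F i).IsHomogeneous d) (h0 : ∀ x, app F x = 0 → x = 0) :
    ∃ ζ δ : Fin 2 → Ω, ζ ≠ 0 ∧ δ ≠ 0 ∧ wd (app F ζ) ζ = 0 ∧ wd (app F δ) ζ = 0 ∧
      wd δ ζ ≠ 0 := by
  obtain ⟨z, y, hz, hy, h1, h2, h3⟩ := FixPAux.exists_closed hd F hF h0
  refine ⟨z, y, hz, hy, par_iff_wd.1 h2, par_iff_wd.1 h3, fun h => h1 (par_iff_wd.2 ?_)⟩
  rw [wd_swap, h, neg_zero]

theorem exists_ext (K : Type) [Field K] [NumberField K] {d : ℕ} (hd : 2 ≤ d) {F : Tup 1 K}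
    (hF : IsMor d K F) :
    ∃ (L : Type) (_ : Field L) (_ : NumberField L) (_ : Algebra K L) (ζ δ : Fin 2 → L),
      ζ ≠ 0 ∧ δ ≠ 0 ∧ wd (app (mp (algebraMap K L) F) ζ) ζ = 0 ∧
      wd (app (mp (algebraMap K L) F) δ) ζ = 0 ∧ wd δ ζ ≠ 0 := by
  obtain ⟨L, i1, i2, i3, z, y, hz, hy, h1, h2, h3⟩ := exists_fixp K hd F hF
  refine ⟨L, i1, i2, i3, z, y, hz, hy, par_iff_wd.1 h2, par_iff_wd.1 h3,
    fun h => h1 (par_iff_wd.2 ?_)⟩
  rw [wd_swap, h, neg_zero]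

end Pool.Agent.AAP
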